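import Pool.Agent.MP_c42954_lc.Scan.Runs

set_option autoImplicit false

/-!
# Renaming and reflecting the keys
-/

namespace Pool.Agent.MP_c42954_lc.Scan

open BinaryTree

/-- Renaming the keys. -/
def mapT (f : ℕ → ℕ) : BinaryTree ℕ → BinaryTree ℕ
  | .nil => .nil
  | .node a l r => .node (f a) (mapT f l) (mapT f r)

/-- Reflecting the tree and renaming the keys. -/
def mirT (f : ℕ → ℕ) : BinaryTree ℕ → BinaryTree ℕ
  | .nil => .nil
  | .node a l r => .node (f a) (mirT f r) (mirT f l)

theorem mapT_inorder (f : ℕ → ℕ) : ∀ t, inorder (mapT f t) = (inorder t).map f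
  | .nil => rfl
  | .node a l r => by simp [mapT, inorder, mapT_inorder f l, mapT_inorder f r]

theorem mirT_inorder (f : ℕ → ℕ) : ∀ t, inorder (mirT f t) = ((inorder t).map f).reverse
  | .nil => rfl
  | .node a l r => by simp [mirT, inorder, mirT_inorder f l, mirT_inorder f r]

/-- `f` compares `x` with the keys of the tree as the identity does. -/
def Mono (f : ℕ → ℕ) (x : ℕ) (K : List ℕ) : Prop :=
  ∀ a ∈ K, (x < a → f x < f a) ∧ (a < x → f a < f x)

/-- `f` reverses the comparisons of `x` with the keys of the tree. -/
def Anti (f : ℕ → ℕ) (x : ℕ) (K : List ℕ) : Prop :=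
  ∀ a ∈ K, (x < a → f a < f x) ∧ (a < x → f x < f a)

theorem Mono.iff {f : ℕ → ℕ} {x a : ℕ} {K : List ℕ} (h : Mono f x K) (ha : a ∈ K) :
    (f x = f a ↔ x = a) ∧ (f x < f a ↔ x < a) ∧ (f a < f x ↔ a < x) := by
  obtain ⟨h1, h2⟩ := h a ha
  rcases Nat.lt_trichotomy x a with h3 | h3 | h3
  · have := h1 h3
    omega
  · subst h3; simp
  · have := h2 h3
    omega

theorem Anti.iff {f : ℕ → ℕ} {x a : ℕ} {K : List ℕ} (h : Anti f x K) (ha : a ∈ K) :
    (f x = f a ↔ x = a) ∧ (f x < f a ↔ a < x) ∧ (f a < f x ↔ x < a) := by
  obtain ⟨h1, h2⟩ := h a ha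
  rcases Nat.lt_trichotomy x a with h3 | h3 | h3
  · have := h1 h3
    omega
  · subst h3; simp
  · have := h2 h3
    omega

theorem Mono.left {f : ℕ → ℕ} {x a : ℕ} {l r : BinaryTree ℕ}
    (h : Mono f x (inorder (.node a l r))) : Mono f x (inorder l) :=
  fun b hb => h b (by simp [inorder, hb])

theorem Mono.right {f : ℕ → ℕ} {x a : ℕ} {l r : BinaryTree ℕ}
    (h : Mono f x (inorder (.node a l r))) : Mono f x (inorder r) :=
  fun b hb => h b (by simp [inorder, hb])

theorem Anti.left {f : ℕ → ℕ} {x a : ℕ} {l r : BinaryTree ℕ}
    (h : Anti f x (inorder (.node a l r))) : Anti f x (inorder l) :=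
  fun b hb => h b (by simp [inorder, hb])

theorem Anti.right {f : ℕ → ℕ} {x a : ℕ} {l r : BinaryTree ℕ}
    (h : Anti f x (inorder (.node a l r))) : Anti f x (inorder r) :=
  fun b hb => h b (by simp [inorder, hb])

theorem mapT_depth {f : ℕ → ℕ} {x : ℕ} : ∀ {t : BinaryTree ℕ}, Mono f x (inorder t) →
    depth (f x) (mapT f t) = depth x t
  | .nil, _ => rfl
  | .node a l r, h => by
      have ha := h.iff (show a ∈ inorder (.node a l r) by simp [inorder])
      simp only [mapT, depth, ha.1, ha.2.1, mapT_depth h.left, mapT_depth h.right]

theorem mirT_depth {f : ℕ → ℕ} {x : ℕ} : ∀ {t : BinaryTree ℕ}, Anti f x (inorder t) →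
    depth (f x) (mirT f t) = depth x t
  | .nil, _ => rfl
  | .node a l r, h => by
      have ha := h.iff (show a ∈ inorder (.node a l r) by simp [inorder])
      simp only [mirT, depth, ha.1, ha.2.1, mirT_depth h.left, mirT_depth h.right]
      split_ifs <;> omega

/-! ## The splaying step in the various positions -/

section

variable {x a b : ℕ} {l r u v p q : BinaryTree ℕ}

theorem st_l (h : x < a) : splayStep x (.node a (.node x u v) r) = .node x u (.node a v r) := by
  have e1 : x ≠ a := by omega
  rw [splayStep.eq_def]; simp [e1, h]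

theorem st_r (h : a < x) : splayStep x (.node a l (.node x u v)) = .node x (.node a l u) v := by
  have e1 : x ≠ a := by omega
  have e2 : ¬ x < a := by omega
  rw [splayStep.eq_def]; simp [e1, e2]

theorem st_ll (h1 : x < a) (h2 : x < b) :
    splayStep x (.node a (.node b (.node x p q) v) r) = .node x p (.node b q (.node a v r)) := by
  have e1 : x ≠ a := by omega
  have e2 : x ≠ b := by omega
  rw [splayStep.eq_def]; simp [e1, e2, h1, h2]

theorem st_lr (h1 : x < a) (h2 : b < x) :
    splayStep x (.node a (.node b u (.node x p q)) r) = .node x (.node b u p) (.node a q r) := by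
  have e1 : x ≠ a := by omega
  have e2 : x ≠ b := by omega
  have e3 : ¬ x < b := by omega
  rw [splayStep.eq_def]; simp [e1, e2, e3, h1]

theorem st_rl (h1 : a < x) (h2 : x < b) :
    splayStep x (.node a l (.node b (.node x p q) v)) = .node x (.node a l p) (.node b q v) := by
  have e1 : x ≠ a := by omega
  have e2 : x ≠ b := by omega
  have e3 : ¬ b < x := by omega
  have e4 : ¬ x < a := by omega
  rw [splayStep.eq_def]; simp [e1, e2, e3, e4]

theorem st_rr (h1 : a < x) (h2 : b < x) :
    splayStep x (.node a l (.node b u (.node x p q))) = .node x (.node b (.node a l u) p) q := by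
  have e1 : x ≠ a := by omega
  have e2 : x ≠ b := by omega
  have e4 : ¬ x < a := by omega
  rw [splayStep.eq_def]; simp [e1, e2, h2, e4]

end

theorem at_mem {x : ℕ} : ∀ {d : ℕ} {t : BinaryTree ℕ}, At x d t → x ∈ inorder t
  | 0, .nil, h => by simp [At] at h
  | d + 1, .nil, h => by simp [At] at h
  | 0, .node a l r, h => by
      simp only [At] at h
      simp [inorder, h]
  | d + 1, .node a l r, h => by
      rcases h with ⟨_, h⟩ | ⟨_, h⟩
      · simp [inorder, at_mem h]
      · simp [inorder, at_mem h]

theorem mapT_at {f : ℕ → ℕ} {x : ℕ} : ∀ {d : ℕ} {t : BinaryTree ℕ}, At x d t →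
    Mono f x (inorder t) → At (f x) d (mapT f t)
  | 0, .nil, h, _ => by simp [At] at h
  | d + 1, .nil, h, _ => by simp [At] at h
  | 0, .node a l r, h, _ => by
      simp only [At] at h
      simp [mapT, At, h]
  | d + 1, .node a l r, h, hf => by
      have ha := hf a (by simp [inorder])
      rcases h with ⟨h1, h2⟩ | ⟨h1, h2⟩
      · exact Or.inl ⟨ha.1 h1, mapT_at h2 hf.left⟩
      · exact Or.inr ⟨ha.2 h1, mapT_at h2 hf.right⟩

theorem mirT_at {f : ℕ → ℕ} {x : ℕ} : ∀ {d : ℕ} {t : BinaryTree ℕ}, At x d t →
    Anti f x (inorder t) → At (f x) d (mirT f t)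
  | 0, .nil, h, _ => by simp [At] at h
  | d + 1, .nil, h, _ => by simp [At] at h
  | 0, .node a l r, h, _ => by
      simp only [At] at h
      simp [mirT, At, h]
  | d + 1, .node a l r, h, hf => by
      have ha := hf a (by simp [inorder])
      rcases h with ⟨h1, h2⟩ | ⟨h1, h2⟩
      · exact Or.inr ⟨ha.1 h1, mirT_at h2 hf.left⟩
      · exact Or.inl ⟨ha.2 h1, mirT_at h2 hf.right⟩

theorem mapT_step {f : ℕ → ℕ} {x : ℕ} : ∀ {d : ℕ} {t : BinaryTree ℕ}, At x d t →
    Mono f x (inorder t) → splayStep (f x) (mapT f t) = mapT f (splayStep x t)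
  | 0, t, h, hf => by
      rw [step_root h, step_root (mapT_at h hf)]
  | d + 1, .nil, h, _ => by simp [At] at h
  | 1, .node a l r, h, hf => by
      have ha := hf a (by simp [inorder])
      rcases h with ⟨h1, h2⟩ | ⟨h1, h2⟩
      · cases l with
        | nil => simp [At] at h2
        | node b u v =>
          simp only [At] at h2
          subst h2
          simp only [mapT]
          rw [st_l h1, st_l (ha.1 h1)]
          simp only [mapT]
      · cases r with
        | nil => simp [At] at h2
        | node b u v =>
          simp only [At] at h2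
          subst h2
          simp only [mapT]
          rw [st_r h1, st_r (ha.2 h1)]
          simp only [mapT]
  | 2, .node a l r, h, hf => by
      have ha := hf a (by simp [inorder])
      rcases h with ⟨h1, h2⟩ | ⟨h1, h2⟩
      · cases l with
        | nil => simp [At] at h2
        | node b u v =>
          have hb := hf b (by simp [inorder])
          rcases h2 with ⟨h3, h4⟩ | ⟨h3, h4⟩
          · cases u with
            | nil => simp [At] at h4
            | node w p q =>
              simp only [At] at h4
              subst h4
              simp only [mapT]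
              rw [st_ll h1 h3, st_ll (ha.1 h1) (hb.1 h3)]
              simp only [mapT]
          · cases v with
            | nil => simp [At] at h4
            | node w p q =>
              simp only [At] at h4
              subst h4
              simp only [mapT]
              rw [st_lr h1 h3, st_lr (ha.1 h1) (hb.2 h3)]
              simp only [mapT]
      · cases r with
        | nil => simp [At] at h2
        | node b u v =>
          have hb := hf b (by simp [inorder])
          rcases h2 with ⟨h3, h4⟩ | ⟨h3, h4⟩
          · cases u with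
            | nil => simp [At] at h4
            | node w p q =>
              simp only [At] at h4
              subst h4
              simp only [mapT]
              rw [st_rl h1 h3, st_rl (ha.2 h1) (hb.1 h3)]
              simp only [mapT]
          · cases v with
            | nil => simp [At] at h4
            | node w p q =>
              simp only [At] at h4
              subst h4
              simp only [mapT]
              rw [st_rr h1 h3, st_rr (ha.2 h1) (hb.2 h3)]
              simp only [mapT]
  | d + 3, .node a l r, h, hf => by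
      have ha := hf a (by simp [inorder])
      rcases h with ⟨h1, h2⟩ | ⟨h1, h2⟩
      · rw [step_left h1 h2]
        simp only [mapT]
        rw [step_left (ha.1 h1) (mapT_at h2 hf.left), mapT_step h2 hf.left]
      · rw [step_right h1 h2]
        simp only [mapT]
        rw [step_right (ha.2 h1) (mapT_at h2 hf.right), mapT_step h2 hf.right]

theorem mirT_step {f : ℕ → ℕ} {x : ℕ} : ∀ {d : ℕ} {t : BinaryTree ℕ}, At x d t →
    Anti f x (inorder t) → splayStep (f x) (mirT f t) = mirT f (splayStep x t)
  | 0, t, h, hf => by
      rw [step_root h, step_root (mirT_at h hf)]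
  | d + 1, .nil, h, _ => by simp [At] at h
  | 1, .node a l r, h, hf => by
      have ha := hf a (by simp [inorder])
      rcases h with ⟨h1, h2⟩ | ⟨h1, h2⟩
      · cases l with
        | nil => simp [At] at h2
        | node b u v =>
          simp only [At] at h2
          subst h2
          simp only [mirT]
          rw [st_l h1, st_r (ha.1 h1)]
          simp only [mirT]
      · cases r with
        | nil => simp [At] at h2
        | node b u v =>
          simp only [At] at h2
          subst h2
          simp only [mirT]
          rw [st_r h1, st_l (ha.2 h1)]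
          simp only [mirT]
  | 2, .node a l r, h, hf => by
      have ha := hf a (by simp [inorder])
      rcases h with ⟨h1, h2⟩ | ⟨h1, h2⟩
      · cases l with
        | nil => simp [At] at h2
        | node b u v =>
          have hb := hf b (by simp [inorder])
          rcases h2 with ⟨h3, h4⟩ | ⟨h3, h4⟩
          · cases u with
            | nil => simp [At] at h4
            | node w p q =>
              simp only [At] at h4
              subst h4
              simp only [mirT]
              rw [st_ll h1 h3, st_rr (ha.1 h1) (hb.1 h3)]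
              simp only [mirT]
          · cases v with
            | nil => simp [At] at h4
            | node w p q =>
              simp only [At] at h4
              subst h4
              simp only [mirT]
              rw [st_lr h1 h3, st_rl (ha.1 h1) (hb.2 h3)]
              simp only [mirT]
      · cases r with
        | nil => simp [At] at h2
        | node b u v =>
          have hb := hf b (by simp [inorder])
          rcases h2 with ⟨h3, h4⟩ | ⟨h3, h4⟩
          · cases u with
            | nil => simp [At] at h4
            | node w p q =>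
              simp only [At] at h4
              subst h4
              simp only [mirT]
              rw [st_rl h1 h3, st_lr (ha.2 h1) (hb.1 h3)]
              simp only [mirT]
          · cases v with
            | nil => simp [At] at h4
            | node w p q =>
              simp only [At] at h4
              subst h4
              simp only [mirT]
              rw [st_rr h1 h3, st_ll (ha.2 h1) (hb.2 h3)]
              simp only [mirT]
  | d + 3, .node a l r, h, hf => by
      have ha := hf a (by simp [inorder])
      rcases h with ⟨h1, h2⟩ | ⟨h1, h2⟩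
      · rw [step_left h1 h2]
        simp only [mirT]
        rw [step_right (ha.1 h1) (mirT_at h2 hf.left), mirT_step h2 hf.left]
      · rw [step_right h1 h2]
        simp only [mirT]
        rw [step_left (ha.2 h1) (mirT_at h2 hf.right), mirT_step h2 hf.right]

theorem step_at {x : ℕ} {d : ℕ} {t : BinaryTree ℕ} (h : At x d t) :
    (∃ d', At x d' (splayStep x t)) ∧ inorder (splayStep x t) = inorder t := by
  match d, h with
  | 0, h => rw [step_root h]; exact ⟨⟨0, h⟩, rfl⟩
  | 1, h =>
    obtain ⟨y, h1, h2⟩ := zig_of_at h
    exact ⟨⟨0, h2⟩, zig_inorder h1⟩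
  | d + 2, h =>
    obtain ⟨p, g, h1, h2⟩ := dbl_of_at h
    exact ⟨⟨d, h2⟩, dbl_inorder h1⟩

theorem mapT_iter {f : ℕ → ℕ} {x : ℕ} : ∀ (n : ℕ) {d : ℕ} {t : BinaryTree ℕ}, At x d t →
    Mono f x (inorder t) → (splayStep (f x))^[n] (mapT f t) = mapT f ((splayStep x)^[n] t)
  | 0, _, _, _, _ => rfl
  | n + 1, d, t, h, hf => by
      obtain ⟨⟨d', h1⟩, h2⟩ := step_at h
      rw [Function.iterate_succ_apply, Function.iterate_succ_apply, mapT_step h hf,
        mapT_iter n h1 (by rw [h2]; exact hf)]

theorem mirT_iter {f : ℕ → ℕ} {x : ℕ} : ∀ (n : ℕ) {d : ℕ} {t : BinaryTree ℕ}, At x d t →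
    Anti f x (inorder t) → (splayStep (f x))^[n] (mirT f t) = mirT f ((splayStep x)^[n] t)
  | 0, _, _, _, _ => rfl
  | n + 1, d, t, h, hf => by
      obtain ⟨⟨d', h1⟩, h2⟩ := step_at h
      rw [Function.iterate_succ_apply, Function.iterate_succ_apply, mirT_step h hf,
        mirT_iter n h1 (by rw [h2]; exact hf)]

theorem mapT_splay {f : ℕ → ℕ} {x : ℕ} {t : BinaryTree ℕ} (hb : IsBST t) (hm : x ∈ inorder t)
    (hf : Mono f x (inorder t)) : splay (f x) (mapT f t) = mapT f (splay x t) := by
  unfold splay
  rw [mapT_depth hf, mapT_iter _ (at_of_mem hb hm) hf]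

theorem mirT_splay {f : ℕ → ℕ} {x : ℕ} {t : BinaryTree ℕ} (hb : IsBST t) (hm : x ∈ inorder t)
    (hf : Anti f x (inorder t)) : splay (f x) (mirT f t) = mirT f (splay x t) := by
  unfold splay
  rw [mirT_depth hf, mirT_iter _ (at_of_mem hb hm) hf]

/-! ## The costs -/

/-- The total cost of the requests to keys at most `m`. -/
def lowerCost (m : ℕ) : List ℕ → BinaryTree ℕ → ℕ
  | [], _ => 0
  | x :: X, T => (if x ≤ m then 1 + depth x T else 0) + lowerCost m X (splay x T)

theorem cost_split (m : ℕ) : ∀ (X : List ℕ) (T : BinaryTree ℕ),
    splayCost X T = upperCost m X T + lowerCost m X T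
  | [], T => rfl
  | x :: X, T => by
      simp only [splayCost, upperCost, lowerCost, cost_split m X]
      by_cases h : x ≤ m
      · have h1 : ¬ m < x := by omega
        simp only [h, h1, if_true, if_false]
        omega
      · have h1 : m < x := by omega
        simp only [h, h1, if_true, if_false]
        omega

theorem mapT_upper {f : ℕ → ℕ} {m m' : ℕ} {K : List ℕ} (hf : ∀ x ∈ K, Mono f x K)
    (hm : ∀ x ∈ K, (m' < f x ↔ m < x)) : ∀ (X : List ℕ) (T : BinaryTree ℕ), IsBST T →
    inorder T = K → (∀ x ∈ X, x ∈ K) →
    upperCost m' (X.map f) (mapT f T) = upperCost m X T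
  | [], T, _, _, _ => rfl
  | x :: X, T, hb, hK, hX => by
      have hxK : x ∈ K := hX x (by simp)
      have hxT : x ∈ inorder T := hK ▸ hxK
      have hfx : Mono f x (inorder T) := by rw [hK]; exact hf x hxK
      simp only [List.map_cons, upperCost]
      rw [mapT_splay hb hxT hfx, mapT_depth hfx,
        mapT_upper hf hm X (splay x T) (splay_bst hb hxT)
          (by rw [splay_inorder hb hxT]; exact hK) (fun y hy => hX y (by simp [hy]))]
      simp only [hm x hxK]

theorem mirT_lower {f : ℕ → ℕ} {m m' : ℕ} {K : List ℕ} (hf : ∀ x ∈ K, Anti f x K)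
    (hm : ∀ x ∈ K, (m' < f x ↔ x ≤ m)) : ∀ (X : List ℕ) (T : BinaryTree ℕ), IsBST T →
    inorder T = K → (∀ x ∈ X, x ∈ K) →
    upperCost m' (X.map f) (mirT f T) = lowerCost m X T
  | [], T, _, _, _ => rfl
  | x :: X, T, hb, hK, hX => by
      have hxK : x ∈ K := hX x (by simp)
      have hxT : x ∈ inorder T := hK ▸ hxK
      have hfx : Anti f x (inorder T) := by rw [hK]; exact hf x hxK
      simp only [List.map_cons, upperCost, lowerCost]
      rw [mirT_splay hb hxT hfx, mirT_depth hfx,
        mirT_lower hf hm X (splay x T) (splay_bst hb hxT)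
          (by rw [splay_inorder hb hxT]; exact hK) (fun y hy => hX y (by simp [hy]))]
      simp only [hm x hxK]

end Pool.Agent.MP_c42954_lc.Scan
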