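import Pool.Agent.MP_c42954_lc.Scan.Pot

set_option autoImplicit false

/-!
# The amortized inequality for the nodes to the right within the run
-/

namespace Pool.Agent.MP_c42954_lc.Scan

open BinaryTree
open scoped Classical

/-- The state: a search tree, the set `S` of the keys not yet requested, and for each of them the
last key `en u` of its run. -/
structure Inv (T : BinaryTree ℕ) (S : Finset ℕ) (en : ℕ → ℕ) : Prop where
  bst : IsBST T
  mem : ∀ u ∈ S, u ∈ inorder T
  run : ∀ u ∈ S, u ≤ en u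
  closed : ∀ u ∈ S, ∀ v, u ≤ v → v ≤ en u → v ∈ S ∧ en v = en u

/-- The keys which are next in their run. -/
noncomputable def pend (S : Finset ℕ) (en : ℕ → ℕ) : Finset ℕ :=
  S.filter (fun c => ∀ u ∈ S, u < c → en u < c)

/-- The next keys to the right of `u`. -/
noncomputable def Cu (S : Finset ℕ) (en : ℕ → ℕ) (u : ℕ) : Finset ℕ :=
  (pend S en).filter (fun c => u < c)

theorem mem_pend {S : Finset ℕ} {en : ℕ → ℕ} {c : ℕ} :
    c ∈ pend S en ↔ c ∈ S ∧ ∀ u ∈ S, u < c → en u < c := by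
  simp [pend]

theorem mem_Cu {S : Finset ℕ} {en : ℕ → ℕ} {u c : ℕ} :
    c ∈ Cu S en u ↔ (c ∈ S ∧ ∀ u ∈ S, u < c → en u < c) ∧ u < c := by
  simp [Cu, mem_pend]

/-- The quantity of the cell `(u, W)` in a state. -/
noncomputable def qq (T : BinaryTree ℕ) (S : Finset ℕ) (en : ℕ → ℕ) (u : ℕ) (W : Finset ℕ) : ℕ :=
  Yh T (Cu S en u) u W

section

variable {T : BinaryTree ℕ} {S : Finset ℕ} {en : ℕ → ℕ} {y u : ℕ} {W : Finset ℕ}

theorem Inv.left (h : Inv T S en) (hy : y ∈ inorder T) : Inv (splay y T) S en where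
  bst := splay_bst h.bst hy
  mem := fun u hu => by rw [splay_inorder h.bst hy]; exact h.mem u hu
  run := h.run
  closed := h.closed

theorem Inv.own (h : Inv T S en) (hy : y ∈ pend S en) : Inv (splay y T) (S.erase y) en := by
  obtain ⟨hyS, hyp⟩ := mem_pend.1 hy
  have hyT := h.mem y hyS
  refine ⟨splay_bst h.bst hyT, ?_, ?_, ?_⟩
  · intro u hu
    rw [splay_inorder h.bst hyT]
    exact h.mem u (Finset.mem_of_mem_erase hu)
  · intro u hu
    exact h.run u (Finset.mem_of_mem_erase hu)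
  · intro u hu v huv hv
    obtain ⟨hne, huS⟩ := Finset.mem_erase.1 hu
    obtain ⟨h1, h2⟩ := h.closed u huS v huv hv
    refine ⟨Finset.mem_erase.2 ⟨?_, h1⟩, h2⟩
    rintro rfl
    have := hyp u huS (by omega)
    omega

theorem cu_facts (h : Inv T S en) (hu : u ∈ S) : ∀ c ∈ Cu S en u, c ∈ inorder T ∧ en u < c := by
  intro c hc
  obtain ⟨⟨h1, h2⟩, h3⟩ := mem_Cu.1 hc
  exact ⟨h.mem c h1, h2 u hu h3⟩

theorem cu_erase_subset (h : Inv T S en) (hu : u ∈ S.erase y) (hyu : y < u) (hyS : y ∈ S) :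
    Cu (S.erase y) en u ⊆ Cu S en u := by
  intro c hc
  obtain ⟨⟨h1, h2⟩, h3⟩ := mem_Cu.1 hc
  refine mem_Cu.2 ⟨⟨Finset.mem_of_mem_erase h1, ?_⟩, h3⟩
  intro u' hu' h4
  by_cases h5 : u' = y
  · subst h5
    by_contra h6
    push Not at h6
    have h7 := h2 u hu h3
    have h8 := (h.closed u' hyS u (by omega) (by omega)).2
    omega
  · exact h2 u' (Finset.mem_erase.2 ⟨h5, hu'⟩) h4

theorem qq_left (h : Inv T S en) (hy : y ∈ inorder T) (hyS : ∀ u ∈ S, y < u) (hu : u ∈ S)
    (hW : W ⊆ Finset.Ioc u (en u)) : qq (splay y T) S en u W ≤ qq T S en u W := by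
  have hC := cu_facts h hu
  refine left_access_mono h.bst hy (hyS u hu) (fun w hw => (Finset.mem_Ioc.1 (hW hw)).1)
    (fun c hc => (hC c hc).1) (fun c hc w hw => ?_) (Finset.Subset.refl _)
  have := (Finset.mem_Ioc.1 (hW hw)).2
  have := (hC c hc).2
  omega

theorem qq_own (h : Inv T S en) (hy : y ∈ pend S en) (hu : u ∈ S.erase y)
    (hW : W ⊆ Finset.Ioc u (en u)) :
    qq (splay y T) (S.erase y) en u W ≤ qq T S en u W := by
  obtain ⟨hyS, hyp⟩ := mem_pend.1 hy
  obtain ⟨hne, huS⟩ := Finset.mem_erase.1 hu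
  have hyT := h.mem y hyS
  have hC := cu_facts h huS
  have hW1 : ∀ w ∈ W, u < w := fun w hw => (Finset.mem_Ioc.1 (hW hw)).1
  have hWC : ∀ c ∈ Cu S en u, ∀ w ∈ W, w < c := fun c hc w hw => by
    have := (Finset.mem_Ioc.1 (hW hw)).2
    have := (hC c hc).2
    omega
  rcases Nat.lt_or_ge y u with hyu | hyu
  · exact left_access_mono h.bst hyT hyu hW1 (fun c hc => (hC c hc).1) hWC
      (cu_erase_subset h hu hyu hyS)
  · refine right_access h.bst hyT (h.mem u huS) hW1 (fun c hc => (hC c hc).1) hWC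
      (mem_Cu.2 ⟨⟨hyS, hyp⟩, by omega⟩) ?_
    intro c hc
    obtain ⟨⟨h1, h2⟩, h3⟩ := mem_Cu.1 hc
    obtain ⟨h4, h5⟩ := Finset.mem_erase.1 h1
    rcases Nat.lt_or_ge y c with h6 | h6
    · exact Or.inl h6
    · right
      refine ⟨mem_Cu.2 ⟨⟨h5, fun u' hu' h7 => ?_⟩, h3⟩, by omega⟩
      exact h2 u' (Finset.mem_erase.2 ⟨by omega, hu'⟩) h7

/-- The quantity of a cell is at most the number of its tops plus `min k |W|`. -/
theorem qq_le {k : ℕ} (hk : (pend S en).card ≤ k) :
    qq T S en u W ≤ (tops T u W).card + min k W.card := by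
  unfold qq Yh
  have h1 := stair_ghosts_le T (Cu S en u) u W
  have h2 : (Cu S en u).card ≤ k := (Finset.card_filter_le _ _).trans hk
  omega

end

/-! ## The pairs on an access path -/

/-- The pairs on the path of `x` with both nodes in `(x, e]`. -/
noncomputable def PP (x e : ℕ) (T : BinaryTree ℕ) : Finset (ℕ × ℕ) :=
  (pairUp (ancs x T)).toFinset.filter (fun q => UU x e T q.1 q.2)

theorem mem_PP {x e : ℕ} {T : BinaryTree ℕ} {q : ℕ × ℕ} : q ∈ PP x e T ↔ UU x e T q.1 q.2 := by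
  simp only [PP, Finset.mem_filter, List.mem_toFinset, and_iff_right_iff_imp]
  intro h
  exact h.1

/-- The good pairs: not the last one, and no window above the upper node has more than half of
its nodes unmatched. -/
noncomputable def GP (x e : ℕ) (T : BinaryTree ℕ) : Finset (ℕ × ℕ) :=
  (PP x e T).filter (fun q => q.2 ∉ badSet (rset x e T) (unm x e T) ∧ ∃ v ∈ rset x e T, q.2 < v)

section

variable {x e : ℕ} {T : BinaryTree ℕ}

theorem card_ups_le_PP : (ups x e T).card ≤ (PP x e T).card := by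
  have : ups x e T ⊆ (PP x e T).image Prod.snd := by
    intro g hg
    obtain ⟨_, p, hp⟩ := Finset.mem_filter.1 hg
    exact Finset.mem_image.2 ⟨(p, g), mem_PP.2 hp, rfl⟩
  exact (Finset.card_le_card this).trans Finset.card_image_le

theorem PP_snd_inj (hb : IsBST T) (hm : x ∈ inorder T) {q q' : ℕ × ℕ} (hq : q ∈ PP x e T)
    (hq' : q' ∈ PP x e T) (h : q.2 = q'.2) : q = q' := by
  have h1 := (mem_PP.1 hq).1
  have h2 := (mem_PP.1 hq').1
  rw [← h] at h2
  exact Prod.ext (pairUp_snd_inj (ancs_nodup hb hm) h1 h2) h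

theorem PP_facts (hb : IsBST T) (hm : x ∈ inorder T) {q : ℕ × ℕ} (hq : q ∈ PP x e T) :
    x < q.1 ∧ q.1 < q.2 ∧ q.2 ≤ e := by
  have h := mem_PP.1 hq
  have h1 := mem_rset.1 h.2.1
  have h2 := mem_rset.1 h.2.2
  exact ⟨h1.1.1, pair_lt hb hm h.1 h1.1.1 h2.1.1, h2.1.2⟩

theorem card_PP_le (hb : IsBST T) (hm : x ∈ inorder T) :
    (PP x e T).card ≤ 2 * (unm x e T).card + 1 + (GP x e T).card := by
  have hsub : PP x e T ⊆ ((PP x e T).filter (fun q => q.2 ∈ badSet (rset x e T) (unm x e T)) ∪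
      (PP x e T).filter (fun q => ¬ ∃ v ∈ rset x e T, q.2 < v)) ∪ GP x e T := by
    intro q hq
    simp only [Finset.mem_union, Finset.mem_filter, GP]
    by_cases h1 : q.2 ∈ badSet (rset x e T) (unm x e T)
    · exact Or.inl (Or.inl ⟨hq, h1⟩)
    · by_cases h2 : ∃ v ∈ rset x e T, q.2 < v
      · exact Or.inr ⟨hq, h1, h2⟩
      · exact Or.inl (Or.inr ⟨hq, h2⟩)
  have h1 : ((PP x e T).filter (fun q => q.2 ∈ badSet (rset x e T) (unm x e T))).card
      ≤ 2 * (unm x e T).card := by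
    refine le_trans ?_ (card_badSet (rset x e T) (unm x e T))
    apply Finset.card_le_card_of_injOn Prod.snd
    · intro q hq
      exact (Finset.mem_filter.1 (Finset.mem_coe.1 hq)).2
    · intro q hq q' hq' h
      exact PP_snd_inj hb hm (Finset.mem_filter.1 (Finset.mem_coe.1 hq)).1
        (Finset.mem_filter.1 (Finset.mem_coe.1 hq')).1 h
  have h2 : ((PP x e T).filter (fun q => ¬ ∃ v ∈ rset x e T, q.2 < v)).card ≤ 1 := by
    rw [Finset.card_le_one]
    intro q hq q' hq'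
    obtain ⟨h3, h4⟩ := Finset.mem_filter.1 hq
    obtain ⟨h5, h6⟩ := Finset.mem_filter.1 hq'
    apply PP_snd_inj hb hm h3 h5
    by_contra hne
    rcases Nat.lt_or_gt_of_ne hne with h7 | h7
    · exact h4 ⟨q'.2, (mem_PP.1 h5).2.2, h7⟩
    · exact h6 ⟨q.2, (mem_PP.1 h3).2.2, h7⟩
  have h3 := Finset.card_le_card hsub
  have h4 := Finset.card_union_le
    ((PP x e T).filter (fun q => q.2 ∈ badSet (rset x e T) (unm x e T)) ∪
      (PP x e T).filter (fun q => ¬ ∃ v ∈ rset x e T, q.2 < v)) (GP x e T)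
  have h5 := Finset.card_union_le
    ((PP x e T).filter (fun q => q.2 ∈ badSet (rset x e T) (unm x e T)))
      ((PP x e T).filter (fun q => ¬ ∃ v ∈ rset x e T, q.2 < v))
  omega

/-- Two pairs crossing the same point coincide. -/
theorem cross_unique (hb : IsBST T) (hm : x ∈ inorder T) {u α : ℕ} (hxu : x < u)
    {q q' : ℕ × ℕ} (hq : q ∈ PP x e T) (hq' : q' ∈ PP x e T) (h1 : u ≤ q.1) (h2 : q.1 ≤ α)
    (h3 : α < q.2) (h1' : u ≤ q'.1) (h2' : q'.1 ≤ α) (h3' : α < q'.2) : q = q' := by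
  apply PP_snd_inj hb hm hq hq'
  have h4 := cross_ge hb hm hxu (mem_PP.1 hq) h1 h2 h3' (mem_rset.1 (mem_PP.1 hq').2.2).2
  have h5 := cross_ge hb hm hxu (mem_PP.1 hq') h1' h2' h3 (mem_rset.1 (mem_PP.1 hq).2.2).2
  omega

end

/-! ## Early pairs -/

/-- A pair is early (seen from `x`) if it is short in comparison with its distance from `x`. -/
def early (x : ℕ) (q : ℕ × ℕ) : Prop := x + 3 * 2 ^ (Nat.log 2 (q.2 - q.1)) < q.2

/-- The early good pairs. -/
noncomputable def EP (x e : ℕ) (T : BinaryTree ℕ) : Finset (ℕ × ℕ) :=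
  (GP x e T).filter (fun q => early x q)

/-- A pair is light if it is late, far from `x`, and the path is short in comparison. -/
def light (x e k : ℕ) (T : BinaryTree ℕ) (q : ℕ × ℕ) : Prop :=
  ¬ early x q ∧ 2 ≤ Nat.log 2 (q.1 - x) ∧ k < 2 ^ (Nat.log 2 (q.1 - x) - 2) ∧
    (rset x e T).card < 4 ^ (Nat.log 2 (q.1 - x) - 2)

/-- The light good pairs. -/
noncomputable def LP (x e k : ℕ) (T : BinaryTree ℕ) : Finset (ℕ × ℕ) :=
  (GP x e T).filter (fun q => light x e k T q)

/-- The remaining good pairs. -/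
noncomputable def HP (x e k : ℕ) (T : BinaryTree ℕ) : Finset (ℕ × ℕ) :=
  (GP x e T).filter (fun q => ¬ early x q ∧ ¬ light x e k T q)

/-- The value of an early cell. -/
noncomputable def cE (T : BinaryTree ℕ) (S : Finset ℕ) (en : ℕ → ℕ) (k u s : ℕ) : ℝ :=
  psi (min k (2 ^ s)) (qq T S en u (Finset.Ioc (u + 2 * 2 ^ s) (min (u + 3 * 2 ^ s) (en u))))
    / 2 ^ s

/-- The value of a late cell. -/
noncomputable def cL (T : BinaryTree ℕ) (S : Finset ℕ) (en : ℕ → ℕ) (k u s : ℕ) : ℝ :=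
  if k < 2 ^ s then
    psi k (min (qq T S en u (Finset.Ioc (u + 2 ^ s) (en u))) (2 * 4 ^ s)) / 2 ^ s
  else 0

section

variable {T : BinaryTree ℕ} {S : Finset ℕ} {en : ℕ → ℕ} {k : ℕ}

theorem wE_sub (u s e : ℕ) : Finset.Ioc (u + 2 * 2 ^ s) (min (u + 3 * 2 ^ s) e)
    ⊆ Finset.Ioc u e := by
  intro w hw
  rw [Finset.mem_Ioc] at hw ⊢
  omega

theorem wL_sub (u s e : ℕ) : Finset.Ioc (u + 2 ^ s) e ⊆ Finset.Ioc u e := by
  intro w hw
  have := Nat.one_le_two_pow (n := s)
  rw [Finset.mem_Ioc] at hw ⊢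
  omega

theorem cE_mono {T' : BinaryTree ℕ} {S' : Finset ℕ} {u s : ℕ}
    (h : ∀ W ⊆ Finset.Ioc u (en u), qq T' S' en u W ≤ qq T S en u W) :
    cE T' S' en k u s ≤ cE T S en k u s := by
  unfold cE
  have := psi_mono (K := min k (2 ^ s)) (h _ (wE_sub u s (en u)))
  gcongr

theorem cL_mono {T' : BinaryTree ℕ} {S' : Finset ℕ} {u s : ℕ}
    (h : ∀ W ⊆ Finset.Ioc u (en u), qq T' S' en u W ≤ qq T S en u W) :
    cL T' S' en k u s ≤ cL T S en k u s := by
  unfold cL
  split_ifs with h1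
  · have := psi_mono (K := k) (min_le_min_right (2 * 4 ^ s) (h _ (wL_sub u s (en u))))
    gcongr
  · exact le_rfl

theorem cE_nonneg (T : BinaryTree ℕ) (S : Finset ℕ) (en : ℕ → ℕ) (k u s : ℕ) :
    0 ≤ cE T S en k u s := by
  unfold cE
  have := psi_nonneg (min k (2 ^ s))
    (qq T S en u (Finset.Ioc (u + 2 * 2 ^ s) (min (u + 3 * 2 ^ s) (en u))))
  positivity

theorem cL_nonneg (T : BinaryTree ℕ) (S : Finset ℕ) (en : ℕ → ℕ) (k u s : ℕ) :
    0 ≤ cL T S en k u s := by
  unfold cL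
  split_ifs
  · have := psi_nonneg k (min (qq T S en u (Finset.Ioc (u + 2 ^ s) (en u))) (2 * 4 ^ s))
    positivity
  · exact le_rfl

/-- The drop of a cell at a good crossing pair. -/
theorem qq_drop {x u α β : ℕ} {q : ℕ × ℕ} (h : Inv T S en) (hx : x ∈ pend S en)
    (hu : u ∈ S.erase x) (hxu : x < u) (hue : u ≤ en x) (hq : q ∈ GP x (en x) T)
    (hua : u ≤ q.1) (haα : q.1 ≤ α) (hαb : α < q.2) (hbβ : q.2 ≤ β) (hβ : β ≤ en u) :
    qq (splay x T) (S.erase x) en u (Finset.Ioc α β) + 1 ≤ qq T S en u (Finset.Ioc α β) ∧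
      (tops T u (Finset.Ioc α β)).card + 8 * qq (splay x T) (S.erase x) en u (Finset.Ioc α β)
        ≤ 8 * qq T S en u (Finset.Ioc α β) := by
  obtain ⟨hxS, hxp⟩ := mem_pend.1 hx
  obtain ⟨hqP, hbad, htop⟩ := Finset.mem_filter.1 hq
  have hen : en u = en x := (h.closed x hxS u (by omega) hue).2
  refine cross_drop (e := en x) h.bst (h.mem x hxS) hxu (mem_PP.1 hqP) hua haα hαb hbβ
    (by omega) ?_ (cu_erase_subset h hu hxu hxS) htop hbad
  intro c hc
  have := cu_facts h (Finset.mem_of_mem_erase hu) c hc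
  exact ⟨this.1, by omega⟩

theorem early_charge {x L : ℕ} (h : Inv T S en) (hx : x ∈ pend S en)
    (hk : (pend S en).card ≤ k) (hL : ∀ v ∈ S, v < 2 ^ L) :
    ((EP x (en x) T).card : ℝ) + ∑ u ∈ S.erase x, ∑ s ∈ Finset.range L,
        cE (splay x T) (S.erase x) en k u s
      ≤ ∑ u ∈ S.erase x, ∑ s ∈ Finset.range L, cE T S en k u s := by
  obtain ⟨hxS, hxp⟩ := mem_pend.1 hx
  have hxT := h.mem x hxS
  have hb := h.bst
  -- basic facts on an early pair
  have facts : ∀ q ∈ EP x (en x) T, q ∈ GP x (en x) T ∧ q ∈ PP x (en x) T ∧ x < q.1 ∧ q.1 < q.2 ∧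
      q.2 ≤ en x ∧ 2 ^ (Nat.log 2 (q.2 - q.1)) ≤ q.2 - q.1 ∧
      q.2 - q.1 < 2 * 2 ^ (Nat.log 2 (q.2 - q.1)) ∧ x + 3 * 2 ^ (Nat.log 2 (q.2 - q.1)) < q.2 := by
    intro q hq
    obtain ⟨h1, h2⟩ := Finset.mem_filter.1 hq
    have h3 := (Finset.mem_filter.1 h1).1
    obtain ⟨h4, h5, h6⟩ := PP_facts hb hxT h3
    have h7 : 2 ^ (Nat.log 2 (q.2 - q.1)) ≤ q.2 - q.1 := Nat.pow_log_le_self 2 (by omega)
    have h8 := Nat.lt_pow_succ_log_self (b := 2) (by norm_num) (q.2 - q.1)
    rw [pow_succ] at h8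
    exact ⟨h1, h3, h4, h5, h6, h7, by omega, h2⟩
  apply charge (EP x (en x) T) (S.erase x) L
    (fun q u s => s = Nat.log 2 (q.2 - q.1) ∧ q.2 ≤ u + 3 * 2 ^ s ∧ u + 2 * 2 ^ s < q.2)
  · rintro u hu s hs q hq ⟨rfl, h2, h3⟩
    obtain ⟨hG, hP, h4, h5, h6, h7, h8, h9⟩ := facts q hq
    have hxu : x < u := by omega
    have huen : u ≤ en x := by omega
    have hen : en u = en x := (h.closed x hxS u (by omega) huen).2
    set s := Nat.log 2 (q.2 - q.1) with hsdef
    have hdrop := qq_drop (α := u + 2 * 2 ^ s) (β := min (u + 3 * 2 ^ s) (en u)) h hx hu hxu huen hG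
      (by omega) (by omega) (by omega) (by omega) (by omega)
    have hW : (Finset.Ioc (u + 2 * 2 ^ s) (min (u + 3 * 2 ^ s) (en u))).card ≤ 2 ^ s := by
      rw [Nat.card_Ioc]; omega
    have hle := qq_le (T := T) (u := u)
      (W := Finset.Ioc (u + 2 * 2 ^ s) (min (u + 3 * 2 ^ s) (en u))) hk
    have := psi_drop (K := min k (2 ^ s)) hdrop.1 hdrop.2 (by omega)
    unfold cE
    rw [← add_div]
    gcongr
  · intro u hu s hs
    exact cE_mono (fun W hW => qq_own h hx hu hW)
  · rintro u hu s hs q hq q' hq' ⟨h1, h2, h3⟩ ⟨h1', h2', h3'⟩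
    obtain ⟨hG, hP, h4, h5, h6, h7, h8, h9⟩ := facts q hq
    obtain ⟨hG', hP', h4', h5', h6', h7', h8', h9'⟩ := facts q' hq'
    rw [← h1] at h7 h8 h9
    rw [← h1'] at h7' h8' h9'
    exact cross_unique (u := u) (α := u + 2 * 2 ^ s) hb hxT (by omega) hP hP' (by omega) (by omega)
      (by omega) (by omega) (by omega) (by omega)
  · intro q hq
    obtain ⟨hG, hP, h4, h5, h6, h7, h8, h9⟩ := facts q hq
    set s := Nat.log 2 (q.2 - q.1) with hsdef
    refine ⟨s, ?_, ?_⟩
    · have hq2 : q.2 ∈ S := (h.closed x hxS q.2 (by omega) h6).1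
      have := hL _ hq2
      by_contra hc
      push Not at hc
      have : 2 ^ L ≤ 2 ^ s := Nat.pow_le_pow_right (by norm_num) hc
      omega
    · refine le_trans ?_ (Finset.card_le_card
        (s := Finset.Ico (q.2 - 3 * 2 ^ s) (q.2 - 2 * 2 ^ s)) ?_)
      · rw [Nat.card_Ico]
        omega
      · intro u hu
        rw [Finset.mem_Ico] at hu
        refine (@Finset.mem_filter _ _ (fun _ => Classical.propDecidable _) _ _).2 ⟨Finset.mem_erase.2 ⟨by omega, ?_⟩, hsdef, by omega,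
          by omega⟩
        exact (h.closed x hxS u (by omega) (by omega)).1

theorem light_charge {x L : ℕ} (h : Inv T S en) (hx : x ∈ pend S en)
    (hk : (pend S en).card ≤ k) (hL : ∀ v ∈ S, v < 2 ^ L) :
    ((LP x (en x) k T).card : ℝ) + ∑ u ∈ S.erase x, ∑ s ∈ Finset.range L,
        cL (splay x T) (S.erase x) en k u s
      ≤ ∑ u ∈ S.erase x, ∑ s ∈ Finset.range L, cL T S en k u s := by
  obtain ⟨hxS, hxp⟩ := mem_pend.1 hx
  have hxT := h.mem x hxS
  have hb := h.bst
  have facts : ∀ q ∈ LP x (en x) k T, ∀ s, s + 2 = Nat.log 2 (q.1 - x) →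
      q ∈ GP x (en x) T ∧ q ∈ PP x (en x) T ∧ x < q.1 ∧ q.1 < q.2 ∧
      q.2 ≤ en x ∧ x + 4 * 2 ^ s ≤ q.1 ∧ q.1 < x + 8 * 2 ^ s ∧ q.1 + 2 * 2 ^ s ≤ q.2 ∧
      k < 2 ^ s ∧ (rset x (en x) T).card < 4 ^ s := by
    intro q hq s hs
    obtain ⟨h1, h2, h3, h4, h5⟩ := Finset.mem_filter.1 hq
    have h6 := (Finset.mem_filter.1 h1).1
    obtain ⟨h7, h8, h9⟩ := PP_facts hb hxT h6
    have h10 : 2 ^ (Nat.log 2 (q.2 - q.1)) ≤ q.2 - q.1 := Nat.pow_log_le_self 2 (by omega)
    have h11 : 2 ^ (Nat.log 2 (q.1 - x)) ≤ q.1 - x := Nat.pow_log_le_self 2 (by omega)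
    have h12 := Nat.lt_pow_succ_log_self (b := 2) (by norm_num) (q.1 - x)
    rw [← hs] at h11 h12 h4 h5
    have e1 : 2 ^ (s + 2) = 4 * 2 ^ s := by ring
    have e2 : 2 ^ (s + 2).succ = 8 * 2 ^ s := by rw [Nat.succ_eq_add_one]; ring
    rw [e1] at h11
    rw [e2] at h12
    rw [Nat.add_sub_cancel] at h4 h5
    unfold early at h2
    push Not at h2
    exact ⟨h1, h6, h7, h8, h9, by omega, by omega, by omega, h4, h5⟩
  apply charge (LP x (en x) k T) (S.erase x) L
    (fun q u s => s + 2 = Nat.log 2 (q.1 - x) ∧ u ≤ q.1 ∧ q.1 < u + 2 ^ s)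
  · rintro u hu s hs q hq ⟨h1, h2, h3⟩
    obtain ⟨hG, hP, h4, h5, h6, h7, h8, h9, h10, h11⟩ := facts q hq s h1
    have hxu : x < u := by omega
    have huen : u ≤ en x := by omega
    have hen : en u = en x := (h.closed x hxS u (by omega) huen).2
    have hdrop := qq_drop (α := u + 2 ^ s) (β := en u) h hx hu hxu huen hG
      (by omega) (by omega) (by omega) (by omega) (by omega)
    have hle := qq_le (T := T) (u := u) (W := Finset.Ioc (u + 2 ^ s) (en u)) hk
    have htops : (tops T u (Finset.Ioc (u + 2 ^ s) (en u))).card < 4 ^ s := by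
      rw [cross_tops_eq (a := q.1) (b := q.2) (x := x) (e := en x) hb hxT hxu (mem_PP.1 hP) h2
        (by omega) (by omega) (by omega)]
      exact lt_of_le_of_lt (Finset.card_filter_le _ _) h11
    have h24 : 2 ^ s ≤ 4 ^ s := Nat.pow_le_pow_left (by norm_num) s
    have hsmall : qq T S en u (Finset.Ioc (u + 2 ^ s) (en u)) ≤ 2 * 4 ^ s := by omega
    have hsmall' : qq (splay x T) (S.erase x) en u (Finset.Ioc (u + 2 ^ s) (en u))
        ≤ 2 * 4 ^ s := by omega
    have := psi_drop (K := k) hdrop.1 hdrop.2 (by omega)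
    unfold cL
    rw [if_pos h10, if_pos h10, min_eq_left hsmall, min_eq_left hsmall', ← add_div]
    gcongr
  · intro u hu s hs
    exact cL_mono (fun W hW => qq_own h hx hu hW)
  · rintro u hu s hs q hq q' hq' ⟨h1, h2, h3⟩ ⟨h1', h2', h3'⟩
    obtain ⟨hG, hP, h4, h5, h6, h7, h8, h9, h10, h11⟩ := facts q hq s h1
    obtain ⟨hG', hP', h4', h5', h6', h7', h8', h9', h10', h11'⟩ := facts q' hq' s h1'
    exact cross_unique (u := u) (α := u + 2 ^ s) hb hxT (by omega) hP hP' (by omega) (by omega)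
      (by omega) (by omega) (by omega) (by omega)
  · intro q hq
    obtain ⟨h1, h2, h3, h4, h5⟩ := Finset.mem_filter.1 hq
    obtain ⟨s, hs⟩ : ∃ s, s + 2 = Nat.log 2 (q.1 - x) := ⟨Nat.log 2 (q.1 - x) - 2, by omega⟩
    obtain ⟨hG, hP, h6, h7, h8, h9, h10, h11, h12, h13⟩ := facts q hq s hs
    refine ⟨s, ?_, ?_⟩
    · have hq2 : q.2 ∈ S := (h.closed x hxS q.2 (by omega) h8).1
      have := hL _ hq2
      by_contra hc
      push Not at hc
      have : 2 ^ L ≤ 2 ^ s := Nat.pow_le_pow_right (by norm_num) hc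
      omega
    · refine le_trans ?_ (Finset.card_le_card (s := Finset.Ioc (q.1 - 2 ^ s) q.1) ?_)
      · rw [Nat.card_Ioc]
        omega
      · intro u hu
        rw [Finset.mem_Ioc] at hu
        refine (@Finset.mem_filter _ _ (fun _ => Classical.propDecidable _) _ _).2 ⟨Finset.mem_erase.2 ⟨by omega, ?_⟩, hs, by omega,
          by omega⟩
        exact (h.closed x hxS u (by omega) (by omega)).1

/-- There are few remaining pairs. -/
theorem card_HP {x e : ℕ} (hb : IsBST T) (hm : x ∈ inorder T) :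
    (HP x e k T).card ≤ 6 + 2 * Nat.log 2 k + 2 * Nat.log 4 (rset x e T).card := by
  set M := 2 + Nat.log 2 k + Nat.log 4 (rset x e T).card with hM
  have hcard : (HP x e k T).card ≤ (Finset.range (2 * (M + 1))).card := by
    apply Finset.card_le_card_of_injOn (fun q => 2 * Nat.log 2 (q.1 - x) +
      if 3 * 2 ^ (Nat.log 2 (q.1 - x)) ≤ 2 * (q.1 - x) then 1 else 0)
    · intro q hq
      obtain ⟨h1, h2, h3⟩ := Finset.mem_filter.1 (Finset.mem_coe.1 hq)
      have h4 : Nat.log 2 (q.1 - x) ≤ M := by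
        unfold light at h3
        by_contra hc
        push Not at hc
        apply h3
        refine ⟨h2, by omega, ?_, ?_⟩
        · apply Nat.lt_pow_of_log_lt (by norm_num)
          omega
        · apply Nat.lt_pow_of_log_lt (by norm_num)
          omega
      simp only [Finset.coe_range, Set.mem_Iio]
      split_ifs <;> omega
    · have key : ∀ q ∈ HP x e k T, ∀ q' ∈ HP x e k T, q.1 < q'.1 →
          (2 * Nat.log 2 (q.1 - x) + if 3 * 2 ^ (Nat.log 2 (q.1 - x)) ≤ 2 * (q.1 - x) then 1 else 0)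
          ≠ (2 * Nat.log 2 (q'.1 - x) +
            if 3 * 2 ^ (Nat.log 2 (q'.1 - x)) ≤ 2 * (q'.1 - x) then 1 else 0) := by
        intro q hq q' hq' hlt heq
        obtain ⟨h1, h2, h3⟩ := Finset.mem_filter.1 hq
        obtain ⟨h1', h2', h3'⟩ := Finset.mem_filter.1 hq'
        have hP := (Finset.mem_filter.1 h1).1
        have hP' := (Finset.mem_filter.1 h1').1
        obtain ⟨h7, h8, h9⟩ := PP_facts hb hm hP
        obtain ⟨h7', h8', h9'⟩ := PP_facts hb hm hP'
        have hlog : Nat.log 2 (q.1 - x) = Nat.log 2 (q'.1 - x) := by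
          split_ifs at heq <;> omega
        have h10 : 2 ^ (Nat.log 2 (q.2 - q.1)) ≤ q.2 - q.1 := Nat.pow_log_le_self 2 (by omega)
        have h11 : 2 ^ (Nat.log 2 (q.1 - x)) ≤ q.1 - x := Nat.pow_log_le_self 2 (by omega)
        have h12 := Nat.lt_pow_succ_log_self (b := 2) (by norm_num) (q'.1 - x)
        rw [pow_succ, ← hlog] at h12
        rw [← hlog] at heq
        unfold early at h2
        push Not at h2
        have h13 : q.2 ≤ q'.1 := by
          rcases pair_adj hb hm (mem_PP.1 hP).1 (mem_rset.1 (mem_PP.1 hP').2.1).2 h7' h7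
            with h | h
          · omega
          · exact h
        split_ifs at heq with h14 h15 h15
        · omega
        · omega
        · omega
        · omega
      intro q hq q' hq' h
      simp only at h
      obtain ⟨h1, _⟩ := Finset.mem_filter.1 (Finset.mem_coe.1 hq)
      obtain ⟨h1', _⟩ := Finset.mem_filter.1 (Finset.mem_coe.1 hq')
      have hP := (Finset.mem_filter.1 h1).1
      have hP' := (Finset.mem_filter.1 h1').1
      rcases Nat.lt_trichotomy q.1 q'.1 with h2 | h2 | h2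
      · exact absurd h (key q hq q' hq' h2)
      · have h3 := (mem_PP.1 hP).1
        have h4 := (mem_PP.1 hP').1
        rw [← h2] at h4
        exact Prod.ext h2 (pairUp_fst_inj (ancs_nodup hb hm) h3 h4)
      · exact absurd h.symm (key q' hq' q hq h2)
  rw [Finset.card_range] at hcard
  omega

theorem card_GP_le (x e k : ℕ) (T : BinaryTree ℕ) :
    (GP x e T).card ≤ (EP x e T).card + (LP x e k T).card + (HP x e k T).card := by
  have hsub : GP x e T ⊆ (EP x e T ∪ LP x e k T) ∪ HP x e k T := by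
    intro q hq
    simp only [Finset.mem_union, EP, LP, HP, Finset.mem_filter]
    by_cases h1 : early x q
    · exact Or.inl (Or.inl ⟨hq, h1⟩)
    · by_cases h2 : light x e k T q
      · exact Or.inl (Or.inr ⟨hq, h2⟩)
      · exact Or.inr ⟨hq, h1, h2⟩
  have h1 := Finset.card_le_card hsub
  have h2 := Finset.card_union_le (EP x e T ∪ LP x e k T) (HP x e k T)
  have h3 := Finset.card_union_le (EP x e T) (LP x e k T)
  omega

theorem four_log_le (R : ℕ) : 8 * Nat.log 4 R ≤ R + 4 := by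
  rcases Nat.eq_zero_or_pos R with h0 | h0
  · subst h0; simp
  · have h1 : 4 ^ (Nat.log 4 R) ≤ R := Nat.pow_log_le_self 4 (by omega)
    have h2 : ∀ q : ℕ, 8 * q ≤ 4 ^ q + 4 := by
      intro q
      induction q with
      | zero => simp
      | succ q ih =>
        rcases Nat.eq_zero_or_pos q with h | h
        · subst h; simp
        · have h4 : 4 ≤ 4 ^ q := by
            calc 4 = 4 ^ 1 := by norm_num
              _ ≤ 4 ^ q := Nat.pow_le_pow_right (by norm_num) h
          rw [pow_succ]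
          omega
    have := h2 (Nat.log 4 R)
    omega

/-- The number of ancestors of `x` in its run, in terms of the ancestors outside and of the
charged pairs. -/
theorem card_rset_bound {x e : ℕ} (hb : IsBST T) (hm : x ∈ inorder T) :
    (rset x e T).card ≤ 10 * outs x e T + 4 * (EP x e T).card + 4 * (LP x e k T).card
      + 42 + 8 * Nat.log 2 k := by
  have h1 := card_rset_le (e := e) hb hm
  have h2 := card_ups_le_PP (x := x) (e := e) (T := T)
  have h3 := card_PP_le (e := e) hb hm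
  have h4 := card_GP_le x e k T
  have h5 := card_HP (k := k) (e := e) hb hm
  have h6 := four_log_le (rset x e T).card
  have h7 := card_unm_le (e := e) hb hm
  omega

end

end Pool.Agent.MP_c42954_lc.Scan
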