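import Pool.Agent.MP_c42954_lc.Scan.Greedy
import Pool.Agent.MP_c42954_lc.Scan.Relabel

set_option autoImplicit false

/-!
# Both sides, and the passage to ranks
-/

namespace Pool.Agent.MP_c42954_lc.Scan

open BinaryTree
open scoped Classical

theorem okP_of {k m : ℕ} : ∀ {Z : List (ℕ × Fin k)} {P : Fin k → ℕ},
    Z.Pairwise (fun p q => p.2 = q.2 → m < p.1 → m < q.1 → p.1 ≤ q.1) →
    (∀ p ∈ Z, m < p.1 → P p.2 ≤ p.1) → OkP m P Z
  | [], P, _, _ => trivial
  | (x, c) :: Z, P, hp, hP => by
      rw [List.pairwise_cons] at hp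
      simp only [OkP]
      rcases Nat.lt_or_ge m x with h | h
      · refine Or.inr ⟨h, hP (x, c) (by simp) h, okP_of hp.2 ?_⟩
        intro q hq hmq
        by_cases e : q.2 = c
        · rw [e, Function.update_self]
          exact hp.1 q hq e.symm h hmq
        · rw [Function.update_of_ne e]
          exact hP q (List.mem_cons_of_mem _ hq) hmq
      · exact Or.inl ⟨h, okP_of hp.2 (fun q hq => hP q (List.mem_cons_of_mem _ hq))⟩

theorem finP_mem {k m : ℕ} : ∀ (Z : List (ℕ × Fin k)) (P : Fin k → ℕ) (c : Fin k),
    finP m P Z c = P c ∨ ∃ p ∈ Z, p.2 = c ∧ m < p.1 ∧ finP m P Z c = p.1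
  | [], P, c => Or.inl rfl
  | (x, a) :: Z, P, c => by
      simp only [finP]
      split_ifs with h
      · rcases finP_mem Z P c with h1 | ⟨p, h1, h2⟩
        · exact Or.inl h1
        · exact Or.inr ⟨p, List.mem_cons_of_mem _ h1, h2⟩
      · rcases finP_mem Z (Function.update P a x) c with h1 | ⟨p, h1, h2⟩
        · by_cases e : c = a
          · subst e
            rw [Function.update_self] at h1
            exact Or.inr ⟨(x, c), by simp, rfl, by omega, h1⟩
          · rw [Function.update_of_ne e] at h1
            exact Or.inl h1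
        · exact Or.inr ⟨p, List.mem_cons_of_mem _ h1, h2⟩

/-- One side, for the keys `1, ..., n`. -/
theorem one_side {n m k : ℕ} (hk : 1 ≤ k) (hm : m ≤ n) {T : BinaryTree ℕ} (hb : IsBST T)
    (hT : inorder T = List.range' 1 n) {Z : List (ℕ × Fin k)} (hZ : ∀ p ∈ Z, p.1 ∈ inorder T)
    (hp : Z.Pairwise (fun p q => p.2 = q.2 → m < p.1 → m < q.1 → p.1 ≤ q.1))
    {s : Fin k → ℕ} (hs : ∀ p ∈ Z, ∀ q ∈ Z, p.2 = q.2 → q.1 ≤ p.1 + s p.2) :
    (upperCost m (Z.map Prod.fst) T : ℝ) ≤ (n + 1 + Z.length + ∑ c, (s c : ℝ)) * cK k := by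
  have hkeys : ∀ v, v ∈ inorder T ↔ 1 ≤ v ∧ v ≤ n := by
    intro v
    rw [hT, List.mem_range'_1]
    omega
  have hex : ∀ c : Fin k, ∃ v, (v = m ∧ ∀ p ∈ Z, p.2 = c → ¬ m < p.1) ∨
      ((v, c) ∈ Z ∧ m < v ∧ ∀ p ∈ Z, p.2 = c → m < p.1 → v ≤ p.1) := by
    intro c
    by_cases h : ∃ v, (v, c) ∈ Z ∧ m < v
    · refine ⟨Nat.find h, Or.inr ⟨(Nat.find_spec h).1, (Nat.find_spec h).2, ?_⟩⟩
      intro p hp' hpc hmp
      apply Nat.find_min'
      refine ⟨?_, hmp⟩
      rw [← hpc]
      exact hp'
    · refine ⟨m, Or.inl ⟨rfl, ?_⟩⟩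
      intro p hp' hpc hmp
      exact h ⟨p.1, by rw [← hpc]; exact hp', hmp⟩
  choose P hP using hex
  have hPm : ∀ c, m ≤ P c := by
    intro c
    rcases hP c with h | h
    · exact h.1.ge
    · exact h.2.1.le
  have hPn : ∀ c, P c ≤ n + 1 := by
    intro c
    rcases hP c with h | h
    · rw [h.1]; omega
    · have := (hkeys _).1 (hZ _ h.1)
      simp only at this
      omega
  have hok : OkP m P Z := by
    apply okP_of hp
    intro p hp' hmp
    rcases hP p.2 with h | h
    · exact absurd hmp (h.2 p hp' rfl)
    · exact h.2.2 p hp' rfl hmp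
  refine (scan_upper hk hb hT hZ hPm hPn hok).trans ?_
  apply mul_le_mul_of_nonneg_right _ (cK_nonneg k)
  apply add_le_add_right
  refine Finset.sum_le_sum fun c _ => ?_
  have h1 : finP m P Z c ≤ P c + s c := by
    rcases finP_mem (m := m) Z P c with h | ⟨p, h1, h2, h3, h4⟩
    · omega
    · rcases hP c with h | h
      · exact absurd h3 (h.2 p h1 h2)
      · have := hs _ h.1 p h1 h2.symm
        simp only at this
        omega
  have h2 : (finP m P Z c : ℝ) ≤ P c + s c := by exact_mod_cast h1
  linarith

/-- Both sides, for the keys `1, ..., n`. -/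
theorem both_sides {n r k : ℕ} (hk : 1 ≤ k) (hr : r ≤ n) {T : BinaryTree ℕ} (hb : IsBST T)
    (hT : inorder T = List.range' 1 n) {Z : List (ℕ × Fin k)} (hZ : ∀ p ∈ Z, p.1 ∈ inorder T)
    (hp : Z.Pairwise (fun p q => p.2 = q.2 → (r < p.1 → r < q.1 → p.1 ≤ q.1) ∧
      (p.1 ≤ r → q.1 ≤ r → q.1 ≤ p.1)))
    {s : Fin k → ℕ} (hs : ∀ p ∈ Z, ∀ q ∈ Z, p.2 = q.2 → q.1 ≤ p.1 + s p.2) :
    (splayCost (Z.map Prod.fst) T : ℝ) ≤ 2 * (n + 1 + Z.length + ∑ c, (s c : ℝ)) * cK k := by
  have hkeys : ∀ v, v ∈ inorder T ↔ 1 ≤ v ∧ v ≤ n := by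
    intro v
    rw [hT, List.mem_range'_1]
    omega
  have h1 := one_side hk hr hb hT hZ (hp.imp (fun h e => (h e).1)) hs
  -- the lower side
  have hanti : ∀ x ∈ inorder T, Anti (fun v => n + 1 - v) x (inorder T) := by
    intro x hx a ha
    rw [hkeys] at hx ha
    constructor
    · intro h; show n + 1 - a < n + 1 - x; omega
    · intro h; show n + 1 - x < n + 1 - a; omega
  have hT' : inorder (mirT (fun v => n + 1 - v) T) = List.range' 1 n := by
    rw [mirT_inorder, hT]
    apply List.ext_getElem
    · simp
    · intro i h1 h2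
      simp only [List.length_range'] at h2
      simp only [List.getElem_reverse, List.length_map, List.length_range', List.getElem_map,
        List.getElem_range', one_mul]
      omega
  have hb' : IsBST (mirT (fun v => n + 1 - v) T) := by
    unfold IsBST
    rw [hT']
    exact List.pairwise_lt_range'
  have hkeys' : ∀ v, v ∈ inorder (mirT (fun v => n + 1 - v) T) ↔ 1 ≤ v ∧ v ≤ n := by
    intro v
    rw [hT', List.mem_range'_1]
    omega
  have h2 := one_side (m := n - r) (s := s) (Z := Z.map (fun p => (n + 1 - p.1, p.2))) hk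
    (Nat.sub_le _ _) hb' hT'
    (by
      intro p hp'
      obtain ⟨q, hq, rfl⟩ := List.mem_map.1 hp'
      have := (hkeys _).1 (hZ q hq)
      rw [hkeys']
      constructor
      · show 1 ≤ n + 1 - q.1; omega
      · show n + 1 - q.1 ≤ n; omega)
    (by
      rw [List.pairwise_map]
      refine hp.imp_of_mem ?_
      intro p q hp' hq' h e h3 h4
      have e1 := (hkeys _).1 (hZ p hp')
      have e2 := (hkeys _).1 (hZ q hq')
      simp only at e h3 h4 ⊢
      have := (h e).2 (by omega) (by omega)
      omega)
    (by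
      intro p hp' q hq' e
      obtain ⟨p, hp'', rfl⟩ := List.mem_map.1 hp'
      obtain ⟨q, hq'', rfl⟩ := List.mem_map.1 hq'
      have e1 := (hkeys _).1 (hZ p hp'')
      have e2 := (hkeys _).1 (hZ q hq'')
      simp only at e ⊢
      have := hs q hq'' p hp'' e.symm
      rw [← e] at this
      omega)
  have e : (Z.map (fun p => (n + 1 - p.1, p.2))).map Prod.fst
      = (Z.map Prod.fst).map (fun v => n + 1 - v) := by
    rw [List.map_map, List.map_map]
    rfl
  rw [e, mirT_lower (f := fun v => n + 1 - v) (m := r) (m' := n - r) (K := inorder T) hanti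
    (by
      intro x hx
      rw [hkeys] at hx
      show n - r < n + 1 - x ↔ x ≤ r
      omega) (Z.map Prod.fst) T hb rfl (by
      intro x hx
      obtain ⟨q, hq, rfl⟩ := List.mem_map.1 hx
      exact hZ q hq), List.length_map] at h2
  rw [cost_split r]
  push_cast
  linarith

theorem mapT_cost {f : ℕ → ℕ} {K : List ℕ} (hf : ∀ x ∈ K, Mono f x K) :
    ∀ (X : List ℕ) (T : BinaryTree ℕ), IsBST T → inorder T = K → (∀ x ∈ X, x ∈ K) →
    splayCost (X.map f) (mapT f T) = splayCost X T
  | [], T, _, _, _ => rfl
  | x :: X, T, hb, hK, hX => by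
      have hxK : x ∈ K := hX x (by simp)
      have hxT : x ∈ inorder T := hK ▸ hxK
      have hfx : Mono f x (inorder T) := by rw [hK]; exact hf x hxK
      simp only [List.map_cons, splayCost]
      rw [mapT_splay hb hxT hfx, mapT_depth hfx,
        mapT_cost hf X (splay x T) (splay_bst hb hxT)
          (by rw [splay_inorder hb hxT]; exact hK) (fun y hy => hX y (by simp [hy]))]

/-! ## Ranks -/

theorem idxOf_mono' {K : List ℕ} (hK : K.Pairwise (· < ·)) {a b : ℕ} (ha : a ∈ K) (hb : b ∈ K)
    (hab : a < b) : K.idxOf a < K.idxOf b := by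
  have h1 := List.idxOf_lt_length_of_mem ha
  have h2 := List.idxOf_lt_length_of_mem hb
  by_contra h
  push Not at h
  rcases Nat.eq_or_lt_of_le h with h3 | h3
  · have := (List.idxOf_inj hb).1 h3
    omega
  · have := List.pairwise_iff_getElem.1 hK _ _ h2 h1 h3
    rw [List.getElem_idxOf, List.getElem_idxOf] at this
    omega

theorem map_rank' {K : List ℕ} (hK : K.Nodup) :
    K.map (fun a => K.idxOf a + 1) = List.range' 1 K.length := by
  apply List.ext_getElem
  · simp
  · intro i h1 h2
    simp only [List.getElem_map, List.getElem_range', one_mul]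
    rw [List.Nodup.idxOf_getElem hK]
    ring

/-- The index of a key and the number of keys below `m`. -/
theorem idxOf_lt_countP' {m : ℕ} : ∀ {K : List ℕ}, K.Pairwise (· < ·) → ∀ {x : ℕ}, x ∈ K →
    (K.idxOf x < K.countP (fun a => a < m) ↔ x < m)
  | [], _, x, hx => by simp at hx
  | a :: K, hK, x, hx => by
      rw [List.pairwise_cons] at hK
      rw [List.countP_cons]
      by_cases ham : a < m
      · simp only [ham, decide_true, if_true]
        by_cases hax : a = x
        · subst hax
          rw [List.idxOf_cons_self]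
          constructor
          · intro _; exact ham
          · intro _; omega
        · have hx' : x ∈ K := by
            rcases List.mem_cons.1 hx with h | h
            · exact absurd h.symm hax
            · exact h
          rw [List.idxOf_cons_ne _ hax]
          have := idxOf_lt_countP' (m := m) hK.2 hx'
          rw [← this]
          omega
      · have h0 : K.countP (fun a => decide (a < m)) = 0 := by
          rw [List.countP_eq_zero]
          intro b hb
          have := hK.1 b hb
          simp only [decide_eq_true_eq]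
          omega
        simp only [ham, decide_false]
        rw [h0]
        constructor
        · intro h
          simp at h
        · intro h
          exfalso
          rcases List.mem_cons.1 hx with h1 | h1
          · omega
          · have := hK.1 x h1
            omega

theorem countP_from {a b : ℕ} : ∀ {K : List ℕ}, K.Pairwise (· < ·) → (∀ v ∈ K, a ≤ v) → b ∈ K →
    K.idxOf b + 1 ≤ K.countP (fun v => a ≤ v ∧ v ≤ b)
  | [], _, _, hb => by simp at hb
  | v :: K, hK, ha, hb => by
      rw [List.pairwise_cons] at hK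
      rw [List.countP_cons]
      have hav := ha v (by simp)
      by_cases e : v = b
      · subst e
        rw [List.idxOf_cons_self]
        have : decide (a ≤ v ∧ v ≤ v) = true := by simpa using hav
        rw [if_pos this]
        omega
      · have hbK : b ∈ K := by
          rcases List.mem_cons.1 hb with h | h
          · exact absurd h.symm e
          · exact h
        have h1 := hK.1 b hbK
        have ih := countP_from hK.2 (fun w hw => ha w (List.mem_cons_of_mem _ hw)) hbK
        rw [List.idxOf_cons_ne _ e]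
        have : decide (a ≤ v ∧ v ≤ b) = true := by
          rw [decide_eq_true_iff]
          exact ⟨hav, h1.le⟩
        rw [if_pos this]
        omega

theorem countP_between {a b : ℕ} : ∀ {K : List ℕ}, K.Pairwise (· < ·) → a ∈ K → b ∈ K → a ≤ b →
    K.idxOf b + 1 ≤ K.idxOf a + K.countP (fun v => a ≤ v ∧ v ≤ b)
  | [], _, ha, _, _ => by simp at ha
  | v :: K, hK, ha, hb, hab => by
      by_cases e : v = a
      · subst e
        rw [List.idxOf_cons_self, zero_add]
        refine countP_from hK ?_ hb
        intro w hw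
        rcases List.mem_cons.1 hw with h | h
        · exact h.ge
        · exact ((List.pairwise_cons.1 hK).1 w h).le
      · rw [List.pairwise_cons] at hK
        have haK : a ∈ K := by
          rcases List.mem_cons.1 ha with h | h
          · exact absurd h.symm e
          · exact h
        have h1 := hK.1 a haK
        have e' : v ≠ b := by omega
        have hbK : b ∈ K := by
          rcases List.mem_cons.1 hb with h | h
          · exact absurd h.symm e'
          · exact h
        have ih := countP_between hK.2 haK hbK hab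
        rw [List.idxOf_cons_ne _ e, List.idxOf_cons_ne _ e', List.countP_cons]
        omega

/-- The general theorem in terms of ranks and of bounds `s c` for the spans. -/
theorem main_bound {k : ℕ} (hk : 1 ≤ k) {T : BinaryTree ℕ} (hb : IsBST T)
    {Z : List (ℕ × Fin k)} (hZ : ∀ p ∈ Z, p.1 ∈ inorder T) {m : ℕ}
    (hp : Z.Pairwise (fun p q => p.2 = q.2 → (m ≤ p.1 → m ≤ q.1 → p.1 ≤ q.1) ∧
      (p.1 < m → q.1 < m → q.1 ≤ p.1)))
    {s : Fin k → ℕ} (hs : ∀ p ∈ Z, ∀ q ∈ Z, p.2 = q.2 → p.1 ≤ q.1 →
      (inorder T).countP (fun v => p.1 ≤ v ∧ v ≤ q.1) ≤ s p.2) :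
    (splayCost (Z.map Prod.fst) T : ℝ) ≤
      2 * ((inorder T).length + 1 + Z.length + ∑ c, (s c : ℝ)) * cK k := by
  set K := inorder T with hK
  have hKs : K.Pairwise (· < ·) := hb
  have hKn : K.Nodup := hKs.imp (fun h => ne_of_lt h)
  set f : ℕ → ℕ := fun a => K.idxOf a + 1 with hf
  have fmono : ∀ a ∈ K, ∀ b ∈ K, a < b → f a < f b := by
    intro a ha b hb' hab
    have := idxOf_mono' hKs ha hb' hab
    simp only [hf]
    omega
  have fmono' : ∀ a ∈ K, ∀ b ∈ K, a ≤ b → f a ≤ f b := by
    intro a ha b hb' hab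
    rcases Nat.eq_or_lt_of_le hab with h | h
    · rw [h]
    · exact (fmono a ha b hb' h).le
  have hmono : ∀ x ∈ K, Mono f x K := fun x hx a ha => ⟨fmono x hx a ha, fmono a ha x hx⟩
  set r := K.countP (fun a => a < m) with hr
  have hrm : ∀ x ∈ K, (r < f x ↔ m ≤ x) := by
    intro x hx
    have := idxOf_lt_countP' (m := m) hKs hx
    simp only [hf]
    rw [← not_lt (a := x) (b := m), ← this]
    omega
  have hT' : inorder (mapT f T) = List.range' 1 K.length := by
    rw [mapT_inorder]
    exact map_rank' hKn
  have hb' : IsBST (mapT f T) := by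
    unfold IsBST
    rw [hT']
    exact List.pairwise_lt_range'
  have h1 := both_sides (n := K.length) (r := r) (s := s) (T := mapT f T)
    (Z := Z.map (fun p => (f p.1, p.2))) hk List.countP_le_length hb' hT'
    (by
      intro p hp'
      obtain ⟨q, hq, rfl⟩ := List.mem_map.1 hp'
      rw [mapT_inorder]
      exact List.mem_map_of_mem (hZ q hq))
    (by
      rw [List.pairwise_map]
      refine hp.imp_of_mem ?_
      intro p q hp' hq' h e
      simp only at e ⊢
      have hpK := hZ p hp'
      have hqK := hZ q hq'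
      rw [hrm _ hpK, hrm _ hqK, ← not_lt (a := r), ← not_lt (a := r), hrm _ hpK, hrm _ hqK,
        not_le, not_le]
      exact ⟨fun a b => fmono' _ hpK _ hqK ((h e).1 a b),
        fun a b => fmono' _ hqK _ hpK ((h e).2 a b)⟩)
    (by
      intro p hp' q hq' e
      obtain ⟨p, hp'', rfl⟩ := List.mem_map.1 hp'
      obtain ⟨q, hq'', rfl⟩ := List.mem_map.1 hq'
      simp only at e ⊢
      have hpK := hZ p hp''
      have hqK := hZ q hq''
      rcases Nat.lt_or_ge q.1 p.1 with h | h
      · have := fmono _ hqK _ hpK h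
        omega
      · have h2 := countP_between hKs hpK hqK h
        have h3 := hs p hp'' q hq'' e h
        simp only [hf]
        omega)
  have e : (Z.map (fun p => (f p.1, p.2))).map Prod.fst = (Z.map Prod.fst).map f := by
    rw [List.map_map, List.map_map]
    rfl
  rw [e, mapT_cost hmono _ T hb rfl (by
    intro x hx
    obtain ⟨q, hq, rfl⟩ := List.mem_map.1 hx
    exact hZ q hq), List.length_map] at h1
  exact h1

end Pool.Agent.MP_c42954_lc.Scan
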