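import Pool.Agent.MP_c42954_lc.Scan.Stair

set_option autoImplicit false

/-!
# The nodes on the access path, and the drop at a crossing pair
-/

namespace Pool.Agent.MP_c42954_lc.Scan

open BinaryTree
open scoped Classical

/-! ## A covering lemma on finite sets of numbers -/

/-- The elements of `R` which start a window of `R` more than half of which lies in `V`. -/
noncomputable def badSet (R V : Finset ℕ) : Finset ℕ :=
  R.filter (fun b => ∃ β, (R.filter (fun v => b ≤ v ∧ v ≤ β)).card
    < 2 * (V.filter (fun v => b ≤ v ∧ v ≤ β)).card)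

theorem card_badSet (R V : Finset ℕ) : (badSet R V).card ≤ 2 * V.card := by
  induction hn : R.card using Nat.strong_induction_on generalizing R V with
  | _ n ih =>
    rcases (badSet R V).eq_empty_or_nonempty with h0 | h0
    · rw [h0]; simp
    · set b := (badSet R V).min' h0 with hbdef
      have hb : b ∈ badSet R V := Finset.min'_mem _ _
      have hbR : b ∈ R := (Finset.mem_filter.1 hb).1
      obtain ⟨β, hβ⟩ := (Finset.mem_filter.1 hb).2
      have hbβ : b ≤ β := by
        by_contra h
        push Not at h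
        have h1 : V.filter (fun v => b ≤ v ∧ v ≤ β) = ∅ := by
          rw [Finset.filter_eq_empty_iff]
          intro v _
          omega
        rw [h1] at hβ
        simp at hβ
      set R' := R.filter (fun v => β < v) with hR'
      set V' := V.filter (fun v => β < v) with hV'
      have hlt : R'.card < n := by
        rw [← hn]
        apply Finset.card_lt_card
        refine ⟨Finset.filter_subset _ _, fun h => ?_⟩
        have := (Finset.mem_filter.1 (h hbR)).2
        omega
      have hih := ih R'.card hlt R' V' rfl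
      have hsub : badSet R V ⊆ R.filter (fun v => b ≤ v ∧ v ≤ β) ∪ badSet R' V' := by
        intro c hc
        have hcR : c ∈ R := (Finset.mem_filter.1 hc).1
        have hbc : b ≤ c := Finset.min'_le _ _ hc
        rw [Finset.mem_union]
        rcases Nat.lt_or_ge β c with h1 | h1
        · right
          obtain ⟨γ, hγ⟩ := (Finset.mem_filter.1 hc).2
          refine Finset.mem_filter.2 ⟨Finset.mem_filter.2 ⟨hcR, h1⟩, γ, ?_⟩
          have e1 : R'.filter (fun v => c ≤ v ∧ v ≤ γ) = R.filter (fun v => c ≤ v ∧ v ≤ γ) := by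
            ext v
            simp only [hR', Finset.mem_filter]
            constructor
            · rintro ⟨⟨h2, _⟩, h3⟩; exact ⟨h2, h3⟩
            · rintro ⟨h2, h3⟩; exact ⟨⟨h2, by omega⟩, h3⟩
          have e2 : V'.filter (fun v => c ≤ v ∧ v ≤ γ) = V.filter (fun v => c ≤ v ∧ v ≤ γ) := by
            ext v
            simp only [hV', Finset.mem_filter]
            constructor
            · rintro ⟨⟨h2, _⟩, h3⟩; exact ⟨h2, h3⟩
            · rintro ⟨h2, h3⟩; exact ⟨⟨h2, by omega⟩, h3⟩
          rw [e1, e2]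
          exact hγ
        · left
          exact Finset.mem_filter.2 ⟨hcR, hbc, h1⟩
      have h1 : (badSet R V).card ≤
          (R.filter (fun v => b ≤ v ∧ v ≤ β)).card + (badSet R' V').card :=
        (Finset.card_le_card hsub).trans (Finset.card_union_le _ _)
      have h2 : (V.filter (fun v => b ≤ v ∧ v ≤ β)).card + V'.card ≤ V.card := by
        rw [← Finset.card_union_of_disjoint]
        · apply Finset.card_le_card
          intro v hv
          rcases Finset.mem_union.1 hv with h | h
          · exact (Finset.mem_filter.1 h).1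
          · exact (Finset.mem_filter.1 h).1
        · rw [Finset.disjoint_left]
          intro v h3 h4
          have h5 := (Finset.mem_filter.1 h3).2
          have h6 := (Finset.mem_filter.1 h4).2
          omega
      omega

/-! ## The nodes on the path -/

/-- The ancestors of `x` in `(x, e]`. -/
noncomputable def rset (x e : ℕ) (T : BinaryTree ℕ) : Finset ℕ :=
  (Finset.Ioc x e).filter (fun v => OnP v x T)

theorem mem_rset {x e v : ℕ} {T : BinaryTree ℕ} :
    v ∈ rset x e T ↔ (x < v ∧ v ≤ e) ∧ OnP v x T := by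
  simp [rset]

/-- `(p, g)` is a pair with both nodes in `(x, e]`. -/
def UU (x e : ℕ) (T : BinaryTree ℕ) (p g : ℕ) : Prop :=
  (p, g) ∈ pairUp (ancs x T) ∧ p ∈ rset x e T ∧ g ∈ rset x e T

/-- The upper nodes of such pairs. -/
noncomputable def ups (x e : ℕ) (T : BinaryTree ℕ) : Finset ℕ :=
  (rset x e T).filter (fun g => ∃ p, UU x e T p g)

/-- The lower nodes of such pairs. -/
noncomputable def los (x e : ℕ) (T : BinaryTree ℕ) : Finset ℕ :=
  (rset x e T).filter (fun p => ∃ g, UU x e T p g)

/-- The nodes in no such pair. -/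
noncomputable def unm (x e : ℕ) (T : BinaryTree ℕ) : Finset ℕ :=
  (rset x e T).filter (fun v => (¬ ∃ g, UU x e T v g) ∧ ¬ ∃ p, UU x e T p v)

section

variable {x e : ℕ} {T : BinaryTree ℕ}

theorem card_los_le (hb : IsBST T) (hm : x ∈ inorder T) : (los x e T).card ≤ (ups x e T).card := by
  have hex : ∀ p : ℕ, p ∈ los x e T → ∃ g, UU x e T p g := fun p hp => (Finset.mem_filter.1 hp).2
  choose! f hf using hex
  apply Finset.card_le_card_of_injOn f
  · intro p hp
    exact Finset.mem_coe.2 (Finset.mem_filter.2 ⟨(hf p hp).2.2, p, hf p hp⟩)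
  · intro p hp q hq hpq
    have h1 := (hf p hp).1
    have h2 := (hf q hq).1
    rw [← hpq] at h2
    exact pairUp_snd_inj (ancs_nodup hb hm) h1 h2

theorem card_rset_le (hb : IsBST T) (hm : x ∈ inorder T) :
    (rset x e T).card ≤ (unm x e T).card + 2 * (ups x e T).card := by
  have hsub : rset x e T ⊆ unm x e T ∪ (ups x e T ∪ los x e T) := by
    intro v hv
    simp only [Finset.mem_union, unm, ups, los, Finset.mem_filter]
    by_cases h1 : ∃ g, UU x e T v g
    · exact Or.inr (Or.inr ⟨hv, h1⟩)
    · by_cases h2 : ∃ p, UU x e T p v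
      · exact Or.inr (Or.inl ⟨hv, h2⟩)
      · exact Or.inl ⟨hv, h1, h2⟩
  have h1 := Finset.card_le_card hsub
  have h2 := Finset.card_union_le (unm x e T) (ups x e T ∪ los x e T)
  have h3 := Finset.card_union_le (ups x e T) (los x e T)
  have h4 := card_los_le (e := e) hb hm
  omega

/-- The window estimate: in a window of the path starting at the upper node of a pair, the
number of nodes is at most twice the number of upper nodes plus the unmatched ones. -/
theorem window (hb : IsBST T) (hm : x ∈ inorder T) {a b β : ℕ} (hab : UU x e T a b)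
    (hbβ : b ≤ β) :
    ((rset x e T).filter (fun v => b ≤ v ∧ v ≤ β)).card
      ≤ 2 * ((ups x e T).filter (fun v => b ≤ v ∧ v ≤ β)).card
        + ((unm x e T).filter (fun v => b ≤ v ∧ v ≤ β)).card := by
  have hax := (mem_rset.1 hab.2.1).1.1
  have hbx := (mem_rset.1 hab.2.2).1.1
  have hablt : a < b := pair_lt hb hm hab.1 hax hbx
  have hlos : ((los x e T).filter (fun v => b ≤ v ∧ v ≤ β)).card
      ≤ ((ups x e T).filter (fun v => b ≤ v ∧ v ≤ β)).card := by
    have hex : ∀ p : ℕ, p ∈ (los x e T).filter (fun v => b ≤ v ∧ v ≤ β) → ∃ g, UU x e T p g :=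
      fun p hp => (Finset.mem_filter.1 (Finset.mem_filter.1 hp).1).2
    choose! f hf using hex
    apply Finset.card_le_card_of_injOn (fun p => if f p ≤ β then f p else b)
    · intro p hp
      have hp' := (Finset.mem_filter.1 (Finset.mem_coe.1 hp)).2
      have hfp := hf p hp
      have hlt : p < f p := pair_lt hb hm hfp.1 (mem_rset.1 hfp.2.1).1.1 (mem_rset.1 hfp.2.2).1.1
      simp only [Finset.coe_filter, Set.mem_setOf_eq]
      split_ifs with h1
      · exact ⟨Finset.mem_filter.2 ⟨hfp.2.2, p, hfp⟩, by omega, h1⟩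
      · exact ⟨Finset.mem_filter.2 ⟨hab.2.2, a, hab⟩, le_rfl, hbβ⟩
    · intro p hp q hq hpq
      have hp' := (Finset.mem_filter.1 (Finset.mem_coe.1 hp)).2
      have hq' := (Finset.mem_filter.1 (Finset.mem_coe.1 hq)).2
      have hfp := hf p hp
      have hfq := hf q hq
      have hnd := ancs_nodup hb hm
      simp only at hpq
      split_ifs at hpq with h1 h2 h2
      · have h3 := hfq.1
        rw [← hpq] at h3
        exact pairUp_snd_inj hnd hfp.1 h3
      · have h3 := hfp.1
        rw [hpq] at h3
        have := pairUp_snd_inj hnd h3 hab.1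
        omega
      · have h3 := hfq.1
        rw [← hpq] at h3
        have := pairUp_snd_inj hnd h3 hab.1
        omega
      · -- both partners lie beyond the window
        push Not at h1 h2
        have hpr := mem_rset.1 hfp.2.1
        have hqr := mem_rset.1 hfq.2.1
        rcases pair_adj hb hm hfp.1 hqr.2 hqr.1.1 hpr.1.1 with h4 | h4
        · rcases pair_adj hb hm hfq.1 hpr.2 hpr.1.1 hqr.1.1 with h5 | h5
          · omega
          · omega
        · omega
  have hsub : (rset x e T).filter (fun v => b ≤ v ∧ v ≤ β) ⊆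
      (unm x e T).filter (fun v => b ≤ v ∧ v ≤ β) ∪
        ((ups x e T).filter (fun v => b ≤ v ∧ v ≤ β) ∪
          (los x e T).filter (fun v => b ≤ v ∧ v ≤ β)) := by
    intro v hv
    obtain ⟨hv, hw⟩ := Finset.mem_filter.1 hv
    simp only [Finset.mem_union, unm, ups, los, Finset.mem_filter]
    by_cases h1 : ∃ g, UU x e T v g
    · exact Or.inr (Or.inr ⟨⟨hv, h1⟩, hw⟩)
    · by_cases h2 : ∃ p, UU x e T p v
      · exact Or.inr (Or.inl ⟨⟨hv, h2⟩, hw⟩)
      · exact Or.inl ⟨⟨hv, h1, h2⟩, hw⟩
  have h1 := Finset.card_le_card hsub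
  have h2 := Finset.card_union_le ((unm x e T).filter (fun v => b ≤ v ∧ v ≤ β))
    ((ups x e T).filter (fun v => b ≤ v ∧ v ≤ β) ∪ (los x e T).filter (fun v => b ≤ v ∧ v ≤ β))
  have h3 := Finset.card_union_le ((ups x e T).filter (fun v => b ≤ v ∧ v ≤ β))
    ((los x e T).filter (fun v => b ≤ v ∧ v ≤ β))
  omega

/-! ## Crossing pairs -/

variable {u α β a b : ℕ}

/-- Below a crossing pair, the ancestors of `u` and of `x` in the window agree. -/
theorem cross_tops (hb : IsBST T) (hxu : x < u) (hab : UU x e T a b)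
    (hua : u ≤ a) (haα : a ≤ α) {v : ℕ} (hv : α < v) :
    OnP v u T ↔ OnP v x T := by
  constructor
  · intro h
    have h1 : OnP v a T := onP_convex hb h (Or.inr ⟨hua, by omega⟩)
    exact onP_trans hb h1 (mem_rset.1 hab.2.1).2
  · intro h
    exact onP_convex hb h (Or.inr ⟨by omega, by omega⟩)

theorem cross_ge (hb : IsBST T) (hm : x ∈ inorder T) (hxu : x < u) (hab : UU x e T a b)
    (hua : u ≤ a) (haα : a ≤ α) {v : ℕ} (hv : α < v) (h : OnP v x T) : b ≤ v := by
  have hax := (mem_rset.1 hab.2.1).1.1
  rcases pair_adj hb hm hab.1 h (by omega) hax with h1 | h1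
  · omega
  · exact h1

theorem cross_tops_eq (hb : IsBST T) (hm : x ∈ inorder T) (hxu : x < u) (hab : UU x e T a b)
    (hua : u ≤ a) (haα : a ≤ α) (hαb : α < b) (hβe : β ≤ e) :
    tops T u (Finset.Ioc α β) = (rset x e T).filter (fun v => b ≤ v ∧ v ≤ β) := by
  ext v
  rw [mem_tops, Finset.mem_filter, mem_rset, Finset.mem_Ioc]
  constructor
  · rintro ⟨⟨h1, h2⟩, h3⟩
    have h4 := (cross_tops hb hxu hab hua haα h1).1 h3
    have h5 := cross_ge hb hm hxu hab hua haα h1 h4
    exact ⟨⟨⟨by omega, by omega⟩, h4⟩, h5, h2⟩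
  · rintro ⟨⟨h1, h2⟩, h3, h4⟩
    exact ⟨⟨by omega, h4⟩, (cross_tops hb hxu hab hua haα (by omega)).2 h2⟩

/-- The upper nodes in the window are all lost. -/
theorem cross_lose (hb : IsBST T) (hm : x ∈ inorder T) (hxu : x < u) (hab : UU x e T a b)
    (hua : u ≤ a) (haα : a ≤ α) (hαb : α < b) :
    (ups x e T).filter (fun v => b ≤ v ∧ v ≤ β) ⊆ lose T x u (Finset.Ioc α β) := by
  intro v hv
  obtain ⟨h1, h2, h3⟩ := Finset.mem_filter.1 hv
  obtain ⟨h4, p, hp⟩ := Finset.mem_filter.1 h1
  have hvx := mem_rset.1 h4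
  have hbx := mem_rset.1 hab.2.2
  have hpx := mem_rset.1 hp.2.1
  rw [mem_lose]
  refine ⟨Finset.mem_Ioc.2 ⟨by omega, h3⟩, (cross_tops hb hxu hab hua haα (by omega)).2 hvx.2, ?_⟩
  intro h5
  have hplt : p < v := pair_lt hb hm hp.1 hpx.1.1 hvx.1.1
  have hup : u ≤ p := by
    rcases Nat.eq_or_lt_of_le h2 with h6 | h6
    · subst h6
      have := pairUp_snd_inj (ancs_nodup hb hm) hp.1 hab.1
      omega
    · rcases pair_adj hb hm hp.1 hbx.2 hbx.1.1 hpx.1.1 with h7 | h7
      · omega
      · omega
  exact ((splay_right hb hm hxu (by omega)).1 h5).2 ⟨p, hp.1, hup⟩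

/-- The drop at a good crossing pair whose upper node is not the last one on the path. -/
theorem cross_drop {C C' : Finset ℕ} (hb : IsBST T) (hm : x ∈ inorder T) (hxu : x < u)
    (hab : UU x e T a b) (hua : u ≤ a) (haα : a ≤ α) (hαb : α < b) (hbβ : b ≤ β) (hβe : β ≤ e)
    (hC : ∀ c ∈ C, c ∈ inorder T ∧ e < c) (hC' : C' ⊆ C)
    (htop : ∃ v ∈ rset x e T, b < v) (hgood : b ∉ badSet (rset x e T) (unm x e T)) :
    Yh (splay x T) C' u (Finset.Ioc α β) + 1 ≤ Yh T C u (Finset.Ioc α β) ∧
      (tops T u (Finset.Ioc α β)).card + 8 * Yh (splay x T) C' u (Finset.Ioc α β)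
        ≤ 8 * Yh T C u (Finset.Ioc α β) := by
  have huα : u ≤ α := hua.trans haα
  have hW : ∀ w ∈ Finset.Ioc α β, u < w := fun w hw => by
    have := Finset.mem_Ioc.1 hw
    omega
  have hWC : ∀ c ∈ C, ∀ w ∈ Finset.Ioc α β, w < c := fun c hc w hw => by
    have := Finset.mem_Ioc.1 hw
    have := (hC c hc).2
    omega
  have hbx := mem_rset.1 hab.2.2
  have hlsub := cross_lose (β := β) hb hm hxu hab hua haα hαb
  have hlcard := Finset.card_le_card hlsub
  have hwin := window hb hm hab hbβ
  have htops := cross_tops_eq hb hm hxu hab hua haα hαb hβe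
  have hg : 2 * ((unm x e T).filter (fun v => b ≤ v ∧ v ≤ β)).card
      ≤ ((rset x e T).filter (fun v => b ≤ v ∧ v ≤ β)).card := by
    by_contra h
    push Not at h
    exact hgood (Finset.mem_filter.2 ⟨hab.2.2, β, h⟩)
  have hbups : b ∈ (ups x e T).filter (fun v => b ≤ v ∧ v ≤ β) :=
    Finset.mem_filter.2 ⟨Finset.mem_filter.2 ⟨hab.2.2, a, hab⟩, le_rfl, hbβ⟩
  have hblose := hlsub hbups
  rw [htops]
  rcases left_access hb hm hxu hW (fun c hc => (hC c hc).1) hWC hC' with h | ⟨h, v0, hv0, hv0x, c, hc, hv0c⟩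
  · have h1 : 1 ≤ (lose T x u (Finset.Ioc α β)).card := Finset.card_pos.2 ⟨b, hblose⟩
    constructor
    · omega
    · omega
  · have hne : v0 ≠ b := by
      rintro rfl
      obtain ⟨v, hv, hbv⟩ := htop
      have hvr := mem_rset.1 hv
      have hec := (hC c hc).2
      have h2 : OnP v0 v T := onP_convex hb hv0c (Or.inl ⟨by omega, by omega⟩)
      have h3 : OnP v v0 T := onP_convex hb hvr.2 (Or.inr ⟨by omega, by omega⟩)
      have := onP_antisymm hb h2 h3
      omega
    have h1 : 2 ≤ (lose T x u (Finset.Ioc α β)).card := by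
      have h2 : ({v0, b} : Finset ℕ) ⊆ lose T x u (Finset.Ioc α β) := by
        intro w hw
        simp only [Finset.mem_insert, Finset.mem_singleton] at hw
        rcases hw with rfl | rfl
        · exact hv0
        · exact hblose
      have h3 := Finset.card_le_card h2
      rwa [Finset.card_pair hne] at h3
    constructor
    · omega
    · omega

end

end Pool.Agent.MP_c42954_lc.Scan
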