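import Mathlib

set_option autoImplicit false

/-!
# Splay trees: the definitions of the problem

The definitions `inorder`, `IsBST`, `depth`, `Rot`, `splayStep`, `splay`, `splayCost` and `Exec`
follow the problem file of `MP_c42954_lc`.  Keys are natural numbers.
-/

namespace Pool.Agent.MP_c42954_lc.Scan

open BinaryTree

/-- The keys of a tree in symmetric order. -/
def inorder : BinaryTree ℕ → List ℕ
  | .nil => []
  | .node a l r => inorder l ++ a :: inorder r

/-- Binary search trees: the symmetric order is strictly increasing. -/
def IsBST (t : BinaryTree ℕ) : Prop := (inorder t).Pairwise (· < ·)

/-- Depth of the key `x` (number of edges from the root), read off along the search path. -/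
def depth (x : ℕ) : BinaryTree ℕ → ℕ
  | .nil => 0
  | .node a l r => if x = a then 0 else if x < a then depth x l + 1 else depth x r + 1

/-- One splaying step at the key `x`.
* `x` is the root (or absent): nothing happens.
* The parent of `x` is the root: rotate at `x` (zig).
* `x` has parent `y` and grandparent `z` on the same side: rotate at `y`, then at `x` (zig-zig).
* `x` has parent `y` and grandparent `z` on different sides: rotate at `x` twice (zig-zag).
* `x` lies deeper: the same step is carried out further down, inside the subtree holding `x`. -/
def splayStep (x : ℕ) : BinaryTree ℕ → BinaryTree ℕ
  | .nil => .nil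
  | .node z l r =>
    if x = z then .node z l r
    else if x < z then
      match l with
      | .nil => .node z .nil r
      | .node y a c =>
        if x = y then .node y a (.node z c r)
        else if x < y then
          match a with
          | .nil => .node z (.node y .nil c) r
          | .node w p q =>
            if x = w then .node w p (.node y q (.node z c r))
            else .node z (splayStep x l) r
        else
          match c with
          | .nil => .node z (.node y a .nil) r
          | .node w p q =>
            if x = w then .node w (.node y a p) (.node z q r)
            else .node z (splayStep x l) r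
    else
      match r with
      | .nil => .node z l .nil
      | .node y a c =>
        if x = y then .node y (.node z l a) c
        else if y < x then
          match c with
          | .nil => .node z l (.node y a .nil)
          | .node w p q =>
            if x = w then .node w (.node y (.node z l a) p) q
            else .node z l (splayStep x r)
        else
          match a with
          | .nil => .node z l (.node y .nil c)
          | .node w p q =>
            if x = w then .node w (.node z l p) (.node y q c)
            else .node z l (splayStep x r)

/-- Splaying `x`: splaying steps at `x` are repeated until `x` is the root.  (Every step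
lowers the depth of `x`, and a step does nothing once `x` is the root, so `depth x t` steps
are enough and more do no harm.) -/
def splay (x : ℕ) (t : BinaryTree ℕ) : BinaryTree ℕ := (splayStep x)^[depth x t] t

/-- `cost_splay(X, T)`: each request costs one plus the depth of the requested key. -/
def splayCost : List ℕ → BinaryTree ℕ → ℕ
  | [], _ => 0
  | x :: X, T => (1 + depth x T) + splayCost X (splay x T)

/-- `Rot t t'`: the tree `t'` arises from `t` by one rotation at some non-root node. -/
inductive Rot : BinaryTree ℕ → BinaryTree ℕ → Prop
  | atLeftChild (a b : ℕ) (A B C : BinaryTree ℕ) :
      Rot (.node a (.node b A B) C) (.node b A (.node a B C))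
  | atRightChild (a b : ℕ) (A B C : BinaryTree ℕ) :
      Rot (.node a A (.node b B C)) (.node b (.node a A B) C)
  | inLeft (c : ℕ) {l l' : BinaryTree ℕ} (r : BinaryTree ℕ) :
      Rot l l' → Rot (.node c l r) (.node c l' r)
  | inRight (c : ℕ) (l : BinaryTree ℕ) {r r' : BinaryTree ℕ} :
      Rot r r' → Rot (.node c l r) (.node c l r')

/-- `RotSeq e t t'`: a sequence of `e` rotations turns `t` into `t'`. -/
inductive RotSeq : ℕ → BinaryTree ℕ → BinaryTree ℕ → Prop
  | refl (t : BinaryTree ℕ) : RotSeq 0 t t
  | step {e : ℕ} {t u v : BinaryTree ℕ} : Rot t u → RotSeq e u v → RotSeq (e + 1) t v

/-- `Exec T X c`: there is an execution for `(X, T)` of cost `c`.  For the first request `x`, some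
`e` rotations turn `T` into `T'` and `x` is searched for in `T`, which costs `1 + e + depth x T`;
then the remaining requests are served from `T'`. -/
inductive Exec : BinaryTree ℕ → List ℕ → ℕ → Prop
  | nil (T : BinaryTree ℕ) : Exec T [] 0
  | cons {T T' : BinaryTree ℕ} {x : ℕ} {X : List ℕ} {e c : ℕ} :
      RotSeq e T T' → Exec T' X c → Exec T (x :: X) (1 + e + depth x T + c)

end Pool.Agent.MP_c42954_lc.Scan
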