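import Pool.Agent.MP_c42954_lc.Scan.Layer

set_option autoImplicit false

/-!
# The drop of the potential of a layer when its own finger is accessed
-/

namespace Pool.Agent.MP_c42954_lc.Scan

open BinaryTree
open scoped Classical

/-- A form of `charge` in which the set of cells depends on the scale. -/
theorem charge' {ι : Type*} (E : Finset ι) (S : ℕ → Finset ℕ) (L : ℕ) (I : ι → ℕ → ℕ → Prop)
    (f f' : ℕ → ℕ → ℝ)
    (h1 : ∀ s < L, ∀ u ∈ S s, ∀ q ∈ E, I q u s → f' u s + 1 / 2 ^ s ≤ f u s)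
    (h2 : ∀ s < L, ∀ u ∈ S s, f' u s ≤ f u s)
    (h3 : ∀ s < L, ∀ u ∈ S s, ∀ q ∈ E, ∀ q' ∈ E, I q u s → I q' u s → q = q')
    (h4 : ∀ q ∈ E, ∃ s < L, 2 ^ s ≤ ((S s).filter (fun u => I q u s)).card) :
    (E.card : ℝ) + ∑ s ∈ Finset.range L, ∑ u ∈ S s, f' u s
      ≤ ∑ s ∈ Finset.range L, ∑ u ∈ S s, f u s := by
  have hconv : ∀ h : ℕ → ℕ → ℝ, ∑ s ∈ Finset.range L, ∑ u ∈ S s, h u s =
      ∑ u ∈ (Finset.range L).biUnion S, ∑ s ∈ Finset.range L, if u ∈ S s then h u s else 0 := by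
    intro h
    rw [Finset.sum_comm]
    refine Finset.sum_congr rfl fun s hs => ?_
    rw [← Finset.sum_filter]
    refine Finset.sum_congr ?_ fun _ _ => rfl
    ext u
    rw [Finset.mem_filter, Finset.mem_biUnion]
    exact ⟨fun hu => ⟨⟨s, hs, hu⟩, hu⟩, fun hu => hu.2⟩
  rw [hconv f, hconv f']
  apply charge E _ L (fun q u s => u ∈ S s ∧ I q u s)
  · intro u _ s hs q hq hI
    rw [if_pos hI.1, if_pos hI.1]
    exact h1 s hs u hI.1 q hq hI.2
  · intro u _ s hs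
    split_ifs with h
    · exact h2 s hs u h
    · exact le_rfl
  · intro u _ s hs q hq q' hq' hI hI'
    exact h3 s hs u hI.1 q hq q' hq' hI.2 hI'.2
  · intro q hq
    obtain ⟨s, hs, hc⟩ := h4 q hq
    refine ⟨s, hs, hc.trans (Finset.card_le_card ?_)⟩
    intro u hu
    have hu' := Finset.mem_filter.1 hu
    exact (@Finset.mem_filter _ _ (fun _ => Classical.propDecidable _) _ _).2
      ⟨Finset.mem_biUnion.2 ⟨s, Finset.mem_range.2 hs, hu'.1⟩, hu'⟩

/-- Charging whole cells. -/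
theorem charge1 {ι κ : Type*} [DecidableEq κ] (E : Finset ι) (R : Finset κ) (φ : ι → κ)
    (f f' : κ → ℝ) (hφ : ∀ q ∈ E, φ q ∈ R) (inj : ∀ q ∈ E, ∀ q' ∈ E, φ q = φ q' → q = q')
    (h1 : ∀ q ∈ E, f' (φ q) + 1 ≤ f (φ q)) (h2 : ∀ r ∈ R, f' r ≤ f r) :
    (E.card : ℝ) + ∑ r ∈ R, f' r ≤ ∑ r ∈ R, f r := by
  have hcard : (E.image φ).card = E.card :=
    Finset.card_image_of_injOn (fun q hq q' hq' h => inj q hq q' hq' h)
  have hsub : E.image φ ⊆ R := by
    intro r hr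
    obtain ⟨q, hq, rfl⟩ := Finset.mem_image.1 hr
    exact hφ q hq
  have h3 : ∑ r ∈ E.image φ, (1 : ℝ) ≤ ∑ r ∈ R, (f r - f' r) := by
    calc ∑ r ∈ E.image φ, (1 : ℝ) ≤ ∑ r ∈ E.image φ, (f r - f' r) := by
          refine Finset.sum_le_sum fun r hr => ?_
          obtain ⟨q, hq, rfl⟩ := Finset.mem_image.1 hr
          have := h1 q hq
          linarith
      _ ≤ ∑ r ∈ R, (f r - f' r) := by
          apply Finset.sum_le_sum_of_subset_of_nonneg hsub
          intro r hr _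
          have := h2 r hr
          linarith
  rw [Finset.sum_sub_distrib] at h3
  simp only [Finset.sum_const, nsmul_eq_mul, mul_one] at h3
  rw [hcard] at h3
  linarith

/-! ## The kinds of pairs -/

/-- Early pairs well below the upper finger. -/
noncomputable def EP1 (x e : ℕ) (T : BinaryTree ℕ) : Finset (ℕ × ℕ) :=
  (GP x e T).filter (fun q => early x q ∧ q.2 + 2 ^ (Nat.log 2 (q.2 - q.1)) ≤ e)

/-- The pairs charged to the windows. -/
noncomputable def WP (x e k : ℕ) (T : BinaryTree ℕ) : Finset (ℕ × ℕ) :=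
  (GP x e T).filter (fun q => (early x q ∧ e < q.2 + 2 ^ (Nat.log 2 (q.2 - q.1))) ∨
    (light x e k T q ∧ q.2 < ((e + 1) / 2 ^ (Nat.log 2 (q.1 - x) - 2)) *
      2 ^ (Nat.log 2 (q.1 - x) - 2)))

/-- The light pairs next to the upper finger. -/
noncomputable def BP (x e k : ℕ) (T : BinaryTree ℕ) : Finset (ℕ × ℕ) :=
  (GP x e T).filter (fun q => light x e k T q ∧ ((e + 1) / 2 ^ (Nat.log 2 (q.1 - x) - 2)) *
      2 ^ (Nat.log 2 (q.1 - x) - 2) ≤ q.2)

section

variable {T : BinaryTree ℕ} {C : Finset ℕ} {k L M x g : ℕ}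

theorem early_charge' (hb : IsBST T) (hxT : x ∈ inorder T)
    (hC : ∀ c ∈ C, c ∈ inorder T ∧ g ≤ c) (hk : C.card ≤ k) (hL : g ≤ 2 ^ L) (hxg : x < g)
    (hmono : ∀ u W, x < u → (∀ w ∈ W, u < w ∧ w < g) → Yh (splay x T) C u W ≤ Yh T C u W) :
    ((EP1 x (g - 1) T).card : ℝ) + eS k L (splay x T) C x g ≤ eS k L T C x g := by
  have facts : ∀ q ∈ EP1 x (g - 1) T, q ∈ GP x (g - 1) T ∧ q ∈ PP x (g - 1) T ∧ x < q.1 ∧
      q.1 < q.2 ∧ q.2 ≤ g - 1 ∧ 2 ^ (Nat.log 2 (q.2 - q.1)) ≤ q.2 - q.1 ∧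
      q.2 - q.1 < 2 * 2 ^ (Nat.log 2 (q.2 - q.1)) ∧ x + 3 * 2 ^ (Nat.log 2 (q.2 - q.1)) < q.2 ∧
      q.2 + 2 ^ (Nat.log 2 (q.2 - q.1)) ≤ g - 1 := by
    intro q hq
    obtain ⟨h1, h2, h2'⟩ := Finset.mem_filter.1 hq
    have h3 := (Finset.mem_filter.1 h1).1
    obtain ⟨h4, h5, h6⟩ := PP_facts hb hxT h3
    have h7 : 2 ^ (Nat.log 2 (q.2 - q.1)) ≤ q.2 - q.1 := Nat.pow_log_le_self 2 (by omega)
    have h8 := Nat.lt_pow_succ_log_self (b := 2) (by norm_num) (q.2 - q.1)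
    rw [pow_succ] at h8
    exact ⟨h1, h3, h4, h5, h6, h7, by omega, h2, h2'⟩
  unfold eS
  apply charge' (EP1 x (g - 1) T) (fun s => Finset.Ioo x (g - 3 * 2 ^ s)) L
    (fun q u s => s = Nat.log 2 (q.2 - q.1) ∧ q.2 ≤ u + 3 * 2 ^ s ∧ u + 2 * 2 ^ s < q.2)
  · rintro s hs u hu q hq ⟨rfl, h2, h3⟩
    obtain ⟨hG, hP, h4, h5, h6, h7, h8, h9, h10⟩ := facts q hq
    rw [Finset.mem_Ioo] at hu
    obtain ⟨hqP, hbad, htop⟩ := Finset.mem_filter.1 hG
    set s := Nat.log 2 (q.2 - q.1) with hsdef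
    have hdrop := cross_drop (C := C) (C' := C) (α := u + 2 * 2 ^ s) (β := u + 3 * 2 ^ s)
      (u := u) hb hxT hu.1 (mem_PP.1 hqP) (by omega) (by omega) (by omega) (by omega) (by omega)
      (fun c hc => ⟨(hC c hc).1, by have := (hC c hc).2; omega⟩) (Finset.Subset.refl _) htop hbad
    have hW : (Finset.Ioc (u + 2 * 2 ^ s) (u + 3 * 2 ^ s)).card ≤ 2 ^ s := by
      rw [Nat.card_Ioc]; omega
    have hle := Yh_le T C u (Finset.Ioc (u + 2 * 2 ^ s) (u + 3 * 2 ^ s)) hk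
    have := psi_drop (K := min k (2 ^ s)) hdrop.1 hdrop.2 (by omega)
    unfold eV
    rw [← add_div]
    gcongr
  · intro s hs u hu
    rw [Finset.mem_Ioo] at hu
    unfold eV
    have := psi_mono (K := min k (2 ^ s)) (hmono u (Finset.Ioc (u + 2 * 2 ^ s) (u + 3 * 2 ^ s))
      hu.1 (by
        intro w hw
        rw [Finset.mem_Ioc] at hw
        omega))
    gcongr
  · rintro s hs u hu q hq q' hq' ⟨h1, h2, h3⟩ ⟨h1', h2', h3'⟩
    obtain ⟨hG, hP, h4, h5, h6, h7, h8, h9, h10⟩ := facts q hq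
    obtain ⟨hG', hP', h4', h5', h6', h7', h8', h9', h10'⟩ := facts q' hq'
    rw [← h1] at h7 h8 h9
    rw [← h1'] at h7' h8' h9'
    exact cross_unique (u := u) (α := u + 2 * 2 ^ s) hb hxT (by omega) hP hP' (by omega) (by omega)
      (by omega) (by omega) (by omega) (by omega)
  · intro q hq
    obtain ⟨hG, hP, h4, h5, h6, h7, h8, h9, h10⟩ := facts q hq
    set s := Nat.log 2 (q.2 - q.1) with hsdef
    refine ⟨s, ?_, ?_⟩
    · by_contra hc
      push Not at hc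
      have : 2 ^ L ≤ 2 ^ s := Nat.pow_le_pow_right (by norm_num) hc
      omega
    · refine le_trans ?_ (Finset.card_le_card
        (s := Finset.Ico (q.2 - 3 * 2 ^ s) (q.2 - 2 * 2 ^ s)) ?_)
      · rw [Nat.card_Ico]
        omega
      · intro u hu
        rw [Finset.mem_Ico] at hu
        refine (@Finset.mem_filter _ _ (fun _ => Classical.propDecidable _) _ _).2
          ⟨Finset.mem_Ioo.2 ⟨by omega, by omega⟩, hsdef, by omega, by omega⟩

/-- The window of a pair charged to the windows. -/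
theorem win_fact (hb : IsBST T) (hxT : x ∈ inorder T) (hk : C.card ≤ k) (hL : g ≤ 2 ^ L)
    (hM : g ≤ x + M) {q : ℕ × ℕ} (hq : q ∈ WP x (g - 1) k T) :
    ∃ p : ℕ × ℕ, p.1 < L ∧ 2 ^ p.1 ≤ M ∧ p.2 < 9 ∧ wu x p.1 ≤ q.1 ∧ q.1 ≤ wa x g p.1 p.2 ∧
      wa x g p.1 p.2 < q.2 ∧ q.2 ≤ wb g p.1 ∧
      Yh T C (wu x p.1) (Finset.Ioc (wa x g p.1 p.2) (wb g p.1)) ≤
        (tops T (wu x p.1) (Finset.Ioc (wa x g p.1 p.2) (wb g p.1))).card + min k (4 * 2 ^ p.1) ∧
      Yh T C (wu x p.1) (Finset.Ioc (wa x g p.1 p.2) (wb g p.1)) ≤ 8 * 4 ^ p.1 := by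
  obtain ⟨h1, h2⟩ := Finset.mem_filter.1 hq
  obtain ⟨hP, hbad, v, hv, hvq⟩ := Finset.mem_filter.1 h1
  obtain ⟨h3, h4, h5⟩ := PP_facts hb hxT hP
  have hvr := mem_rset.1 hv
  have h6 : 2 ^ (Nat.log 2 (q.2 - q.1)) ≤ q.2 - q.1 := Nat.pow_log_le_self 2 (by omega)
  have h7 := Nat.lt_pow_succ_log_self (b := 2) (by norm_num) (q.2 - q.1)
  rw [pow_succ] at h7
  have h24 : ∀ s : ℕ, 2 ^ s ≤ 4 ^ s := fun s => Nat.pow_le_pow_left (by norm_num) s
  rcases h2 with ⟨h8, h9⟩ | ⟨h8, h9⟩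
  · -- an early pair next to the upper finger
    unfold early at h8
    set h := 2 ^ (Nat.log 2 (q.2 - q.1)) with hh
    obtain ⟨δ, hδ⟩ : ∃ δ, g = q.2 + δ := ⟨g - q.2, by omega⟩
    have hδ2 : 2 ≤ δ := by omega
    have hlog : 1 ≤ Nat.log 2 δ := Nat.log_pos (by norm_num) hδ2
    obtain ⟨s, hs⟩ : ∃ s, s + 1 = Nat.log 2 δ := ⟨Nat.log 2 δ - 1, by omega⟩
    have h10 : 2 ^ (Nat.log 2 δ) ≤ δ := Nat.pow_log_le_self 2 (by omega)
    have h11 := Nat.lt_pow_succ_log_self (b := 2) (by norm_num) δ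
    rw [← hs, pow_succ] at h10
    rw [← hs, Nat.succ_eq_add_one, pow_succ, pow_succ] at h11
    set H := 2 ^ s with hH
    have hHpos : 0 < H := by positivity
    obtain ⟨F, hF⟩ : ∃ F, F = g / H := ⟨_, rfl⟩
    obtain ⟨Q, hQ⟩ : ∃ Q, Q = (q.2 - 1) / H := ⟨_, rfl⟩
    obtain ⟨G, hG⟩ : ∃ G, G = x / H := ⟨_, rfl⟩
    have f1 := Nat.div_add_mod g H
    have f2 := Nat.mod_lt g hHpos
    have q1 := Nat.div_add_mod (q.2 - 1) H
    have q2 := Nat.mod_lt (q.2 - 1) hHpos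
    have g1 := Nat.div_add_mod x H
    have g2 := Nat.mod_lt x hHpos
    rw [← hF] at f1
    rw [← hQ] at q1
    rw [← hG] at g1
    have eF : F * H = H * F := by ring
    have eQ : Q * H = H * Q := by ring
    have eG : (G + 1) * H = H * G + H := by ring
    have eQ1 : (Q + 1) * H = H * Q + H := by ring
    have eQ5 : (Q + 5) * H = H * Q + 5 * H := by ring
    have hlow : Q + 1 < F := by
      apply Nat.lt_of_mul_lt_mul_right (a := H)
      rw [eQ1, eF]
      omega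
    have hhigh : F < Q + 5 := by
      apply Nat.lt_of_mul_lt_mul_right (a := H)
      rw [eQ5, eF]
      omega
    obtain ⟨r, hr⟩ : ∃ r, F = Q + (r + 2) := ⟨F - Q - 2, by omega⟩
    have hr3 : r < 3 := by omega
    have hwa : wa x g s r = Q * H := by
      unfold wa
      rw [if_pos hr3, ← hH, ← hF, hr, Nat.add_sub_cancel]
    have hwu : wu x s = (G + 1) * H := by
      unfold wu
      rw [← hH, ← hG]
    have hwb : wb g s = F * H - 1 := by
      unfold wb
      rw [← hH, ← hF]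
    have hcard : (Finset.Ioc (Q * H) (F * H - 1)).card ≤ 4 * H := by
      rw [Nat.card_Ioc]
      have e : F * H ≤ (Q + 4) * H := Nat.mul_le_mul_right _ (by omega)
      have e' : (Q + 4) * H = Q * H + 4 * H := by ring
      omega
    refine ⟨(s, r), ?_, ?_, by show r < 9; omega, ?_, ?_, ?_, ?_, ?_, ?_⟩
    · show s < L
      by_contra hc
      push Not at hc
      have : 2 ^ L ≤ 2 ^ s := Nat.pow_le_pow_right (by norm_num) hc
      omega
    · show 2 ^ s ≤ M
      omega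
    · show wu x s ≤ q.1
      rw [hwu, eG]
      omega
    · show q.1 ≤ wa x g s r
      rw [hwa, eQ]
      omega
    · show wa x g s r < q.2
      rw [hwa, eQ]
      omega
    · show q.2 ≤ wb g s
      rw [hwb, eF]
      omega
    · show Yh T C (wu x s) (Finset.Ioc (wa x g s r) (wb g s)) ≤
        (tops T (wu x s) (Finset.Ioc (wa x g s r) (wb g s))).card + min k (4 * 2 ^ s)
      rw [hwa, hwb]
      have := Yh_le T C (wu x s) (Finset.Ioc (Q * H) (F * H - 1)) hk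
      omega
    · show Yh T C (wu x s) (Finset.Ioc (wa x g s r) (wb g s)) ≤ 8 * 4 ^ s
      rw [hwa, hwb]
      have := Yh_le' T C (wu x s) (Finset.Ioc (Q * H) (F * H - 1))
      have := h24 s
      omega
  · -- a light pair
    obtain ⟨h8a, h8b, h8c, h8d⟩ := h8
    obtain ⟨s, hs⟩ : ∃ s, s + 2 = Nat.log 2 (q.1 - x) := ⟨Nat.log 2 (q.1 - x) - 2, by omega⟩
    rw [← hs, Nat.add_sub_cancel] at h8c h8d h9
    have h10 : 2 ^ (Nat.log 2 (q.1 - x)) ≤ q.1 - x := Nat.pow_log_le_self 2 (by omega)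
    have h11 := Nat.lt_pow_succ_log_self (b := 2) (by norm_num) (q.1 - x)
    rw [← hs] at h10 h11
    have e1 : 2 ^ (s + 2) = 4 * 2 ^ s := by ring
    have e2 : 2 ^ (s + 2).succ = 8 * 2 ^ s := by rw [Nat.succ_eq_add_one]; ring
    rw [e1] at h10
    rw [e2] at h11
    unfold early at h8a
    push Not at h8a
    have hg1 : g - 1 + 1 = g := by omega
    rw [hg1] at h9
    set H := 2 ^ s with hH
    have hHpos : 0 < H := by positivity
    obtain ⟨F, hF⟩ : ∃ F, F = g / H := ⟨_, rfl⟩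
    obtain ⟨Q, hQ⟩ : ∃ Q, Q = (q.1 + H - 1) / H := ⟨_, rfl⟩
    obtain ⟨G, hG⟩ : ∃ G, G = x / H := ⟨_, rfl⟩
    have f1 := Nat.div_add_mod g H
    have f2 := Nat.mod_lt g hHpos
    have q1 := Nat.div_add_mod (q.1 + H - 1) H
    have q2 := Nat.mod_lt (q.1 + H - 1) hHpos
    have g1 := Nat.div_add_mod x H
    have g2 := Nat.mod_lt x hHpos
    rw [← hF] at f1 h9
    rw [← hQ] at q1
    rw [← hG] at g1
    have eF : F * H = H * F := by ring
    have eQ : Q * H = H * Q := by ring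
    have eG : (G + 1) * H = H * G + H := by ring
    have eG3 : (G + 3) * H = H * G + 3 * H := by ring
    have eG10 : (G + 10) * H = H * G + 10 * H := by ring
    have hlow : G + 3 < Q := by
      apply Nat.lt_of_mul_lt_mul_right (a := H)
      rw [eG3, eQ]
      omega
    have hhigh : Q < G + 10 := by
      apply Nat.lt_of_mul_lt_mul_right (a := H)
      rw [eG10, eQ]
      omega
    obtain ⟨r, hr⟩ : ∃ r, Q = G + (r + 1) := ⟨Q - G - 1, by omega⟩
    have hr3 : ¬ r < 3 := by omega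
    have hwa : wa x g s r = Q * H := by
      unfold wa
      rw [if_neg hr3, ← hH, ← hG, hr]
    have hwu : wu x s = (G + 1) * H := by
      unfold wu
      rw [← hH, ← hG]
    have hwb : wb g s = F * H - 1 := by
      unfold wb
      rw [← hH, ← hF]
    have hxu : x < wu x s := lt_wu x s
    have hua : wu x s ≤ q.1 := by
      rw [hwu, eG]
      omega
    have htops : (tops T (wu x s) (Finset.Ioc (Q * H) (F * H - 1))).card < 4 ^ s := by
      rw [cross_tops_eq (a := q.1) (b := q.2) (x := x) (e := g - 1) hb hxT hxu (mem_PP.1 hP) hua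
        (by rw [eQ]; omega) (by rw [eQ]; omega) (by rw [eF]; omega)]
      exact lt_of_le_of_lt (Finset.card_filter_le _ _) h8d
    have hY := Yh_le T C (wu x s) (Finset.Ioc (Q * H) (F * H - 1)) hk
    have h24s := h24 s
    refine ⟨(s, r), ?_, ?_, by show r < 9; omega, hua, ?_, ?_, ?_, ?_, ?_⟩
    · show s < L
      by_contra hc
      push Not at hc
      have : 2 ^ L ≤ 2 ^ s := Nat.pow_le_pow_right (by norm_num) hc
      omega
    · show 2 ^ s ≤ M
      omega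
    · show q.1 ≤ wa x g s r
      rw [hwa, eQ]
      omega
    · show wa x g s r < q.2
      rw [hwa, eQ]
      omega
    · show q.2 ≤ wb g s
      rw [hwb]
      omega
    · show Yh T C (wu x s) (Finset.Ioc (wa x g s r) (wb g s)) ≤
        (tops T (wu x s) (Finset.Ioc (wa x g s r) (wb g s))).card + min k (4 * 2 ^ s)
      rw [hwa, hwb]
      omega
    · show Yh T C (wu x s) (Finset.Ioc (wa x g s r) (wb g s)) ≤ 8 * 4 ^ s
      rw [hwa, hwb]
      omega

theorem window_charge (hb : IsBST T) (hxT : x ∈ inorder T)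
    (hC : ∀ c ∈ C, c ∈ inorder T ∧ g ≤ c) (hk : C.card ≤ k) (hL : g ≤ 2 ^ L) (hxg : x < g)
    (hM : g ≤ x + M)
    (hmono : ∀ u W, x < u → (∀ w ∈ W, u < w ∧ w < g) → Yh (splay x T) C u W ≤ Yh T C u W) :
    ((WP x (g - 1) k T).card : ℝ) + wW k L M (splay x T) C x g ≤ wW k L M T C x g := by
  have hex : ∀ q : ℕ × ℕ, q ∈ WP x (g - 1) k T → ∃ p : ℕ × ℕ, p.1 < L ∧ 2 ^ p.1 ≤ M ∧ p.2 < 9 ∧
      wu x p.1 ≤ q.1 ∧ q.1 ≤ wa x g p.1 p.2 ∧ wa x g p.1 p.2 < q.2 ∧ q.2 ≤ wb g p.1 ∧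
      Yh T C (wu x p.1) (Finset.Ioc (wa x g p.1 p.2) (wb g p.1)) ≤
        (tops T (wu x p.1) (Finset.Ioc (wa x g p.1 p.2) (wb g p.1))).card + min k (4 * 2 ^ p.1) ∧
      Yh T C (wu x p.1) (Finset.Ioc (wa x g p.1 p.2) (wb g p.1)) ≤ 8 * 4 ^ p.1 :=
    fun q hq => win_fact hb hxT hk hL hM hq
  choose! φ hφ using hex
  have key : ((WP x (g - 1) k T).card : ℝ) +
      ∑ p ∈ ((Finset.range L).filter (fun s => 2 ^ s ≤ M)) ×ˢ Finset.range 9,
        wV k (splay x T) C x g p.1 p.2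
      ≤ ∑ p ∈ ((Finset.range L).filter (fun s => 2 ^ s ≤ M)) ×ˢ Finset.range 9,
        wV k T C x g p.1 p.2 := by
    apply charge1 (WP x (g - 1) k T) _ φ (fun p => wV k T C x g p.1 p.2)
      (fun p => wV k (splay x T) C x g p.1 p.2)
    · intro q hq
      obtain ⟨h1, h2, h3, _⟩ := hφ q hq
      rw [Finset.mem_product, Finset.mem_filter, Finset.mem_range, Finset.mem_range]
      exact ⟨⟨h1, h2⟩, h3⟩
    · intro q hq q' hq' h
      obtain ⟨_, _, _, h4, h5, h6, _⟩ := hφ q hq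
      obtain ⟨_, _, _, h4', h5', h6', _⟩ := hφ q' hq'
      rw [← h] at h4' h5' h6'
      have hP := (Finset.mem_filter.1 (Finset.mem_filter.1 hq).1).1
      have hP' := (Finset.mem_filter.1 (Finset.mem_filter.1 hq').1).1
      exact cross_unique hb hxT (lt_wu x _) hP hP' h4 h5 h6 h4' h5' h6'
    · intro q hq
      obtain ⟨_, _, _, h4, h5, h6, h7, h8, h9⟩ := hφ q hq
      obtain ⟨hP, hbad, htop⟩ := Finset.mem_filter.1 (Finset.mem_filter.1 hq).1
      have h10 := PP_facts hb hxT hP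
      have hbx : wb g (φ q).1 ≤ g - 1 := by
        have := wb_lt (g := g) (s := (φ q).1) (w := wb g (φ q).1) (by omega) le_rfl
        omega
      have hdrop := cross_drop (C := C) (C' := C) (α := wa x g (φ q).1 (φ q).2)
        (β := wb g (φ q).1) (u := wu x (φ q).1) hb hxT (lt_wu x _) (mem_PP.1 hP) h4 h5 h6 h7 hbx
        (fun c hc => ⟨(hC c hc).1, by have := (hC c hc).2; omega⟩) (Finset.Subset.refl _) htop hbad
      have := psi_drop (K := min k (4 * 2 ^ (φ q).1)) hdrop.1 hdrop.2 h8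
      have h9' := (Nat.le_of_succ_le hdrop.1).trans h9
      simp only [wV]
      rw [max_eq_right (h4.trans h5), min_eq_left h9, min_eq_left h9']
      exact this
    · intro p hp
      unfold wV
      apply psi_mono
      apply min_le_min_right
      apply hmono _ _ (lt_wu x _)
      intro w hw
      rw [Finset.mem_Ioc] at hw
      have := wb_lt (g := g) (s := p.1) (by omega : 0 < w) hw.2
      omega
  have conv : ∀ T' : BinaryTree ℕ, wW k L M T' C x g =
      ∑ p ∈ ((Finset.range L).filter (fun s => 2 ^ s ≤ M)) ×ˢ Finset.range 9,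
        wV k T' C x g p.1 p.2 + ∑ s ∈ (Finset.range L).filter (fun s => 2 ^ s ≤ M),
          wB k s * ((((x % 2 ^ s : ℕ) : ℝ) + ((g % 2 ^ s : ℕ) : ℝ)) / 2 ^ s) := by
    intro T'
    unfold wW
    rw [← Finset.sum_filter, Finset.sum_add_distrib, Finset.sum_product]
  rw [conv, conv]
  linarith

/-- At most one light pair is next to the upper finger. -/
theorem card_BP (hb : IsBST T) (hxT : x ∈ inorder T) (hg : 0 < g) :
    (BP x (g - 1) k T).card ≤ 1 := by
  have key : ∀ q ∈ BP x (g - 1) k T, ∀ q' ∈ BP x (g - 1) k T, q.2 < q'.2 → False := by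
    intro q hq q' hq' hlt
    obtain ⟨h1, ⟨h2, h3, _, _⟩, h4⟩ := Finset.mem_filter.1 hq
    obtain ⟨h1', ⟨h2', h3', _, _⟩, h4'⟩ := Finset.mem_filter.1 hq'
    have hP := (Finset.mem_filter.1 h1).1
    have hP' := (Finset.mem_filter.1 h1').1
    obtain ⟨f1, f2, f3⟩ := PP_facts hb hxT hP
    obtain ⟨f1', f2', f3'⟩ := PP_facts hb hxT hP'
    have hne : q.2 ≤ q'.1 := by
      rcases pair_adj hb hxT (mem_PP.1 hP').1 (mem_rset.1 (mem_PP.1 hP).2.2).2 (by omega) f1'
        with h | h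
      · exact h
      · omega
    obtain ⟨s, hs⟩ : ∃ s, s + 2 = Nat.log 2 (q.1 - x) := ⟨Nat.log 2 (q.1 - x) - 2, by omega⟩
    rw [← hs, Nat.add_sub_cancel] at h4
    have hg1 : g - 1 + 1 = g := by omega
    rw [hg1] at h4
    have h10 : 2 ^ (Nat.log 2 (q.1 - x)) ≤ q.1 - x := Nat.pow_log_le_self 2 (by omega)
    rw [← hs] at h10
    have e1 : 2 ^ (s + 2) = 4 * 2 ^ s := by ring
    rw [e1] at h10
    have h6 : 2 ^ (Nat.log 2 (q'.2 - q'.1)) ≤ q'.2 - q'.1 := Nat.pow_log_le_self 2 (by omega)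
    unfold early at h2'
    push Not at h2'
    have m1 := Nat.div_add_mod g (2 ^ s)
    have m2 := Nat.mod_lt g (show 0 < 2 ^ s by positivity)
    have m3 : g / 2 ^ s * 2 ^ s = 2 ^ s * (g / 2 ^ s) := by ring
    omega
  rw [Finset.card_le_one]
  intro q hq q' hq'
  have hP := (Finset.mem_filter.1 (Finset.mem_filter.1 hq).1).1
  have hP' := (Finset.mem_filter.1 (Finset.mem_filter.1 hq').1).1
  apply PP_snd_inj hb hxT hP hP'
  rcases Nat.lt_trichotomy q.2 q'.2 with h | h | h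
  · exact (key q hq q' hq' h).elim
  · exact h
  · exact (key q' hq' q hq h).elim

theorem card_GP_le' (x g k : ℕ) (T : BinaryTree ℕ) :
    (GP x (g - 1) T).card ≤ (EP1 x (g - 1) T).card + (WP x (g - 1) k T).card
      + (BP x (g - 1) k T).card + (HP x (g - 1) k T).card := by
  have hsub : GP x (g - 1) T ⊆ ((EP1 x (g - 1) T ∪ WP x (g - 1) k T) ∪ BP x (g - 1) k T) ∪
      HP x (g - 1) k T := by
    intro q hq
    simp only [Finset.mem_union, EP1, WP, BP, HP, Finset.mem_filter]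
    by_cases h1 : early x q
    · by_cases h2 : q.2 + 2 ^ (Nat.log 2 (q.2 - q.1)) ≤ g - 1
      · exact Or.inl (Or.inl (Or.inl ⟨hq, h1, h2⟩))
      · exact Or.inl (Or.inl (Or.inr ⟨hq, Or.inl ⟨h1, by omega⟩⟩))
    · by_cases h2 : light x (g - 1) k T q
      · rcases Nat.lt_or_ge q.2 (((g - 1) + 1) / 2 ^ (Nat.log 2 (q.1 - x) - 2) *
          2 ^ (Nat.log 2 (q.1 - x) - 2)) with h3 | h3
        · exact Or.inl (Or.inl (Or.inr ⟨hq, Or.inr ⟨h2, h3⟩⟩))
        · exact Or.inl (Or.inr ⟨hq, h2, h3⟩)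
      · exact Or.inr ⟨hq, h1, h2⟩
  have h1 := Finset.card_le_card hsub
  have h2 := Finset.card_union_le ((EP1 x (g - 1) T ∪ WP x (g - 1) k T) ∪ BP x (g - 1) k T)
    (HP x (g - 1) k T)
  have h3 := Finset.card_union_le (EP1 x (g - 1) T ∪ WP x (g - 1) k T) (BP x (g - 1) k T)
  have h4 := Finset.card_union_le (EP1 x (g - 1) T) (WP x (g - 1) k T)
  omega

/-- The cost of an access in terms of the ancestors outside and of the charged pairs. -/
theorem depth_bound (hb : IsBST T) (hm : x ∈ inorder T) (hg : 0 < g) :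
    depth x T ≤ 11 * outs x (g - 1) T + 4 * (EP1 x (g - 1) T).card
      + 4 * (WP x (g - 1) k T).card + 46 + 8 * Nat.log 2 k := by
  have h0 := depth_eq (e := g - 1) hb hm
  have h1 := card_rset_le (e := g - 1) hb hm
  have h2 := card_ups_le_PP (x := x) (e := g - 1) (T := T)
  have h3 := card_PP_le (e := g - 1) hb hm
  have h4 := card_GP_le' x g k T
  have h5 := card_HP (k := k) (e := g - 1) hb hm
  have h6 := four_log_le (rset x (g - 1) T).card
  have h7 := card_unm_le (e := g - 1) hb hm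
  have h8 := card_BP (k := k) hb hm hg
  omega

end

end Pool.Agent.MP_c42954_lc.Scan
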