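import Pool.Agent.MP_c42954_lc.Scan.Drop

set_option autoImplicit false

/-!
# Several fingers moving to the right

The state consists of fingers `f 1 ≥ f 2 ≥ ... ≥ f k` (and `f 0 = n + 1`).  A request `(x, j)` with
`j ≥ 1` is served by the finger `j`, with `f j ≤ x < f (j - 1)`, which moves to `x`; a request
`(x, 0)` has `x ≤ m` and moves no finger.
-/

namespace Pool.Agent.MP_c42954_lc.Scan

open BinaryTree
open scoped Classical

/-- The sequence of labelled requests is served from the fingers `f`. -/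
def Ok (m k : ℕ) : (ℕ → ℕ) → List (ℕ × ℕ) → Prop
  | _, [] => True
  | f, (x, j) :: X => (j = 0 ∧ x ≤ m ∧ Ok m k f X) ∨
      (1 ≤ j ∧ j ≤ k ∧ f j ≤ x ∧ x < f (j - 1) ∧ Ok m k (Function.update f j x) X)

/-- The final fingers. -/
def fin' : (ℕ → ℕ) → List (ℕ × ℕ) → (ℕ → ℕ)
  | f, [] => f
  | f, (x, j) :: X => if j = 0 then fin' f X else fin' (Function.update f j x) X

/-- The next key with label `j`. -/
def nx (j : ℕ) : List (ℕ × ℕ) → Finset ℕ
  | [] => ∅
  | (x, i) :: X => if i = j then {x} else nx j X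

/-- The next keys with labels in `[1, i)`. -/
noncomputable def CC (X : List (ℕ × ℕ)) (i : ℕ) : Finset ℕ :=
  (Finset.Ico 1 i).biUnion (fun j => nx j X)

/-- The weights: the number of fingers at `v`. -/
noncomputable def wF (k : ℕ) (f : ℕ → ℕ) (v : ℕ) : ℕ :=
  ((Finset.Icc 1 k).filter (fun i => f i = v)).card

theorem mem_CC {X : List (ℕ × ℕ)} {i c : ℕ} : c ∈ CC X i ↔ ∃ j, 1 ≤ j ∧ j < i ∧ c ∈ nx j X := by
  unfold CC
  rw [Finset.mem_biUnion]
  constructor
  · rintro ⟨j, hj, hc⟩
    rw [Finset.mem_Ico] at hj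
    exact ⟨j, hj.1, hj.2, hc⟩
  · rintro ⟨j, h1, h2, hc⟩
    exact ⟨j, Finset.mem_Ico.2 ⟨h1, h2⟩, hc⟩

theorem card_nx (j : ℕ) : ∀ X : List (ℕ × ℕ), (nx j X).card ≤ 1
  | [] => by simp [nx]
  | (x, i) :: X => by
      simp only [nx]
      split_ifs
      · simp
      · exact card_nx j X

theorem card_CC (X : List (ℕ × ℕ)) (i : ℕ) : (CC X i).card ≤ i - 1 := by
  unfold CC
  refine (Finset.card_biUnion_le).trans ?_
  refine (Finset.sum_le_card_nsmul _ _ 1 (fun j _ => card_nx j X)).trans ?_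
  rw [Nat.card_Ico, smul_eq_mul, mul_one]

theorem nx_mem {j c : ℕ} : ∀ {X : List (ℕ × ℕ)}, c ∈ nx j X → ∃ p ∈ X, p.1 = c
  | [], h => by simp [nx] at h
  | (x, i) :: X, h => by
      simp only [nx] at h
      split_ifs at h with h1
      · exact ⟨(x, i), by simp, (Finset.mem_singleton.1 h).symm⟩
      · obtain ⟨p, hp, h2⟩ := nx_mem h
        exact ⟨p, List.mem_cons_of_mem _ hp, h2⟩

section

variable {m k : ℕ}

theorem nx_ge {j c : ℕ} (hj : 1 ≤ j) : ∀ {X : List (ℕ × ℕ)} {f : ℕ → ℕ}, Ok m k f X → c ∈ nx j X →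
    f j ≤ c
  | [], f, _, h => by simp [nx] at h
  | (x, i) :: X, f, hok, h => by
      simp only [Ok] at hok
      simp only [nx] at h
      split_ifs at h with h1
      · rw [Finset.mem_singleton] at h
        subst h h1
        rcases hok with ⟨h2, _⟩ | ⟨_, _, h2, _⟩
        · omega
        · exact h2
      · rcases hok with ⟨_, _, h2⟩ | ⟨_, _, _, _, h2⟩
        · exact nx_ge hj h2 h
        · have := nx_ge hj h2 h
          rwa [Function.update_of_ne (Ne.symm h1)] at this

theorem le_fin : ∀ {X : List (ℕ × ℕ)} {f : ℕ → ℕ}, Ok m k f X → ∀ i, f i ≤ fin' f X i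
  | [], f, _, i => le_rfl
  | (x, j) :: X, f, hok, i => by
      simp only [Ok] at hok
      simp only [fin']
      rcases hok with ⟨h1, _, h2⟩ | ⟨h1, _, h3, _, h2⟩
      · rw [if_pos h1]
        exact le_fin h2 i
      · rw [if_neg (by omega)]
        refine le_trans ?_ (le_fin h2 i)
        by_cases h4 : i = j
        · subst h4
          rw [Function.update_self]
          exact h3
        · rw [Function.update_of_ne h4]

theorem fin_zero : ∀ (X : List (ℕ × ℕ)) (f : ℕ → ℕ), fin' f X 0 = f 0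
  | [], f => rfl
  | (x, j) :: X, f => by
      simp only [fin']
      split_ifs with h
      · exact fin_zero X f
      · rw [fin_zero X, Function.update_of_ne (by omega)]

theorem CC_cons_of_le {x i j : ℕ} {X : List (ℕ × ℕ)} (h : i ≤ j ∨ j = 0) :
    CC ((x, j) :: X) i = CC X i := by
  ext c
  rw [mem_CC, mem_CC]
  refine exists_congr fun a => ?_
  constructor
  · rintro ⟨h1, h2, h3⟩
    simp only [nx] at h3
    rw [if_neg (by omega)] at h3
    exact ⟨h1, h2, h3⟩
  · rintro ⟨h1, h2, h3⟩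
    refine ⟨h1, h2, ?_⟩
    simp only [nx]
    rw [if_neg (by omega)]
    exact h3

theorem mem_CC_self {x i j : ℕ} {X : List (ℕ × ℕ)} (h1 : 1 ≤ j) (h2 : j < i) :
    x ∈ CC ((x, j) :: X) i := by
  rw [mem_CC]
  exact ⟨j, h1, h2, by simp [nx]⟩

theorem CC_next {x i j : ℕ} {X : List (ℕ × ℕ)} {f : ℕ → ℕ}
    (hok : Ok m k (Function.update f j x) X) :
    ∀ c ∈ CC X i, x ≤ c ∨ (c ∈ CC ((x, j) :: X) i ∧ c < x) := by
  intro c hc
  obtain ⟨a, h1, h2, h3⟩ := mem_CC.1 hc
  by_cases h4 : a = j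
  · subst h4
    have := nx_ge h1 hok h3
    rw [Function.update_self] at this
    exact Or.inl this
  · rcases Nat.lt_or_ge c x with h5 | h5
    · right
      refine ⟨mem_CC.2 ⟨a, h1, h2, ?_⟩, h5⟩
      simp only [nx]
      rw [if_neg (Ne.symm h4)]
      exact h3
    · exact Or.inl h5

end

/-! ## Cells -/

section

variable {T : BinaryTree ℕ} {C C' : Finset ℕ} {l g n y : ℕ}

theorem cell_left (hb : IsBST T) (hy : y ∈ inorder T) (hyl : y ≤ l)
    (hC : ∀ c ∈ C, c ∈ inorder T ∧ g ≤ c) :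
    ∀ u W, l < u → (∀ w ∈ W, u < w ∧ w < g) → Yh (splay y T) C u W ≤ Yh T C u W := by
  intro u W hu hW
  refine left_access_mono hb hy (by omega) (fun w hw => (hW w hw).1) (fun c hc => (hC c hc).1)
    (fun c hc w hw => ?_) (Finset.Subset.refl _)
  have := (hW w hw).2
  have := (hC c hc).2
  omega

theorem cell_right (hb : IsBST T) (hk : ∀ v, v ∈ inorder T ↔ 1 ≤ v ∧ v ≤ n)
    (hy : y ∈ inorder T) (hg : g ≤ n + 1) (hC : ∀ c ∈ C, c ∈ inorder T ∧ g ≤ c) (hyC : y ∈ C)
    (hC' : ∀ c ∈ C', y ≤ c ∨ (c ∈ C ∧ c < y)) :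
    ∀ u W, l < u → (∀ w ∈ W, u < w ∧ w < g) → Yh (splay y T) C' u W ≤ Yh T C u W := by
  intro u W hu hW
  rcases W.eq_empty_or_nonempty with h | ⟨w, hw⟩
  · subst h
    rw [Yh_empty, Yh_empty]
  · have h1 := hW w hw
    refine right_access' hb hy ((hk u).2 ⟨by omega, by omega⟩) (fun w hw => (hW w hw).1)
      (fun c hc w hw => ?_) hyC hC'
    have := (hW w hw).2
    have := (hC c hc).2
    omega

end

/-! ## The state -/

/-- The state of the system. -/
structure St (n m k : ℕ) (T : BinaryTree ℕ) (f : ℕ → ℕ) (X : List (ℕ × ℕ)) : Prop where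
  bst : IsBST T
  keys : ∀ v, v ∈ inorder T ↔ 1 ≤ v ∧ v ≤ n
  zero : f 0 = n + 1
  anti : ∀ i < k, f (i + 1) ≤ f i
  low : m ≤ f k
  ok : Ok m k f X
  mem : ∀ p ∈ X, p.1 ∈ inorder T

section

variable {n m k : ℕ} {T : BinaryTree ℕ} {f : ℕ → ℕ} {X : List (ℕ × ℕ)}

theorem St.anti' (h : St n m k T f X) {i j : ℕ} (hij : i ≤ j) (hj : j ≤ k) : f j ≤ f i := by
  induction j with
  | zero =>
    have : i = 0 := by omega
    subst this
    exact le_rfl
  | succ j ih =>
    rcases Nat.eq_or_lt_of_le hij with h1 | h1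
    · subst h1; exact le_rfl
    · exact (h.anti j (by omega)).trans (ih (by omega) (by omega))

theorem St.low' (h : St n m k T f X) {i : ℕ} (hi : i ≤ k) : m ≤ f i :=
  h.low.trans (h.anti' hi le_rfl)

theorem St.le_n (h : St n m k T f X) {i : ℕ} (hi : i ≤ k) : f i ≤ n + 1 := by
  have := h.anti' (Nat.zero_le i) hi
  rw [h.zero] at this
  exact this

theorem St.cc (h : St n m k T f X) {i : ℕ} (hi : i ≤ k) :
    ∀ c ∈ CC X i, c ∈ inorder T ∧ f (i - 1) ≤ c := by
  intro c hc
  obtain ⟨j, h1, h2, h3⟩ := mem_CC.1 hc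
  obtain ⟨p, hp, h4⟩ := nx_mem h3
  refine ⟨h4 ▸ h.mem p hp, ?_⟩
  have h5 := nx_ge h1 h.ok h3
  have h6 := h.anti' (i := j) (j := i - 1) (by omega) (by omega)
  omega

theorem St.skip {x : ℕ} (h : St n m k T f ((x, 0) :: X)) : x ≤ m ∧ St n m k (splay x T) f X := by
  have hxT : x ∈ inorder T := h.mem (x, 0) (by simp)
  have hok := h.ok
  simp only [Ok] at hok
  rcases hok with ⟨_, h1, h2⟩ | ⟨h1, _⟩
  · refine ⟨h1, splay_bst h.bst hxT, ?_, h.zero, h.anti, h.low, h2, ?_⟩
    · rw [splay_inorder h.bst hxT]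
      exact h.keys
    · intro p hp
      rw [splay_inorder h.bst hxT]
      exact h.mem p (List.mem_cons_of_mem _ hp)
  · omega

theorem St.move {x j : ℕ} (h : St n m k T f ((x, j) :: X)) (hj : 1 ≤ j) :
    j ≤ k ∧ f j ≤ x ∧ x < f (j - 1) ∧ St n m k (splay x T) (Function.update f j x) X := by
  have hxT : x ∈ inorder T := h.mem (x, j) (by simp)
  have hok := h.ok
  simp only [Ok] at hok
  rcases hok with ⟨h1, _⟩ | ⟨_, h1, h2, h3, h4⟩
  · omega
  · refine ⟨h1, h2, h3, splay_bst h.bst hxT, ?_, ?_, ?_, ?_, h4, ?_⟩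
    · rw [splay_inorder h.bst hxT]
      exact h.keys
    · rw [Function.update_of_ne (by omega)]
      exact h.zero
    · intro i hi
      have h5 := h.anti i hi
      by_cases e1 : i + 1 = j
      · subst e1
        rw [Function.update_self, Function.update_of_ne (by omega)]
        simpa using h3.le
      · by_cases e2 : i = j
        · subst e2
          rw [Function.update_self, Function.update_of_ne (by omega)]
          omega
        · rw [Function.update_of_ne e1, Function.update_of_ne e2]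
          exact h5
    · by_cases e1 : k = j
      · subst e1
        rw [Function.update_self]
        exact h.low.trans h2
      · rw [Function.update_of_ne e1]
        exact h.low
    · intro p hp
      rw [splay_inorder h.bst hxT]
      exact h.mem p (List.mem_cons_of_mem _ hp)

/-! ## Weights -/

theorem wt_wF_le (hb : IsBST T) : wt (wF k f) T ≤ k := by
  have hnd : (inorder T).Nodup := hb.imp (fun h => ne_of_lt h)
  rw [wt_eq_sum, ← List.sum_toFinset _ hnd]
  unfold wF
  have h1 : ∀ v, ((Finset.Icc 1 k).filter (fun i => f i = v)).card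
      = ∑ i ∈ Finset.Icc 1 k, if f i = v then 1 else 0 := by
    intro v
    rw [Finset.card_filter]
  simp only [h1]
  rw [Finset.sum_comm]
  have h2 : ∀ i ∈ Finset.Icc 1 k, (∑ v ∈ (inorder T).toFinset, if f i = v then 1 else 0) ≤ 1 := by
    intro i _
    rw [Finset.sum_ite_eq]
    split_ifs <;> simp
  refine (Finset.sum_le_card_nsmul _ _ 1 h2).trans ?_
  rw [Nat.card_Icc, smul_eq_mul]
  omega

theorem wF_update (k : ℕ) (f : ℕ → ℕ) (j x : ℕ) :
    (∀ v, v ≠ x → wF k (Function.update f j x) v ≤ wF k f v) ∧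
      wF k (Function.update f j x) x ≤ wF k f x + 1 := by
  constructor
  · intro v hv
    apply Finset.card_le_card
    intro i hi
    rw [Finset.mem_filter] at hi ⊢
    refine ⟨hi.1, ?_⟩
    by_cases h : i = j
    · subst h
      rw [Function.update_self] at hi
      exact absurd hi.2.symm hv
    · rw [Function.update_of_ne h] at hi
      exact hi.2
  · unfold wF
    refine le_trans (Finset.card_le_card (t := insert j ((Finset.Icc 1 k).filter
      (fun i => f i = x))) ?_) (Finset.card_insert_le _ _)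
    intro i hi
    rw [Finset.mem_filter] at hi
    by_cases h : i = j
    · rw [h]; exact Finset.mem_insert_self _ _
    · rw [Function.update_of_ne h] at hi
      exact Finset.mem_insert_of_mem (Finset.mem_filter.2 hi)

theorem one_le_wF {i v : ℕ} (h1 : 1 ≤ i) (h2 : i ≤ k) (h3 : f i = v) : 1 ≤ wF k f v :=
  Finset.card_pos.2 ⟨i, Finset.mem_filter.2 ⟨Finset.mem_Icc.2 ⟨h1, h2⟩, h3⟩⟩

theorem outs_le' (hb : IsBST T) (hkeys : ∀ v, v ∈ inorder T ↔ 1 ≤ v ∧ v ≤ n) {x l g : ℕ}
    (hx : x ∈ inorder T) (hlx : l ≤ x) (hxg : x < g) (hl : 1 ≤ wF k f l)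
    (hg : g = n + 1 ∨ 1 ≤ wF k f g) :
    outs x (g - 1) T ≤ cnt (wF k f) x T + (x - l) := by
  have hxk := (hkeys x).1 hx
  have h1 : outs x (g - 1) T ≤ (ancs x T).countP (fun v => v ≤ l ∨ g ≤ v)
      + (ancs x T).countP (fun v => l < v ∧ v < x) := by
    unfold outs
    have e : ∀ l' : List ℕ, (∀ v ∈ l', v ≠ x) →
        l'.countP (fun v => ¬ (x < v ∧ v ≤ g - 1)) ≤ l'.countP (fun v => v ≤ l ∨ g ≤ v)
        + l'.countP (fun v => l < v ∧ v < x) := by
      intro l'
      induction l' with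
      | nil => intro _; simp
      | cons a l' ih =>
        intro h
        have ih' := ih (fun v hv => h v (List.mem_cons_of_mem _ hv))
        have hax := h a (by simp)
        simp only [List.countP_cons]
        simp only [decide_eq_true_eq] at ih' ⊢
        split_ifs <;> omega
    apply e
    intro v hv
    exact ((mem_ancs hb hx).1 hv).2
  have h2 : (ancs x T).countP (fun v => l < v ∧ v < x) ≤ x - l := by
    rw [List.countP_eq_length_filter, ← List.toFinset_card_of_nodup ((ancs_nodup hb hx).filter _)]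
    refine (Finset.card_le_card (t := Finset.Ioo l x) ?_).trans ?_
    · intro v hv
      rw [List.mem_toFinset, List.mem_filter] at hv
      rw [Finset.mem_Ioo]
      simpa using hv.2
    · rw [Nat.card_Ioo]
      omega
  have h3 : (ancs x T).countP (fun v => v ≤ l ∨ g ≤ v) ≤ cnt (wF k f) x T := by
    refine countP_le_cnt (fun v => v ≤ l ∨ g ≤ v) hb hx ?_
    intro v hv hvx hne
    have hvT := (hkeys v).1 (onP_mem hvx)
    rcases hv with hv | hv
    · exact ⟨l, (hkeys l).2 ⟨by omega, by omega⟩, onP_convex hb hvx (Or.inl ⟨hv, hlx⟩), hl⟩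
    · rcases hg with hg | hg
      · omega
      · exact ⟨g, (hkeys g).2 ⟨by omega, by omega⟩,
          onP_convex hb hvx (Or.inr ⟨hxg.le, hv⟩), hg⟩
  omega

end

end Pool.Agent.MP_c42954_lc.Scan
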