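import Pool.Agent.MP_c42954_lc.Scan.Total

set_option autoImplicit false

/-!
# Serving arbitrary scans by the nearest finger to the left
-/

namespace Pool.Agent.MP_c42954_lc.Scan

open BinaryTree
open scoped Classical

/-- The requests above `m` with label `c` do not lie to the left of the last position `P c`. -/
def OkP {k : ℕ} (m : ℕ) : (Fin k → ℕ) → List (ℕ × Fin k) → Prop
  | _, [] => True
  | P, (x, c) :: Z => (x ≤ m ∧ OkP m P Z) ∨ (m < x ∧ P c ≤ x ∧ OkP m (Function.update P c x) Z)

/-- The final positions. -/
def finP {k : ℕ} (m : ℕ) : (Fin k → ℕ) → List (ℕ × Fin k) → (Fin k → ℕ)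
  | P, [] => P
  | P, (x, c) :: Z => if x ≤ m then finP m P Z else finP m (Function.update P c x) Z

/-- The number of fingers beyond `z`. -/
noncomputable def NF (k : ℕ) (f : ℕ → ℕ) (z : ℕ) : ℕ :=
  ((Finset.Icc 1 k).filter (fun i => z < f i)).card

/-- The number of positions beyond `z`. -/
noncomputable def NP {k : ℕ} (P : Fin k → ℕ) (z : ℕ) : ℕ :=
  (Finset.univ.filter (fun c => z < P c)).card

theorem greedy {n m k : ℕ} : ∀ (Z : List (ℕ × Fin k)) (P : Fin k → ℕ) (f : ℕ → ℕ),
    f 0 = n + 1 → (∀ i < k, f (i + 1) ≤ f i) → (∀ z, NF k f z ≤ NP P z) → OkP m P Z →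
    (∀ p ∈ Z, p.1 ≤ n) → ∃ X : List (ℕ × ℕ), X.map Prod.fst = Z.map Prod.fst ∧ Ok m k f X ∧
      ∀ z, NF k (fin' f X) z ≤ NP (finP m P Z) z
  | [], P, f, _, _, hN, _, _ => ⟨[], rfl, trivial, hN⟩
  | (x, c) :: Z, P, f, h0, ha, hN, hok, hn => by
      simp only [OkP] at hok
      have hxn : x ≤ n := hn (x, c) (by simp)
      rcases hok with ⟨hx, hok⟩ | ⟨hx, hPc, hok⟩
      · obtain ⟨X, h1, h2, h3⟩ := greedy Z P f h0 ha hN hok
          (fun p hp => hn p (List.mem_cons_of_mem _ hp))
        refine ⟨(x, 0) :: X, ?_, ?_, ?_⟩
        · simp [h1]
        · simp only [Ok]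
          exact Or.inl ⟨trivial, hx, h2⟩
        · simp only [fin', finP, if_true]
          rw [if_pos hx]
          exact h3
      · -- the least index of a finger at most `x`
        have hNPx : NP P x < k := by
          have h1 : NP P x < (Finset.univ : Finset (Fin k)).card := by
            unfold NP
            apply Finset.card_lt_card
            refine ⟨Finset.filter_subset _ _, fun h => ?_⟩
            have := (Finset.mem_filter.1 (h (Finset.mem_univ c))).2
            omega
          rwa [Finset.card_univ, Fintype.card_fin] at h1
        have hex : ∃ j, 1 ≤ j ∧ j ≤ k ∧ f j ≤ x := by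
          by_contra hno
          push Not at hno
          have h1 : NF k f x = k := by
            unfold NF
            rw [Finset.filter_true_of_mem]
            · rw [Nat.card_Icc]; omega
            · intro i hi
              rw [Finset.mem_Icc] at hi
              exact hno i hi.1 hi.2
          have := hN x
          omega
        obtain ⟨hj1, hjk, hjx⟩ := Nat.find_spec hex
        have hjmin : ∀ i, 1 ≤ i → i < Nat.find hex → x < f i := by
          intro i h1 h2
          by_contra h3
          exact Nat.find_min hex h2 ⟨h1, by omega, by omega⟩
        obtain ⟨j, hj⟩ : ∃ j, j = Nat.find hex := ⟨_, rfl⟩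
        rw [← hj] at hj1 hjk hjx hjmin
        have hjprev : x < f (j - 1) := by
          rcases Nat.eq_or_lt_of_le hj1 with h1 | h1
          · rw [← h1]
            show x < f 0
            omega
          · exact hjmin (j - 1) (by omega) (by omega)
        have hanti : ∀ i, j ≤ i → i ≤ k → f i ≤ f j := by
          intro i h1
          induction i with
          | zero =>
            intro _
            have : j = 0 := by omega
            rw [this]
          | succ i ih =>
            intro h2
            rcases Nat.eq_or_lt_of_le h1 with h3 | h3
            · rw [h3]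
            · exact (ha i (by omega)).trans (ih (by omega) (by omega))
        have ha' : ∀ i < k, Function.update f j x (i + 1) ≤ Function.update f j x i := by
          intro i hi
          have h5 := ha i hi
          by_cases e1 : i + 1 = j
          · subst e1
            rw [Function.update_self, Function.update_of_ne (by omega)]
            simpa using hjprev.le
          · by_cases e2 : i = j
            · subst e2
              rw [Function.update_self, Function.update_of_ne (by omega)]
              omega
            · rw [Function.update_of_ne e1, Function.update_of_ne e2]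
              exact h5
        have hN' : ∀ z, NF k (Function.update f j x) z ≤ NP (Function.update P c x) z := by
          intro z
          rcases Nat.lt_or_ge z x with hz | hz
          · have hP1 : NP P z ≤ NP (Function.update P c x) z := by
              apply Finset.card_le_card
              intro c' hc'
              rw [Finset.mem_filter] at hc' ⊢
              refine ⟨hc'.1, ?_⟩
              by_cases e : c' = c
              · subst e
                rw [Function.update_self]
                exact hz
              · rw [Function.update_of_ne e]
                exact hc'.2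
            have hF1 : NF k (Function.update f j x) z ≤ NF k f z + 1 := by
              unfold NF
              refine le_trans (Finset.card_le_card (t := insert j ((Finset.Icc 1 k).filter
                (fun i => z < f i))) ?_) (Finset.card_insert_le _ _)
              intro i hi
              rw [Finset.mem_filter] at hi
              by_cases e : i = j
              · rw [e]; exact Finset.mem_insert_self _ _
              · rw [Function.update_of_ne e] at hi
                exact Finset.mem_insert_of_mem (Finset.mem_filter.2 hi)
            rcases Nat.lt_or_ge z (f j) with h1 | h1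
            · have : NF k (Function.update f j x) z ≤ NF k f z := by
                apply Finset.card_le_card
                intro i hi
                rw [Finset.mem_filter] at hi ⊢
                refine ⟨hi.1, ?_⟩
                by_cases e : i = j
                · rw [e]; exact h1
                · rw [Function.update_of_ne e] at hi
                  exact hi.2
              exact (this.trans (hN z)).trans hP1
            · rcases Nat.lt_or_ge z (P c) with h2 | h2
              · have h3 : NF k f z ≤ NF k f x := by
                  apply Finset.card_le_card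
                  intro i hi
                  rw [Finset.mem_filter, Finset.mem_Icc] at hi ⊢
                  refine ⟨hi.1, ?_⟩
                  rcases Nat.lt_or_ge i j with h4 | h4
                  · exact hjmin i hi.1.1 h4
                  · have := hanti i h4 hi.1.2
                    omega
                have h4 : NP P x + 1 ≤ NP P z := by
                  unfold NP
                  rw [Nat.add_one_le_iff]
                  apply Finset.card_lt_card
                  refine ⟨?_, fun h => ?_⟩
                  · intro c' hc'
                    rw [Finset.mem_filter] at hc' ⊢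
                    exact ⟨hc'.1, by omega⟩
                  · have := (Finset.mem_filter.1 (h (Finset.mem_filter.2
                      ⟨Finset.mem_univ c, h2⟩))).2
                    omega
                have := hN x
                omega
              · have h3 : NP P z + 1 ≤ NP (Function.update P c x) z := by
                  unfold NP
                  rw [Nat.add_one_le_iff]
                  apply Finset.card_lt_card
                  refine ⟨?_, fun h => ?_⟩
                  · intro c' hc'
                    rw [Finset.mem_filter] at hc' ⊢
                    refine ⟨hc'.1, ?_⟩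
                    by_cases e : c' = c
                    · subst e
                      rw [Function.update_self]
                      exact hz
                    · rw [Function.update_of_ne e]
                      exact hc'.2
                  · have := (Finset.mem_filter.1 (h (Finset.mem_filter.2
                      ⟨Finset.mem_univ c, by rw [Function.update_self]; exact hz⟩))).2
                    omega
                have := hN z
                omega
          · have h1 : NF k (Function.update f j x) z ≤ NF k f z := by
              apply Finset.card_le_card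
              intro i hi
              rw [Finset.mem_filter] at hi ⊢
              refine ⟨hi.1, ?_⟩
              by_cases e : i = j
              · rw [e, Function.update_self] at hi
                omega
              · rw [Function.update_of_ne e] at hi
                exact hi.2
            have h2 : NP P z ≤ NP (Function.update P c x) z := by
              apply Finset.card_le_card
              intro c' hc'
              rw [Finset.mem_filter] at hc' ⊢
              refine ⟨hc'.1, ?_⟩
              by_cases e : c' = c
              · subst e
                omega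
              · rw [Function.update_of_ne e]
                exact hc'.2
            exact (h1.trans (hN z)).trans h2
        obtain ⟨X, h1, h2, h3⟩ := greedy Z (Function.update P c x) (Function.update f j x)
          (by rw [Function.update_of_ne (by omega)]; exact h0) ha' hN' hok
          (fun p hp => hn p (List.mem_cons_of_mem _ hp))
        refine ⟨(x, j) :: X, ?_, ?_, ?_⟩
        · simp [h1]
        · simp only [Ok]
          exact Or.inr ⟨hj1, hjk, hjx, hjprev, h2⟩
        · simp only [fin', finP]
          rw [if_neg (by omega), if_neg (by omega)]
          exact h3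

/-- A sum of numbers as a sum over levels. -/
theorem layer_cake {α : Type*} (s : Finset α) (g : α → ℕ) {N : ℕ} (h : ∀ a ∈ s, g a ≤ N) :
    ∑ a ∈ s, g a = ∑ z ∈ Finset.range N, (s.filter (fun a => z < g a)).card := by
  simp only [Finset.card_filter]
  rw [Finset.sum_comm]
  refine Finset.sum_congr rfl fun a ha => ?_
  rw [← Finset.card_filter]
  have : (Finset.range N).filter (fun z => z < g a) = Finset.range (g a) := by
    ext z
    rw [Finset.mem_filter, Finset.mem_range, Finset.mem_range]
    have := h a ha
    omega
  rw [this, Finset.card_range]

theorem sum_le_of_counts {k : ℕ} {f : ℕ → ℕ} {P : Fin k → ℕ} (h : ∀ z, NF k f z ≤ NP P z) :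
    ∑ i ∈ Finset.Icc 1 k, f i ≤ ∑ c, P c := by
  set N := (∑ i ∈ Finset.Icc 1 k, f i) + ∑ c, P c with hN
  rw [layer_cake (N := N) (Finset.Icc 1 k) f, layer_cake (N := N) Finset.univ P]
  · exact Finset.sum_le_sum fun z _ => h z
  · intro c hc
    have := Finset.single_le_sum (f := P) (fun i _ => Nat.zero_le _) hc
    omega
  · intro i hi
    have := Finset.single_le_sum (f := f) (fun i _ => Nat.zero_le _) hi
    omega

/-- Sorting the positions. -/
theorem exists_sorted {n k : ℕ} (P : Fin k → ℕ) (hP : ∀ c, P c ≤ n + 1) :
    ∃ f : ℕ → ℕ, f 0 = n + 1 ∧ (∀ i < k, f (i + 1) ≤ f i) ∧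
      (∀ i, 1 ≤ i → i ≤ k → ∃ c, f i = P c) ∧
      ∀ G : ℕ → ℕ, ∑ i ∈ Finset.Icc 1 k, G (f i) = ∑ c, G (P c) := by
  obtain ⟨σ, hσ⟩ : ∃ σ : Equiv.Perm (Fin k), Monotone (P ∘ σ) := ⟨_, Tuple.monotone_sort P⟩
  refine ⟨fun i => if h : 1 ≤ i ∧ i ≤ k then P (σ ⟨k - i, by omega⟩) else n + 1, ?_, ?_, ?_, ?_⟩
  · simp
  · intro i hi
    have h1 : 1 ≤ i + 1 ∧ i + 1 ≤ k := ⟨by omega, by omega⟩
    simp only [h1, dif_pos, and_self]
    split_ifs with h2
    · apply hσ
      show k - (i + 1) ≤ k - i
      omega
    · exact hP _
  · intro i h1 h2
    simp only [h1, h2, and_self, dif_pos]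
    exact ⟨_, rfl⟩
  · intro G
    rw [← Equiv.sum_comp σ (fun c => G (P c))]
    refine Finset.sum_bij (fun i hi => (⟨k - i, by
      rw [Finset.mem_Icc] at hi; omega⟩ : Fin k)) ?_ ?_ ?_ ?_
    · intro i hi
      exact Finset.mem_univ _
    · intro i hi j hj h
      rw [Finset.mem_Icc] at hi hj
      have := congrArg Fin.val h
      simp only at this
      omega
    · intro b _
      have hb := b.2
      refine ⟨k - b, Finset.mem_Icc.2 ⟨by omega, by omega⟩, Fin.ext ?_⟩
      show k - (k - (b : ℕ)) = b
      omega
    · intro i hi
      rw [Finset.mem_Icc] at hi
      simp only [hi, and_self, dif_pos]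

/-- The constant of the one-sided theorem. -/
noncomputable def cK (k : ℕ) : ℝ := cA k + cB k + 4 * AE k + 12 * AW k + 44 * rk k

theorem cK_nonneg (k : ℕ) : 0 ≤ cK k := by
  have hA := cA_nonneg k
  have hB := cB_nonneg k
  have hAE := AE_nonneg k
  have hAW := AW_nonneg k
  have hrk := rk_nonneg k
  unfold cK
  positivity

theorem cK_le {k : ℕ} (hk : 1 ≤ k) : cK k ≤ 110000 * Real.logb 2 (1 + k) := by
  set l := Real.logb 2 (1 + (k : ℝ)) with hl
  have hk' : (1 : ℝ) ≤ k := by exact_mod_cast hk
  have hl1 : 1 ≤ l := by
    rw [hl, Real.le_logb_iff_rpow_le (by norm_num) (by positivity)]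
    norm_num
    linarith
  have hnl : (Nat.log 2 k : ℝ) ≤ l := by
    have h1 : (Nat.log 2 k : ℝ) ≤ Real.logb 2 (k : ℝ) := Real.natLog_le_logb _ _
    refine h1.trans ?_
    rw [hl]
    apply Real.logb_le_logb_of_le (by norm_num)
    · linarith
    · linarith
  have hrk : rk k ≤ l := by
    unfold rk
    rw [hl, Real.logb, le_div_iff₀ (Real.log_pos (by norm_num))]
    have h3 : Real.log 2 ≤ 1 := by
      have := Real.log_le_sub_one_of_pos (x := (2 : ℝ)) (by norm_num)
      linarith
    have h4 : 0 ≤ Real.log (1 + (k : ℝ)) := Real.log_nonneg (by linarith)
    nlinarith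
  unfold cK cA cB AE AW
  linarith

/-- The one-sided theorem for labelled scans, the keys being `1, ..., n`. -/
theorem scan_upper {n m k : ℕ} (hk : 1 ≤ k) {T : BinaryTree ℕ} (hb : IsBST T)
    (hT : inorder T = List.range' 1 n) {Z : List (ℕ × Fin k)} (hZ : ∀ p ∈ Z, p.1 ∈ inorder T)
    {P : Fin k → ℕ} (hPm : ∀ c, m ≤ P c) (hPn : ∀ c, P c ≤ n + 1) (hok : OkP m P Z) :
    (upperCost m (Z.map Prod.fst) T : ℝ) ≤
      (n + 1 + Z.length + ∑ c, ((finP m P Z c : ℝ) - P c)) * cK k := by
  have hkeys : ∀ v, v ∈ inorder T ↔ 1 ≤ v ∧ v ≤ n := by
    intro v
    rw [hT, List.mem_range'_1]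
    omega
  obtain ⟨f, h0, ha, hc, hG⟩ := exists_sorted P hPn
  have hcount : ∀ z, NF k f z ≤ NP P z := by
    intro z
    have := hG (fun v => if z < v then 1 else 0)
    unfold NF NP
    rw [Finset.card_filter, Finset.card_filter]
    exact this.le
  obtain ⟨X, h1, h2, h3⟩ := greedy Z P f h0 ha hcount hok
    (fun p hp => ((hkeys p.1).1 (hZ p hp)).2)
  have hSt : St n m k T f X := by
    refine ⟨hb, hkeys, h0, ha, ?_, h2, ?_⟩
    · obtain ⟨c, hc⟩ := hc k hk le_rfl
      rw [hc]
      exact hPm c
    · intro p hp
      have : p.1 ∈ Z.map Prod.fst := h1 ▸ List.mem_map_of_mem hp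
      obtain ⟨q, hq, hqp⟩ := List.mem_map.1 this
      rw [← hqp]
      exact hZ q hq
  have h4 := finger_bound hSt
  rw [h1] at h4
  have hlen : X.length = Z.length := by
    have := congrArg List.length h1
    simpa using this
  rw [hlen] at h4
  refine h4.trans ?_
  apply mul_le_mul_of_nonneg_right _ (cK_nonneg k)
  have h5 := sum_le_of_counts h3
  have h6 := hG (fun v => v)
  have h7 : ((∑ i ∈ Finset.Icc 1 k, fin' f X i : ℕ) : ℝ) ≤ ((∑ c, finP m P Z c : ℕ) : ℝ) := by
    exact_mod_cast h5
  have h8 : ((∑ i ∈ Finset.Icc 1 k, f i : ℕ) : ℝ) = ((∑ c, P c : ℕ) : ℝ) := by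
    exact_mod_cast h6
  rw [Finset.sum_sub_distrib, Finset.sum_sub_distrib]
  push_cast at h7 h8
  linarith

end Pool.Agent.MP_c42954_lc.Scan
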