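import Pool.Agent.MP_c42954_lc.Scan.Outer

set_option autoImplicit false

/-!
# The one-sided theorem
-/

namespace Pool.Agent.MP_c42954_lc.Scan

open BinaryTree
open scoped Classical

/-! ## Weights -/

/-- The weights: the keys next to the keys which are about to be requested, and the keys in `Z`. -/
noncomputable def wS (S : Finset ℕ) (en : ℕ → ℕ) (Z : Finset ℕ) (v : ℕ) : ℕ :=
  (if v + 1 ∈ pend S en then 1 else 0) + (if v ∈ Z then 1 else 0)

/-- The keys of the tree are consecutive numbers. -/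
def Contig (T : BinaryTree ℕ) : Prop :=
  ∀ a ∈ inorder T, ∀ c ∈ inorder T, ∀ b, a ≤ b → b ≤ c → b ∈ inorder T

section

variable {T : BinaryTree ℕ} {S : Finset ℕ} {en : ℕ → ℕ} {Z : Finset ℕ} {k L x y : ℕ}

theorem outs_le (h : Inv T S en) (hx : x ∈ pend S en) (hc : Contig T)
    (hZ : ∀ u ∈ S, en u + 1 ∈ Z) : outs x (en x) T ≤ cnt (wS S en Z) x T := by
  obtain ⟨hxS, hxp⟩ := mem_pend.1 hx
  have hxT := h.mem x hxS
  have hb := h.bst
  unfold outs
  refine countP_le_cnt (fun v => ¬ (x < v ∧ v ≤ en x)) hb hxT ?_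
  intro v hv hvx hne
  have hvT := onP_mem hvx
  rcases Nat.lt_or_ge v x with h1 | h1
  · refine ⟨x - 1, hc v hvT x hxT _ (by omega) (by omega),
      onP_convex hb hvx (Or.inl ⟨by omega, by omega⟩), ?_⟩
    have : x - 1 + 1 = x := by omega
    simp [wS, this, hx]
  · have h2 : en x < v := by
      by_contra h3
      exact hv ⟨by omega, by omega⟩
    have h3 := h.run x hxS
    refine ⟨en x + 1, hc x hxT v hvT _ (by omega) (by omega),
      onP_convex hb hvx (Or.inr ⟨by omega, by omega⟩), ?_⟩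
    simp [wS, hZ x hxS]

theorem wt_wS_le (hb : IsBST T) : wt (wS S en Z) T ≤ (pend S en).card + Z.card := by
  have hnd : (inorder T).Nodup := hb.imp (fun h => ne_of_lt h)
  rw [wt_eq_sum, ← List.sum_toFinset _ hnd]
  unfold wS
  rw [Finset.sum_add_distrib]
  apply Nat.add_le_add
  · rw [← Finset.card_filter]
    apply Finset.card_le_card_of_injOn (fun v => v + 1)
    · intro v hv
      exact (Finset.mem_filter.1 (Finset.mem_coe.1 hv)).2
    · intro v _ v' _ h
      simpa using h
  · rw [← Finset.card_filter]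
    apply Finset.card_le_card
    intro v hv
    exact (Finset.mem_filter.1 hv).2

theorem wS_own (h : Inv T S en) (hx : x ∈ pend S en) :
    (∀ v, v ≠ x → wS (S.erase x) en Z v ≤ wS S en Z v) ∧
      wS (S.erase x) en Z x ≤ wS S en Z x + 1 := by
  obtain ⟨hxS, hxp⟩ := mem_pend.1 hx
  constructor
  · intro v hv
    unfold wS
    have : v + 1 ∈ pend (S.erase x) en → v + 1 ∈ pend S en := by
      intro h1
      obtain ⟨h2, h3⟩ := mem_pend.1 h1
      obtain ⟨h4, h5⟩ := Finset.mem_erase.1 h2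
      refine mem_pend.2 ⟨h5, fun u hu h6 => ?_⟩
      by_cases h7 : u = x
      · subst h7
        by_contra h8
        push Not at h8
        obtain ⟨h9, h10⟩ := h.closed u hxS (u + 1) (by omega) (by omega)
        have := h3 (u + 1) (Finset.mem_erase.2 ⟨by omega, h9⟩) (by omega)
        omega
      · exact h3 u (Finset.mem_erase.2 ⟨h7, hu⟩) h6
    split_ifs with h1 h2 h3 h3 h4 h5 h5 <;> first | omega | exact absurd (this h1) ‹_›
  · unfold wS
    split_ifs <;> omega

/-- The total potential. -/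
noncomputable def theta (L k : ℕ) (Z : Finset ℕ) (en : ℕ → ℕ) (T : BinaryTree ℕ)
    (S : Finset ℕ) : ℝ :=
  4 * (∑ u ∈ S, ∑ s ∈ Finset.range L, cE T S en k u s)
    + 4 * (∑ u ∈ S, ∑ s ∈ Finset.range L, cL T S en k u s)
    + 44 * pot (wS S en Z) T

theorem theta_nonneg : 0 ≤ theta L k Z en T S := by
  unfold theta
  have h1 : 0 ≤ ∑ u ∈ S, ∑ s ∈ Finset.range L, cE T S en k u s :=
    Finset.sum_nonneg fun u _ => Finset.sum_nonneg fun s _ => cE_nonneg T S en k u s
  have h2 : 0 ≤ ∑ u ∈ S, ∑ s ∈ Finset.range L, cL T S en k u s :=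
    Finset.sum_nonneg fun u _ => Finset.sum_nonneg fun s _ => cL_nonneg T S en k u s
  have h3 := pot_nonneg (wS S en Z) T
  linarith

theorem theta_left (h : Inv T S en) (hy : y ∈ inorder T) (hyS : ∀ u ∈ S, y < u)
    (hk : (pend S en).card ≤ k) (hZk : Z.card ≤ k) :
    theta L k Z en (splay y T) S ≤ theta L k Z en T S + (98 + 8 * Nat.log 2 k + 132 * rk (2 * k)) := by
  have h1 : ∑ u ∈ S, ∑ s ∈ Finset.range L, cE (splay y T) S en k u s
      ≤ ∑ u ∈ S, ∑ s ∈ Finset.range L, cE T S en k u s :=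
    Finset.sum_le_sum fun u hu => Finset.sum_le_sum fun s _ =>
      cE_mono (fun W hW => qq_left h hy hyS hu hW)
  have h2 : ∑ u ∈ S, ∑ s ∈ Finset.range L, cL (splay y T) S en k u s
      ≤ ∑ u ∈ S, ∑ s ∈ Finset.range L, cL T S en k u s :=
    Finset.sum_le_sum fun u hu => Finset.sum_le_sum fun s _ =>
      cL_mono (fun W hW => qq_left h hy hyS hu hW)
  have h3 := access (w := wS S en Z) h.bst hy
  have h4 : wt (wS S en Z) T ≤ 2 * k := (wt_wS_le h.bst).trans (by omega)
  have h5 := rk_mono h4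
  have h6 : (0 : ℝ) ≤ (cnt (wS S en Z) y T : ℝ) := Nat.cast_nonneg _
  have h7 : (0 : ℝ) ≤ (Nat.log 2 k : ℝ) := Nat.cast_nonneg _
  unfold theta
  linarith

theorem theta_own (h : Inv T S en) (hx : x ∈ pend S en) (hc : Contig T)
    (hZ : ∀ u ∈ S, en u + 1 ∈ Z) (hL : ∀ v ∈ S, v < 2 ^ L)
    (hk : (pend S en).card ≤ k) (hZk : Z.card ≤ k) :
    (1 + depth x T : ℝ) + theta L k Z en (splay x T) (S.erase x)
      ≤ theta L k Z en T S + (98 + 8 * Nat.log 2 k + 132 * rk (2 * k)) := by
  obtain ⟨hxS, hxp⟩ := mem_pend.1 hx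
  have hxT := h.mem x hxS
  have hb := h.bst
  have h1 := early_charge (L := L) h hx hk hL
  have h2 := light_charge (L := L) h hx hk hL
  have h1' : ∑ u ∈ S.erase x, ∑ s ∈ Finset.range L, cE T S en k u s
      ≤ ∑ u ∈ S, ∑ s ∈ Finset.range L, cE T S en k u s :=
    Finset.sum_le_sum_of_subset_of_nonneg (Finset.erase_subset _ _)
      (fun u _ _ => Finset.sum_nonneg fun s _ => cE_nonneg T S en k u s)
  have h2' : ∑ u ∈ S.erase x, ∑ s ∈ Finset.range L, cL T S en k u s
      ≤ ∑ u ∈ S, ∑ s ∈ Finset.range L, cL T S en k u s :=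
    Finset.sum_le_sum_of_subset_of_nonneg (Finset.erase_subset _ _)
      (fun u _ _ => Finset.sum_nonneg fun s _ => cL_nonneg T S en k u s)
  have h3 := access (w := wS S en Z) hb hxT
  have h4 : wt (wS S en Z) T ≤ 2 * k := (wt_wS_le hb).trans (by omega)
  have h5 := rk_mono h4
  obtain ⟨w1, w2⟩ := wS_own (Z := Z) h hx
  have h6 := pot_root (splay_bst hb hxT) (splay_root hb hxT) w1 w2
  have h7 : ((outs x (en x) T : ℕ) : ℝ) ≤ (cnt (wS S en Z) x T : ℝ) := by
    exact_mod_cast outs_le h hx hc hZ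
  have h8 := card_rset_bound (k := k) (e := en x) hb hxT
  have h9 := depth_eq (e := en x) hb hxT
  have h10 : (depth x T : ℝ) ≤ 11 * (outs x (en x) T : ℝ) + 4 * ((EP x (en x) T).card : ℝ)
      + 4 * ((LP x (en x) k T).card : ℝ) + 42 + 8 * (Nat.log 2 k : ℝ) := by
    have : depth x T ≤ 11 * outs x (en x) T + 4 * (EP x (en x) T).card
      + 4 * (LP x (en x) k T).card + 42 + 8 * Nat.log 2 k := by omega
    exact_mod_cast this
  unfold theta
  linarith

end

/-! ## The whole sequence -/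

/-- The total cost of the requests to keys above `m`. -/
def upperCost (m : ℕ) : List ℕ → BinaryTree ℕ → ℕ
  | [], _ => 0
  | x :: X, T => (if m < x then 1 + depth x T else 0) + upperCost m X (splay x T)

/-- Every request to a key above `m` is to a key which is next in its run. -/
def Valid (m : ℕ) (en : ℕ → ℕ) : Finset ℕ → List ℕ → Prop
  | _, [] => True
  | S, x :: X => if m < x then x ∈ pend S en ∧ Valid m en (S.erase x) X else Valid m en S X

theorem card_pend_le {T : BinaryTree ℕ} {S : Finset ℕ} {en : ℕ → ℕ} (h : Inv T S en) :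
    (pend S en).card ≤ (S.image en).card := by
  apply Finset.card_le_card_of_injOn en
  · intro c hc
    exact Finset.mem_coe.2 (Finset.mem_image_of_mem _ (mem_pend.1 (Finset.mem_coe.1 hc)).1)
  · intro c hc c' hc' hcc
    obtain ⟨h1, h2⟩ := mem_pend.1 (Finset.mem_coe.1 hc)
    obtain ⟨h3, h4⟩ := mem_pend.1 (Finset.mem_coe.1 hc')
    rcases Nat.lt_trichotomy c c' with h5 | h5 | h5
    · have := h4 c h1 h5
      have := h.run c' h3
      omega
    · exact h5
    · have := h2 c' h3 h5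
      have := h.run c h1
      omega

theorem total {m L k : ℕ} {en : ℕ → ℕ} {Z : Finset ℕ} (hZk : Z.card ≤ k) :
    ∀ (X : List ℕ) (T : BinaryTree ℕ) (S : Finset ℕ), Inv T S en → Contig T →
      (∀ u ∈ S, m < u) → (∀ x ∈ X, x ∈ inorder T) → Valid m en S X → (∀ u ∈ S, en u + 1 ∈ Z) →
      (∀ v ∈ S, v < 2 ^ L) → (S.image en).card ≤ k →
      (upperCost m X T : ℝ) ≤ theta L k Z en T S
        + X.length * (98 + 8 * Nat.log 2 k + 132 * rk (2 * k))
  | [], T, S, _, _, _, _, _, _, _, _ => by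
      have := theta_nonneg (L := L) (k := k) (Z := Z) (en := en) (T := T) (S := S)
      simpa [upperCost] using this
  | x :: X, T, S, h, hc, hm, hX, hV, hZ, hL, hk => by
      have hxT : x ∈ inorder T := hX x (by simp)
      have hc' : Contig (splay x T) := by
        unfold Contig
        rw [splay_inorder h.bst hxT]
        exact hc
      have hX' : ∀ y ∈ X, y ∈ inorder (splay x T) := by
        intro y hy
        rw [splay_inorder h.bst hxT]
        exact hX y (by simp [hy])
      have hpk := (card_pend_le h).trans hk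
      simp only [Valid] at hV
      simp only [upperCost, List.length_cons]
      by_cases hmx : m < x
      · rw [if_pos hmx] at hV ⊢
        have h1 := theta_own (L := L) h hV.1 hc hZ hL hpk hZk
        have h2 := total (L := L) hZk X (splay x T) (S.erase x) (h.own hV.1) hc'
          (fun u hu => hm u (Finset.mem_of_mem_erase hu)) hX' hV.2
          (fun u hu => hZ u (Finset.mem_of_mem_erase hu))
          (fun u hu => hL u (Finset.mem_of_mem_erase hu))
          ((Finset.card_le_card (Finset.image_subset_image (Finset.erase_subset _ _))).trans hk)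
        push_cast
        linarith
      · rw [if_neg hmx] at hV ⊢
        have h1 := theta_left (L := L) h hxT (fun u hu => by have := hm u hu; omega) hpk hZk
        have h2 := total (L := L) hZk X (splay x T) S (h.left hxT) hc' hm hX' hV hZ hL hk
        push_cast
        linarith

/-! ## The initial potential -/

theorem sum_lin (L : ℕ) : ∑ s ∈ Finset.range L, ((s : ℝ) + 1) / 2 ^ s ≤ 4 := by
  have h : ∑ s ∈ Finset.range L, ((s : ℝ) + 1) / 2 ^ s = 4 - (2 * L + 4) / 2 ^ L := by
    induction L with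
    | zero => simp
    | succ L ih =>
      rw [Finset.sum_range_succ, ih, pow_succ]
      have : (2 : ℝ) ^ L ≠ 0 := by positivity
      field_simp
      push_cast
      ring
  rw [h]
  have : (0 : ℝ) ≤ (2 * L + 4) / 2 ^ L := by positivity
  linarith

theorem sum_min (k L : ℕ) : ∑ s ∈ Finset.range L, ((min k (2 ^ s) : ℕ) : ℝ) / 2 ^ s
    ≤ Nat.log 2 k + 3 := by
  set l := Nat.log 2 k with hl
  have hk : k < 2 ^ (l + 1) := Nat.lt_pow_succ_log_self (by norm_num) k
  have hk' : (k : ℝ) ≤ 2 ^ (l + 1) := by exact_mod_cast hk.le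
  have key : ∀ L : ℕ, (L ≤ l + 1 → ∑ s ∈ Finset.range L, ((min k (2 ^ s) : ℕ) : ℝ) / 2 ^ s ≤ L) ∧
      (l + 1 ≤ L → ∑ s ∈ Finset.range L, ((min k (2 ^ s) : ℕ) : ℝ) / 2 ^ s
        ≤ l + 3 - 2 * 2 ^ (l + 1) / 2 ^ L) := by
    intro L
    induction L with
    | zero =>
      constructor
      · intro _; simp
      · intro h; omega
    | succ L ih =>
      have hterm1 : ((min k (2 ^ L) : ℕ) : ℝ) / 2 ^ L ≤ 1 := by
        rw [div_le_one (by positivity)]
        exact_mod_cast min_le_right _ _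
      have hterm2 : ((min k (2 ^ L) : ℕ) : ℝ) / 2 ^ L ≤ 2 ^ (l + 1) / 2 ^ L := by
        have : ((min k (2 ^ L) : ℕ) : ℝ) ≤ k := by exact_mod_cast min_le_left _ _
        gcongr
        linarith
      have part1 : L + 1 ≤ l + 1 → ∑ s ∈ Finset.range (L + 1),
          ((min k (2 ^ s) : ℕ) : ℝ) / 2 ^ s ≤ (L + 1 : ℕ) := by
        intro h
        rw [Finset.sum_range_succ]
        have := ih.1 (by omega)
        push_cast
        push_cast at this hterm1
        linarith
      refine ⟨part1, ?_⟩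
      intro h
      rcases Nat.eq_or_lt_of_le h with h1 | h1
      · have := part1 h1.ge
        have e : (2 : ℝ) * 2 ^ (l + 1) / 2 ^ (L + 1) = 2 := by
          rw [← h1]
          have : (2 : ℝ) ^ (l + 1) ≠ 0 := by positivity
          field_simp
        rw [e]
        have e2 : ((L + 1 : ℕ) : ℝ) = l + 1 := by
          rw [← h1]; push_cast; ring
        rw [e2] at this
        linarith
      · rw [Finset.sum_range_succ]
        have h2 := ih.2 (by omega)
        have e : (2 : ℝ) * 2 ^ (l + 1) / 2 ^ L - 2 * 2 ^ (l + 1) / 2 ^ (L + 1)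
            = 2 ^ (l + 1) / 2 ^ L := by
          rw [pow_succ 2 L]
          have : (2 : ℝ) ^ L ≠ 0 := by positivity
          field_simp
          ring
        linarith
  rcases Nat.lt_or_ge L (l + 1) with h | h
  · have h1 := (key L).1 h.le
    have h2 : (L : ℝ) ≤ l + 1 := by exact_mod_cast h.le
    linarith
  · have h1 := (key L).2 h
    have : (0 : ℝ) ≤ 2 * 2 ^ (l + 1) / 2 ^ L := by positivity
    linarith

theorem psi_le (K y : ℕ) {M : ℝ} (h : Real.log (1 + (y : ℝ)) ≤ M) :
    psi K y ≤ 2 * K + 32 * M := by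
  unfold psi
  have h1 : ((min y (2 * K) : ℕ) : ℝ) ≤ 2 * K := by
    have : min y (2 * K) ≤ 2 * K := min_le_right _ _
    exact_mod_cast this
  linarith

theorem log_pow_le (a s : ℕ) (ha : 1 ≤ a) {y : ℕ} (h : 1 + y ≤ a ^ s) (ha4 : a ≤ 4) :
    Real.log (1 + (y : ℝ)) ≤ 2 * s := by
  have h1 : (1 + (y : ℝ)) ≤ (a : ℝ) ^ s := by exact_mod_cast h
  have h2 : Real.log (1 + (y : ℝ)) ≤ Real.log ((a : ℝ) ^ s) :=
    Real.log_le_log (by positivity) h1
  rw [Real.log_pow] at h2
  have h3 : Real.log (a : ℝ) ≤ 2 := by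
    have h4 : Real.log (a : ℝ) ≤ Real.log 4 := by
      apply Real.log_le_log
      · exact_mod_cast ha
      · exact_mod_cast ha4
    have h5 : Real.log 4 = 2 * Real.log 2 := by
      rw [show (4 : ℝ) = 2 ^ 2 by norm_num, Real.log_pow]
      norm_num
    have h6 : Real.log 2 ≤ 1 := by
      have := Real.log_le_sub_one_of_pos (x := (2 : ℝ)) (by norm_num)
      linarith
    linarith
  have h4 : (0 : ℝ) ≤ s := Nat.cast_nonneg s
  nlinarith

section

variable {T : BinaryTree ℕ} {S : Finset ℕ} {en : ℕ → ℕ} {Z : Finset ℕ} {k L u s : ℕ}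

theorem cE_le (hk : (pend S en).card ≤ k) :
    cE T S en k u s ≤ 2 * ((min k (2 ^ s) : ℕ) / 2 ^ s) + 128 * ((s + 1) / 2 ^ s) := by
  have h1 := qq_le (T := T) (u := u)
    (W := Finset.Ioc (u + 2 * 2 ^ s) (min (u + 3 * 2 ^ s) (en u))) hk
  have hW : (Finset.Ioc (u + 2 * 2 ^ s) (min (u + 3 * 2 ^ s) (en u))).card ≤ 2 ^ s := by
    rw [Nat.card_Ioc]; omega
  have htops : (tops T u (Finset.Ioc (u + 2 * 2 ^ s) (min (u + 3 * 2 ^ s) (en u)))).card
      ≤ 2 ^ s := (Finset.card_filter_le _ _).trans hW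
  have hq : 1 + qq T S en u (Finset.Ioc (u + 2 * 2 ^ s) (min (u + 3 * 2 ^ s) (en u)))
      ≤ 2 ^ (s + 2) := by
    rw [pow_add]
    have := Nat.one_le_two_pow (n := s)
    omega
  have h2 := psi_le (min k (2 ^ s)) _ (log_pow_le 2 (s + 2) (by norm_num) hq (by norm_num))
  unfold cE
  have h3 : (0 : ℝ) < 2 ^ s := by positivity
  rw [div_le_iff₀ h3]
  have e : (2 * (((min k (2 ^ s) : ℕ) : ℝ) / 2 ^ s) + 128 * (((s : ℝ) + 1) / 2 ^ s)) * 2 ^ s
      = 2 * (min k (2 ^ s) : ℕ) + 128 * (s + 1) := by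
    field_simp
  rw [e]
  refine h2.trans ?_
  push_cast
  have : (0 : ℝ) ≤ s := Nat.cast_nonneg s
  linarith

theorem cL_le :
    cL T S en k u s ≤ 2 * ((min k (2 ^ s) : ℕ) / 2 ^ s) + 64 * ((s + 1) / 2 ^ s) := by
  have h3 : (0 : ℝ) < 2 ^ s := by positivity
  unfold cL
  split_ifs with h
  · have hq : 1 + min (qq T S en u (Finset.Ioc (u + 2 ^ s) (en u))) (2 * 4 ^ s) ≤ 4 ^ (s + 1) := by
      rw [pow_succ]
      have := Nat.one_le_pow s 4 (by norm_num)
      have := min_le_right (qq T S en u (Finset.Ioc (u + 2 ^ s) (en u))) (2 * 4 ^ s)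
      omega
    have h2 := psi_le k _ (log_pow_le 4 (s + 1) (by norm_num) hq (by norm_num))
    rw [div_le_iff₀ h3]
    have e : (2 * (((min k (2 ^ s) : ℕ) : ℝ) / 2 ^ s) + 64 * (((s : ℝ) + 1) / 2 ^ s)) * 2 ^ s
        = 2 * (min k (2 ^ s) : ℕ) + 64 * (s + 1) := by
      field_simp
    rw [e, min_eq_left h.le]
    refine h2.trans ?_
    push_cast
    linarith
  · positivity

theorem theta_le (hk : (pend S en).card ≤ k) (hZk : Z.card ≤ k) (hb : IsBST T) :
    theta L k Z en T S ≤ S.card * (16 * Nat.log 2 k + 3120)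
      + (inorder T).length * (44 * rk (2 * k)) := by
  have h1 : ∀ u ∈ S, ∑ s ∈ Finset.range L, cE T S en k u s
      ≤ 2 * (Nat.log 2 k + 3) + 128 * 4 := by
    intro u _
    have h2 : ∑ s ∈ Finset.range L, cE T S en k u s ≤ ∑ s ∈ Finset.range L,
        (2 * (((min k (2 ^ s) : ℕ) : ℝ) / 2 ^ s) + 128 * (((s : ℝ) + 1) / 2 ^ s)) :=
      Finset.sum_le_sum fun s _ => cE_le hk
    rw [Finset.sum_add_distrib, ← Finset.mul_sum, ← Finset.mul_sum] at h2
    have h3 := sum_min k L
    have h4 := sum_lin L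
    linarith
  have h2 : ∀ u ∈ S, ∑ s ∈ Finset.range L, cL T S en k u s
      ≤ 2 * (Nat.log 2 k + 3) + 64 * 4 := by
    intro u _
    have h2 : ∑ s ∈ Finset.range L, cL T S en k u s ≤ ∑ s ∈ Finset.range L,
        (2 * (((min k (2 ^ s) : ℕ) : ℝ) / 2 ^ s) + 64 * (((s : ℝ) + 1) / 2 ^ s)) :=
      Finset.sum_le_sum fun s _ => cL_le
    rw [Finset.sum_add_distrib, ← Finset.mul_sum, ← Finset.mul_sum] at h2
    have h3 := sum_min k L
    have h4 := sum_lin L
    linarith
  have h3 := Finset.sum_le_card_nsmul S _ _ h1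
  have h4 := Finset.sum_le_card_nsmul S _ _ h2
  rw [nsmul_eq_mul] at h3 h4
  have h5 := pot_le (w := wS S en Z) (W := 2 * k) (t := T) ((wt_wS_le hb).trans (by omega))
  unfold theta
  nlinarith

end

end Pool.Agent.MP_c42954_lc.Scan
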