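import Pool.Agent.MP_c42954_lc.Scan.Both

set_option autoImplicit false

/-!
# Labelling a sequence without long monotone subsequences
-/

namespace Pool.Agent.MP_c42954_lc.Scan

/-- The label of an entry `x` in front of the labelled list `L`: one more than the largest label
of a related later entry. -/
def labOf (r : ℕ → ℕ → Bool) (x : ℕ) : List (ℕ × ℕ) → ℕ
  | [] => 0
  | (y, t) :: L => max (if r x y then t + 1 else 0) (labOf r x L)

/-- Labelling from the right. -/
def lab (r : ℕ → ℕ → Bool) : List ℕ → List (ℕ × ℕ)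
  | [] => []
  | x :: X => (x, labOf r x (lab r X)) :: lab r X

section

variable {r : ℕ → ℕ → Bool}

theorem lab_fst : ∀ X : List ℕ, (lab r X).map Prod.fst = X
  | [] => rfl
  | x :: X => by simp [lab, lab_fst X]

theorem le_labOf {x y t : ℕ} : ∀ {L : List (ℕ × ℕ)}, (y, t) ∈ L → r x y = true →
    t + 1 ≤ labOf r x L
  | [], h, _ => by simp at h
  | (z, u) :: L, h, hr => by
      simp only [labOf]
      rcases List.mem_cons.1 h with h1 | h1
      · obtain ⟨rfl, rfl⟩ := Prod.mk.inj h1
        rw [if_pos hr]
        exact le_max_left _ _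
      · exact (le_labOf h1 hr).trans (le_max_right _ _)

theorem labOf_spec {x : ℕ} : ∀ (L : List (ℕ × ℕ)), labOf r x L = 0 ∨
    ∃ y t, (y, t) ∈ L ∧ r x y = true ∧ labOf r x L = t + 1
  | [] => Or.inl rfl
  | (z, u) :: L => by
      simp only [labOf]
      rcases le_total (if r x z then u + 1 else 0) (labOf r x L) with h | h
      · rw [max_eq_right h]
        rcases labOf_spec (x := x) L with h1 | ⟨y, t, h1, h2, h3⟩
        · exact Or.inl h1
        · exact Or.inr ⟨y, t, List.mem_cons_of_mem _ h1, h2, h3⟩
      · rw [max_eq_left h]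
        split_ifs with h1
        · exact Or.inr ⟨z, u, by simp, h1, rfl⟩
        · exact Or.inl rfl

theorem lab_pairwise : ∀ X : List ℕ,
    (lab r X).Pairwise (fun p q => p.2 = q.2 → ¬ r p.1 q.1 = true)
  | [] => by simp [lab]
  | x :: X => by
      simp only [lab, List.pairwise_cons]
      refine ⟨?_, lab_pairwise X⟩
      rintro ⟨y, t⟩ hq h hr
      simp only at h hr
      have := le_labOf hq hr
      omega

/-- An entry with label `t` starts a chain of length `t + 1`. -/
theorem lab_chain : ∀ (X : List ℕ) (p : ℕ × ℕ), p ∈ lab r X →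
    ∃ Y : List ℕ, (p.1 :: Y).Sublist X ∧ (p.1 :: Y).IsChain (fun a b => r a b = true) ∧
      Y.length = p.2
  | [], p, h => by simp [lab] at h
  | x :: X, p, h => by
      simp only [lab] at h
      rcases List.mem_cons.1 h with h1 | h1
      · subst h1
        simp only
        rcases labOf_spec (r := r) (x := x) (lab r X) with h2 | ⟨y, t, h2, h3, h4⟩
        · exact ⟨[], by simp, by simp, by simp [h2]⟩
        · obtain ⟨Y, h5, h6, h7⟩ := lab_chain X (y, t) h2
          refine ⟨y :: Y, h5.cons_cons x, ?_, ?_⟩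
          · rw [List.isChain_cons_cons]
            exact ⟨h3, h6⟩
          · simp only [List.length_cons, h4]
            simp only at h7
            omega
      · obtain ⟨Y, h5, h6, h7⟩ := lab_chain X p h1
        exact ⟨Y, h5.cons x, h6, h7⟩

/-- The labelling by `Fin k`. -/
theorem exists_labels {k : ℕ} (hk : 1 ≤ k) (htr : ∀ a b c, r a b = true → r b c = true → r a c = true)
    {X : List ℕ} (h : ∀ Y : List ℕ, Y.Sublist X → Y.Pairwise (fun a b => r a b = true) →
      Y.length ≤ k) :
    ∃ Z : List (ℕ × Fin k), Z.map Prod.fst = X ∧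
      Z.Pairwise (fun p q => p.2 = q.2 → ¬ r p.1 q.1 = true) := by
  have hlt : ∀ p ∈ lab r X, p.2 < k := by
    intro p hp
    obtain ⟨Y, h1, h2, h3⟩ := lab_chain X p hp
    have : IsTrans ℕ (fun a b => r a b = true) := ⟨htr⟩
    have h4 := h _ h1 (List.isChain_iff_pairwise.1 h2)
    rw [List.length_cons] at h4
    omega
  refine ⟨(lab r X).map (fun p => (p.1, ⟨p.2 % k, Nat.mod_lt _ (by omega)⟩)), ?_, ?_⟩
  · rw [List.map_map]
    exact lab_fst X
  · rw [List.pairwise_map]
    refine (lab_pairwise X).imp_of_mem ?_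
    intro p q hp hq hpq e
    apply hpq
    have h1 := congrArg Fin.val e
    simp only at h1
    rw [Nat.mod_eq_of_lt (hlt p hp), Nat.mod_eq_of_lt (hlt q hq)] at h1
    exact h1

end

end Pool.Agent.MP_c42954_lc.Scan
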