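import Pool.Agent.MP_c42954_lc.Scan.Half

set_option autoImplicit false

/-!
# The potential of one layer: the keys between a finger `l` and the next finger `g`
-/

namespace Pool.Agent.MP_c42954_lc.Scan

open BinaryTree
open scoped Classical

/-! ## A right access whose key may be requested again -/

theorem onP_root_self {x v : ℕ} {t : BinaryTree ℕ} (h : At x 0 t) (h1 : OnP v x t) : v = x := by
  cases t with
  | nil => simp [At] at h
  | node a l r =>
    simp only [At] at h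
    subst h
    simp only [OnP] at h1
    rcases h1 with h1 | ⟨h2, _⟩ | ⟨h2, _⟩
    · exact h1
    · omega
    · omega

theorem stair_release' {C C' : Finset ℕ} {G G' : ℕ → ℕ} {y : ℕ} (hy : y ∈ C) (hG : 1 ≤ G y)
    (hy' : G' y = 0) (h : ∀ c ∈ C', 1 ≤ G' c → c ∈ C ∧ G' c + 1 ≤ G c) :
    stair C' G' + 1 ≤ stair C G := by
  obtain ⟨f, h1, h2⟩ := stair_spec C' G'
  have hne : ∀ i < stair C' G', f i ≠ y := by
    intro i hi h3
    have := (h2 i hi).2
    rw [h3, hy'] at this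
    omega
  refine le_stair ⟨fun i => if i = 0 then y else f (i - 1), fun i hi j hj hij => ?_,
    fun i hi => ?_⟩
  · simp only at hij
    split_ifs at hij with h3 h4 h4
    · omega
    · exact absurd hij.symm (hne (j - 1) (by omega))
    · exact absurd hij (hne (i - 1) (by omega))
    · have := h1 (i - 1) (by omega) (j - 1) (by omega) hij
      omega
  · simp only
    split_ifs with h3
    · exact ⟨hy, by omega⟩
    · obtain ⟨h4, h5⟩ := h2 (i - 1) (by omega)
      obtain ⟨h6, h7⟩ := h _ h4 (by omega)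
      exact ⟨h6, by omega⟩

section Right

variable {T : BinaryTree ℕ} {y u : ℕ} {W C C' : Finset ℕ}

theorem right_access' (hb : IsBST T) (hy : y ∈ inorder T) (hu : u ∈ inorder T)
    (hW : ∀ w ∈ W, u < w) (hWC : ∀ c ∈ C, ∀ w ∈ W, w < c)
    (hyC : y ∈ C) (hC' : ∀ c ∈ C', y ≤ c ∨ (c ∈ C ∧ c < y)) :
    Yh (splay y T) C' u W ≤ Yh T C u W := by
  have hWy : ∀ w ∈ W, w < y := hWC y hyC
  have hroot := splay_root hb hy
  have hb' := splay_bst hb hy
  -- the tops can only grow, the ghosts can only shrink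
  have htop : ∀ v ∈ W, OnP v u T → OnP v u (splay y T) := fun v hv h =>
    (splay_gain_left hb hy hu (hWy v hv) (hW v hv)).1 h
  have hself : (ghosts (splay y T) u W y).card = 0 := by
    rw [Finset.card_eq_zero, Finset.eq_empty_iff_forall_notMem]
    intro w hw
    obtain ⟨h1, h2, _⟩ := mem_ghosts.1 hw
    have := onP_root_self hroot h2
    have := hWy w h1
    omega
  have hfar : ∀ c ∈ C', y ≤ c → (ghosts (splay y T) u W c).card = 0 := by
    intro c _ hyc
    rcases Nat.eq_or_lt_of_le hyc with h | hyc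
    · subst h; exact hself
    · rw [Finset.card_eq_zero, Finset.eq_empty_iff_forall_notMem]
      intro w hw
      obtain ⟨h1, h2, _⟩ := mem_ghosts.1 hw
      exact onP_root hroot hb' (Or.inl ⟨hWy w h1, hyc⟩) h2
  have hnear : ∀ c ∈ C, c < y → ghosts (splay y T) u W c ⊆ ghosts T u W c := by
    intro c hc hcy w hw
    obtain ⟨h1, h2, h3⟩ := mem_ghosts.1 hw
    exact mem_ghosts.2 ⟨h1, ((splay_left hb hy hcy (hWC c hc w h1)).1 h2).1,
      fun h => h3 (htop w h1 h)⟩
  by_cases hex : ∃ v ∈ W, OnP v u (splay y T) ∧ ¬ OnP v u T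
  · obtain ⟨v0, hv0, hg0, hn0⟩ := hex
    have huniq : ∀ v ∈ W, OnP v u (splay y T) → ¬ OnP v u T → v = v0 := by
      intro v hv hg hn
      rcases Nat.lt_trichotomy v v0 with h | h | h
      · exact (gain_unique hb hy hu (hW v hv) h (hWy v0 hv0) hg hn hg0 hn0).elim
      · exact h
      · exact (gain_unique hb hy hu (hW v0 hv0) h (hWy v hv) hg0 hn0 hg hn).elim
    have hv0y : OnP v0 y T := by
      obtain ⟨a1, p1, _, _, _⟩ :=
        (splay_gain_left hb hy hu (hWy v0 hv0) (hW v0 hv0)).2 hg0 hn0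
      exact (pair_up_onP hb hy p1).1
    have hcard : (tops (splay y T) u W).card ≤ (tops T u W).card + 1 := by
      have hsub : tops (splay y T) u W ⊆ insert v0 (tops T u W) := by
        intro v hv
        obtain ⟨h1, h2⟩ := mem_tops.1 hv
        by_cases h3 : OnP v u T
        · exact Finset.mem_insert_of_mem (mem_tops.2 ⟨h1, h3⟩)
        · rw [huniq v h1 h2 h3]; exact Finset.mem_insert_self _ _
      exact (Finset.card_le_card hsub).trans (Finset.card_insert_le _ _)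
    have hst : stair C' (fun c => (ghosts (splay y T) u W c).card) + 1
        ≤ stair C (fun c => (ghosts T u W c).card) := by
      apply stair_release' hyC
      · exact Finset.card_pos.2 ⟨v0, mem_ghosts.2 ⟨hv0, hv0y, hn0⟩⟩
      · exact hself
      · intro c hc h1
        rcases hC' c hc with h2 | ⟨h2, h3⟩
        · have := hfar c hc h2
          omega
        · refine ⟨h2, ?_⟩
          have hv0c : v0 ∈ ghosts T u W c := by
            refine mem_ghosts.2 ⟨hv0, ?_, hn0⟩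
            have := hWC c h2 v0 hv0
            exact onP_convex hb hv0y (Or.inl ⟨by omega, by omega⟩)
          have hsub : ghosts (splay y T) u W c ⊆ (ghosts T u W c).erase v0 := by
            intro w hw
            refine Finset.mem_erase.2 ⟨?_, hnear c h2 h3 hw⟩
            rintro rfl
            exact (mem_ghosts.1 hw).2.2 hg0
          have h4 := Finset.card_le_card hsub
          rw [Finset.card_erase_of_mem hv0c] at h4
          have h5 : 1 ≤ (ghosts T u W c).card := Finset.card_pos.2 ⟨v0, hv0c⟩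
          omega
    unfold Yh
    omega
  · have hcard : (tops (splay y T) u W).card ≤ (tops T u W).card := by
      apply Finset.card_le_card
      intro v hv
      obtain ⟨h1, h2⟩ := mem_tops.1 hv
      by_contra h3
      exact hex ⟨v, h1, h2, fun h => h3 (mem_tops.2 ⟨h1, h⟩)⟩
    have hst : stair C' (fun c => (ghosts (splay y T) u W c).card)
        ≤ stair C (fun c => (ghosts T u W c).card) := by
      apply stair_mono
      intro c hc h1
      rcases hC' c hc with h2 | ⟨h2, h3⟩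
      · have := hfar c hc h2
        omega
      · exact ⟨h2, Finset.card_le_card (hnear c h2 h3)⟩
    unfold Yh
    omega

theorem Yh_empty (T : BinaryTree ℕ) (C : Finset ℕ) (u : ℕ) : Yh T C u ∅ = 0 := by
  have h1 := stair_ghosts_le T C u ∅
  rw [Finset.card_empty, Nat.min_zero] at h1
  unfold Yh
  have : (tops T u ∅).card = 0 := by simp [tops]
  omega

theorem Yh_le (T : BinaryTree ℕ) (C : Finset ℕ) (u : ℕ) (W : Finset ℕ) {k : ℕ} (hk : C.card ≤ k) :
    Yh T C u W ≤ (tops T u W).card + min k W.card := by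
  unfold Yh
  have h1 := stair_ghosts_le T C u W
  omega

theorem Yh_le' (T : BinaryTree ℕ) (C : Finset ℕ) (u : ℕ) (W : Finset ℕ) :
    Yh T C u W ≤ 2 * W.card := by
  unfold Yh
  have h1 := stair_ghosts_le T C u W
  have h2 : (tops T u W).card ≤ W.card := Finset.card_filter_le _ _
  omega

end Right

/-! ## The early cells -/

/-- The value of an early cell. -/
noncomputable def eV (k : ℕ) (T : BinaryTree ℕ) (C : Finset ℕ) (u s : ℕ) : ℝ :=
  psi (min k (2 ^ s)) (Yh T C u (Finset.Ioc (u + 2 * 2 ^ s) (u + 3 * 2 ^ s))) / 2 ^ s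

/-- The sum of the values of the early cells between `l` and `g`. -/
noncomputable def eS (k L : ℕ) (T : BinaryTree ℕ) (C : Finset ℕ) (l g : ℕ) : ℝ :=
  ∑ s ∈ Finset.range L, ∑ u ∈ Finset.Ioo l (g - 3 * 2 ^ s), eV k T C u s

/-- The bound for an early cell. -/
noncomputable def eB (k s : ℕ) : ℝ := 2 * (((min k (2 ^ s) : ℕ) : ℝ) / 2 ^ s)
  + 128 * (((s : ℝ) + 1) / 2 ^ s)

theorem eB_nonneg (k s : ℕ) : 0 ≤ eB k s := by unfold eB; positivity

theorem eV_nonneg (k : ℕ) (T : BinaryTree ℕ) (C : Finset ℕ) (u s : ℕ) : 0 ≤ eV k T C u s := by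
  unfold eV
  have := psi_nonneg (min k (2 ^ s)) (Yh T C u (Finset.Ioc (u + 2 * 2 ^ s) (u + 3 * 2 ^ s)))
  positivity

theorem eV_le (k : ℕ) (T : BinaryTree ℕ) (C : Finset ℕ) (u s : ℕ) : eV k T C u s ≤ eB k s := by
  have h1 := Yh_le' T C u (Finset.Ioc (u + 2 * 2 ^ s) (u + 3 * 2 ^ s))
  have hW : (Finset.Ioc (u + 2 * 2 ^ s) (u + 3 * 2 ^ s)).card ≤ 2 ^ s := by
    rw [Nat.card_Ioc]; omega
  have hq : 1 + Yh T C u (Finset.Ioc (u + 2 * 2 ^ s) (u + 3 * 2 ^ s)) ≤ 2 ^ (s + 2) := by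
    rw [pow_add]
    have := Nat.one_le_two_pow (n := s)
    omega
  have h2 := psi_le (min k (2 ^ s)) _ (log_pow_le 2 (s + 2) (by norm_num) hq (by norm_num))
  unfold eV eB
  have h3 : (0 : ℝ) < 2 ^ s := by positivity
  rw [div_le_iff₀ h3]
  have e : (2 * (((min k (2 ^ s) : ℕ) : ℝ) / 2 ^ s) + 128 * (((s : ℝ) + 1) / 2 ^ s)) * 2 ^ s
      = 2 * (min k (2 ^ s) : ℕ) + 128 * (s + 1) := by
    field_simp
  rw [e]
  refine h2.trans ?_
  push_cast
  have : (0 : ℝ) ≤ s := Nat.cast_nonneg s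
  linarith

theorem eS_nonneg (k L : ℕ) (T : BinaryTree ℕ) (C : Finset ℕ) (l g : ℕ) : 0 ≤ eS k L T C l g :=
  Finset.sum_nonneg fun s _ => Finset.sum_nonneg fun u _ => eV_nonneg k T C u s

/-- Twice the sum of the bounds of the early cells. -/
noncomputable def AE (k : ℕ) : ℝ := 2 * (Nat.log 2 k + 3) + 512

theorem sum_eB (k L : ℕ) : ∑ s ∈ Finset.range L, eB k s ≤ AE k := by
  unfold eB AE
  rw [Finset.sum_add_distrib, ← Finset.mul_sum, ← Finset.mul_sum]
  have h3 := sum_min k L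
  have h4 := sum_lin L
  linarith

section Early

variable {k L : ℕ} {T T' : BinaryTree ℕ} {C C' : Finset ℕ} {l l' g g' : ℕ}

theorem eS_mono (h : ∀ u W, l < u → (∀ w ∈ W, u < w ∧ w < g) → Yh T' C' u W ≤ Yh T C u W) :
    eS k L T' C' l g ≤ eS k L T C l g := by
  refine Finset.sum_le_sum fun s _ => Finset.sum_le_sum fun u hu => ?_
  rw [Finset.mem_Ioo] at hu
  unfold eV
  have := psi_mono (K := min k (2 ^ s)) (h u (Finset.Ioc (u + 2 * 2 ^ s) (u + 3 * 2 ^ s)) hu.1 (by
    intro w hw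
    rw [Finset.mem_Ioc] at hw
    omega))
  gcongr

theorem eS_own (h : l ≤ l') : eS k L T C l' g ≤ eS k L T C l g := by
  refine Finset.sum_le_sum fun s _ => ?_
  apply Finset.sum_le_sum_of_subset_of_nonneg
  · intro u hu
    rw [Finset.mem_Ioo] at hu ⊢
    omega
  · intro u _ _
    exact eV_nonneg k T C u s

theorem eS_up (h : g ≤ g') : eS k L T C l g' ≤ eS k L T C l g + ((g' : ℝ) - g) * AE k := by
  have hgg : (0 : ℝ) ≤ (g' : ℝ) - g := by
    have : (g : ℝ) ≤ g' := by exact_mod_cast h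
    linarith
  have key : ∀ s ∈ Finset.range L, ∑ u ∈ Finset.Ioo l (g' - 3 * 2 ^ s), eV k T C u s
      ≤ ∑ u ∈ Finset.Ioo l (g - 3 * 2 ^ s), eV k T C u s + ((g' : ℝ) - g) * eB k s := by
    intro s _
    have hsub : Finset.Ioo l (g' - 3 * 2 ^ s) ⊆ Finset.Ioo l (g - 3 * 2 ^ s) ∪
        Finset.Ico (g - 3 * 2 ^ s) (g' - 3 * 2 ^ s) := by
      intro u hu
      rw [Finset.mem_union, Finset.mem_Ioo, Finset.mem_Ico]
      rw [Finset.mem_Ioo] at hu
      omega
    have h1 : ∑ u ∈ Finset.Ioo l (g' - 3 * 2 ^ s), eV k T C u s ≤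
        ∑ u ∈ Finset.Ioo l (g - 3 * 2 ^ s) ∪ Finset.Ico (g - 3 * 2 ^ s) (g' - 3 * 2 ^ s),
          eV k T C u s :=
      Finset.sum_le_sum_of_subset_of_nonneg hsub (fun u _ _ => eV_nonneg k T C u s)
    have h2 : ∑ u ∈ Finset.Ioo l (g - 3 * 2 ^ s) ∪ Finset.Ico (g - 3 * 2 ^ s) (g' - 3 * 2 ^ s),
          eV k T C u s ≤ ∑ u ∈ Finset.Ioo l (g - 3 * 2 ^ s), eV k T C u s +
          ∑ u ∈ Finset.Ico (g - 3 * 2 ^ s) (g' - 3 * 2 ^ s), eV k T C u s := by
      rw [← Finset.sum_union_inter]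
      have : 0 ≤ ∑ u ∈ Finset.Ioo l (g - 3 * 2 ^ s) ∩ Finset.Ico (g - 3 * 2 ^ s)
          (g' - 3 * 2 ^ s), eV k T C u s := Finset.sum_nonneg fun u _ => eV_nonneg k T C u s
      linarith
    have h3 := Finset.sum_le_card_nsmul (Finset.Ico (g - 3 * 2 ^ s) (g' - 3 * 2 ^ s))
      (fun u => eV k T C u s) (eB k s) (fun u _ => eV_le k T C u s)
    rw [nsmul_eq_mul, Nat.card_Ico] at h3
    have h4 : ((g' - 3 * 2 ^ s - (g - 3 * 2 ^ s) : ℕ) : ℝ) ≤ (g' : ℝ) - g := by
      rw [← Nat.cast_sub h]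
      have : g' - 3 * 2 ^ s - (g - 3 * 2 ^ s) ≤ g' - g := by omega
      exact_mod_cast this
    have h5 := mul_le_mul_of_nonneg_right h4 (eB_nonneg k s)
    linarith
  have h6 := Finset.sum_le_sum key
  rw [Finset.sum_add_distrib, ← Finset.mul_sum] at h6
  have h7 := mul_le_mul_of_nonneg_left (sum_eB k L) hgg
  unfold eS
  linarith

theorem eS_le {M : ℕ} (h : g ≤ l + M) : eS k L T C l g ≤ M * AE k := by
  have key : ∀ s ∈ Finset.range L, ∑ u ∈ Finset.Ioo l (g - 3 * 2 ^ s), eV k T C u s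
      ≤ (M : ℝ) * eB k s := by
    intro s _
    have h3 := Finset.sum_le_card_nsmul (Finset.Ioo l (g - 3 * 2 ^ s))
      (fun u => eV k T C u s) (eB k s) (fun u _ => eV_le k T C u s)
    rw [nsmul_eq_mul, Nat.card_Ioo] at h3
    have h4 : ((g - 3 * 2 ^ s - l - 1 : ℕ) : ℝ) ≤ (M : ℝ) := by
      have : g - 3 * 2 ^ s - l - 1 ≤ M := by omega
      exact_mod_cast this
    have h5 := mul_le_mul_of_nonneg_right h4 (eB_nonneg k s)
    linarith
  have h6 := Finset.sum_le_sum key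
  rw [← Finset.mul_sum] at h6
  have h7 := mul_le_mul_of_nonneg_left (sum_eB k L) (Nat.cast_nonneg M : (0 : ℝ) ≤ M)
  unfold eS
  linarith

end Early

/-! ## The window cells -/

/-- The first multiple of `2 ^ s` above `l`. -/
def wu (l s : ℕ) : ℕ := (l / 2 ^ s + 1) * 2 ^ s

/-- The right end of the windows. -/
def wb (g s : ℕ) : ℕ := (g / 2 ^ s) * 2 ^ s - 1

/-- The left end of the `r`-th window. -/
def wa (l g s r : ℕ) : ℕ :=
  if r < 3 then (g / 2 ^ s - (r + 2)) * 2 ^ s else (l / 2 ^ s + (r + 1)) * 2 ^ s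

/-- The value of a window cell. -/
noncomputable def wV (k : ℕ) (T : BinaryTree ℕ) (C : Finset ℕ) (l g s r : ℕ) : ℝ :=
  psi (min k (4 * 2 ^ s))
    (min (Yh T C (wu l s) (Finset.Ioc (max (wu l s) (wa l g s r)) (wb g s))) (8 * 4 ^ s))

/-- The bound for the window cells of one scale. -/
noncomputable def wB (k s : ℕ) : ℝ := 9 * (2 * ((min k (4 * 2 ^ s) : ℕ) : ℝ) + 64 * ((s : ℝ) + 2))

/-- The sum of the values of the window cells. -/
noncomputable def wW (k L M : ℕ) (T : BinaryTree ℕ) (C : Finset ℕ) (l g : ℕ) : ℝ :=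
  ∑ s ∈ Finset.range L, if 2 ^ s ≤ M then
    ∑ r ∈ Finset.range 9, wV k T C l g s r
      + wB k s * ((((l % 2 ^ s : ℕ) : ℝ) + ((g % 2 ^ s : ℕ) : ℝ)) / 2 ^ s)
    else 0

theorem wB_nonneg (k s : ℕ) : 0 ≤ wB k s := by unfold wB; positivity

theorem wV_nonneg (k : ℕ) (T : BinaryTree ℕ) (C : Finset ℕ) (l g s r : ℕ) :
    0 ≤ wV k T C l g s r := psi_nonneg _ _

theorem wV_le (k : ℕ) (T : BinaryTree ℕ) (C : Finset ℕ) (l g s r : ℕ) :
    wV k T C l g s r ≤ 2 * ((min k (4 * 2 ^ s) : ℕ) : ℝ) + 64 * ((s : ℝ) + 2) := by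
  unfold wV
  have hq : 1 + min (Yh T C (wu l s) (Finset.Ioc (max (wu l s) (wa l g s r)) (wb g s)))
      (8 * 4 ^ s) ≤ 4 ^ (s + 2) := by
    rw [pow_add]
    have := Nat.one_le_pow s 4 (by norm_num)
    have := min_le_right (Yh T C (wu l s) (Finset.Ioc (max (wu l s) (wa l g s r)) (wb g s)))
      (8 * 4 ^ s)
    omega
  have h2 := psi_le (min k (4 * 2 ^ s)) _
    (log_pow_le 4 (s + 2) (by norm_num) hq (by norm_num))
  refine h2.trans ?_
  push_cast
  linarith

theorem sum_wV_le (k : ℕ) (T : BinaryTree ℕ) (C : Finset ℕ) (l g s : ℕ) :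
    ∑ r ∈ Finset.range 9, wV k T C l g s r ≤ wB k s := by
  have h := Finset.sum_le_card_nsmul (Finset.range 9) (fun r => wV k T C l g s r) _
    (fun r _ => wV_le k T C l g s r)
  rw [nsmul_eq_mul, Finset.card_range] at h
  unfold wB
  exact_mod_cast h

theorem sum_wV_nonneg (k : ℕ) (T : BinaryTree ℕ) (C : Finset ℕ) (l g s : ℕ) :
    0 ≤ ∑ r ∈ Finset.range 9, wV k T C l g s r :=
  Finset.sum_nonneg fun r _ => wV_nonneg k T C l g s r

theorem wW_nonneg (k L M : ℕ) (T : BinaryTree ℕ) (C : Finset ℕ) (l g : ℕ) :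
    0 ≤ wW k L M T C l g := by
  refine Finset.sum_nonneg fun s _ => ?_
  split_ifs
  · have h1 := sum_wV_nonneg k T C l g s
    have h2 := wB_nonneg k s
    positivity
  · exact le_rfl

/-- The constant for the windows. -/
noncomputable def AW (k : ℕ) : ℝ := 9 * (8 * (Nat.log 2 k + 3) + 512)

theorem sum_wB (k L : ℕ) : ∑ s ∈ Finset.range L, wB k s / 2 ^ s ≤ AW k := by
  have h : ∀ s ∈ Finset.range L, wB k s / 2 ^ s ≤
      9 * (8 * (((min k (2 ^ s) : ℕ) : ℝ) / 2 ^ s) + 128 * (((s : ℝ) + 1) / 2 ^ s)) := by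
    intro s _
    have h3 : (0 : ℝ) < 2 ^ s := by positivity
    rw [div_le_iff₀ h3]
    have e : 9 * (8 * (((min k (2 ^ s) : ℕ) : ℝ) / 2 ^ s) + 128 * (((s : ℝ) + 1) / 2 ^ s)) * 2 ^ s
        = 9 * (8 * (min k (2 ^ s) : ℕ) + 128 * (s + 1)) := by
      field_simp
    rw [e]
    unfold wB
    have h4 : ((min k (4 * 2 ^ s) : ℕ) : ℝ) ≤ 4 * ((min k (2 ^ s) : ℕ) : ℝ) := by
      have : min k (4 * 2 ^ s) ≤ 4 * min k (2 ^ s) := by omega
      exact_mod_cast this
    have : (0 : ℝ) ≤ s := Nat.cast_nonneg s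
    linarith
  have h1 := Finset.sum_le_sum h
  rw [← Finset.mul_sum, Finset.sum_add_distrib, ← Finset.mul_sum, ← Finset.mul_sum] at h1
  have h3 := sum_min k L
  have h4 := sum_lin L
  unfold AW
  linarith

theorem mod_step (h : ℕ) {l l' : ℕ} (hl : l ≤ l') :
    (l' / h = l / h ∧ l' % h = l % h + (l' - l)) ∨ l' % h + h ≤ l % h + (l' - l) := by
  have e1 := Nat.div_add_mod l h
  have e2 := Nat.div_add_mod l' h
  have h1 : l / h ≤ l' / h := Nat.div_le_div_right hl
  rcases Nat.eq_or_lt_of_le h1 with h2 | h2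
  · left
    rw [← h2] at e2
    refine ⟨h2.symm, ?_⟩
    omega
  · right
    obtain ⟨t, ht⟩ : ∃ t, l' / h = l / h + 1 + t := ⟨l' / h - (l / h + 1), by omega⟩
    rw [ht] at e2
    have e3 : h * (l / h + 1 + t) = h * (l / h) + h + h * t := by ring
    rw [e3] at e2
    omega

section Window

variable {k L M : ℕ} {T T' : BinaryTree ℕ} {C C' : Finset ℕ} {l l' g g' : ℕ}

theorem lt_wu (l s : ℕ) : l < wu l s := by
  unfold wu
  have h2 : (0 : ℕ) < 2 ^ s := by positivity
  have e1 := Nat.div_add_mod l (2 ^ s)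
  have e2 := Nat.mod_lt l h2
  have e3 : (l / 2 ^ s + 1) * 2 ^ s = 2 ^ s * (l / 2 ^ s) + 2 ^ s := by ring
  omega

theorem wb_lt {w s : ℕ} (h1 : 0 < w) (h2 : w ≤ wb g s) : w < g := by
  unfold wb at h2
  have := Nat.div_mul_le_self g (2 ^ s)
  omega

theorem wW_mono (h : ∀ u W, l < u → (∀ w ∈ W, u < w ∧ w < g) → Yh T' C' u W ≤ Yh T C u W) :
    wW k L M T' C' l g ≤ wW k L M T C l g := by
  refine Finset.sum_le_sum fun s _ => ?_
  split_ifs
  · apply add_le_add _ le_rfl
    refine Finset.sum_le_sum fun r _ => ?_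
    unfold wV
    apply psi_mono
    apply min_le_min_right
    apply h _ _ (lt_wu l s)
    intro w hw
    rw [Finset.mem_Ioc] at hw
    have := wb_lt (g := g) (s := s) (by omega : 0 < w) hw.2
    omega
  · exact le_rfl

/-- The cost of moving a finger: the generic estimate for one scale. -/
theorem scale_step {B V V' : ℝ} {h a a' c : ℕ} (hh : 0 < h) (ha : a ≤ a') (hV : V' ≤ B)
    (hV0 : 0 ≤ V) (hB : 0 ≤ B) (hsame : a' / h = a / h → V' = V) :
    V' + B * ((((a' % h : ℕ) : ℝ) + c) / h) ≤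
      V + B * ((((a % h : ℕ) : ℝ) + c) / h) + ((a' : ℝ) - a) * (B / h) := by
  have hh' : (0 : ℝ) < h := by exact_mod_cast hh
  have haa : ((a' - a : ℕ) : ℝ) = (a' : ℝ) - a := by rw [Nat.cast_sub ha]
  rcases mod_step h ha with ⟨h1, h2⟩ | h2
  · rw [hsame h1]
    have h3 : ((a' % h : ℕ) : ℝ) = ((a % h : ℕ) : ℝ) + ((a' : ℝ) - a) := by
      rw [← haa, h2]; push_cast; ring
    rw [h3]
    apply le_of_eq
    field_simp
    ring
  · have h3 : ((a' % h : ℕ) : ℝ) + h ≤ ((a % h : ℕ) : ℝ) + ((a' : ℝ) - a) := by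
      rw [← haa]; exact_mod_cast h2
    have h4 : B * ((((a' % h : ℕ) : ℝ) + c) / h) + B ≤
        B * ((((a % h : ℕ) : ℝ) + c) / h) + ((a' : ℝ) - a) * (B / h) := by
      have e1 : B * ((((a' % h : ℕ) : ℝ) + c) / h) + B
          = (B / h) * (((a' % h : ℕ) : ℝ) + h + c) := by
        field_simp
        ring
      have e2 : B * ((((a % h : ℕ) : ℝ) + c) / h) + ((a' : ℝ) - a) * (B / h)
          = (B / h) * (((a % h : ℕ) : ℝ) + ((a' : ℝ) - a) + c) := by
        field_simp
        ring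
      rw [e1, e2]
      apply mul_le_mul_of_nonneg_left _ (by positivity)
      linarith
    linarith

theorem wW_own (h : l ≤ l') :
    wW k L M T C l' g ≤ wW k L M T C l g + ((l' : ℝ) - l) * AW k := by
  have hll : (0 : ℝ) ≤ (l' : ℝ) - l := by
    have : (l : ℝ) ≤ l' := by exact_mod_cast h
    linarith
  have key : ∀ s ∈ Finset.range L, (if 2 ^ s ≤ M then
      ∑ r ∈ Finset.range 9, wV k T C l' g s r
        + wB k s * ((((l' % 2 ^ s : ℕ) : ℝ) + ((g % 2 ^ s : ℕ) : ℝ)) / 2 ^ s)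
      else 0) ≤ (if 2 ^ s ≤ M then
      ∑ r ∈ Finset.range 9, wV k T C l g s r
        + wB k s * ((((l % 2 ^ s : ℕ) : ℝ) + ((g % 2 ^ s : ℕ) : ℝ)) / 2 ^ s)
      else 0) + ((l' : ℝ) - l) * (wB k s / 2 ^ s) := by
    intro s _
    split_ifs
    · have h2 : (0 : ℕ) < 2 ^ s := by positivity
      have := scale_step (B := wB k s) (V := ∑ r ∈ Finset.range 9, wV k T C l g s r)
        (V' := ∑ r ∈ Finset.range 9, wV k T C l' g s r) (c := g % 2 ^ s) h2 h
        (sum_wV_le k T C l' g s) (sum_wV_nonneg k T C l g s) (wB_nonneg k s) (by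
          intro h3
          refine Finset.sum_congr rfl fun r _ => ?_
          unfold wV wu wa
          rw [h3])
      push_cast at this ⊢
      exact this
    · have := wB_nonneg k s
      have : 0 ≤ ((l' : ℝ) - l) * (wB k s / 2 ^ s) := by positivity
      linarith
  have h6 := Finset.sum_le_sum key
  rw [Finset.sum_add_distrib, ← Finset.mul_sum] at h6
  have h7 := mul_le_mul_of_nonneg_left (sum_wB k L) hll
  unfold wW
  linarith

theorem wW_up (h : g ≤ g') :
    wW k L M T C l g' ≤ wW k L M T C l g + ((g' : ℝ) - g) * AW k := by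
  have hgg : (0 : ℝ) ≤ (g' : ℝ) - g := by
    have : (g : ℝ) ≤ g' := by exact_mod_cast h
    linarith
  have key : ∀ s ∈ Finset.range L, (if 2 ^ s ≤ M then
      ∑ r ∈ Finset.range 9, wV k T C l g' s r
        + wB k s * ((((l % 2 ^ s : ℕ) : ℝ) + ((g' % 2 ^ s : ℕ) : ℝ)) / 2 ^ s)
      else 0) ≤ (if 2 ^ s ≤ M then
      ∑ r ∈ Finset.range 9, wV k T C l g s r
        + wB k s * ((((l % 2 ^ s : ℕ) : ℝ) + ((g % 2 ^ s : ℕ) : ℝ)) / 2 ^ s)
      else 0) + ((g' : ℝ) - g) * (wB k s / 2 ^ s) := by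
    intro s _
    split_ifs
    · have h2 : (0 : ℕ) < 2 ^ s := by positivity
      have := scale_step (B := wB k s) (V := ∑ r ∈ Finset.range 9, wV k T C l g s r)
        (V' := ∑ r ∈ Finset.range 9, wV k T C l g' s r) (c := l % 2 ^ s) h2 h
        (sum_wV_le k T C l g' s) (sum_wV_nonneg k T C l g s) (wB_nonneg k s) (by
          intro h3
          refine Finset.sum_congr rfl fun r _ => ?_
          unfold wV wb wa
          rw [h3])
      push_cast at this ⊢
      rw [add_comm (((g' % 2 ^ s : ℕ) : ℝ)) _, add_comm (((g % 2 ^ s : ℕ) : ℝ)) _] at this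
      exact this
    · have := wB_nonneg k s
      have : 0 ≤ ((g' : ℝ) - g) * (wB k s / 2 ^ s) := by positivity
      linarith
  have h6 := Finset.sum_le_sum key
  rw [Finset.sum_add_distrib, ← Finset.mul_sum] at h6
  have h7 := mul_le_mul_of_nonneg_left (sum_wB k L) hgg
  unfold wW
  linarith

theorem wW_le : wW k L M T C l g ≤ 3 * M * AW k := by
  have key : ∀ s ∈ Finset.range L, (if 2 ^ s ≤ M then
      ∑ r ∈ Finset.range 9, wV k T C l g s r
        + wB k s * ((((l % 2 ^ s : ℕ) : ℝ) + ((g % 2 ^ s : ℕ) : ℝ)) / 2 ^ s)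
      else 0) ≤ 3 * M * (wB k s / 2 ^ s) := by
    intro s _
    have h0 := wB_nonneg k s
    split_ifs with hM
    · have h2 : (0 : ℝ) < 2 ^ s := by positivity
      have h3 := sum_wV_le k T C l g s
      have h4 : ((((l % 2 ^ s : ℕ) : ℝ) + ((g % 2 ^ s : ℕ) : ℝ)) / 2 ^ s) ≤ 2 := by
        rw [div_le_iff₀ h2]
        have e1 : l % 2 ^ s ≤ 2 ^ s := (Nat.mod_lt _ (by positivity)).le
        have e2 : g % 2 ^ s ≤ 2 ^ s := (Nat.mod_lt _ (by positivity)).le
        have e3 : (((l % 2 ^ s : ℕ) : ℝ) + ((g % 2 ^ s : ℕ) : ℝ)) ≤ ((2 * 2 ^ s : ℕ) : ℝ) := by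
          exact_mod_cast (by omega : l % 2 ^ s + g % 2 ^ s ≤ 2 * 2 ^ s)
        push_cast at e3 ⊢
        exact e3
      have h5 := mul_le_mul_of_nonneg_left h4 h0
      have h6 : wB k s ≤ M * (wB k s / 2 ^ s) := by
        have hM' : (2 : ℝ) ^ s ≤ M := by exact_mod_cast hM
        have h7 := mul_le_mul_of_nonneg_right hM' (show 0 ≤ wB k s / 2 ^ s by positivity)
        have e : (2 : ℝ) ^ s * (wB k s / 2 ^ s) = wB k s := by field_simp
        rw [e] at h7
        exact h7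
      linarith
    · positivity
  have h6 := Finset.sum_le_sum key
  rw [← Finset.mul_sum] at h6
  have h7 := mul_le_mul_of_nonneg_left (sum_wB k L) (show (0 : ℝ) ≤ 3 * M by positivity)
  unfold wW
  linarith

end Window

end Pool.Agent.MP_c42954_lc.Scan
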