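import Pool.Agent.MP_c42954_lc.Scan.Amort

set_option autoImplicit false

/-!
# An access lemma which counts only the path nodes of positive weight
-/

namespace Pool.Agent.MP_c42954_lc.Scan

open BinaryTree
open scoped Classical

/-- Total weight of the keys of a tree. -/
def wt (w : ℕ → ℕ) : BinaryTree ℕ → ℕ
  | .nil => 0
  | .node a l r => wt w l + w a + wt w r

/-- The weight of the subtree rooted at `x`. -/
def swt (w : ℕ → ℕ) (x : ℕ) : BinaryTree ℕ → ℕ
  | .nil => 0
  | .node a l r => if x = a then wt w l + w a + wt w r else if x < a then swt w x l else swt w x r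

/-- The rank of a subtree of weight `s`. -/
noncomputable def rk (s : ℕ) : ℝ := Real.log (1 + (s : ℝ))

/-- The sum of the ranks. -/
noncomputable def pot (w : ℕ → ℕ) : BinaryTree ℕ → ℝ
  | .nil => 0
  | .node a l r => pot w l + rk (wt w l + w a + wt w r) + pot w r

/-- The number of proper ancestors of `x` whose subtree has positive weight. -/
def cnt (w : ℕ → ℕ) (x : ℕ) : BinaryTree ℕ → ℕ
  | .nil => 0
  | .node a l r => if x = a then 0 else
      (if x < a then cnt w x l else cnt w x r) + (min 1 (wt w l + w a + wt w r))

theorem rk_nonneg (s : ℕ) : 0 ≤ rk s := by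
  unfold rk
  apply Real.log_nonneg
  have : (0 : ℝ) ≤ s := Nat.cast_nonneg s
  linarith

theorem rk_mono {s t : ℕ} (h : s ≤ t) : rk s ≤ rk t := by
  unfold rk
  apply Real.log_le_log
  · positivity
  · have : (s : ℝ) ≤ t := by exact_mod_cast h
    linarith

theorem rk_concave {s t S : ℕ} (h : s + t ≤ S) (hS : 1 ≤ S) :
    rk s + rk t + 1 / 2 ≤ 2 * rk S := by
  unfold rk
  have hs : (0 : ℝ) ≤ s := Nat.cast_nonneg s
  have ht : (0 : ℝ) ≤ t := Nat.cast_nonneg t
  have h1 : (s : ℝ) + t ≤ S := by exact_mod_cast h
  have h2 : (1 : ℝ) ≤ S := by exact_mod_cast hS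
  have e1 : Real.log (1 + (s : ℝ)) + Real.log (1 + (t : ℝ)) = Real.log ((1 + s) * (1 + t)) := by
    rw [Real.log_mul (by positivity) (by positivity)]
  have h3 : (1 + (s : ℝ)) * (1 + t) ≤ (3 / 4 * (1 + S)) ^ 2 := by
    have h4 : (1 + (s : ℝ)) * (1 + t) ≤ ((2 + s + t) / 2) ^ 2 := by
      nlinarith [sq_nonneg ((s : ℝ) - t)]
    have h5 : ((2 + (s : ℝ) + t) / 2) ^ 2 ≤ (3 / 4 * (1 + S)) ^ 2 := by
      apply pow_le_pow_left₀ (by positivity)
      linarith
    linarith
  have h4 : Real.log ((1 + s) * (1 + t)) ≤ Real.log ((3 / 4 * (1 + S)) ^ 2) :=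
    Real.log_le_log (by positivity) h3
  rw [Real.log_pow, Real.log_mul (x := 3 / 4) (y := 1 + (S : ℝ)) (by norm_num) (by positivity)] at h4
  have h5 : Real.log (3 / 4 : ℝ) ≤ -(1 / 4) := by
    have := Real.log_le_sub_one_of_pos (x := (3 / 4 : ℝ)) (by norm_num)
    linarith
  push_cast at h4
  linarith

section

variable {w : ℕ → ℕ} {x : ℕ}

theorem pot_nonneg (w : ℕ → ℕ) : ∀ t, 0 ≤ pot w t
  | .nil => le_rfl
  | .node a l r => by
      have h1 := pot_nonneg w l
      have h2 := pot_nonneg w r
      have h3 := rk_nonneg (wt w l + w a + wt w r)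
      simp only [pot]
      linarith

theorem dbl_wt {p g : ℕ} {t t' : BinaryTree ℕ} (h : Dbl x p g t t') : wt w t' = wt w t := by
  induction h with
  | ll A B C D h1 h2 => simp only [wt]; ring
  | rr A B C D h1 h2 => simp only [wt]; ring
  | lr A B C D h1 h2 => simp only [wt]; ring
  | rl A B C D h1 h2 => simp only [wt]; ring
  | inL a r h1 h2 ih => simp only [wt, ih]
  | inR a l h1 h2 ih => simp only [wt, ih]

theorem zig_wt {y : ℕ} {t t' : BinaryTree ℕ} (h : Zig x y t t') : wt w t' = wt w t := by
  cases h with
  | left A B C h1 => simp only [wt]; ring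
  | right A B C h1 => simp only [wt]; ring

/-- The inequality behind a zig-zig step. -/
theorem zz_ineq {c sx sp sg tp tg : ℕ} (h1 : sx ≤ sp) (h2 : sp ≤ sg) (h3 : tp ≤ sg)
    (h4 : tg + sx ≤ sg) (hc : c ≤ 2) (hc0 : sg = 0 → c = 0) :
    1 / 4 * (c : ℝ) + (rk sg + rk tp + rk tg) ≤ rk sx + rk sp + rk sg
      + 3 * (rk sg - rk sx) := by
  have m1 := rk_mono h1
  have m2 := rk_mono h2
  have m3 := rk_mono h3
  have hc' : (c : ℝ) ≤ 2 := by exact_mod_cast hc
  rcases Nat.eq_zero_or_pos sg with h0 | h0
  · have hc1 := hc0 h0
    subst hc1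
    have e1 : tg = 0 := by omega
    have e2 : sx = 0 := by omega
    have e3 : tp = 0 := by omega
    have e4 : sp = 0 := by omega
    subst e1 e2 e3 e4 h0
    simp
  · have := rk_concave (s := tg) (t := sx) h4 h0
    linarith

/-- The inequality behind a zig-zag step. -/
theorem zg_ineq {c sx sp sg tp tg : ℕ} (h1 : sx ≤ sp) (h2 : sp ≤ sg)
    (h4 : tp + tg ≤ sg) (hc : c ≤ 2) (hc0 : sg = 0 → c = 0) :
    1 / 4 * (c : ℝ) + (rk sg + rk tp + rk tg) ≤ rk sx + rk sp + rk sg
      + 3 * (rk sg - rk sx) := by
  have m1 := rk_mono h1
  have m2 := rk_mono h2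
  have hc' : (c : ℝ) ≤ 2 := by exact_mod_cast hc
  rcases Nat.eq_zero_or_pos sg with h0 | h0
  · have hc1 := hc0 h0
    subst hc1
    have e1 : tg = 0 := by omega
    have e2 : sx = 0 := by omega
    have e3 : tp = 0 := by omega
    have e4 : sp = 0 := by omega
    subst e1 e2 e3 e4 h0
    simp
  · have := rk_concave h4 h0
    linarith

theorem dbl_pot {p g : ℕ} {t t' : BinaryTree ℕ} (h : Dbl x p g t t') :
    1 / 4 * (cnt w x t : ℝ) + pot w t' ≤ 1 / 4 * (cnt w x t' : ℝ) + pot w t
      + 3 * (rk (swt w x t') - rk (swt w x t)) := by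
  induction h with
  | ll A B C D h1 h2 =>
    have e1 : x ≠ g := by omega
    have e2 : x ≠ p := by omega
    simp only [cnt, pot, swt, wt, e1, e2, h1, h2, if_true, if_false, zero_add]
    have e : wt w A + w x + (wt w B + w p + (wt w C + w g + wt w D))
      = wt w A + w x + wt w B + w p + wt w C + w g + wt w D := by ring
    rw [e]
    have := zz_ineq (c := (min 1 (wt w A + w x + wt w B + w p + wt w C)) +
        (min 1 (wt w A + w x + wt w B + w p + wt w C + w g + wt w D)))
      (sx := wt w A + w x + wt w B) (sp := wt w A + w x + wt w B + w p + wt w C)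
      (sg := wt w A + w x + wt w B + w p + wt w C + w g + wt w D)
      (tp := wt w B + w p + (wt w C + w g + wt w D)) (tg := wt w C + w g + wt w D)
      (by omega) (by omega) (by omega) (by omega) (by omega)
      (by intro h0; omega)
    simp only [Nat.cast_add, Nat.cast_zero] at this ⊢
    linarith
  | rr A B C D h1 h2 =>
    have e1 : x ≠ g := by omega
    have e2 : x ≠ p := by omega
    have e3 : ¬ x < g := by omega
    have e4 : ¬ x < p := by omega
    simp only [cnt, pot, swt, wt, e1, e2, e3, e4, if_true, if_false, zero_add]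
    have e : wt w D + w g + wt w C + w p + wt w B + w x + wt w A
      = wt w D + w g + (wt w C + w p + (wt w B + w x + wt w A)) := by ring
    rw [e]
    have := zz_ineq (c := (min 1 (wt w C + w p + (wt w B + w x + wt w A))) +
        (min 1 (wt w D + w g + (wt w C + w p + (wt w B + w x + wt w A)))))
      (sx := wt w B + w x + wt w A) (sp := wt w C + w p + (wt w B + w x + wt w A))
      (sg := wt w D + w g + (wt w C + w p + (wt w B + w x + wt w A)))
      (tp := wt w D + w g + wt w C + w p + wt w B) (tg := wt w D + w g + wt w C)
      (by omega) (by omega) (by omega) (by omega) (by omega)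
      (by intro h0; omega)
    simp only [Nat.cast_add, Nat.cast_zero] at this ⊢
    linarith
  | lr A B C D h1 h2 =>
    have e1 : x ≠ g := by omega
    have e2 : x ≠ p := by omega
    have e4 : ¬ x < p := by omega
    simp only [cnt, pot, swt, wt, e1, e2, e4, h2, if_true, if_false, zero_add]
    have e : wt w A + w p + wt w B + w x + (wt w C + w g + wt w D)
      = wt w A + w p + (wt w B + w x + wt w C) + w g + wt w D := by ring
    rw [e]
    have := zg_ineq (c := (min 1 (wt w A + w p + (wt w B + w x + wt w C))) +
        (min 1 (wt w A + w p + (wt w B + w x + wt w C) + w g + wt w D)))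
      (sx := wt w B + w x + wt w C) (sp := wt w A + w p + (wt w B + w x + wt w C))
      (sg := wt w A + w p + (wt w B + w x + wt w C) + w g + wt w D)
      (tp := wt w A + w p + wt w B) (tg := wt w C + w g + wt w D)
      (by omega) (by omega) (by omega) (by omega)
      (by intro h0; omega)
    simp only [Nat.cast_add, Nat.cast_zero] at this ⊢
    linarith
  | rl A B C D h1 h2 =>
    have e1 : x ≠ g := by omega
    have e2 : x ≠ p := by omega
    have e3 : ¬ x < g := by omega
    simp only [cnt, pot, swt, wt, e1, e2, e3, h1, if_true, if_false, zero_add]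
    have e : wt w D + w g + wt w C + w x + (wt w B + w p + wt w A)
      = wt w D + w g + (wt w C + w x + wt w B + w p + wt w A) := by ring
    rw [e]
    have := zg_ineq (c := (min 1 (wt w C + w x + wt w B + w p + wt w A)) +
        (min 1 (wt w D + w g + (wt w C + w x + wt w B + w p + wt w A))))
      (sx := wt w C + w x + wt w B) (sp := wt w C + w x + wt w B + w p + wt w A)
      (sg := wt w D + w g + (wt w C + w x + wt w B + w p + wt w A))
      (tp := wt w B + w p + wt w A) (tg := wt w D + w g + wt w C)
      (by omega) (by omega) (by omega) (by omega)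
      (by intro h0; omega)
    simp only [Nat.cast_add, Nat.cast_zero] at this ⊢
    linarith
  | inL a r h1 h2 ih =>
    have e1 : x ≠ a := by omega
    simp only [cnt, pot, swt, e1, h1, if_true, if_false, dbl_wt h2]
    push_cast
    linarith
  | inR a l h1 h2 ih =>
    have e1 : x ≠ a := by omega
    have e2 : ¬ x < a := by omega
    simp only [cnt, pot, swt, e1, e2, if_false, dbl_wt h2]
    push_cast
    linarith

theorem zig_pot {y : ℕ} {t t' : BinaryTree ℕ} (h : Zig x y t t') :
    1 / 4 * (cnt w x t : ℝ) + pot w t' ≤ pot w t + 3 * (rk (wt w t) - rk (swt w x t)) + 1 / 4 := by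
  cases h with
  | left A B C h1 =>
    have e1 : x ≠ y := by omega
    simp only [cnt, pot, swt, wt, e1, h1, if_true, if_false, zero_add]
    have hc : (((min 1 (wt w A + w x + wt w B + w y + wt w C)) : ℕ) : ℝ) ≤ 1 := by
      have : min 1 (wt w A + w x + wt w B + w y + wt w C) ≤ 1 := min_le_left _ _
      exact_mod_cast this
    have e : wt w A + w x + (wt w B + w y + wt w C) = wt w A + w x + wt w B + w y + wt w C := by
      ring
    rw [e]
    have m1 := rk_mono (show wt w B + w y + wt w C ≤ wt w A + w x + wt w B + w y + wt w C by omega)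
    have m2 := rk_mono (show wt w A + w x + wt w B ≤ wt w A + w x + wt w B + w y + wt w C by omega)
    linarith
  | right A B C h1 =>
    have e1 : x ≠ y := by omega
    have e3 : ¬ x < y := by omega
    simp only [cnt, pot, swt, wt, e1, e3, if_true, if_false, zero_add]
    have hc : (((min 1 (wt w C + w y + (wt w B + w x + wt w A))) : ℕ) : ℝ) ≤ 1 := by
      have : min 1 (wt w C + w y + (wt w B + w x + wt w A)) ≤ 1 := min_le_left _ _
      exact_mod_cast this
    have e : wt w C + w y + wt w B + w x + wt w A = wt w C + w y + (wt w B + w x + wt w A) := by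
      ring
    rw [e]
    have m1 := rk_mono (show wt w C + w y + wt w B ≤ wt w C + w y + (wt w B + w x + wt w A) by omega)
    have m2 := rk_mono (show wt w B + w x + wt w A ≤ wt w C + w y + (wt w B + w x + wt w A) by omega)
    linarith

theorem swt_root {t : BinaryTree ℕ} (h : At x 0 t) : swt w x t = wt w t := by
  cases t with
  | nil => simp [At] at h
  | node a l r =>
    simp only [At] at h
    simp [swt, wt, h]

theorem cnt_root {t : BinaryTree ℕ} (h : At x 0 t) : cnt w x t = 0 := by
  cases t with
  | nil => simp [At] at h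
  | node a l r =>
    simp only [At] at h
    simp [cnt, h]

/-- The access lemma. -/
theorem access {t : BinaryTree ℕ} (hb : IsBST t) (hm : x ∈ inorder t) :
    1 / 4 * (cnt w x t : ℝ) + pot w (splay x t) ≤ pot w t + 3 * rk (wt w t) + 1 / 4 := by
  have key := splay_induct (x := x) (P := fun t t' =>
    1 / 4 * (cnt w x t : ℝ) + pot w t' ≤ pot w t + 3 * (rk (wt w t) - rk (swt w x t)) + 1 / 4)
    ?_ ?_ ?_ hb hm
  · have := rk_nonneg (swt w x t)
    linarith
  · intro t hb h0
    rw [swt_root h0, cnt_root h0]
    push_cast
    linarith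
  · intro y t t' hb h3 h4 hz
    exact zig_pot hz
  · intro p g d t t' t'' hb h3 h4 h5 h6 hz ih
    have := dbl_pot (w := w) hz
    rw [dbl_wt hz] at ih
    linarith

/-! ## Changing the weights -/

theorem wt_mono {w' : ℕ → ℕ} : ∀ {t : BinaryTree ℕ}, (∀ v ∈ inorder t, w' v ≤ w v) →
    wt w' t ≤ wt w t
  | .nil, _ => le_rfl
  | .node a l r, h => by
      have h1 := wt_mono (t := l) (fun v hv => h v (by simp [inorder, hv]))
      have h2 := wt_mono (t := r) (fun v hv => h v (by simp [inorder, hv]))
      have h3 := h a (by simp [inorder])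
      simp only [wt]
      omega

theorem pot_mono {w' : ℕ → ℕ} : ∀ {t : BinaryTree ℕ}, (∀ v ∈ inorder t, w' v ≤ w v) →
    pot w' t ≤ pot w t
  | .nil, _ => le_rfl
  | .node a l r, h => by
      have h1 := pot_mono (t := l) (fun v hv => h v (by simp [inorder, hv]))
      have h2 := pot_mono (t := r) (fun v hv => h v (by simp [inorder, hv]))
      have h3 := rk_mono (wt_mono (t := .node a l r) h)
      simp only [wt] at h3
      simp only [pot]
      linarith

theorem rk_succ (s : ℕ) : rk (s + 1) ≤ rk s + 1 := by
  unfold rk
  have h1 : (0 : ℝ) < 1 + s := by positivity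
  have h2 : (1 + ((s + 1 : ℕ) : ℝ)) = (1 + s) * (1 + 1 / (1 + s)) := by
    field_simp
    push_cast
    ring
  rw [h2, Real.log_mul h1.ne' (by positivity)]
  have h3 := Real.log_le_sub_one_of_pos (x := 1 + 1 / (1 + (s : ℝ))) (by positivity)
  have h4 : 1 / (1 + (s : ℝ)) ≤ 1 := by
    rw [div_le_one h1]
    have : (0 : ℝ) ≤ s := Nat.cast_nonneg s
    linarith
  linarith

/-- Raising the weight of the root by one costs at most one. -/
theorem pot_root {w' : ℕ → ℕ} {t : BinaryTree ℕ} (hb : IsBST t) (h0 : At x 0 t)
    (h1 : ∀ v, v ≠ x → w' v ≤ w v) (h2 : w' x ≤ w x + 1) : pot w' t ≤ pot w t + 1 := by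
  cases t with
  | nil => simp [At] at h0
  | node a l r =>
    simp only [At] at h0
    subst h0
    obtain ⟨hl, hr, hla, hra⟩ := bst_node.1 hb
    have l1 : ∀ v ∈ inorder l, w' v ≤ w v := fun v hv => h1 v (by have := hla v hv; omega)
    have r1 : ∀ v ∈ inorder r, w' v ≤ w v := fun v hv => h1 v (by have := hra v hv; omega)
    have h3 := pot_mono l1
    have h4 := pot_mono r1
    have h5 := wt_mono l1
    have h6 := wt_mono r1
    have h7 := rk_mono (show wt w' l + w' x + wt w' r ≤ (wt w l + w x + wt w r) + 1 by omega)
    have h8 := rk_succ (wt w l + w x + wt w r)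
    simp only [pot]
    linarith

/-- A crude bound for the potential. -/
theorem pot_le {W : ℕ} : ∀ {t : BinaryTree ℕ}, wt w t ≤ W →
    pot w t ≤ (inorder t).length * rk W
  | .nil, _ => by simp [pot, inorder]
  | .node a l r, h => by
      simp only [wt] at h
      have h1 := pot_le (t := l) (W := W) (by omega)
      have h2 := pot_le (t := r) (W := W) (by omega)
      have h3 := rk_mono h
      simp only [pot, inorder, List.length_append, List.length_cons]
      push_cast
      nlinarith

theorem wt_eq_sum : ∀ t : BinaryTree ℕ, wt w t = ((inorder t).map w).sum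
  | .nil => by simp [wt, inorder]
  | .node a l r => by
      simp only [wt, inorder, List.map_append, List.map_cons, List.sum_append, List.sum_cons,
        wt_eq_sum l, wt_eq_sum r]
      ring

/-! ## Counting the ancestors of positive weight -/

theorem le_wt : ∀ {t : BinaryTree ℕ} {z : ℕ}, z ∈ inorder t → w z ≤ wt w t
  | .nil, _, h => by simp [inorder] at h
  | .node a l r, z, h => by
      simp only [inorder, List.mem_append, List.mem_cons] at h
      simp only [wt]
      rcases h with h | h | h
      · have := le_wt h
        omega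
      · subst h; omega
      · have := le_wt h
        omega

/-- If every ancestor of `x` with a certain property is also an ancestor of some key of positive
weight, then the number of these ancestors is at most `cnt`. -/
theorem countP_le_cnt (P : ℕ → Prop) [DecidablePred P] : ∀ {t : BinaryTree ℕ}, IsBST t →
    x ∈ inorder t → (∀ v, P v → OnP v x t → v ≠ x → ∃ z ∈ inorder t, OnP v z t ∧ 1 ≤ w z) →
    (ancs x t).countP P ≤ cnt w x t
  | .nil, _, h, _ => by simp [inorder] at h
  | .node a l r, hb, h, hP => by
      obtain ⟨hl, hr, hla, hra⟩ := bst_node.1 hb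
      simp only [inorder, List.mem_append, List.mem_cons] at h
      have hroot : x ≠ a → P a → 1 ≤ wt w l + w a + wt w r := by
        intro hxa hPa
        obtain ⟨z, hz, _, h1⟩ := hP a hPa (by simp [OnP]) (Ne.symm hxa)
        have := le_wt (w := w) (t := .node a l r) hz
        simp only [wt] at this
        omega
      simp only [ancs, cnt]
      rcases h with h | h | h
      · have h1 := hla x h
        have h2 : x ≠ a := by omega
        simp only [h1, h2, if_true, if_false, List.countP_append, List.countP_singleton]
        have ih := countP_le_cnt P hl h (by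
          intro v hPv hv hvx
          have hva := hla v (onP_mem hv)
          obtain ⟨z, hz, h3, h4⟩ := hP v hPv (Or.inr (Or.inl ⟨h1, hv⟩)) hvx
          simp only [OnP] at h3
          rcases h3 with h3 | ⟨h5, h3⟩ | ⟨h5, h3⟩
          · omega
          · simp only [inorder, List.mem_append, List.mem_cons] at hz
            rcases hz with hz | hz | hz
            · exact ⟨z, hz, h3, h4⟩
            · omega
            · have := hra z hz
              omega
          · have := hra v (onP_mem h3)
            omega)
        have h6 := hroot h2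
        by_cases hPa : P a
        · have := h6 hPa
          simp only [hPa, decide_true, if_true]
          omega
        · simp only [hPa, decide_false]
          simp only [Bool.false_eq_true, if_false]
          omega
      · simp [h]
      · have h1 := hra x h
        have h2 : x ≠ a := by omega
        have h3' : ¬ x < a := by omega
        simp only [h2, h3', if_false, List.countP_append, List.countP_singleton]
        have ih := countP_le_cnt P hr h (by
          intro v hPv hv hvx
          have hva := hra v (onP_mem hv)
          obtain ⟨z, hz, h3, h4⟩ := hP v hPv (Or.inr (Or.inr ⟨h1, hv⟩)) hvx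
          simp only [OnP] at h3
          rcases h3 with h3 | ⟨h5, h3⟩ | ⟨h5, h3⟩
          · omega
          · have := hla v (onP_mem h3)
            omega
          · simp only [inorder, List.mem_append, List.mem_cons] at hz
            rcases hz with hz | hz | hz
            · have := hla z hz
              omega
            · omega
            · exact ⟨z, hz, h3, h4⟩)
        have h6 := hroot h2
        by_cases hPa : P a
        · have := h6 hPa
          simp only [hPa, decide_true, if_true]
          omega
        · simp only [hPa, decide_false]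
          simp only [Bool.false_eq_true, if_false]
          omega

end

end Pool.Agent.MP_c42954_lc.Scan
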