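import Pool.Agent.MP_c42954_lc.Scan.Cross

set_option autoImplicit false

/-!
# The potential of the cells
-/

namespace Pool.Agent.MP_c42954_lc.Scan

open BinaryTree
open scoped Classical

/-! ## The number of unmatched nodes -/

theorem unm_count (R : ℕ → Prop) [DecidablePred R] : ∀ l : List ℕ, l.Nodup →
    l.countP (fun v => R v ∧ (¬ ∃ g, (v, g) ∈ pairUp l ∧ R g) ∧ ¬ ∃ p, (p, v) ∈ pairUp l ∧ R p)
      ≤ l.countP (fun v => ¬ R v) + 1
  | [], _ => by simp
  | [c], _ => by
      refine (List.countP_le_length).trans ?_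
      simp
  | c :: d :: l, hn => by
      have ih := unm_count R l (by
        simp only [List.nodup_cons, List.mem_cons, not_or] at hn
        exact hn.2.2)
      simp only [List.nodup_cons, List.mem_cons, not_or] at hn
      obtain ⟨⟨h1, h2⟩, h3, h4⟩ := hn
      have e : l.countP (fun v => decide (R v ∧ (¬ ∃ g, (v, g) ∈ pairUp (c :: d :: l) ∧ R g) ∧
          ¬ ∃ p, (p, v) ∈ pairUp (c :: d :: l) ∧ R p))
          = l.countP (fun v => decide (R v ∧ (¬ ∃ g, (v, g) ∈ pairUp l ∧ R g) ∧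
            ¬ ∃ p, (p, v) ∈ pairUp l ∧ R p)) := by
        apply List.countP_congr
        intro v hv
        have hvc : v ≠ c := fun h => h2 (h ▸ hv)
        have hvd : v ≠ d := fun h => h3 (h ▸ hv)
        simp [pairUp, hvc, hvd]
      rw [List.countP_cons, List.countP_cons, List.countP_cons, List.countP_cons, e]
      have hc : ((if decide (R c ∧ (¬ ∃ g, (c, g) ∈ pairUp (c :: d :: l) ∧ R g) ∧
          ¬ ∃ p, (p, c) ∈ pairUp (c :: d :: l) ∧ R p) = true then 1 else 0) : ℕ)
          ≤ if decide (¬ R d) = true then 1 else 0 := by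
        by_cases hd : R d
        · have : ¬ (R c ∧ (¬ ∃ g, (c, g) ∈ pairUp (c :: d :: l) ∧ R g) ∧
            ¬ ∃ p, (p, c) ∈ pairUp (c :: d :: l) ∧ R p) := by
            rintro ⟨_, h5, _⟩
            exact h5 ⟨d, by simp [pairUp], hd⟩
          rw [decide_eq_false this]
          simp
        · simp only [hd, not_false_eq_true, decide_true, if_true]
          split_ifs <;> simp
      have hd : ((if decide (R d ∧ (¬ ∃ g, (d, g) ∈ pairUp (c :: d :: l) ∧ R g) ∧
          ¬ ∃ p, (p, d) ∈ pairUp (c :: d :: l) ∧ R p) = true then 1 else 0) : ℕ)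
          ≤ if decide (¬ R c) = true then 1 else 0 := by
        by_cases hc' : R c
        · have : ¬ (R d ∧ (¬ ∃ g, (d, g) ∈ pairUp (c :: d :: l) ∧ R g) ∧
            ¬ ∃ p, (p, d) ∈ pairUp (c :: d :: l) ∧ R p) := by
            rintro ⟨_, _, h5⟩
            exact h5 ⟨c, by simp [pairUp], hc'⟩
          rw [decide_eq_false this]
          simp
        · simp only [hc', not_false_eq_true, decide_true, if_true]
          split_ifs <;> simp
      omega

/-- The number of ancestors of `x` outside `(x, e]`. -/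
noncomputable def outs (x e : ℕ) (T : BinaryTree ℕ) : ℕ :=
  (ancs x T).countP (fun v => ¬ (x < v ∧ v ≤ e))

section

variable {x e : ℕ} {T : BinaryTree ℕ}

theorem card_eq_countP (hb : IsBST T) (hm : x ∈ inorder T) (P : ℕ → Prop) [DecidablePred P] :
    ((rset x e T).filter P).card = (ancs x T).countP (fun v => (x < v ∧ v ≤ e) ∧ P v) := by
  have h : (rset x e T).filter P = ((ancs x T).filter (fun v => (x < v ∧ v ≤ e) ∧ P v)).toFinset := by
    ext v
    simp only [Finset.mem_filter, mem_rset, List.mem_toFinset, List.mem_filter, mem_ancs hb hm,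
      decide_eq_true_eq]
    constructor
    · rintro ⟨⟨h1, h2⟩, h3⟩
      exact ⟨⟨h2, by omega⟩, h1, h3⟩
    · rintro ⟨⟨h1, h2⟩, h3, h4⟩
      exact ⟨⟨h3, h1⟩, h4⟩
  rw [h, List.toFinset_card_of_nodup ((ancs_nodup hb hm).filter _), List.countP_eq_length_filter]

theorem depth_eq (hb : IsBST T) (hm : x ∈ inorder T) :
    depth x T = outs x e T + (rset x e T).card := by
  have h1 : (rset x e T).card = (ancs x T).countP (fun v => x < v ∧ v ≤ e) := by
    have := card_eq_countP (e := e) hb hm (fun _ => True)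
    simpa using this
  rw [← ancs_length, h1, outs]
  have := List.length_eq_countP_add_countP (l := ancs x T) (p := fun v => decide (x < v ∧ v ≤ e))
  rw [this, add_comm]
  congr 1
  apply List.countP_congr
  intro v _
  simp

theorem card_unm_le (hb : IsBST T) (hm : x ∈ inorder T) :
    (unm x e T).card ≤ outs x e T + 1 := by
  have h1 := unm_count (fun v => x < v ∧ v ≤ e) (ancs x T) (ancs_nodup hb hm)
  rw [unm, card_eq_countP hb hm (fun v => (¬ ∃ g, UU x e T v g) ∧ ¬ ∃ p, UU x e T p v)]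
  refine le_trans (le_of_eq ?_) h1
  apply List.countP_congr
  intro v hv
  have hv' := (mem_ancs hb hm).1 hv
  rw [decide_eq_true_iff, decide_eq_true_iff]
  unfold UU
  constructor
  · rintro ⟨h2, h3, h4⟩
    refine ⟨h2, ?_, ?_⟩
    · rintro ⟨g, h5, h6⟩
      exact h3 ⟨g, h5, mem_rset.2 ⟨h2, hv'.1⟩, mem_rset.2 ⟨h6, (pair_up_onP hb hm h5).2.2.1⟩⟩
    · rintro ⟨p, h5, h6⟩
      exact h4 ⟨p, h5, mem_rset.2 ⟨h6, (pair_up_onP hb hm h5).1⟩, mem_rset.2 ⟨h2, hv'.1⟩⟩
  · rintro ⟨h2, h3, h4⟩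
    refine ⟨h2, ?_, ?_⟩
    · rintro ⟨g, h5, _, h6⟩
      exact h3 ⟨g, h5, (mem_rset.1 h6).1⟩
    · rintro ⟨p, h5, h6, _⟩
      exact h4 ⟨p, h5, (mem_rset.1 h6).1⟩

end

/-! ## A concave function -/

/-- The function applied to the quantity of a cell. -/
noncomputable def psi (K y : ℕ) : ℝ := (min y (2 * K) : ℕ) + 32 * Real.log (1 + (y : ℝ))

theorem psi_nonneg (K y : ℕ) : 0 ≤ psi K y := by
  unfold psi
  have : 0 ≤ Real.log (1 + (y : ℝ)) := Real.log_nonneg (by
    have : (0 : ℝ) ≤ y := Nat.cast_nonneg y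
    linarith)
  positivity

theorem psi_mono {K y y' : ℕ} (h : y' ≤ y) : psi K y' ≤ psi K y := by
  unfold psi
  have h1 : Real.log (1 + (y' : ℝ)) ≤ Real.log (1 + (y : ℝ)) := by
    apply Real.log_le_log
    · positivity
    · have : (y' : ℝ) ≤ y := by exact_mod_cast h
      linarith
  have h2 : ((min y' (2 * K) : ℕ) : ℝ) ≤ (min y (2 * K) : ℕ) := by
    exact_mod_cast min_le_min_right _ h
  linarith

theorem psi_drop {K y y' Y : ℕ} (h1 : y' + 1 ≤ y) (h2 : Y + 8 * y' ≤ 8 * y) (h3 : y ≤ Y + K) :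
    psi K y' + 1 ≤ psi K y := by
  have hlog : Real.log (1 + (y' : ℝ)) ≤ Real.log (1 + (y : ℝ)) := by
    apply Real.log_le_log
    · positivity
    · have : (y' : ℝ) ≤ y := by exact_mod_cast (by omega : y' ≤ y)
      linarith
  unfold psi
  rcases Nat.lt_or_ge (2 * K) y with h | h
  · -- the logarithm drops
    have h4 : 1 + y ≤ 32 * (y - y') := by omega
    have h5 : ((min y' (2 * K) : ℕ) : ℝ) ≤ (min y (2 * K) : ℕ) := by
      exact_mod_cast min_le_min_right _ (by omega : y' ≤ y)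
    have hy : (0 : ℝ) < 1 + y := by positivity
    have hy' : (0 : ℝ) < 1 + y' := by positivity
    have h6 := Real.log_le_sub_one_of_pos (x := (1 + (y' : ℝ)) / (1 + y)) (by positivity)
    rw [Real.log_div hy'.ne' hy.ne'] at h6
    have h7 : (1 + (y : ℝ)) ≤ 32 * (y - y') := by
      have : ((1 + y : ℕ) : ℝ) ≤ ((32 * (y - y') : ℕ) : ℝ) := by exact_mod_cast h4
      rw [Nat.cast_mul, Nat.cast_sub (by omega)] at this
      push_cast at this
      linarith
    have h8 : (1 + (y' : ℝ)) / (1 + y) - 1 ≤ -(1 / 32) := by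
      rw [div_sub_one hy.ne', div_le_iff₀ hy]
      linarith
    linarith
  · have h4 : min y' (2 * K) + 1 ≤ min y (2 * K) := by omega
    have h5 : ((min y' (2 * K) : ℕ) : ℝ) + 1 ≤ (min y (2 * K) : ℕ) := by exact_mod_cast h4
    linarith

/-! ## Charging -/

/-- If every element of `E` is charged, at some scale `s`, to at least `2 ^ s` cells `(u, s)`,
different elements to different cells, and a charged cell drops by `1 / 2 ^ s`, then the sum over
all cells drops by the number of elements of `E`. -/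
theorem charge {ι : Type*} (E : Finset ι) (S : Finset ℕ) (L : ℕ) (I : ι → ℕ → ℕ → Prop)
    (f f' : ℕ → ℕ → ℝ)
    (h1 : ∀ u ∈ S, ∀ s < L, ∀ q ∈ E, I q u s → f' u s + 1 / 2 ^ s ≤ f u s)
    (h2 : ∀ u ∈ S, ∀ s < L, f' u s ≤ f u s)
    (h3 : ∀ u ∈ S, ∀ s < L, ∀ q ∈ E, ∀ q' ∈ E, I q u s → I q' u s → q = q')
    (h4 : ∀ q ∈ E, ∃ s < L, 2 ^ s ≤ (S.filter (fun u => I q u s)).card) :
    (E.card : ℝ) + ∑ u ∈ S, ∑ s ∈ Finset.range L, f' u s
      ≤ ∑ u ∈ S, ∑ s ∈ Finset.range L, f u s := by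
  have key : ∀ u ∈ S, ∀ s ∈ Finset.range L,
      f' u s + ∑ q ∈ E, (if I q u s then (1 : ℝ) / 2 ^ s else 0) ≤ f u s := by
    intro u hu s hs
    rw [Finset.mem_range] at hs
    by_cases hex : ∃ q ∈ E, I q u s
    · obtain ⟨q0, hq0, hI⟩ := hex
      have : ∑ q ∈ E, (if I q u s then (1 : ℝ) / 2 ^ s else 0) = 1 / 2 ^ s := by
        rw [Finset.sum_eq_single q0]
        · simp [hI]
        · intro q hq hne
          rw [if_neg]
          intro h
          exact hne (h3 u hu s hs q hq q0 hq0 h hI)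
        · intro h; exact absurd hq0 h
      rw [this]
      exact h1 u hu s hs q0 hq0 hI
    · have : ∑ q ∈ E, (if I q u s then (1 : ℝ) / 2 ^ s else 0) = 0 := by
        apply Finset.sum_eq_zero
        intro q hq
        rw [if_neg]
        intro h
        exact hex ⟨q, hq, h⟩
      rw [this, add_zero]
      exact h2 u hu s hs
  have hsum : ∑ u ∈ S, ∑ s ∈ Finset.range L,
      (f' u s + ∑ q ∈ E, (if I q u s then (1 : ℝ) / 2 ^ s else 0))
      ≤ ∑ u ∈ S, ∑ s ∈ Finset.range L, f u s :=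
    Finset.sum_le_sum fun u hu => Finset.sum_le_sum fun s hs => key u hu s hs
  have hE : (E.card : ℝ) ≤ ∑ u ∈ S, ∑ s ∈ Finset.range L,
      ∑ q ∈ E, (if I q u s then (1 : ℝ) / 2 ^ s else 0) := by
    have hswap : ∑ u ∈ S, ∑ s ∈ Finset.range L,
        ∑ q ∈ E, (if I q u s then (1 : ℝ) / 2 ^ s else 0)
        = ∑ q ∈ E, ∑ s ∈ Finset.range L, ∑ u ∈ S, (if I q u s then (1 : ℝ) / 2 ^ s else 0) := by
      rw [Finset.sum_comm]
      rw [Finset.sum_congr rfl (fun s _ => Finset.sum_comm)]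
      rw [Finset.sum_comm]
    rw [hswap, Finset.card_eq_sum_ones]
    push_cast
    apply Finset.sum_le_sum
    intro q hq
    obtain ⟨s, hs, hcard⟩ := h4 q hq
    have h5 : ∑ u ∈ S, (if I q u s then (1 : ℝ) / 2 ^ s else 0)
        ≤ ∑ s ∈ Finset.range L, ∑ u ∈ S, (if I q u s then (1 : ℝ) / 2 ^ s else 0) := by
      apply Finset.single_le_sum (f := fun s => ∑ u ∈ S, (if I q u s then (1 : ℝ) / 2 ^ s else 0))
      · intro i _
        apply Finset.sum_nonneg
        intro u _
        split_ifs <;> positivity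
      · exact Finset.mem_range.2 hs
    refine le_trans ?_ h5
    rw [← Finset.sum_filter, Finset.sum_const, nsmul_eq_mul]
    have h6 : (2 : ℝ) ^ s ≤ ((S.filter (fun u => I q u s)).card : ℝ) := by exact_mod_cast hcard
    have h7 : (0 : ℝ) < 2 ^ s := by positivity
    rw [mul_one_div, le_div_iff₀ h7, one_mul]
    exact h6
  have hsplit : ∑ u ∈ S, ∑ s ∈ Finset.range L,
      (f' u s + ∑ q ∈ E, (if I q u s then (1 : ℝ) / 2 ^ s else 0))
      = ∑ u ∈ S, ∑ s ∈ Finset.range L, f' u s + ∑ u ∈ S, ∑ s ∈ Finset.range L,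
      ∑ q ∈ E, (if I q u s then (1 : ℝ) / 2 ^ s else 0) := by
    simp only [Finset.sum_add_distrib]
  rw [hsplit] at hsum
  linarith

end Pool.Agent.MP_c42954_lc.Scan
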