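import Pool.Agent.MP_c42954_lc.Scan.Tree

set_option autoImplicit false

/-!
# How one splay changes the ancestor relation
-/

namespace Pool.Agent.MP_c42954_lc.Scan

open BinaryTree

/-- The nodes of a list, paired from the front. -/
def pairUp : List ℕ → List (ℕ × ℕ)
  | a :: b :: l => (a, b) :: pairUp l
  | _ => []

/-! ## Double steps -/

theorem dbl_right {x p g v u : ℕ} {t t' : BinaryTree ℕ} (h : Dbl x p g t t') (hb : IsBST t)
    (h1 : x < u) (h2 : u < v) : OnP v u t' ↔ OnP v u t ∧ ¬ (v = g ∧ u ≤ p) := by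
  induction h with
  | ll A B C D h3 h4 =>
    simp only [bst_node, inorder, List.mem_append, List.mem_cons] at hb
    obtain ⟨⟨⟨hA, hB, hA', hB'⟩, hC, hpl, hC'⟩, hD, hgl, hD'⟩ := hb
    have hpg : p < g := hgl p (by simp)
    have kB : ∀ {w}, OnP w u B → x < w ∧ w < p := fun h => ⟨hB' _ (onP_mem h), hpl _ (by simp [onP_mem h])⟩
    have kC : ∀ {w}, OnP w u C → p < w ∧ w < g := fun h => ⟨hC' _ (onP_mem h), hgl _ (by simp [onP_mem h])⟩
    have kD : ∀ {w}, OnP w u D → g < w := fun h => hD' _ (onP_mem h)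
    have e1 : v ≠ x := by omega
    have e2 : ¬ u < x := by omega
    simp only [OnP, e1, e2, h1, false_and, true_and, false_or]
    constructor
    · rintro (h | ⟨h5, h⟩ | ⟨h5, h | ⟨h6, h⟩ | ⟨h6, h⟩⟩)
      · exact ⟨Or.inr (Or.inl ⟨by omega, Or.inl h⟩), by omega⟩
      · have := kB h
        exact ⟨Or.inr (Or.inl ⟨by omega, Or.inr (Or.inl ⟨h5, h⟩)⟩), by omega⟩
      · exact ⟨Or.inl h, by omega⟩
      · have := kC h
        exact ⟨Or.inr (Or.inl ⟨by omega, Or.inr (Or.inr ⟨h5, h⟩)⟩), by omega⟩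
      · have := kD h
        exact ⟨Or.inr (Or.inr ⟨h6, h⟩), by omega⟩
    · rintro ⟨h | ⟨h5, h | ⟨h6, h⟩ | ⟨h6, h⟩⟩ | ⟨h5, h⟩, h7⟩
      · exact Or.inr (Or.inr ⟨by omega, Or.inl h⟩)
      · exact Or.inl h
      · exact Or.inr (Or.inl ⟨h6, h⟩)
      · exact Or.inr (Or.inr ⟨h6, Or.inr (Or.inl ⟨h5, h⟩)⟩)
      · exact Or.inr (Or.inr ⟨by omega, Or.inr (Or.inr ⟨h5, h⟩)⟩)
  | rr A B C D h3 h4 =>
    have e1 : v ≠ x := by omega
    have e2 : ¬ u < x := by omega
    have e3 : v ≠ p := by omega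
    have e4 : v ≠ g := by omega
    have e5 : ¬ u < p := by omega
    have e6 : ¬ u < g := by omega
    have e7 : p < u := by omega
    have e8 : g < u := by omega
    simp only [OnP, e1, e2, e3, e4, e5, e6, e7, e8, h1, false_and, true_and, false_or, not_false_eq_true, and_true]
  | lr A B C D h3 h4 =>
    simp only [bst_node, inorder, List.mem_append, List.mem_cons] at hb
    have e1 : v ≠ x := by omega
    have e2 : ¬ u < x := by omega
    have e3 : v ≠ p := by omega
    have e5 : ¬ u < p := by omega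
    have e7 : p < u := by omega
    have e8 : ¬ (v = g ∧ u ≤ p) := by omega
    simp only [OnP, e1, e2, e3, e5, e7, e8, h1, false_and, true_and, false_or, not_false_eq_true, and_true]
  | rl A B C D h3 h4 =>
    simp only [bst_node, inorder, List.mem_append, List.mem_cons] at hb
    have e1 : v ≠ x := by omega
    have e2 : ¬ u < x := by omega
    have e4 : v ≠ g := by omega
    have e6 : ¬ u < g := by omega
    have e8 : g < u := by omega
    simp only [OnP, e1, e2, e4, e6, e8, h1, false_and, true_and, false_or, not_false_eq_true, and_true]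
  | inL a r h3 h4 ih =>
    obtain ⟨hl, hr, hla, hra⟩ := bst_node.1 hb
    obtain ⟨m1, m2, m3⟩ := dbl_mem h4
    have k1 := hla _ m2
    have k2 := hla _ m3
    simp only [OnP, ih hl]
    constructor
    · rintro (h | ⟨h5, h, h6⟩ | ⟨h5, h⟩)
      · exact ⟨Or.inl h, by omega⟩
      · exact ⟨Or.inr (Or.inl ⟨h5, h⟩), h6⟩
      · exact ⟨Or.inr (Or.inr ⟨h5, h⟩), by omega⟩
    · rintro ⟨h | ⟨h5, h⟩ | ⟨h5, h⟩, h6⟩
      · exact Or.inl h
      · exact Or.inr (Or.inl ⟨h5, h, h6⟩)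
      · exact Or.inr (Or.inr ⟨h5, h⟩)
  | inR a l h3 h4 ih =>
    obtain ⟨hl, hr, hla, hra⟩ := bst_node.1 hb
    obtain ⟨m1, m2, m3⟩ := dbl_mem h4
    have k1 := hra _ m2
    have k2 := hra _ m3
    simp only [OnP, ih hr]
    constructor
    · rintro (h | ⟨h5, h⟩ | ⟨h5, h, h6⟩)
      · exact ⟨Or.inl h, by omega⟩
      · exact ⟨Or.inr (Or.inl ⟨h5, h⟩), by omega⟩
      · exact ⟨Or.inr (Or.inr ⟨h5, h⟩), h6⟩
    · rintro ⟨h | ⟨h5, h⟩ | ⟨h5, h⟩, h6⟩
      · exact Or.inl h
      · exact Or.inr (Or.inl ⟨h5, h⟩)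
      · exact Or.inr (Or.inr ⟨h5, h, h6⟩)

theorem dbl_left {x p g v u : ℕ} {t t' : BinaryTree ℕ} (h : Dbl x p g t t') (hb : IsBST t)
    (h1 : u < x) (h2 : v < u) : OnP v u t' ↔ OnP v u t ∧ ¬ (v = g ∧ p ≤ u) := by
  induction h with
  | rr A B C D h3 h4 =>
    simp only [bst_node, inorder, List.mem_append, List.mem_cons] at hb
    obtain ⟨hD, ⟨hC, ⟨hB, hA, hB', hA'⟩, hC', hpr⟩, hD', hgr⟩ := hb
    have hpg : g < p := hgr p (by simp)
    have kB : ∀ {w}, OnP w u B → p < w ∧ w < x := fun h => ⟨hpr _ (by simp [onP_mem h]), hB' _ (onP_mem h)⟩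
    have kC : ∀ {w}, OnP w u C → g < w ∧ w < p := fun h => ⟨hgr _ (by simp [onP_mem h]), hC' _ (onP_mem h)⟩
    have kD : ∀ {w}, OnP w u D → w < g := fun h => hD' _ (onP_mem h)
    have e1 : v ≠ x := by omega
    have e2 : ¬ x < u := by omega
    simp only [OnP, e1, e2, h1, false_and, true_and, false_or, or_false]
    constructor
    · rintro (h | ⟨h5, h | ⟨h6, h⟩ | ⟨h6, h⟩⟩ | ⟨h5, h⟩)
      · exact ⟨Or.inr (Or.inr ⟨by omega, Or.inl h⟩), by omega⟩
      · exact ⟨Or.inl h, by omega⟩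
      · have := kD h
        exact ⟨Or.inr (Or.inl ⟨h6, h⟩), by omega⟩
      · have := kC h
        exact ⟨Or.inr (Or.inr ⟨by omega, Or.inr (Or.inl ⟨h5, h⟩)⟩), by omega⟩
      · have := kB h
        exact ⟨Or.inr (Or.inr ⟨by omega, Or.inr (Or.inr ⟨h5, h⟩)⟩), by omega⟩
    · rintro ⟨h | ⟨h5, h⟩ | ⟨h5, h | ⟨h6, h⟩ | ⟨h6, h⟩⟩, h7⟩
      · exact Or.inr (Or.inl ⟨by omega, Or.inl h⟩)
      · exact Or.inr (Or.inl ⟨by omega, Or.inr (Or.inl ⟨h5, h⟩)⟩)
      · exact Or.inl h
      · exact Or.inr (Or.inl ⟨h6, Or.inr (Or.inr ⟨h5, h⟩)⟩)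
      · exact Or.inr (Or.inr ⟨h6, h⟩)
  | ll A B C D h3 h4 =>
    have e1 : v ≠ x := by omega
    have e2 : ¬ x < u := by omega
    have e3 : v ≠ p := by omega
    have e4 : v ≠ g := by omega
    have e5 : u < p := by omega
    have e6 : u < g := by omega
    have e7 : ¬ p < u := by omega
    have e8 : ¬ g < u := by omega
    simp only [OnP, e1, e2, e3, e4, e5, e6, e7, e8, h1, false_and, true_and, false_or, or_false, not_false_eq_true, and_true]
  | rl A B C D h3 h4 =>
    have e1 : v ≠ x := by omega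
    have e2 : ¬ x < u := by omega
    have e3 : v ≠ p := by omega
    have e5 : ¬ p < u := by omega
    have e7 : u < p := by omega
    have e8 : ¬ (v = g ∧ p ≤ u) := by omega
    simp only [OnP, e1, e2, e3, e5, e7, e8, h1, false_and, true_and, false_or, or_false, not_false_eq_true, and_true]
  | lr A B C D h3 h4 =>
    have e1 : v ≠ x := by omega
    have e2 : ¬ x < u := by omega
    have e4 : v ≠ g := by omega
    have e6 : ¬ g < u := by omega
    have e8 : u < g := by omega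
    simp only [OnP, e1, e2, e4, e6, e8, h1, false_and, true_and, false_or, or_false, not_false_eq_true, and_true]
  | inL a r h3 h4 ih =>
    obtain ⟨hl, hr, hla, hra⟩ := bst_node.1 hb
    obtain ⟨m1, m2, m3⟩ := dbl_mem h4
    have k1 := hla _ m2
    have k2 := hla _ m3
    simp only [OnP, ih hl]
    constructor
    · rintro (h | ⟨h5, h, h6⟩ | ⟨h5, h⟩)
      · exact ⟨Or.inl h, by omega⟩
      · exact ⟨Or.inr (Or.inl ⟨h5, h⟩), h6⟩
      · exact ⟨Or.inr (Or.inr ⟨h5, h⟩), by omega⟩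
    · rintro ⟨h | ⟨h5, h⟩ | ⟨h5, h⟩, h6⟩
      · exact Or.inl h
      · exact Or.inr (Or.inl ⟨h5, h, h6⟩)
      · exact Or.inr (Or.inr ⟨h5, h⟩)
  | inR a l h3 h4 ih =>
    obtain ⟨hl, hr, hla, hra⟩ := bst_node.1 hb
    obtain ⟨m1, m2, m3⟩ := dbl_mem h4
    have k1 := hra _ m2
    have k2 := hra _ m3
    simp only [OnP, ih hr]
    constructor
    · rintro (h | ⟨h5, h⟩ | ⟨h5, h, h6⟩)
      · exact ⟨Or.inl h, by omega⟩
      · exact ⟨Or.inr (Or.inl ⟨h5, h⟩), by omega⟩
      · exact ⟨Or.inr (Or.inr ⟨h5, h⟩), h6⟩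
    · rintro ⟨h | ⟨h5, h⟩ | ⟨h5, h⟩, h6⟩
      · exact Or.inl h
      · exact Or.inr (Or.inl ⟨h5, h⟩)
      · exact Or.inr (Or.inr ⟨h5, h, h6⟩)

/-- Beyond `x`, a node can only gain descendants further out if it is the parent in a
left-left step, and then it gains those of the grandparent. -/
theorem dbl_gain_right {x p g v c : ℕ} {t t' : BinaryTree ℕ} (h : Dbl x p g t t') (hb : IsBST t)
    (h1 : x < v) (h2 : v < c) :
    (OnP v c t → OnP v c t') ∧
      (OnP v c t' → ¬ OnP v c t → v = p ∧ v < g ∧ g ≤ c ∧ OnP g c t) := by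
  induction h with
  | ll A B C D h3 h4 =>
    simp only [bst_node, inorder, List.mem_append, List.mem_cons] at hb
    obtain ⟨⟨⟨hA, hB, hA', hB'⟩, hC, hpl, hC'⟩, hD, hgl, hD'⟩ := hb
    have hpg : p < g := hgl p (by simp)
    have kB : ∀ {w}, OnP w c B → x < w ∧ w < p := fun h => ⟨hB' _ (onP_mem h), hpl _ (by simp [onP_mem h])⟩
    have kC : ∀ {w}, OnP w c C → p < w ∧ w < g := fun h => ⟨hC' _ (onP_mem h), hgl _ (by simp [onP_mem h])⟩
    have kD : ∀ {w}, OnP w c D → g < w := fun h => hD' _ (onP_mem h)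
    have e1 : v ≠ x := by omega
    have e2 : ¬ c < x := by omega
    have e3 : x < c := by omega
    simp only [OnP, e1, e2, e3, false_and, true_and, false_or]
    constructor
    · rintro (h | ⟨h5, h | ⟨h6, h⟩ | ⟨h6, h⟩⟩ | ⟨h5, h⟩)
      · exact Or.inr (Or.inr ⟨by omega, Or.inl h⟩)
      · exact Or.inl h
      · exact Or.inr (Or.inl ⟨h6, h⟩)
      · exact Or.inr (Or.inr ⟨h6, Or.inr (Or.inl ⟨h5, h⟩)⟩)
      · exact Or.inr (Or.inr ⟨by omega, Or.inr (Or.inr ⟨h5, h⟩)⟩)
    · rintro (h | ⟨h5, h⟩ | ⟨h5, h | ⟨h6, h⟩ | ⟨h6, h⟩⟩) hn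
      · have hgc : g ≤ c := by
          by_contra hc
          exact hn (Or.inr (Or.inl ⟨by omega, Or.inl h⟩))
        exact ⟨h, by omega, hgc, Or.inl trivial⟩
      · have := kB h
        exact absurd (Or.inr (Or.inl ⟨by omega, Or.inr (Or.inl ⟨h5, h⟩)⟩)) hn
      · exact absurd (Or.inl h) hn
      · exact absurd (Or.inr (Or.inl ⟨h6, Or.inr (Or.inr ⟨h5, h⟩)⟩)) hn
      · exact absurd (Or.inr (Or.inr ⟨h6, h⟩)) hn
  | rr A B C D h3 h4 =>
    have e1 : v ≠ x := by omega
    have e2 : ¬ c < x := by omega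
    have e3 : v ≠ p := by omega
    have e4 : v ≠ g := by omega
    have e5 : ¬ c < p := by omega
    have e6 : ¬ c < g := by omega
    have e7 : p < c := by omega
    have e8 : g < c := by omega
    have e9 : x < c := by omega
    simp only [OnP, e1, e2, e3, e4, e5, e6, e7, e8, e9, false_and, true_and, false_or]
    exact ⟨id, fun h h' => absurd h h'⟩
  | lr A B C D h3 h4 =>
    have e1 : v ≠ x := by omega
    have e2 : ¬ c < x := by omega
    have e3 : v ≠ p := by omega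
    have e5 : ¬ c < p := by omega
    have e7 : p < c := by omega
    have e9 : x < c := by omega
    simp only [OnP, e1, e2, e3, e5, e7, e9, false_and, true_and, false_or]
    exact ⟨id, fun h h' => absurd h h'⟩
  | rl A B C D h3 h4 =>
    have e1 : v ≠ x := by omega
    have e2 : ¬ c < x := by omega
    have e4 : v ≠ g := by omega
    have e6 : ¬ c < g := by omega
    have e8 : g < c := by omega
    have e9 : x < c := by omega
    simp only [OnP, e1, e2, e4, e6, e8, e9, false_and, true_and, false_or]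
    exact ⟨id, fun h h' => absurd h h'⟩
  | inL a r h3 h4 ih =>
    obtain ⟨hl, hr, hla, hra⟩ := bst_node.1 hb
    obtain ⟨m1, m2, m3⟩ := dbl_mem h4
    have k1 := hla _ m2
    have k2 := hla _ m3
    obtain ⟨ih1, ih2⟩ := ih hl
    simp only [OnP]
    constructor
    · rintro (h | ⟨h5, h⟩ | ⟨h5, h⟩)
      · exact Or.inl h
      · exact Or.inr (Or.inl ⟨h5, ih1 h⟩)
      · exact Or.inr (Or.inr ⟨h5, h⟩)
    · rintro (h | ⟨h5, h⟩ | ⟨h5, h⟩) hn
      · exact absurd (Or.inl h) hn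
      · obtain ⟨j1, j2, j3, j4⟩ := ih2 h (fun h' => hn (Or.inr (Or.inl ⟨h5, h'⟩)))
        exact ⟨j1, j2, j3, Or.inr (Or.inl ⟨h5, j4⟩)⟩
      · exact absurd (Or.inr (Or.inr ⟨h5, h⟩)) hn
  | inR a l h3 h4 ih =>
    obtain ⟨hl, hr, hla, hra⟩ := bst_node.1 hb
    obtain ⟨m1, m2, m3⟩ := dbl_mem h4
    have k1 := hra _ m2
    have k2 := hra _ m3
    obtain ⟨ih1, ih2⟩ := ih hr
    simp only [OnP]
    constructor
    · rintro (h | ⟨h5, h⟩ | ⟨h5, h⟩)
      · exact Or.inl h
      · exact Or.inr (Or.inl ⟨h5, h⟩)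
      · exact Or.inr (Or.inr ⟨h5, ih1 h⟩)
    · rintro (h | ⟨h5, h⟩ | ⟨h5, h⟩) hn
      · exact absurd (Or.inl h) hn
      · exact absurd (Or.inr (Or.inl ⟨h5, h⟩)) hn
      · obtain ⟨j1, j2, j3, j4⟩ := ih2 h (fun h' => hn (Or.inr (Or.inr ⟨h5, h'⟩)))
        exact ⟨j1, j2, j3, Or.inr (Or.inr ⟨h5, j4⟩)⟩

theorem dbl_gain_left {x p g v c : ℕ} {t t' : BinaryTree ℕ} (h : Dbl x p g t t') (hb : IsBST t)
    (h1 : v < x) (h2 : c < v) :
    (OnP v c t → OnP v c t') ∧
      (OnP v c t' → ¬ OnP v c t → v = p ∧ g < v ∧ c ≤ g ∧ OnP g c t) := by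
  induction h with
  | rr A B C D h3 h4 =>
    simp only [bst_node, inorder, List.mem_append, List.mem_cons] at hb
    obtain ⟨hD, ⟨hC, ⟨hB, hA, hB', hA'⟩, hC', hpr⟩, hD', hgr⟩ := hb
    have hpg : g < p := hgr p (by simp)
    have kB : ∀ {w}, OnP w c B → p < w ∧ w < x := fun h => ⟨hpr _ (by simp [onP_mem h]), hB' _ (onP_mem h)⟩
    have kC : ∀ {w}, OnP w c C → g < w ∧ w < p := fun h => ⟨hgr _ (by simp [onP_mem h]), hC' _ (onP_mem h)⟩
    have kD : ∀ {w}, OnP w c D → w < g := fun h => hD' _ (onP_mem h)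
    have e1 : v ≠ x := by omega
    have e2 : ¬ x < c := by omega
    have e3 : c < x := by omega
    simp only [OnP, e1, e2, e3, false_and, true_and, false_or, or_false]
    constructor
    · rintro (h | ⟨h5, h⟩ | ⟨h5, h | ⟨h6, h⟩ | ⟨h6, h⟩⟩)
      · exact Or.inr (Or.inl ⟨by omega, Or.inl h⟩)
      · exact Or.inr (Or.inl ⟨by omega, Or.inr (Or.inl ⟨h5, h⟩)⟩)
      · exact Or.inl h
      · exact Or.inr (Or.inl ⟨h6, Or.inr (Or.inr ⟨h5, h⟩)⟩)
      · exact Or.inr (Or.inr ⟨h6, h⟩)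
    · rintro (h | ⟨h5, h | ⟨h6, h⟩ | ⟨h6, h⟩⟩ | ⟨h5, h⟩) hn
      · have hgc : c ≤ g := by
          by_contra hc
          exact hn (Or.inr (Or.inr ⟨by omega, Or.inl h⟩))
        exact ⟨h, by omega, hgc, Or.inl trivial⟩
      · exact absurd (Or.inl h) hn
      · exact absurd (Or.inr (Or.inl ⟨h6, h⟩)) hn
      · exact absurd (Or.inr (Or.inr ⟨h6, Or.inr (Or.inl ⟨h5, h⟩)⟩)) hn
      · have := kB h
        exact absurd (Or.inr (Or.inr ⟨by omega, Or.inr (Or.inr ⟨h5, h⟩)⟩)) hn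
  | ll A B C D h3 h4 =>
    have e1 : v ≠ x := by omega
    have e2 : ¬ x < c := by omega
    have e3 : v ≠ p := by omega
    have e4 : v ≠ g := by omega
    have e5 : ¬ p < c := by omega
    have e6 : ¬ g < c := by omega
    have e7 : c < p := by omega
    have e8 : c < g := by omega
    have e9 : c < x := by omega
    simp only [OnP, e1, e2, e3, e4, e5, e6, e7, e8, e9, false_and, true_and, false_or, or_false]
    exact ⟨id, fun h h' => absurd h h'⟩
  | rl A B C D h3 h4 =>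
    have e1 : v ≠ x := by omega
    have e2 : ¬ x < c := by omega
    have e3 : v ≠ p := by omega
    have e5 : ¬ p < c := by omega
    have e7 : c < p := by omega
    have e9 : c < x := by omega
    simp only [OnP, e1, e2, e3, e5, e7, e9, false_and, true_and, false_or, or_false]
    exact ⟨id, fun h h' => absurd h h'⟩
  | lr A B C D h3 h4 =>
    have e1 : v ≠ x := by omega
    have e2 : ¬ x < c := by omega
    have e4 : v ≠ g := by omega
    have e6 : ¬ g < c := by omega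
    have e8 : c < g := by omega
    have e9 : c < x := by omega
    simp only [OnP, e1, e2, e4, e6, e8, e9, false_and, true_and, false_or, or_false]
    exact ⟨id, fun h h' => absurd h h'⟩
  | inL a r h3 h4 ih =>
    obtain ⟨hl, hr, hla, hra⟩ := bst_node.1 hb
    obtain ⟨m1, m2, m3⟩ := dbl_mem h4
    have k1 := hla _ m2
    have k2 := hla _ m3
    obtain ⟨ih1, ih2⟩ := ih hl
    simp only [OnP]
    constructor
    · rintro (h | ⟨h5, h⟩ | ⟨h5, h⟩)
      · exact Or.inl h
      · exact Or.inr (Or.inl ⟨h5, ih1 h⟩)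
      · exact Or.inr (Or.inr ⟨h5, h⟩)
    · rintro (h | ⟨h5, h⟩ | ⟨h5, h⟩) hn
      · exact absurd (Or.inl h) hn
      · obtain ⟨j1, j2, j3, j4⟩ := ih2 h (fun h' => hn (Or.inr (Or.inl ⟨h5, h'⟩)))
        exact ⟨j1, j2, j3, Or.inr (Or.inl ⟨h5, j4⟩)⟩
      · exact absurd (Or.inr (Or.inr ⟨h5, h⟩)) hn
  | inR a l h3 h4 ih =>
    obtain ⟨hl, hr, hla, hra⟩ := bst_node.1 hb
    obtain ⟨m1, m2, m3⟩ := dbl_mem h4
    have k1 := hra _ m2
    have k2 := hra _ m3
    obtain ⟨ih1, ih2⟩ := ih hr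
    simp only [OnP]
    constructor
    · rintro (h | ⟨h5, h⟩ | ⟨h5, h⟩)
      · exact Or.inl h
      · exact Or.inr (Or.inl ⟨h5, h⟩)
      · exact Or.inr (Or.inr ⟨h5, ih1 h⟩)
    · rintro (h | ⟨h5, h⟩ | ⟨h5, h⟩) hn
      · exact absurd (Or.inl h) hn
      · exact absurd (Or.inr (Or.inl ⟨h5, h⟩)) hn
      · obtain ⟨j1, j2, j3, j4⟩ := ih2 h (fun h' => hn (Or.inr (Or.inr ⟨h5, h'⟩)))
        exact ⟨j1, j2, j3, Or.inr (Or.inr ⟨h5, j4⟩)⟩

/-! ## The zig step -/

theorem zig_right {x y v u : ℕ} {t t' : BinaryTree ℕ} (h : Zig x y t t')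
    (h1 : x < u) (h2 : x < v) : OnP v u t' ↔ OnP v u t := by
  cases h with
  | left A B C h3 =>
    have e1 : v ≠ x := by omega
    have e2 : ¬ u < x := by omega
    simp only [OnP, e1, e2, h1, false_and, true_and, false_or]
  | right A B C h3 =>
    have e1 : v ≠ x := by omega
    have e2 : ¬ u < x := by omega
    have e3 : v ≠ y := by omega
    have e4 : ¬ u < y := by omega
    have e5 : y < u := by omega
    simp only [OnP, e1, e2, e3, e4, e5, h1, false_and, true_and, false_or]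

theorem zig_left {x y v u : ℕ} {t t' : BinaryTree ℕ} (h : Zig x y t t')
    (h1 : u < x) (h2 : v < x) : OnP v u t' ↔ OnP v u t := by
  cases h with
  | right A B C h3 =>
    have e1 : v ≠ x := by omega
    have e2 : ¬ x < u := by omega
    simp only [OnP, e1, e2, h1, false_and, true_and, false_or, or_false]
  | left A B C h3 =>
    have e1 : v ≠ x := by omega
    have e2 : ¬ x < u := by omega
    have e3 : v ≠ y := by omega
    have e4 : ¬ y < u := by omega
    have e5 : u < y := by omega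
    simp only [OnP, e1, e2, e3, e4, e5, h1, false_and, true_and, false_or, or_false]

/-! ## Pairs -/

theorem mem_pairUp : ∀ {l : List ℕ} {a b : ℕ}, (a, b) ∈ pairUp l → a ∈ l ∧ b ∈ l
  | [], a, b, h => by simp [pairUp] at h
  | [c], a, b, h => by simp [pairUp] at h
  | c :: d :: l, a, b, h => by
      simp only [pairUp, List.mem_cons, Prod.mk.injEq] at h
      rcases h with ⟨rfl, rfl⟩ | h
      · simp
      · have := mem_pairUp h
        exact ⟨by simp [this.1], by simp [this.2]⟩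

theorem pairUp_fst_inj : ∀ {l : List ℕ}, l.Nodup → ∀ {a b b' : ℕ}, (a, b) ∈ pairUp l →
    (a, b') ∈ pairUp l → b = b'
  | [], _, a, b, b', h, _ => by simp [pairUp] at h
  | [c], _, a, b, b', h, _ => by simp [pairUp] at h
  | c :: d :: l, hn, a, b, b', h, h' => by
      simp only [List.nodup_cons, List.mem_cons, not_or] at hn
      obtain ⟨⟨h1, h2⟩, h3, h4⟩ := hn
      simp only [pairUp, List.mem_cons, Prod.mk.injEq] at h h'
      rcases h with ⟨rfl, rfl⟩ | h <;> rcases h' with ⟨h5, h6⟩ | h'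
      · exact h6.symm
      · exact absurd (mem_pairUp h').1 h2
      · subst h5; exact absurd (mem_pairUp h).1 h2
      · exact pairUp_fst_inj h4 h h'

theorem pairUp_snd_inj : ∀ {l : List ℕ}, l.Nodup → ∀ {a a' b : ℕ}, (a, b) ∈ pairUp l →
    (a', b) ∈ pairUp l → a = a'
  | [], _, a, b, b', h, _ => by simp [pairUp] at h
  | [c], _, a, b, b', h, _ => by simp [pairUp] at h
  | c :: d :: l, hn, a, a', b, h, h' => by
      simp only [List.nodup_cons, List.mem_cons, not_or] at hn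
      obtain ⟨⟨h1, h2⟩, h3, h4⟩ := hn
      simp only [pairUp, List.mem_cons, Prod.mk.injEq] at h h'
      rcases h with ⟨rfl, rfl⟩ | h <;> rcases h' with ⟨h5, h6⟩ | h'
      · exact h5.symm
      · exact absurd (mem_pairUp h').2 h3
      · subst h6; exact absurd (mem_pairUp h).2 h3
      · exact pairUp_snd_inj h4 h h'

theorem pairUp_fst_ne_snd : ∀ {l : List ℕ}, l.Nodup → ∀ {a b c : ℕ}, (a, b) ∈ pairUp l →
    (c, a) ∈ pairUp l → False
  | [], _, a, b, b', h, _ => by simp [pairUp] at h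
  | [c], _, a, b, b', h, _ => by simp [pairUp] at h
  | e :: d :: l, hn, a, b, c, h, h' => by
      simp only [List.nodup_cons, List.mem_cons, not_or] at hn
      obtain ⟨⟨h1, h2⟩, h3, h4⟩ := hn
      simp only [pairUp, List.mem_cons, Prod.mk.injEq] at h h'
      rcases h with ⟨rfl, rfl⟩ | h <;> rcases h' with ⟨h5, h6⟩ | h'
      · exact h1 h6
      · exact absurd (mem_pairUp h').2 h2
      · subst h6; exact absurd (mem_pairUp h).1 h3
      · exact pairUp_fst_ne_snd h4 h h'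

/-- In a chain, every element is at or above the upper element of a pair, or at or below the
lower one. -/
theorem pairUp_adj {r : ℕ → ℕ → Prop} (hr : ∀ a, r a a) : ∀ {l : List ℕ}, l.Pairwise r →
    ∀ {a b v : ℕ}, (a, b) ∈ pairUp l → v ∈ l → r v a ∨ r b v
  | [], _, a, b, b', h, _ => by simp [pairUp] at h
  | [c], _, a, b, b', h, _ => by simp [pairUp] at h
  | c :: d :: l, hn, a, b, v, h, hv => by
      have hn' := hn
      simp only [List.pairwise_cons, List.mem_cons] at hn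
      obtain ⟨h1, h2, h3⟩ := hn
      simp only [pairUp, List.mem_cons, Prod.mk.injEq] at h hv
      rcases h with ⟨rfl, rfl⟩ | h
      · rcases hv with rfl | rfl | hv
        · exact Or.inl (hr _)
        · exact Or.inr (hr _)
        · exact Or.inr (h2 v hv)
      · rcases hv with rfl | rfl | hv
        · exact Or.inl (h1 a (Or.inr (mem_pairUp h).1))
        · exact Or.inl (h2 a (mem_pairUp h).1)
        · exact pairUp_adj hr h3 h hv

/-! ## A whole splay -/

/-- On the right of the splayed key, ancestors from the right can only be lost, by the upper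
nodes of the pairs. -/
theorem splay_right {x v u : ℕ} {t : BinaryTree ℕ} (hb : IsBST t) (hm : x ∈ inorder t)
    (h1 : x < u) (h2 : u < v) : OnP v u (splay x t) ↔
      OnP v u t ∧ ¬ ∃ p, (p, v) ∈ pairUp (ancs x t) ∧ u ≤ p := by
  refine splay_induct (P := fun t t' => OnP v u t' ↔
      OnP v u t ∧ ¬ ∃ p, (p, v) ∈ pairUp (ancs x t) ∧ u ≤ p) ?_ ?_ ?_ hb hm
  · intro t hb h0
    rw [ancs_of_at0 h0]
    simp [pairUp]
  · intro y t t' hb h3 h4 hz
    rw [zig_ancs hz, zig_right hz h1 (h1.trans h2)]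
    simp [pairUp]
  · intro p g d t t' t'' hb h3 h4 h5 h6 hz ih
    rw [ih, dbl_right hz hb h1 h2, dbl_ancs hz]
    simp only [pairUp, List.mem_cons, Prod.mk.injEq]
    constructor
    · rintro ⟨⟨h7, h8⟩, h9⟩
      refine ⟨h7, ?_⟩
      rintro ⟨q, ⟨rfl, rfl⟩ | h10, h11⟩
      · exact h8 ⟨rfl, h11⟩
      · exact h9 ⟨q, h10, h11⟩
    · rintro ⟨h7, h8⟩
      refine ⟨⟨h7, ?_⟩, ?_⟩
      · rintro ⟨rfl, h9⟩
        exact h8 ⟨p, Or.inl ⟨rfl, rfl⟩, h9⟩
      · rintro ⟨q, h9, h10⟩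
        exact h8 ⟨q, Or.inr h9, h10⟩

/-- On the left of the splayed key, ancestors from the left can only be lost. -/
theorem splay_left {x v u : ℕ} {t : BinaryTree ℕ} (hb : IsBST t) (hm : x ∈ inorder t)
    (h1 : u < x) (h2 : v < u) : OnP v u (splay x t) ↔
      OnP v u t ∧ ¬ ∃ p, (p, v) ∈ pairUp (ancs x t) ∧ p ≤ u := by
  refine splay_induct (P := fun t t' => OnP v u t' ↔
      OnP v u t ∧ ¬ ∃ p, (p, v) ∈ pairUp (ancs x t) ∧ p ≤ u) ?_ ?_ ?_ hb hm
  · intro t hb h0
    rw [ancs_of_at0 h0]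
    simp [pairUp]
  · intro y t t' hb h3 h4 hz
    rw [zig_ancs hz, zig_left hz h1 (h2.trans h1)]
    simp [pairUp]
  · intro p g d t t' t'' hb h3 h4 h5 h6 hz ih
    rw [ih, dbl_left hz hb h1 h2, dbl_ancs hz]
    simp only [pairUp, List.mem_cons, Prod.mk.injEq]
    constructor
    · rintro ⟨⟨h7, h8⟩, h9⟩
      refine ⟨h7, ?_⟩
      rintro ⟨q, ⟨rfl, rfl⟩ | h10, h11⟩
      · exact h8 ⟨rfl, h11⟩
      · exact h9 ⟨q, h10, h11⟩
    · rintro ⟨h7, h8⟩
      refine ⟨⟨h7, ?_⟩, ?_⟩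
      · rintro ⟨rfl, h9⟩
        exact h8 ⟨p, Or.inl ⟨rfl, rfl⟩, h9⟩
      · rintro ⟨q, h9, h10⟩
        exact h8 ⟨q, Or.inr h9, h10⟩

/-- On the right of the splayed key, ancestors from the left can only be gained, by the lower
nodes of the pairs. -/
theorem splay_gain_right {x v c : ℕ} {t : BinaryTree ℕ} (hb : IsBST t) (hm : x ∈ inorder t)
    (hc : c ∈ inorder t) (h1 : x < v) (h2 : v < c) :
    (OnP v c t → OnP v c (splay x t)) ∧ (OnP v c (splay x t) → ¬ OnP v c t →
      ∃ g, (v, g) ∈ pairUp (ancs x t) ∧ v < g ∧ g ≤ c ∧ OnP g c t) := by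
  have key := splay_induct (x := x) (P := fun t t' => x ∈ inorder t → c ∈ inorder t →
      (OnP v c t → OnP v c t') ∧ (OnP v c t' → ¬ OnP v c t →
      ∃ g, (v, g) ∈ pairUp (ancs x t) ∧ v < g ∧ g ≤ c ∧ OnP g c t)) ?_ ?_ ?_ hb hm
  · exact key hm hc
  · intro t hb h0 _ _
    exact ⟨id, fun h h' => absurd h h'⟩
  · intro y t t' hb h3 h4 hz _ _
    rw [zig_right hz (h1.trans h2) h1]
    exact ⟨id, fun h h' => absurd h h'⟩
  · intro p g d t t' t'' hb h3 h4 h5 h6 hz ih hx hc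
    have hin := dbl_inorder hz
    obtain ⟨ih1, ih2⟩ := ih (by rw [hin]; exact hx) (by rw [hin]; exact hc)
    obtain ⟨j1, j2⟩ := dbl_gain_right hz hb h1 h2
    have hnd := ancs_nodup hb hx
    rw [dbl_ancs hz] at hnd ⊢
    simp only [List.nodup_cons, List.mem_cons, not_or] at hnd
    simp only [pairUp, List.mem_cons, Prod.mk.injEq]
    refine ⟨fun h => ih1 (j1 h), fun h hn => ?_⟩
    by_cases h7 : OnP v c t'
    · obtain ⟨k1, k2, k3, k4⟩ := j2 h7 hn
      exact ⟨g, Or.inl ⟨k1, rfl⟩, k2, k3, k4⟩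
    · obtain ⟨g', k1, k2, k3, k4⟩ := ih2 h h7
      refine ⟨g', Or.inr k1, k2, k3, ?_⟩
      rcases Nat.lt_or_ge g' c with h8 | h8
      · by_contra h9
        have := (dbl_gain_right hz hb (h1.trans k2) h8).2 k4 h9
        exact hnd.1.2 (this.1 ▸ (mem_pairUp k1).2)
      · have : g' = c := le_antisymm k3 h8
        rw [this]
        exact onP_self hb hc

/-- On the left of the splayed key, ancestors from the right can only be gained, by the lower
nodes of the pairs. -/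
theorem splay_gain_left {x v c : ℕ} {t : BinaryTree ℕ} (hb : IsBST t) (hm : x ∈ inorder t)
    (hc : c ∈ inorder t) (h1 : v < x) (h2 : c < v) :
    (OnP v c t → OnP v c (splay x t)) ∧ (OnP v c (splay x t) → ¬ OnP v c t →
      ∃ g, (v, g) ∈ pairUp (ancs x t) ∧ g < v ∧ c ≤ g ∧ OnP g c t) := by
  have key := splay_induct (x := x) (P := fun t t' => x ∈ inorder t → c ∈ inorder t →
      (OnP v c t → OnP v c t') ∧ (OnP v c t' → ¬ OnP v c t →
      ∃ g, (v, g) ∈ pairUp (ancs x t) ∧ g < v ∧ c ≤ g ∧ OnP g c t)) ?_ ?_ ?_ hb hm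
  · exact key hm hc
  · intro t hb h0 _ _
    exact ⟨id, fun h h' => absurd h h'⟩
  · intro y t t' hb h3 h4 hz _ _
    rw [zig_left hz (h2.trans h1) h1]
    exact ⟨id, fun h h' => absurd h h'⟩
  · intro p g d t t' t'' hb h3 h4 h5 h6 hz ih hx hc
    have hin := dbl_inorder hz
    obtain ⟨ih1, ih2⟩ := ih (by rw [hin]; exact hx) (by rw [hin]; exact hc)
    obtain ⟨j1, j2⟩ := dbl_gain_left hz hb h1 h2
    have hnd := ancs_nodup hb hx
    rw [dbl_ancs hz] at hnd ⊢
    simp only [List.nodup_cons, List.mem_cons, not_or] at hnd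
    simp only [pairUp, List.mem_cons, Prod.mk.injEq]
    refine ⟨fun h => ih1 (j1 h), fun h hn => ?_⟩
    by_cases h7 : OnP v c t'
    · obtain ⟨k1, k2, k3, k4⟩ := j2 h7 hn
      exact ⟨g, Or.inl ⟨k1, rfl⟩, k2, k3, k4⟩
    · obtain ⟨g', k1, k2, k3, k4⟩ := ih2 h h7
      refine ⟨g', Or.inr k1, k2, k3, ?_⟩
      rcases Nat.lt_or_ge c g' with h8 | h8
      · by_contra h9
        have := (dbl_gain_left hz hb (k2.trans h1) h8).2 k4 h9
        exact hnd.1.2 (this.1 ▸ (mem_pairUp k1).2)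
      · have : g' = c := le_antisymm h8 k3
        rw [this]
        exact onP_self hb hc

/-! ## Adjacency of pairs -/

theorem pair_up_onP {x p g : ℕ} {t : BinaryTree ℕ} (hb : IsBST t) (hm : x ∈ inorder t)
    (h : (p, g) ∈ pairUp (ancs x t)) : OnP p x t ∧ p ≠ x ∧ OnP g x t ∧ g ≠ x := by
  obtain ⟨h1, h2⟩ := mem_pairUp h
  rw [mem_ancs hb hm] at h1 h2
  exact ⟨h1.1, h1.2, h2.1, h2.2⟩

/-- No ancestor of `x` lies strictly between the two nodes of a pair on the right of `x`. -/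
theorem pair_adj {x p g v : ℕ} {t : BinaryTree ℕ} (hb : IsBST t) (hm : x ∈ inorder t)
    (h : (p, g) ∈ pairUp (ancs x t)) (hv : OnP v x t) (hx : x < v) (hp : x < p) :
    v ≤ p ∨ g ≤ v := by
  have hpw : (ancs x t).Pairwise (fun v w => OnP w v t) :=
    (ancs_pairwise hb hm).imp (fun h => h.1)
  have hvm : v ∈ ancs x t := (mem_ancs hb hm).2 ⟨hv, by omega⟩
  obtain ⟨q1, q2, q3, q4⟩ := pair_up_onP hb hm h
  have hrefl : ∀ a, OnP a a t ∨ a ∉ ancs x t := by
    intro a
    by_cases ha : a ∈ ancs x t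
    · exact Or.inl (onP_self hb (onP_mem ((mem_ancs hb hm).1 ha).1))
    · exact Or.inr ha
  have hpw' : (ancs x t).Pairwise (fun v w => v = w ∨ OnP w v t) := hpw.imp (fun h => Or.inr h)
  rcases pairUp_adj (r := fun v w => v = w ∨ OnP w v t) (fun a => Or.inl rfl) hpw' h hvm
    with (h1 | h1) | (h1 | h1)
  · left; omega
  · -- p is an ancestor of v
    left
    by_contra h2
    push Not at h2
    have h3 : OnP v p t := onP_convex hb hv (Or.inr ⟨by omega, by omega⟩)
    have := onP_antisymm hb h1 h3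
    omega
  · right; omega
  · -- v is an ancestor of g
    right
    by_contra h2
    push Not at h2
    have h3 : OnP g v t := onP_convex hb q3 (Or.inr ⟨by omega, by omega⟩)
    have := onP_antisymm hb h1 h3
    omega

/-- The upper node of a pair on the right of `x` exceeds the lower one. -/
theorem pair_lt {x p g : ℕ} {t : BinaryTree ℕ} (hb : IsBST t) (hm : x ∈ inorder t)
    (h : (p, g) ∈ pairUp (ancs x t)) (hp : x < p) (hg : x < g) : p < g := by
  obtain ⟨q1, q2, q3, q4⟩ := pair_up_onP hb hm h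
  have hpw : (ancs x t).Pairwise (fun v w => OnP w v t ∧ v ≠ w) := ancs_pairwise hb hm
  have key : ∀ {l : List ℕ}, l.Pairwise (fun v w => OnP w v t ∧ v ≠ w) → ∀ {a b : ℕ},
      (a, b) ∈ pairUp l → OnP b a t ∧ a ≠ b := by
    intro l
    induction l using pairUp.induct with
    | case1 c d l ih =>
      intro hl a b hab
      simp only [List.pairwise_cons, List.mem_cons] at hl
      simp only [pairUp, List.mem_cons, Prod.mk.injEq] at hab
      rcases hab with ⟨rfl, rfl⟩ | hab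
      · exact hl.1 _ (Or.inl rfl)
      · exact ih hl.2.2 hab
    | case2 l hl =>
      intro _ a b hab
      rw [pairUp] at hab
      · simp at hab
      · exact hl
  obtain ⟨h1, h2⟩ := key hpw h
  by_contra h3
  have h4 : OnP p g t := onP_convex hb q1 (Or.inr ⟨by omega, by omega⟩)
  exact h2 (onP_antisymm hb h4 h1)

end Pool.Agent.MP_c42954_lc.Scan
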