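import Pool.Agent.MP_c42954_lc.Scan.Half

set_option autoImplicit false

/-!
# Runs, and the one-sided theorem for consecutive keys
-/

namespace Pool.Agent.MP_c42954_lc.Scan

open BinaryTree
open scoped Classical

/-- The last key of the run of `u`: the first `e ≥ u` which is `n` or at which `B` fails. -/
noncomputable def enOf (n : ℕ) (B : ℕ → Prop) (u : ℕ) : ℕ := sInf {e | u ≤ e ∧ (n ≤ e ∨ ¬ B e)}

section

variable {n : ℕ} {B : ℕ → Prop} {u v : ℕ}

theorem enOf_spec (n : ℕ) (B : ℕ → Prop) (u : ℕ) :
    u ≤ enOf n B u ∧ (n ≤ enOf n B u ∨ ¬ B (enOf n B u)) :=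
  Nat.sInf_mem (s := {e | u ≤ e ∧ (n ≤ e ∨ ¬ B e)})
    ⟨max u n, le_max_left _ _, Or.inl (le_max_right _ _)⟩

theorem enOf_le {e : ℕ} (h1 : u ≤ e) (h2 : n ≤ e ∨ ¬ B e) : enOf n B u ≤ e :=
  Nat.sInf_le ⟨h1, h2⟩

theorem enOf_le_n (h : u ≤ n) : enOf n B u ≤ n := enOf_le h (Or.inl le_rfl)

theorem enOf_eq (h1 : u ≤ v) (h2 : v ≤ enOf n B u) : enOf n B v = enOf n B u := by
  apply le_antisymm
  · exact enOf_le h2 (enOf_spec n B u).2
  · exact enOf_le (h1.trans (enOf_spec n B v).1) (enOf_spec n B v).2

theorem enOf_run {c : ℕ} (h1 : u ≤ c) (h2 : c < enOf n B u) : c < n ∧ B c := by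
  by_contra h
  have h3 : n ≤ c ∨ ¬ B c := by
    by_contra h4
    push Not at h4
    exact h h4
  have := enOf_le h1 h3
  omega

end

/-- The number of adjacent pairs of a list which satisfy `R`. -/
def adj (R : ℕ → ℕ → Bool) : List ℕ → ℕ
  | a :: b :: K => (if R a b then 1 else 0) + adj R (b :: K)
  | _ => 0

/-- Adjacent keys above `m` which are requested in the wrong order. -/
def upR (m : ℕ) (X : List ℕ) (a b : ℕ) : Bool := decide (m < a ∧ X.idxOf b < X.idxOf a)

theorem adj_range' (R : ℕ → ℕ → Bool) : ∀ (n a : ℕ),
    ((Finset.Ico a (a + n)).filter (fun e => R e (e + 1))).card ≤ adj R (List.range' a (n + 1))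
  | 0, a => by simp
  | n + 1, a => by
      have ih := adj_range' R n (a + 1)
      rw [List.range'_succ, List.range'_succ, adj, ← List.range'_succ]
      have hsub : (Finset.Ico a (a + (n + 1))).filter (fun e => R e (e + 1))
          ⊆ (if R a (a + 1) then {a} else ∅) ∪
            (Finset.Ico (a + 1) (a + 1 + n)).filter (fun e => R e (e + 1)) := by
        intro e he
        obtain ⟨h1, h2⟩ := Finset.mem_filter.1 he
        rw [Finset.mem_Ico] at h1
        rw [Finset.mem_union]
        rcases Nat.eq_or_lt_of_le h1.1 with h3 | h3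
        · subst h3
          left
          simp [h2]
        · right
          exact Finset.mem_filter.2 ⟨Finset.mem_Ico.2 ⟨by omega, by omega⟩, h2⟩
      refine (Finset.card_le_card hsub).trans ((Finset.card_union_le _ _).trans ?_)
      apply Nat.add_le_add _ ih
      split_ifs <;> simp

theorem filter_pairwise_idx (p : ℕ → Bool) : ∀ X : List ℕ, (X.filter p).Nodup →
    (X.filter p).Pairwise (fun a b => X.idxOf a < X.idxOf b)
  | [], _ => by simp
  | x :: X, h => by
      have key : ∀ a ∈ X.filter p, ∀ b ∈ X.filter p, x ≠ a → x ≠ b → X.idxOf a < X.idxOf b →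
          (x :: X).idxOf a < (x :: X).idxOf b := by
        intro a _ b _ h1 h2 h3
        rw [List.idxOf_cons_ne _ h1, List.idxOf_cons_ne _ h2]
        omega
      by_cases hp : p x
      · rw [List.filter_cons_of_pos hp] at h ⊢
        rw [List.nodup_cons] at h
        rw [List.pairwise_cons]
        constructor
        · intro b hb
          have : x ≠ b := fun e => h.1 (e ▸ hb)
          rw [List.idxOf_cons_self, List.idxOf_cons_ne _ this]
          omega
        · refine (filter_pairwise_idx p X h.2).imp_of_mem ?_
          intro a b ha hb hab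
          exact key a ha b hb (fun e => h.1 (e ▸ ha)) (fun e => h.1 (e ▸ hb)) hab
      · rw [List.filter_cons_of_neg hp] at h ⊢
        refine (filter_pairwise_idx p X h).imp_of_mem ?_
        intro a b ha hb hab
        have h1 := (List.mem_filter.1 ha).2
        have h2 := (List.mem_filter.1 hb).2
        exact key a ha b hb (fun e => hp (e ▸ h1)) (fun e => hp (e ▸ h2)) hab

/-- The requests above `m` are valid. -/
theorem valid_of {m : ℕ} {en : ℕ → ℕ} : ∀ (X : List ℕ),
    (X.filter (fun x => m < x)).Nodup →
    (X.filter (fun x => m < x)).Pairwise (fun a b => ¬ (b < a ∧ a ≤ en b)) →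
    Valid m en (X.filter (fun x => m < x)).toFinset X
  | [], _, _ => trivial
  | x :: X, hn, hp => by
      simp only [Valid]
      by_cases hx : m < x
      · have hx' : decide (m < x) = true := by simpa using hx
        rw [List.filter_cons_of_pos (p := fun x => decide (m < x)) hx'] at hn hp ⊢
        rw [if_pos hx]
        rw [List.nodup_cons] at hn
        rw [List.pairwise_cons] at hp
        constructor
        · rw [mem_pend]
          refine ⟨by simp, ?_⟩
          intro u hu hux
          rw [List.mem_toFinset, List.mem_cons] at hu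
          rcases hu with hu | hu
          · omega
          · by_contra h
            exact hp.1 u hu ⟨hux, by omega⟩
        · have e : ((x :: X.filter (fun x => m < x)).toFinset).erase x
              = (X.filter (fun x => m < x)).toFinset := by
            ext v
            simp only [Finset.mem_erase, List.mem_toFinset, List.mem_cons]
            constructor
            · rintro ⟨h1, h2 | h2⟩
              · exact absurd h2 h1
              · exact h2
            · intro h
              exact ⟨fun e => hn.1 (e ▸ h), Or.inr h⟩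
          rw [e]
          exact valid_of X hn.2 hp.2
      · have hx' : ¬ decide (m < x) = true := by simpa using hx
        rw [List.filter_cons_of_neg (p := fun x => decide (m < x)) hx'] at hn hp ⊢
        rw [if_neg hx]
        exact valid_of X hn hp

/-- The one-sided theorem for the keys `1, ..., n`. -/
theorem upper {n m : ℕ} {T : BinaryTree ℕ} {X : List ℕ} (hb : IsBST T)
    (hT : inorder T = List.range' 1 n) (hX : ∀ x ∈ X, x ∈ inorder T)
    (hP : (X.filter (fun x => m < x)).Perm ((inorder T).filter (fun x => m < x))) :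
    (upperCost m X T : ℝ) ≤ 4000 * (n + X.length) *
      Real.logb 2 (2 + adj (upR m X) (inorder T)) := by
  have hmemT : ∀ v, v ∈ inorder T ↔ 1 ≤ v ∧ v ≤ n := by
    intro v
    rw [hT, List.mem_range'_1]
    omega
  set B : ℕ → Prop := fun e => X.idxOf e < X.idxOf (e + 1) with hB
  obtain ⟨en, e_spec, e_le, e_eq, e_run⟩ : ∃ en : ℕ → ℕ,
      (∀ u, u ≤ en u ∧ (n ≤ en u ∨ ¬ B (en u))) ∧ (∀ u, u ≤ n → en u ≤ n) ∧
      (∀ u v, u ≤ v → v ≤ en u → en v = en u) ∧ (∀ u c, u ≤ c → c < en u → c < n ∧ B c) :=
    ⟨enOf n B, enOf_spec n B, fun u h => enOf_le_n h, fun u v h1 h2 => enOf_eq h1 h2,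
      fun u c h1 h2 => enOf_run h1 h2⟩
  set S := (X.filter (fun x => m < x)).toFinset with hS
  have hmemS : ∀ v, v ∈ S ↔ m < v ∧ 1 ≤ v ∧ v ≤ n := by
    intro v
    rw [hS, List.mem_toFinset, hP.mem_iff, List.mem_filter, hmemT]
    simp only [decide_eq_true_eq]
    tauto
  have hnd : (X.filter (fun x => m < x)).Nodup := by
    rw [hP.nodup_iff]
    apply List.Nodup.filter
    rw [hT]
    exact List.nodup_range'
  -- order within the runs
  have chain : ∀ (j u : ℕ), m < u → u + j ≤ en u → 1 ≤ j → X.idxOf u < X.idxOf (u + j) := by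
    intro j
    induction j with
    | zero => intro u _ _ h; omega
    | succ j ih =>
      intro u hu hj _
      have h1 : B (u + j) := (e_run u (u + j) (by omega) (by omega)).2
      rcases Nat.eq_zero_or_pos j with h0 | h0
      · subst h0; exact h1
      · have := ih u hu (by omega) h0
        have h2 : X.idxOf (u + j) < X.idxOf (u + j + 1) := h1
        rw [← add_assoc]
        omega
  have hpw : (X.filter (fun x => m < x)).Pairwise (fun a b => ¬ (b < a ∧ a ≤ en b)) := by
    refine (filter_pairwise_idx _ X hnd).imp_of_mem ?_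
    intro a b ha hb' hab h
    have hbm : m < b := by simpa using (List.mem_filter.1 hb').2
    have h1 := chain (a - b) b hbm (by omega) (by omega)
    have e : b + (a - b) = a := by omega
    rw [e] at h1
    omega
  have hV := valid_of X hnd hpw
  have hInv : Inv T S en := by
    refine ⟨hb, ?_, ?_, ?_⟩
    · intro u hu
      exact (hmemT u).2 ((hmemS u).1 hu).2
    · intro u _
      exact (e_spec u).1
    · intro u hu v huv hv
      have h1 := (hmemS u).1 hu
      have h2 := e_le u h1.2.2
      exact ⟨(hmemS v).2 ⟨by omega, by omega, by omega⟩, e_eq u v huv hv⟩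
  have hcontig : Contig T := by
    intro a ha c hc b hab hbc
    rw [hmemT] at ha hc ⊢
    omega
  set d := adj (upR m X) (inorder T) with hd
  -- the number of runs
  have himg : (S.image en).card ≤ d + 1 := by
    have hsub : S.image en ⊆ insert n
        ((Finset.Ico 1 (1 + (n - 1))).filter (fun e => upR m X e (e + 1))) := by
      intro e he
      obtain ⟨u, hu, rfl⟩ := Finset.mem_image.1 he
      have h1 := (hmemS u).1 hu
      have h2 := e_spec u
      have h3 := e_le u h1.2.2
      rw [Finset.mem_insert]
      rcases Nat.eq_or_lt_of_le h3 with h4 | h4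
      · exact Or.inl h4
      · right
        have h5 : ¬ B (en u) := by
          rcases h2.2 with h | h
          · omega
          · exact h
        refine Finset.mem_filter.2 ⟨Finset.mem_Ico.2 ⟨by omega, by omega⟩, ?_⟩
        simp only [upR, decide_eq_true_eq]
        refine ⟨by omega, ?_⟩
        have h6 : ¬ X.idxOf (en u) < X.idxOf (en u + 1) := h5
        have h7 : en u ∈ X := by
          have := (hmemS (en u)).2 ⟨by omega, by omega, by omega⟩
          rw [hS, List.mem_toFinset, List.mem_filter] at this
          exact this.1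
        have h8 : X.idxOf (en u) ≠ X.idxOf (en u + 1) := by
          intro h
          have := (List.idxOf_inj h7).1 h
          omega
        omega
    have h1 := Finset.card_le_card hsub
    have h2 := Finset.card_insert_le n
      ((Finset.Ico 1 (1 + (n - 1))).filter (fun e => upR m X e (e + 1)))
    rcases Nat.eq_zero_or_pos n with h0 | h0
    · have : S = ∅ := by
        rw [Finset.eq_empty_iff_forall_notMem]
        intro v hv
        have := (hmemS v).1 hv
        omega
      rw [this]
      simp
    · have h3 := adj_range' (upR m X) (n - 1) 1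
      have e : n - 1 + 1 = n := by omega
      rw [e, ← hT] at h3
      omega
  set Z := (S.image en).image (fun v => v + 1) with hZ
  have hZk : Z.card ≤ d + 1 := Finset.card_image_le.trans himg
  have hL : ∀ v ∈ S, v < 2 ^ n := by
    intro v hv
    have := (hmemS v).1 hv
    have := Nat.lt_two_pow_self (n := n)
    omega
  have htot := total (L := n) (k := d + 1) hZk X T S hInv hcontig (fun u hu => ((hmemS u).1 hu).1)
    hX hV (fun u hu => Finset.mem_image_of_mem _ (Finset.mem_image_of_mem _ hu)) hL himg
  have hth := theta_le (L := n) (k := d + 1) (S := S) (en := en) (Z := Z) (T := T)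
    ((card_pend_le hInv).trans himg) hZk hb
  have hScard : S.card ≤ n := by
    have : S ⊆ Finset.Icc 1 n := by
      intro v hv
      have := (hmemS v).1 hv
      exact Finset.mem_Icc.2 this.2
    have := Finset.card_le_card this
    simpa using this
  have hlen : (inorder T).length = n := by rw [hT]; simp
  rw [hlen] at hth
  -- logarithms
  set l := Real.logb 2 (2 + (d : ℝ)) with hl
  have hd0 : (0 : ℝ) ≤ d := Nat.cast_nonneg d
  have hl1 : 1 ≤ l := by
    rw [hl, Real.le_logb_iff_rpow_le (by norm_num) (by positivity)]
    simp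
  have hnl : (Nat.log 2 (d + 1) : ℝ) ≤ l := by
    have h1 : (Nat.log 2 (d + 1) : ℝ) ≤ Real.logb 2 ((d + 1 : ℕ) : ℝ) := by
      exact Real.natLog_le_logb _ _
    refine h1.trans ?_
    rw [hl]
    apply Real.logb_le_logb_of_le (by norm_num)
    · positivity
    · push_cast; linarith
  have hrk : rk (2 * (d + 1)) ≤ 2 * l := by
    have h1 : rk (2 * (d + 1)) ≤ Real.log ((2 + d) ^ 2) := by
      unfold rk
      apply Real.log_le_log (by positivity)
      push_cast
      nlinarith
    rw [Real.log_pow] at h1
    have h2 : Real.log (2 + (d : ℝ)) ≤ l := by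
      rw [hl, Real.logb, le_div_iff₀ (Real.log_pos (by norm_num))]
      have h3 : Real.log 2 ≤ 1 := by
        have := Real.log_le_sub_one_of_pos (x := (2 : ℝ)) (by norm_num)
        linarith
      have h4 : 0 ≤ Real.log (2 + (d : ℝ)) := Real.log_nonneg (by linarith)
      nlinarith
    push_cast at h1
    linarith
  have hS' : (S.card : ℝ) ≤ n := by exact_mod_cast hScard
  have hn0 : (0 : ℝ) ≤ n := Nat.cast_nonneg n
  have hX0 : (0 : ℝ) ≤ X.length := Nat.cast_nonneg _
  have hS0 : (0 : ℝ) ≤ S.card := Nat.cast_nonneg _
  have b1 : (S.card : ℝ) * (16 * Nat.log 2 (d + 1) + 3120) ≤ n * (3136 * l) := by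
    have h1 : (16 * (Nat.log 2 (d + 1) : ℝ) + 3120) ≤ 3136 * l := by linarith
    have h2 : (0 : ℝ) ≤ 3136 * l := by linarith
    calc (S.card : ℝ) * (16 * Nat.log 2 (d + 1) + 3120) ≤ S.card * (3136 * l) :=
          mul_le_mul_of_nonneg_left h1 hS0
      _ ≤ n * (3136 * l) := mul_le_mul_of_nonneg_right hS' h2
  have b2 : (n : ℝ) * (44 * rk (2 * (d + 1))) ≤ n * (88 * l) :=
    mul_le_mul_of_nonneg_left (by linarith) hn0
  have b3 : (X.length : ℝ) * (98 + 8 * Nat.log 2 (d + 1) + 132 * rk (2 * (d + 1)))
      ≤ X.length * (370 * l) :=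
    mul_le_mul_of_nonneg_left (by linarith) hX0
  have b4 : (0 : ℝ) ≤ n * l := by positivity
  have b5 : (0 : ℝ) ≤ X.length * l := by positivity
  nlinarith

end Pool.Agent.MP_c42954_lc.Scan
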