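import Pool.Agent.MP_c42954_lc.Scan.Rules

set_option autoImplicit false

/-!
# The quantity attached to a cell, and its monotonicity
-/

namespace Pool.Agent.MP_c42954_lc.Scan

open BinaryTree
open scoped Classical

/-! ## Staircases -/

/-- A staircase of height `r` under `G` over `C`. -/
def IsStair (C : Finset ℕ) (G : ℕ → ℕ) (r : ℕ) : Prop :=
  ∃ f : ℕ → ℕ, (∀ i < r, ∀ j < r, f i = f j → i = j) ∧ ∀ i < r, f i ∈ C ∧ i + 1 ≤ G (f i)

theorem IsStair.le_card {C : Finset ℕ} {G : ℕ → ℕ} {r : ℕ} (h : IsStair C G r) : r ≤ C.card := by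
  obtain ⟨f, h1, h2⟩ := h
  have : (Finset.range r).card ≤ C.card := by
    apply Finset.card_le_card_of_injOn f
    · intro i hi
      exact (h2 i (by simpa using hi)).1
    · intro i hi j hj hij
      exact h1 i (by simpa using hi) j (by simpa using hj) hij
  simpa using this

theorem isStair_zero (C : Finset ℕ) (G : ℕ → ℕ) : IsStair C G 0 :=
  ⟨id, fun i hi => absurd hi (Nat.not_lt_zero i), fun i hi => absurd hi (Nat.not_lt_zero i)⟩

/-- The largest height of a staircase. -/
noncomputable def stair (C : Finset ℕ) (G : ℕ → ℕ) : ℕ := sSup {r | IsStair C G r}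

theorem stair_bdd (C : Finset ℕ) (G : ℕ → ℕ) : BddAbove {r | IsStair C G r} :=
  ⟨C.card, fun _ h => IsStair.le_card h⟩

theorem stair_spec (C : Finset ℕ) (G : ℕ → ℕ) : IsStair C G (stair C G) :=
  Nat.sSup_mem (s := {r | IsStair C G r}) ⟨0, isStair_zero C G⟩ (stair_bdd C G)

theorem le_stair {C : Finset ℕ} {G : ℕ → ℕ} {r : ℕ} (h : IsStair C G r) : r ≤ stair C G :=
  le_csSup (stair_bdd C G) h

theorem stair_le_card (C : Finset ℕ) (G : ℕ → ℕ) : stair C G ≤ C.card :=
  (stair_spec C G).le_card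

theorem stair_le_of_le {C : Finset ℕ} {G : ℕ → ℕ} {M : ℕ} (h : ∀ c ∈ C, G c ≤ M) :
    stair C G ≤ M := by
  obtain ⟨f, h1, h2⟩ := stair_spec C G
  rcases Nat.eq_zero_or_pos (stair C G) with h0 | h0
  · omega
  · obtain ⟨h3, h4⟩ := h2 (stair C G - 1) (by omega)
    have := h _ h3
    omega

theorem stair_mono {C C' : Finset ℕ} {G G' : ℕ → ℕ}
    (h : ∀ c ∈ C', 1 ≤ G' c → c ∈ C ∧ G' c ≤ G c) : stair C' G' ≤ stair C G := by
  obtain ⟨f, h1, h2⟩ := stair_spec C' G'
  refine le_stair ⟨f, h1, fun i hi => ?_⟩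
  obtain ⟨h3, h4⟩ := h2 i hi
  obtain ⟨h5, h6⟩ := h _ h3 (by omega)
  exact ⟨h5, by omega⟩

theorem stair_succ {C C' : Finset ℕ} {G G' : ℕ → ℕ}
    (h : ∀ c ∈ C', c ∈ C ∧ G' c ≤ G c + 1) : stair C' G' ≤ stair C G + 1 := by
  obtain ⟨f, h1, h2⟩ := stair_spec C' G'
  suffices h0 : stair C' G' - 1 ≤ stair C G by omega
  refine le_stair ⟨fun i => f (i + 1), fun i hi j hj hij => ?_, fun i hi => ?_⟩
  · have := h1 (i + 1) (by omega) (j + 1) (by omega) hij
    omega
  · obtain ⟨h3, h4⟩ := h2 (i + 1) (by omega)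
    obtain ⟨h5, h6⟩ := h _ h3
    exact ⟨h5, by simp only; omega⟩

theorem stair_release {C C' : Finset ℕ} {G G' : ℕ → ℕ} {y : ℕ} (hy : y ∈ C) (hG : 1 ≤ G y)
    (hy' : y ∉ C') (h : ∀ c ∈ C', 1 ≤ G' c → c ∈ C ∧ G' c + 1 ≤ G c) :
    stair C' G' + 1 ≤ stair C G := by
  obtain ⟨f, h1, h2⟩ := stair_spec C' G'
  refine le_stair ⟨fun i => if i = 0 then y else f (i - 1), fun i hi j hj hij => ?_,
    fun i hi => ?_⟩
  · simp only at hij
    split_ifs at hij with h3 h4 h4
    · omega
    · exact absurd (hij ▸ (h2 (j - 1) (by omega)).1) hy'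
    · exact absurd (hij ▸ (h2 (i - 1) (by omega)).1) hy'
    · have := h1 (i - 1) (by omega) (j - 1) (by omega) hij
      omega
  · simp only
    split_ifs with h3
    · exact ⟨hy, by omega⟩
    · obtain ⟨h4, h5⟩ := h2 (i - 1) (by omega)
      obtain ⟨h6, h7⟩ := h _ h4 (by omega)
      exact ⟨h6, by omega⟩

/-! ## Tops, ghosts, and the quantity of a cell -/

/-- The nodes in `W` which are ancestors of `u`. -/
noncomputable def tops (T : BinaryTree ℕ) (u : ℕ) (W : Finset ℕ) : Finset ℕ :=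
  W.filter (fun v => OnP v u T)

/-- The nodes in `W` which are ancestors of `c` but not of `u`. -/
noncomputable def ghosts (T : BinaryTree ℕ) (u : ℕ) (W : Finset ℕ) (c : ℕ) : Finset ℕ :=
  W.filter (fun v => OnP v c T ∧ ¬ OnP v u T)

/-- The quantity attached to the cell `(u, W)`. -/
noncomputable def Yh (T : BinaryTree ℕ) (C : Finset ℕ) (u : ℕ) (W : Finset ℕ) : ℕ :=
  (tops T u W).card + stair C (fun c => (ghosts T u W c).card)

theorem mem_tops {T : BinaryTree ℕ} {u v : ℕ} {W : Finset ℕ} :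
    v ∈ tops T u W ↔ v ∈ W ∧ OnP v u T := by
  simp [tops]

theorem mem_ghosts {T : BinaryTree ℕ} {u v c : ℕ} {W : Finset ℕ} :
    v ∈ ghosts T u W c ↔ v ∈ W ∧ OnP v c T ∧ ¬ OnP v u T := by
  simp [ghosts]

theorem stair_ghosts_le (T : BinaryTree ℕ) (C : Finset ℕ) (u : ℕ) (W : Finset ℕ) :
    stair C (fun c => (ghosts T u W c).card) ≤ min C.card W.card := by
  refine le_min (stair_le_card _ _) (stair_le_of_le fun c _ => ?_)
  exact Finset.card_filter_le _ _

section Left

variable {T : BinaryTree ℕ} {y u : ℕ} {W C C' : Finset ℕ}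

/-- The nodes of `W` which stop being ancestors of `u` when `y` is splayed. -/
noncomputable def lose (T : BinaryTree ℕ) (y u : ℕ) (W : Finset ℕ) : Finset ℕ :=
  W.filter (fun v => OnP v u T ∧ ¬ OnP v u (splay y T))

theorem mem_lose {v : ℕ} : v ∈ lose T y u W ↔ v ∈ W ∧ OnP v u T ∧ ¬ OnP v u (splay y T) := by
  simp [lose]

theorem tops_left (hb : IsBST T) (hy : y ∈ inorder T) (hyu : y < u) (hW : ∀ w ∈ W, u < w) :
    (tops (splay y T) u W).card + (lose T y u W).card = (tops T u W).card := by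
  rw [← Finset.card_union_of_disjoint]
  · congr 1
    ext v
    simp only [Finset.mem_union, mem_tops, mem_lose]
    constructor
    · rintro (⟨h1, h2⟩ | ⟨h1, h2, _⟩)
      · exact ⟨h1, ((splay_right hb hy hyu (hW v h1)).1 h2).1⟩
      · exact ⟨h1, h2⟩
    · rintro ⟨h1, h2⟩
      by_cases h3 : OnP v u (splay y T)
      · exact Or.inl ⟨h1, h3⟩
      · exact Or.inr ⟨h1, h2, h3⟩
  · rw [Finset.disjoint_left]
    intro v h1 h2
    exact (mem_lose.1 h2).2.2 (mem_tops.1 h1).2

theorem lose_pair (hb : IsBST T) (hy : y ∈ inorder T) (hyu : y < u) (hW : ∀ w ∈ W, u < w)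
    {v : ℕ} (hv : v ∈ lose T y u W) : ∃ p, (p, v) ∈ pairUp (ancs y T) ∧ u ≤ p := by
  obtain ⟨h1, h2, h3⟩ := mem_lose.1 hv
  by_contra h4
  exact h3 ((splay_right hb hy hyu (hW v h1)).2 ⟨h2, h4⟩)

/-- A new ghost must be a lost node. -/
theorem ghost_new (hb : IsBST T) (hy : y ∈ inorder T) (hyu : y < u) (hW : ∀ w ∈ W, u < w)
    {c w : ℕ} (hc : c ∈ inorder T) (hwc : w < c) (hw : w ∈ ghosts (splay y T) u W c) :
    w ∈ ghosts T u W c ∨ (w ∈ lose T y u W ∧ OnP w y T ∧ OnP w c T) := by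
  obtain ⟨h1, h2, h3⟩ := mem_ghosts.1 hw
  have huw := hW w h1
  have hc' : OnP w c T := by
    by_contra h4
    obtain ⟨g, h5, h6, h7, h8⟩ := (splay_gain_right hb hy hc (hyu.trans huw) hwc).2 h2 h4
    have h9 : OnP w y T := (pair_up_onP hb hy h5).1
    have h10 : OnP w u T := onP_convex hb h9 (Or.inr ⟨by omega, by omega⟩)
    apply h3
    refine (splay_right hb hy hyu huw).2 ⟨h10, ?_⟩
    rintro ⟨p, h11, _⟩
    exact pairUp_fst_ne_snd (ancs_nodup hb hy) h5 h11
  by_cases h4 : OnP w u T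
  · right
    have h5 : w ∈ lose T y u W := mem_lose.2 ⟨h1, h4, h3⟩
    obtain ⟨p, h6, h7⟩ := lose_pair hb hy hyu hW h5
    exact ⟨h5, (pair_up_onP hb hy h6).2.2.1, hc'⟩
  · left
    exact mem_ghosts.2 ⟨h1, hc', h4⟩

theorem left_access (hb : IsBST T) (hy : y ∈ inorder T) (hyu : y < u) (hW : ∀ w ∈ W, u < w)
    (hC : ∀ c ∈ C, c ∈ inorder T) (hWC : ∀ c ∈ C, ∀ w ∈ W, w < c) (hC' : C' ⊆ C) :
    Yh (splay y T) C' u W + (lose T y u W).card ≤ Yh T C u W ∨
      (Yh (splay y T) C' u W + (lose T y u W).card ≤ Yh T C u W + 1 ∧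
        ∃ v ∈ lose T y u W, OnP v y T ∧ ∃ c ∈ C, OnP v c T) := by
  have h0 := tops_left hb hy hyu hW
  by_cases hex : ∃ v ∈ lose T y u W, OnP v y T ∧ ∃ c ∈ C, OnP v c T
  · right
    refine ⟨?_, hex⟩
    obtain ⟨v0, hv0, hv0y, c0, hc0, hv0c⟩ := hex
    have hst : stair C' (fun c => (ghosts (splay y T) u W c).card)
        ≤ stair C (fun c => (ghosts T u W c).card) + 1 := by
      apply stair_succ
      intro c hc
      refine ⟨hC' hc, ?_⟩
      have hsub : ghosts (splay y T) u W c ⊆ insert v0 (ghosts T u W c) := by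
        intro w hw
        have hwW := (mem_ghosts.1 hw).1
        rcases ghost_new hb hy hyu hW (hC c (hC' hc)) (hWC c (hC' hc) w hwW) hw with h1 | ⟨h1, h2, h3⟩
        · exact Finset.mem_insert_of_mem h1
        · have hv0W := (mem_lose.1 hv0).1
          have huv := hW v0 hv0W
          have huw := hW w hwW
          have hwc := hWC c (hC' hc) w hwW
          have hvc := hWC c (hC' hc) v0 hv0W
          have hwc0 := hWC c0 hc0 w hwW
          have hvc0 := hWC c0 hc0 v0 hv0W
          have : w = v0 := by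
            rcases Nat.lt_trichotomy w v0 with h4 | h4 | h4
            · have h5 : OnP v0 w T := onP_convex hb hv0y (Or.inr ⟨by omega, by omega⟩)
              have h6 : OnP w v0 T := onP_convex hb h3 (Or.inl ⟨by omega, by omega⟩)
              exact onP_antisymm hb h6 h5
            · exact h4
            · have h5 : OnP w v0 T := onP_convex hb h2 (Or.inr ⟨by omega, by omega⟩)
              have h6 : OnP v0 w T := onP_convex hb hv0c (Or.inl ⟨by omega, by omega⟩)
              exact onP_antisymm hb h5 h6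
          rw [this]
          exact Finset.mem_insert_self _ _
      exact (Finset.card_le_card hsub).trans (Finset.card_insert_le _ _)
    unfold Yh
    omega
  · left
    have hst : stair C' (fun c => (ghosts (splay y T) u W c).card)
        ≤ stair C (fun c => (ghosts T u W c).card) := by
      apply stair_mono
      intro c hc _
      refine ⟨hC' hc, ?_⟩
      apply Finset.card_le_card
      intro w hw
      have hwW := (mem_ghosts.1 hw).1
      rcases ghost_new hb hy hyu hW (hC c (hC' hc)) (hWC c (hC' hc) w hwW) hw with h1 | ⟨h1, h2, h3⟩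
      · exact h1
      · exact absurd ⟨w, h1, h2, c, hC' hc, h3⟩ hex
    unfold Yh
    omega

theorem left_access_mono (hb : IsBST T) (hy : y ∈ inorder T) (hyu : y < u) (hW : ∀ w ∈ W, u < w)
    (hC : ∀ c ∈ C, c ∈ inorder T) (hWC : ∀ c ∈ C, ∀ w ∈ W, w < c) (hC' : C' ⊆ C) :
    Yh (splay y T) C' u W ≤ Yh T C u W := by
  rcases left_access hb hy hyu hW hC hWC hC' with h | ⟨h, v, hv, _⟩
  · omega
  · have : 1 ≤ (lose T y u W).card := Finset.card_pos.2 ⟨v, hv⟩
    omega

end Left

section Right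

variable {T : BinaryTree ℕ} {y u : ℕ} {W C C' : Finset ℕ}

/-- Splaying a key to the right of everything gives `u` at most one new ancestor in `W`. -/
theorem gain_unique (hb : IsBST T) (hy : y ∈ inorder T) (hu : u ∈ inorder T) {v1 v2 : ℕ}
    (h1 : u < v1) (h12 : v1 < v2) (h2 : v2 < y)
    (g1 : OnP v1 u (splay y T)) (n1 : ¬ OnP v1 u T)
    (g2 : OnP v2 u (splay y T)) (n2 : ¬ OnP v2 u T) : False := by
  obtain ⟨a1, p1, _, _, _⟩ := (splay_gain_left hb hy hu (h12.trans h2) h1).2 g1 n1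
  obtain ⟨a2, p2, q2, r2, s2⟩ := (splay_gain_left hb hy hu h2 (h1.trans h12)).2 g2 n2
  have hv1 : OnP v1 y T := (pair_up_onP hb hy p1).1
  have hv12 : OnP v1 v2 T := onP_convex hb hv1 (Or.inl ⟨by omega, by omega⟩)
  have hpw' : (ancs y T).Pairwise (fun v w => v = w ∨ OnP w v T) :=
    (ancs_pairwise hb hy).imp (fun h => Or.inr h.1)
  rcases pairUp_adj (r := fun v w => v = w ∨ OnP w v T) (fun a => Or.inl rfl) hpw' p2
    (mem_pairUp p1).1 with (h3 | h3) | (h3 | h3)
  · omega
  · have := onP_antisymm hb hv12 h3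
    omega
  · subst h3
    exact pairUp_fst_ne_snd (ancs_nodup hb hy) p1 p2
  · exact n1 (onP_trans hb h3 s2)

theorem right_access (hb : IsBST T) (hy : y ∈ inorder T) (hu : u ∈ inorder T)
    (hW : ∀ w ∈ W, u < w) (hC : ∀ c ∈ C, c ∈ inorder T) (hWC : ∀ c ∈ C, ∀ w ∈ W, w < c)
    (hyC : y ∈ C) (hC' : ∀ c ∈ C', y < c ∨ (c ∈ C ∧ c < y)) :
    Yh (splay y T) C' u W ≤ Yh T C u W := by
  have hWy : ∀ w ∈ W, w < y := hWC y hyC
  have hroot := splay_root hb hy
  have hb' := splay_bst hb hy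
  -- the tops can only grow, the ghosts can only shrink
  have htop : ∀ v ∈ W, OnP v u T → OnP v u (splay y T) := fun v hv h =>
    (splay_gain_left hb hy hu (hWy v hv) (hW v hv)).1 h
  have hfar : ∀ c ∈ C', y < c → (ghosts (splay y T) u W c).card = 0 := by
    intro c _ hyc
    rw [Finset.card_eq_zero, Finset.eq_empty_iff_forall_notMem]
    intro w hw
    obtain ⟨h1, h2, _⟩ := mem_ghosts.1 hw
    exact onP_root hroot hb' (Or.inl ⟨hWy w h1, hyc⟩) h2
  have hnear : ∀ c ∈ C, c < y → ghosts (splay y T) u W c ⊆ ghosts T u W c := by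
    intro c hc hcy w hw
    obtain ⟨h1, h2, h3⟩ := mem_ghosts.1 hw
    exact mem_ghosts.2 ⟨h1, ((splay_left hb hy hcy (hWC c hc w h1)).1 h2).1,
      fun h => h3 (htop w h1 h)⟩
  by_cases hex : ∃ v ∈ W, OnP v u (splay y T) ∧ ¬ OnP v u T
  · obtain ⟨v0, hv0, hg0, hn0⟩ := hex
    have huniq : ∀ v ∈ W, OnP v u (splay y T) → ¬ OnP v u T → v = v0 := by
      intro v hv hg hn
      rcases Nat.lt_trichotomy v v0 with h | h | h
      · exact (gain_unique hb hy hu (hW v hv) h (hWy v0 hv0) hg hn hg0 hn0).elim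
      · exact h
      · exact (gain_unique hb hy hu (hW v0 hv0) h (hWy v hv) hg0 hn0 hg hn).elim
    have hv0y : OnP v0 y T := by
      obtain ⟨a1, p1, _, _, _⟩ :=
        (splay_gain_left hb hy hu (hWy v0 hv0) (hW v0 hv0)).2 hg0 hn0
      exact (pair_up_onP hb hy p1).1
    have hcard : (tops (splay y T) u W).card ≤ (tops T u W).card + 1 := by
      have hsub : tops (splay y T) u W ⊆ insert v0 (tops T u W) := by
        intro v hv
        obtain ⟨h1, h2⟩ := mem_tops.1 hv
        by_cases h3 : OnP v u T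
        · exact Finset.mem_insert_of_mem (mem_tops.2 ⟨h1, h3⟩)
        · rw [huniq v h1 h2 h3]; exact Finset.mem_insert_self _ _
      exact (Finset.card_le_card hsub).trans (Finset.card_insert_le _ _)
    have hst : stair C' (fun c => (ghosts (splay y T) u W c).card) + 1
        ≤ stair C (fun c => (ghosts T u W c).card) := by
      apply stair_release hyC
      · exact Finset.card_pos.2 ⟨v0, mem_ghosts.2 ⟨hv0, hv0y, hn0⟩⟩
      · intro h
        rcases hC' y h with h1 | ⟨_, h1⟩ <;> omega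
      · intro c hc h1
        rcases hC' c hc with h2 | ⟨h2, h3⟩
        · have := hfar c hc h2
          omega
        · refine ⟨h2, ?_⟩
          have hv0c : v0 ∈ ghosts T u W c := by
            refine mem_ghosts.2 ⟨hv0, ?_, hn0⟩
            have := hWC c h2 v0 hv0
            exact onP_convex hb hv0y (Or.inl ⟨by omega, by omega⟩)
          have hsub : ghosts (splay y T) u W c ⊆ (ghosts T u W c).erase v0 := by
            intro w hw
            refine Finset.mem_erase.2 ⟨?_, hnear c h2 h3 hw⟩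
            rintro rfl
            exact (mem_ghosts.1 hw).2.2 hg0
          have h4 := Finset.card_le_card hsub
          rw [Finset.card_erase_of_mem hv0c] at h4
          have h5 : 1 ≤ (ghosts T u W c).card := Finset.card_pos.2 ⟨v0, hv0c⟩
          omega
    unfold Yh
    omega
  · have hcard : (tops (splay y T) u W).card ≤ (tops T u W).card := by
      apply Finset.card_le_card
      intro v hv
      obtain ⟨h1, h2⟩ := mem_tops.1 hv
      by_contra h3
      exact hex ⟨v, h1, h2, fun h => h3 (mem_tops.2 ⟨h1, h⟩)⟩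
    have hst : stair C' (fun c => (ghosts (splay y T) u W c).card)
        ≤ stair C (fun c => (ghosts T u W c).card) := by
      apply stair_mono
      intro c hc h1
      rcases hC' c hc with h2 | ⟨h2, h3⟩
      · have := hfar c hc h2
        omega
      · exact ⟨h2, Finset.card_le_card (hnear c h2 h3)⟩
    unfold Yh
    omega

end Right

end Pool.Agent.MP_c42954_lc.Scan
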