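import Pool.Agent.MP_c42954_lc.Scan.Fingers

set_option autoImplicit false

/-!
# The amortized analysis of several fingers
-/

namespace Pool.Agent.MP_c42954_lc.Scan

open BinaryTree
open scoped Classical

/-- The potential of a layer. -/
noncomputable def lay (k L M : ℕ) (T : BinaryTree ℕ) (C : Finset ℕ) (l g : ℕ) : ℝ :=
  4 * eS k L T C l g + 4 * wW k L M T C l g

theorem lay_nonneg (k L M : ℕ) (T : BinaryTree ℕ) (C : Finset ℕ) (l g : ℕ) :
    0 ≤ lay k L M T C l g := by
  have h1 := eS_nonneg k L T C l g
  have h2 := wW_nonneg k L M T C l g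
  unfold lay
  linarith

/-- The total potential. -/
noncomputable def th (k L : ℕ) (M : ℕ → ℕ) (T : BinaryTree ℕ) (f : ℕ → ℕ) (X : List (ℕ × ℕ)) : ℝ :=
  ∑ i ∈ Finset.Icc 1 k, lay k L (M i) T (CC X i) (f i) (f (i - 1)) + 44 * pot (wF k f) T

theorem th_nonneg (k L : ℕ) (M : ℕ → ℕ) (T : BinaryTree ℕ) (f : ℕ → ℕ) (X : List (ℕ × ℕ)) :
    0 ≤ th k L M T f X := by
  have h1 : 0 ≤ ∑ i ∈ Finset.Icc 1 k, lay k L (M i) T (CC X i) (f i) (f (i - 1)) :=
    Finset.sum_nonneg fun i _ => lay_nonneg _ _ _ _ _ _ _
  have h2 := pot_nonneg (wF k f) T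
  unfold th
  linarith

/-- The amortized cost per request. -/
noncomputable def cA (k : ℕ) : ℝ := 102 + 8 * Nat.log 2 k + 132 * rk k

/-- The amortized cost per unit of finger movement. -/
noncomputable def cB (k : ℕ) : ℝ := 4 * (AE k + 2 * AW k) + 11

theorem AE_nonneg (k : ℕ) : 0 ≤ AE k := by unfold AE; positivity
theorem AW_nonneg (k : ℕ) : 0 ≤ AW k := by unfold AW; positivity
theorem cA_nonneg (k : ℕ) : 0 ≤ cA k := by
  have := rk_nonneg k
  unfold cA
  positivity
theorem cB_nonneg (k : ℕ) : 0 ≤ cB k := by
  have h1 := AE_nonneg k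
  have h2 := AW_nonneg k
  unfold cB
  linarith

section

variable {n m k L x j : ℕ} {M : ℕ → ℕ} {T : BinaryTree ℕ} {f : ℕ → ℕ} {X : List (ℕ × ℕ)}

theorem lay_mono {M' : ℕ} {T T' : BinaryTree ℕ} {C C' : Finset ℕ} {l g : ℕ}
    (h : ∀ u W, l < u → (∀ w ∈ W, u < w ∧ w < g) → Yh T' C' u W ≤ Yh T C u W) :
    lay k L M' T' C' l g ≤ lay k L M' T C l g := by
  have h1 := eS_mono (k := k) (L := L) h
  have h2 := wW_mono (k := k) (L := L) (M := M') h
  unfold lay
  linarith

theorem step_skip (h : St n m k T f ((x, 0) :: X)) :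
    th k L M (splay x T) f X ≤ th k L M T f ((x, 0) :: X) + cA k := by
  obtain ⟨hxm, h'⟩ := h.skip
  have hxT : x ∈ inorder T := h.mem (x, 0) (by simp)
  have h1 : ∑ i ∈ Finset.Icc 1 k, lay k L (M i) (splay x T) (CC X i) (f i) (f (i - 1))
      ≤ ∑ i ∈ Finset.Icc 1 k, lay k L (M i) T (CC ((x, 0) :: X) i) (f i) (f (i - 1)) := by
    refine Finset.sum_le_sum fun i hi => ?_
    rw [Finset.mem_Icc] at hi
    rw [CC_cons_of_le (Or.inr rfl)]
    apply lay_mono
    refine cell_left h.bst hxT (hxm.trans (h.low' hi.2)) ?_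
    have := h.cc (i := i) hi.2
    rwa [CC_cons_of_le (Or.inr rfl)] at this
  have h3 := access (w := wF k f) h.bst hxT
  have h4 : wt (wF k f) T ≤ k := wt_wF_le h.bst
  have h5 := rk_mono h4
  have h6 : (0 : ℝ) ≤ (cnt (wF k f) x T : ℝ) := Nat.cast_nonneg _
  have h7 : (0 : ℝ) ≤ (Nat.log 2 k : ℝ) := Nat.cast_nonneg _
  unfold th cA
  linarith

theorem step_move (h : St n m k T f ((x, j) :: X)) (hj : 1 ≤ j) (hL : n + 1 ≤ 2 ^ L)
    (hM : f (j - 1) ≤ f j + M j) :
    (1 + depth x T : ℝ) + th k L M (splay x T) (Function.update f j x) X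
      ≤ th k L M T f ((x, j) :: X) + cA k + ((x : ℝ) - f j) * cB k := by
  obtain ⟨hjk, hfx, hxf, h'⟩ := h.move hj
  have hok' := h'.ok
  have hxT : x ∈ inorder T := h.mem (x, j) (by simp)
  have hb := h.bst
  set f' := Function.update f j x with hf'
  set D : ℝ := (x : ℝ) - f j with hD
  have hD0 : 0 ≤ D := by
    have : (f j : ℝ) ≤ x := by exact_mod_cast hfx
    rw [hD]; linarith
  have hAE := AE_nonneg k
  have hAW := AW_nonneg k
  set E : ℝ := ((EP1 x (f (j - 1) - 1) T).card : ℝ) with hE
  set P : ℝ := ((WP x (f (j - 1) - 1) k T).card : ℝ) with hP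
  have hlay : ∀ i ∈ Finset.Icc 1 k,
      lay k L (M i) (splay x T) (CC X i) (f' i) (f' (i - 1)) + (if i = j then 4 * E + 4 * P else 0)
      ≤ lay k L (M i) T (CC ((x, j) :: X) i) (f i) (f (i - 1))
        + (if i = j then 4 * (D * AW k) else 0)
        + (if i = j + 1 then 4 * (D * (AE k + AW k)) else 0) := by
    intro i hi
    rw [Finset.mem_Icc] at hi
    have hcc := h.cc (i := i) hi.2
    have hcard : (CC ((x, j) :: X) i).card ≤ k := (card_CC _ _).trans (by omega)
    rcases Nat.lt_trichotomy i j with h1 | h1 | h1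
    · -- a layer above
      have e1 : f' i = f i := by rw [hf', Function.update_of_ne (by omega)]
      have e2 : f' (i - 1) = f (i - 1) := by rw [hf', Function.update_of_ne (by omega)]
      rw [if_neg (by omega), if_neg (by omega), if_neg (by omega), e1, e2]
      rw [CC_cons_of_le (Or.inl h1.le)] at hcc ⊢
      have h2 := h.anti' (i := i) (j := j - 1) (by omega) (by omega)
      have := lay_mono (k := k) (L := L) (M' := M i)
        (cell_left hb hxT (l := f i) (g := f (i - 1)) (by omega) hcc)
      linarith
    · -- the own layer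
      subst h1
      have e1 : f' i = x := by rw [hf', Function.update_self]
      have e2 : f' (i - 1) = f (i - 1) := by rw [hf', Function.update_of_ne (by omega)]
      rw [if_pos rfl, if_pos rfl, if_neg (by omega), e1, e2]
      rw [CC_cons_of_le (Or.inl le_rfl)] at hcc hcard ⊢
      have hcell := cell_left hb hxT (l := x) (g := f (i - 1)) le_rfl hcc
      have hLg : f (i - 1) ≤ 2 ^ L := (h.le_n (by omega)).trans hL
      have h2 := early_charge' (L := L) hb hxT hcc hcard hLg hxf hcell
      have h3 := window_charge (L := L) (M := M i) hb hxT hcc hcard hLg hxf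
        (by omega) hcell
      have h4 := eS_own (k := k) (L := L) (T := T) (C := CC X i) (g := f (i - 1)) hfx
      have h5 := wW_own (k := k) (L := L) (M := M i) (T := T) (C := CC X i) (g := f (i - 1)) hfx
      unfold lay
      rw [← hE] at h2
      rw [← hP] at h3
      rw [← hD] at h5
      linarith
    · rcases Nat.eq_or_lt_of_le h1 with h1' | h1'
      · -- the layer below
        have hij : i = j + 1 := by omega
        subst hij
        have e1 : f' (j + 1) = f (j + 1) := by rw [hf', Function.update_of_ne (by omega)]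
        have e2 : f' (j + 1 - 1) = x := by
          rw [hf', Nat.add_sub_cancel, Function.update_self]
        have e3 : f (j + 1 - 1) = f j := by rw [Nat.add_sub_cancel]
        rw [if_neg (by omega), if_neg (by omega), if_pos rfl, e1, e2, e3]
        rw [e3] at hcc
        have hcell := cell_right (l := f (j + 1)) hb h.keys hxT (h.le_n hjk) hcc
          (mem_CC_self hj (Nat.lt_succ_self j)) (CC_next hok')
        have h2 := lay_mono (k := k) (L := L) (M' := M (j + 1)) hcell
        have h3 := eS_up (k := k) (L := L) (T := splay x T) (C := CC X (j + 1))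
          (l := f (j + 1)) hfx
        have h4 := wW_up (k := k) (L := L) (M := M (j + 1)) (T := splay x T) (C := CC X (j + 1))
          (l := f (j + 1)) hfx
        unfold lay at h2 ⊢
        rw [← hD] at h3 h4
        linarith
      · -- a layer further below
        have e1 : f' i = f i := by rw [hf', Function.update_of_ne (by omega)]
        have e2 : f' (i - 1) = f (i - 1) := by rw [hf', Function.update_of_ne (by omega)]
        rw [if_neg (by omega), if_neg (by omega), if_neg (by omega), e1, e2]
        have hcell := cell_right (l := f i) hb h.keys hxT (h.le_n (by omega)) hcc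
          (mem_CC_self hj h1) (CC_next hok')
        have h2 := lay_mono (k := k) (L := L) (M' := M i) hcell
        linarith
  have hsum := Finset.sum_le_sum hlay
  rw [Finset.sum_add_distrib, Finset.sum_add_distrib, Finset.sum_add_distrib] at hsum
  rw [Finset.sum_ite_eq', Finset.sum_ite_eq', Finset.sum_ite_eq',
    if_pos (Finset.mem_Icc.2 ⟨hj, hjk⟩), if_pos (Finset.mem_Icc.2 ⟨hj, hjk⟩)] at hsum
  have hlast : (if j + 1 ∈ Finset.Icc 1 k then 4 * (D * (AE k + AW k)) else 0)
      ≤ 4 * (D * (AE k + AW k)) := by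
    split_ifs
    · exact le_rfl
    · positivity
  -- the outer potential
  have h3 := access (w := wF k f) hb hxT
  have h4 : wt (wF k f) T ≤ k := wt_wF_le hb
  have h5 := rk_mono h4
  obtain ⟨w1, w2⟩ := wF_update k f j x
  have h6 := pot_root (splay_bst hb hxT) (splay_root hb hxT) w1 w2
  have h7 : ((outs x (f (j - 1) - 1) T : ℕ) : ℝ) ≤ (cnt (wF k f) x T : ℝ) + D := by
    have h8 := outs_le' (k := k) (f := f) (l := f j) (g := f (j - 1)) hb h.keys hxT hfx hxf
      (one_le_wF hj hjk rfl) (by
        rcases Nat.eq_or_lt_of_le hj with h9 | h9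
        · left
          rw [← h9]
          exact h.zero
        · right
          exact one_le_wF (i := j - 1) (by omega) (by omega) rfl)
    have h9 : ((outs x (f (j - 1) - 1) T : ℕ) : ℝ) ≤ ((cnt (wF k f) x T + (x - f j) : ℕ) : ℝ) := by
      exact_mod_cast h8
    rw [Nat.cast_add, Nat.cast_sub hfx] at h9
    exact h9
  have h8 := depth_bound (k := k) (g := f (j - 1)) hb hxT (by omega)
  have h10 : (depth x T : ℝ) ≤ 11 * (outs x (f (j - 1) - 1) T : ℝ) + 4 * E + 4 * P + 46
      + 8 * (Nat.log 2 k : ℝ) := by
    rw [hE, hP]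
    exact_mod_cast h8
  rw [← hf'] at h6
  unfold th cA cB
  linarith

/-- The whole sequence. -/
theorem total' {E F0 : ℕ → ℕ} (hL : n + 1 ≤ 2 ^ L) (hM : ∀ i, 1 ≤ i → i ≤ k → E (i - 1) ≤ F0 i + M i) :
    ∀ (X : List (ℕ × ℕ)) (T : BinaryTree ℕ) (f : ℕ → ℕ), St n m k T f X →
      (∀ i, F0 i ≤ f i) → fin' f X = E →
      (upperCost m (X.map Prod.fst) T : ℝ) ≤ th k L M T f X + X.length * cA k
        + (∑ i ∈ Finset.Icc 1 k, ((E i : ℝ) - f i)) * cB k
  | [], T, f, h, _, hE => by
      have h1 := th_nonneg k L M T f []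
      simp only [fin'] at hE
      subst hE
      simp only [List.map_nil, upperCost, List.length_nil, sub_self, Finset.sum_const_zero,
        Nat.cast_zero, zero_mul, add_zero]
      exact h1
  | (x, j) :: X, T, f, h, hF, hE => by
      have hA := cA_nonneg k
      simp only [List.map_cons, upperCost, List.length_cons]
      rcases Nat.eq_zero_or_pos j with hj | hj
      · subst hj
        obtain ⟨hxm, h'⟩ := h.skip
        have h1 := step_skip (L := L) (M := M) h
        have h2 := total' hL hM X (splay x T) f h' hF (by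
          simp only [fin', if_true] at hE
          exact hE)
        rw [if_neg (by omega)]
        push_cast
        linarith
      · obtain ⟨hjk, hfx, hxf, h'⟩ := h.move hj
        have hle := le_fin h.ok (j - 1)
        rw [hE] at hle
        have h1 := step_move (L := L) (M := M) h hj hL (by
          have := hM j hj hjk
          have := hF j
          omega)
        have h2 := total' hL hM X (splay x T) (Function.update f j x) h' (by
          intro i
          by_cases e : i = j
          · subst e
            rw [Function.update_self]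
            exact (hF i).trans hfx
          · rw [Function.update_of_ne e]
            exact hF i) (by
          simp only [fin'] at hE
          rw [if_neg (by omega)] at hE
          exact hE)
        have h3 : ∑ i ∈ Finset.Icc 1 k, ((E i : ℝ) - (Function.update f j x i : ℕ))
            = ∑ i ∈ Finset.Icc 1 k, ((E i : ℝ) - f i) - ((x : ℝ) - f j) := by
          have h4 : ∀ i ∈ Finset.Icc 1 k, ((E i : ℝ) - (Function.update f j x i : ℕ))
              = ((E i : ℝ) - f i) - (if i = j then ((x : ℝ) - f j) else 0) := by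
            intro i _
            split_ifs with e
            · subst e
              rw [Function.update_self]
              ring
            · rw [Function.update_of_ne e]
              ring
          rw [Finset.sum_congr rfl h4, Finset.sum_sub_distrib, Finset.sum_ite_eq',
            if_pos (Finset.mem_Icc.2 ⟨hj, hjk⟩)]
        rw [h3] at h2
        have h5 : (((if m < x then 1 + depth x T else 0) : ℕ) : ℝ) ≤ 1 + depth x T := by
          split_ifs
          · push_cast; exact le_rfl
          · push_cast; positivity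
        rw [sub_mul] at h2
        push_cast at h5 ⊢
        linarith

/-- The initial potential. -/
theorem th_le (h : St n m k T f X) {A : ℝ} (hM : ∀ i, 1 ≤ i → i ≤ k → f (i - 1) ≤ f i + M i)
    (hA : ∑ i ∈ Finset.Icc 1 k, (M i : ℝ) ≤ A) :
    th k L M T f X ≤ A * (4 * AE k + 12 * AW k) + n * (44 * rk k) := by
  have h1 : ∀ i ∈ Finset.Icc 1 k, lay k L (M i) T (CC X i) (f i) (f (i - 1))
      ≤ (M i : ℝ) * (4 * AE k + 12 * AW k) := by
    intro i hi
    rw [Finset.mem_Icc] at hi
    have h2 := eS_le (k := k) (L := L) (T := T) (C := CC X i) (hM i hi.1 hi.2)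
    have h3 := wW_le (k := k) (L := L) (M := M i) (T := T) (C := CC X i) (l := f i)
      (g := f (i - 1))
    unfold lay
    linarith
  have h2 := Finset.sum_le_sum h1
  rw [← Finset.sum_mul] at h2
  have h3 := pot_le (w := wF k f) (W := k) (t := T) (wt_wF_le h.bst)
  have h4 : (inorder T).length = n := by
    have hnd : (inorder T).Nodup := h.bst.imp (fun h => ne_of_lt h)
    rw [← List.toFinset_card_of_nodup hnd]
    have : (inorder T).toFinset = Finset.Icc 1 n := by
      ext v
      rw [List.mem_toFinset, h.keys, Finset.mem_Icc]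
    rw [this, Nat.card_Icc]
    omega
  rw [h4] at h3
  have hAE := AE_nonneg k
  have hAW := AW_nonneg k
  have h5 := mul_le_mul_of_nonneg_right hA (show 0 ≤ 4 * AE k + 12 * AW k by positivity)
  unfold th
  linarith

theorem sum_shift (E : ℕ → ℝ) : ∀ k : ℕ,
    ∑ i ∈ Finset.Icc 1 k, E (i - 1) + E k = E 0 + ∑ i ∈ Finset.Icc 1 k, E i
  | 0 => by simp
  | k + 1 => by
      have ih := sum_shift E k
      rw [Finset.sum_Icc_succ_top (by omega), Finset.sum_Icc_succ_top (by omega),
        Nat.add_sub_cancel]
      linarith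

/-- The one-sided theorem for fingers. -/
theorem finger_bound (h : St n m k T f X) :
    (upperCost m (X.map Prod.fst) T : ℝ) ≤
      (n + 1 + X.length + ∑ i ∈ Finset.Icc 1 k, ((fin' f X i : ℝ) - f i)) *
        (cA k + cB k + 4 * AE k + 12 * AW k + 44 * rk k) := by
  set E := fin' f X with hE
  set D : ℝ := ∑ i ∈ Finset.Icc 1 k, ((E i : ℝ) - f i) with hD
  have hle := le_fin h.ok
  rw [← hE] at hle
  have hD0 : 0 ≤ D := Finset.sum_nonneg fun i _ => by
    have : (f i : ℝ) ≤ E i := by exact_mod_cast hle i
    linarith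
  have hstep : ∀ i, 1 ≤ i → i ≤ k → f i ≤ f (i - 1) := fun i h1 h2 =>
    h.anti' (by omega) h2
  have hL : n + 1 ≤ 2 ^ (n + 1) := Nat.lt_two_pow_self.le
  have h1 := total' (L := n + 1) (M := fun i => E (i - 1) - f i) (E := E) (F0 := f) hL
    (by intro i _ _; omega) X T f h (fun i => le_rfl) rfl
  have h2 := th_le (L := n + 1) (M := fun i => E (i - 1) - f i) (A := n + 1 + D) h
    (by intro i _ _; have := hle (i - 1); omega) (by
      have h3 : ∀ i ∈ Finset.Icc 1 k, ((E (i - 1) - f i : ℕ) : ℝ) = (E (i - 1) : ℝ) - f i := by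
        intro i hi
        rw [Finset.mem_Icc] at hi
        have := hle (i - 1)
        have := hstep i hi.1 hi.2
        rw [Nat.cast_sub (by omega)]
      rw [Finset.sum_congr rfl h3, Finset.sum_sub_distrib]
      have h4 := sum_shift (fun i => (E i : ℝ)) k
      have h5 : (E 0 : ℝ) = n + 1 := by
        rw [hE, fin_zero, h.zero]
        push_cast
        ring
      have h6 : (0 : ℝ) ≤ E k := Nat.cast_nonneg _
      rw [hD, Finset.sum_sub_distrib]
      linarith)
  have hA := cA_nonneg k
  have hB := cB_nonneg k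
  have hAE := AE_nonneg k
  have hAW := AW_nonneg k
  have hrk := rk_nonneg k
  have hn : (0 : ℝ) ≤ n := Nat.cast_nonneg n
  have hX : (0 : ℝ) ≤ X.length := Nat.cast_nonneg _
  have e1 : 0 ≤ (n + 1 + D) * cA k := by positivity
  have e2 : 0 ≤ ((n : ℝ) + 1 + X.length) * cB k := by positivity
  have e3 : 0 ≤ (X.length : ℝ) * (4 * AE k + 12 * AW k) := by positivity
  have e4 : 0 ≤ (1 + X.length + D) * (44 * rk k) := by positivity
  nlinarith

end

end Pool.Agent.MP_c42954_lc.Scan
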