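import Pool.Agent.MP_c42954_lc.Scan.Defs

set_option autoImplicit false

/-!
# Splay trees: search paths and how one splay changes them
-/

namespace Pool.Agent.MP_c42954_lc.Scan

open BinaryTree

/-! ## Positions along the search path -/

/-- `x` is found at depth `d`. -/
def At (x : ℕ) : ℕ → BinaryTree ℕ → Prop
  | _, .nil => False
  | 0, .node a _ _ => x = a
  | d + 1, .node a l r => (x < a ∧ At x d l) ∨ (a < x ∧ At x d r)

theorem at_depth {x : ℕ} : ∀ {d : ℕ} {t : BinaryTree ℕ}, At x d t → depth x t = d
  | 0, .nil, h => by simp [At] at h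
  | d + 1, .nil, h => by simp [At] at h
  | 0, .node a l r, h => by
      simp only [At] at h
      simp [depth, h]
  | d + 1, .node a l r, h => by
      simp only [At] at h
      rcases h with ⟨h1, h2⟩ | ⟨h1, h2⟩
      · have := at_depth h2
        have hne : x ≠ a := by omega
        simp [depth, hne, h1, this]
      · have := at_depth h2
        have hne : x ≠ a := by omega
        have hnl : ¬ x < a := by omega
        simp [depth, hne, hnl, this]

theorem step_left {x a : ℕ} {t s : BinaryTree ℕ} {d : ℕ} (hx : x < a) (h : At x (d + 2) t) :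
    splayStep x (.node a t s) = .node a (splayStep x t) s := by
  cases t with
  | nil => simp [At] at h
  | node b l r =>
    have hne : x ≠ a := by omega
    rcases h with ⟨h1, h2⟩ | ⟨h1, h2⟩
    · cases l with
      | nil => simp [At] at h2
      | node c u v =>
        have h3 : x ≠ c := by
          rcases h2 with ⟨h3, _⟩ | ⟨h3, _⟩ <;> omega
        have h4 : x ≠ b := by omega
        conv_lhs => rw [splayStep.eq_def]
        simp [hne, hx, h1, h3, h4]
    · cases r with
      | nil => simp [At] at h2
      | node c u v =>
        have h3 : x ≠ c := by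
          rcases h2 with ⟨h3, _⟩ | ⟨h3, _⟩ <;> omega
        have h4 : x ≠ b := by omega
        have h5 : ¬ x < b := by omega
        conv_lhs => rw [splayStep.eq_def]
        simp [hne, hx, h3, h4, h5]

theorem step_right {x a : ℕ} {t s : BinaryTree ℕ} {d : ℕ} (hx : a < x) (h : At x (d + 2) t) :
    splayStep x (.node a s t) = .node a s (splayStep x t) := by
  cases t with
  | nil => simp [At] at h
  | node b l r =>
    have hne : x ≠ a := by omega
    have hnl : ¬ x < a := by omega
    rcases h with ⟨h1, h2⟩ | ⟨h1, h2⟩
    · cases l with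
      | nil => simp [At] at h2
      | node c u v =>
        have h3 : x ≠ c := by
          rcases h2 with ⟨h3, _⟩ | ⟨h3, _⟩ <;> omega
        have h4 : x ≠ b := by omega
        have h5 : ¬ b < x := by omega
        conv_lhs => rw [splayStep.eq_def]
        simp [hne, hnl, h3, h4, h5]
    · cases r with
      | nil => simp [At] at h2
      | node c u v =>
        have h3 : x ≠ c := by
          rcases h2 with ⟨h3, _⟩ | ⟨h3, _⟩ <;> omega
        have h4 : x ≠ b := by omega
        conv_lhs => rw [splayStep.eq_def]
        simp [hne, hnl, h1, h3, h4]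

theorem step_root {x : ℕ} {t : BinaryTree ℕ} (h : At x 0 t) : splayStep x t = t := by
  cases t with
  | nil => simp [At] at h
  | node b l r =>
    simp only [At] at h
    rw [splayStep.eq_def]
    simp [h]

theorem iter_root {x : ℕ} {t : BinaryTree ℕ} (h : At x 0 t) (n : ℕ) :
    (splayStep x)^[n] t = t := by
  induction n with
  | zero => rfl
  | succ n ih => rw [Function.iterate_succ_apply, step_root h, ih]

/-! ## The two kinds of splaying steps as relations -/

/-- The zig step at `x`, whose parent (the root) is `y`. -/
inductive Zig (x y : ℕ) : BinaryTree ℕ → BinaryTree ℕ → Prop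
  | left (A B C : BinaryTree ℕ) : x < y →
      Zig x y (.node y (.node x A B) C) (.node x A (.node y B C))
  | right (A B C : BinaryTree ℕ) : y < x →
      Zig x y (.node y C (.node x B A)) (.node x (.node y C B) A)

/-- The zig-zig and zig-zag steps at `x`, anywhere on the search path of `x`; `p` is the parent
and `g` the grandparent of `x`. -/
inductive Dbl (x p g : ℕ) : BinaryTree ℕ → BinaryTree ℕ → Prop
  | ll (A B C D : BinaryTree ℕ) : x < p → x < g →
      Dbl x p g (.node g (.node p (.node x A B) C) D) (.node x A (.node p B (.node g C D)))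
  | rr (A B C D : BinaryTree ℕ) : p < x → g < x →
      Dbl x p g (.node g D (.node p C (.node x B A))) (.node x (.node p (.node g D C) B) A)
  | lr (A B C D : BinaryTree ℕ) : p < x → x < g →
      Dbl x p g (.node g (.node p A (.node x B C)) D) (.node x (.node p A B) (.node g C D))
  | rl (A B C D : BinaryTree ℕ) : x < p → g < x →
      Dbl x p g (.node g D (.node p (.node x C B) A)) (.node x (.node g D C) (.node p B A))
  | inL (a : ℕ) {l l' : BinaryTree ℕ} (r : BinaryTree ℕ) : x < a →
      Dbl x p g l l' → Dbl x p g (.node a l r) (.node a l' r)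
  | inR (a : ℕ) (l : BinaryTree ℕ) {r r' : BinaryTree ℕ} : a < x →
      Dbl x p g r r' → Dbl x p g (.node a l r) (.node a l r')

theorem zig_of_at {x : ℕ} {t : BinaryTree ℕ} (h : At x 1 t) :
    ∃ y, Zig x y t (splayStep x t) ∧ At x 0 (splayStep x t) := by
  cases t with
  | nil => simp [At] at h
  | node a l r =>
    rcases h with ⟨h1, h2⟩ | ⟨h1, h2⟩
    · cases l with
      | nil => simp [At] at h2
      | node b u v =>
        simp only [At] at h2
        subst h2
        have e1 : x ≠ a := by omega
        have e : splayStep x (.node a (.node x u v) r) = .node x u (.node a v r) := by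
          rw [splayStep.eq_def]; simp [e1, h1]
        rw [e]
        exact ⟨a, .left u v r h1, by simp [At]⟩
    · cases r with
      | nil => simp [At] at h2
      | node b u v =>
        simp only [At] at h2
        subst h2
        have e1 : x ≠ a := by omega
        have e2 : ¬ x < a := by omega
        have e : splayStep x (.node a l (.node x u v)) = .node x (.node a l u) v := by
          rw [splayStep.eq_def]; simp [e1, e2]
        rw [e]
        exact ⟨a, .right v u l h1, by simp [At]⟩

theorem dbl_of_at {x : ℕ} : ∀ {d : ℕ} {t : BinaryTree ℕ}, At x (d + 2) t →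
    ∃ p g, Dbl x p g t (splayStep x t) ∧ At x d (splayStep x t)
  | d, .nil, h => by simp [At] at h
  | 0, .node a l r, h => by
      rcases h with ⟨h1, h2⟩ | ⟨h1, h2⟩
      · cases l with
        | nil => simp [At] at h2
        | node b u v =>
          rcases h2 with ⟨h3, h4⟩ | ⟨h3, h4⟩
          · cases u with
            | nil => simp [At] at h4
            | node w p q =>
              simp only [At] at h4
              subst h4
              have e1 : x ≠ a := by omega
              have e2 : x ≠ b := by omega
              have e : splayStep x (.node a (.node b (.node x p q) v) r)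
                  = .node x p (.node b q (.node a v r)) := by
                rw [splayStep.eq_def]; simp [e1, e2, h1, h3]
              rw [e]
              exact ⟨b, a, .ll p q v r h3 h1, by simp [At]⟩
          · cases v with
            | nil => simp [At] at h4
            | node w p q =>
              simp only [At] at h4
              subst h4
              have e1 : x ≠ a := by omega
              have e2 : x ≠ b := by omega
              have e3 : ¬ x < b := by omega
              have e : splayStep x (.node a (.node b u (.node x p q)) r)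
                  = .node x (.node b u p) (.node a q r) := by
                rw [splayStep.eq_def]; simp [e1, e2, e3, h1]
              rw [e]
              exact ⟨b, a, .lr u p q r h3 h1, by simp [At]⟩
      · cases r with
        | nil => simp [At] at h2
        | node b u v =>
          rcases h2 with ⟨h3, h4⟩ | ⟨h3, h4⟩
          · cases u with
            | nil => simp [At] at h4
            | node w p q =>
              simp only [At] at h4
              subst h4
              have e1 : x ≠ a := by omega
              have e2 : x ≠ b := by omega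
              have e3 : ¬ b < x := by omega
              have e4 : ¬ x < a := by omega
              have e : splayStep x (.node a l (.node b (.node x p q) v))
                  = .node x (.node a l p) (.node b q v) := by
                rw [splayStep.eq_def]; simp [e1, e2, e3, e4]
              rw [e]
              exact ⟨b, a, .rl v q p l h3 h1, by simp [At]⟩
          · cases v with
            | nil => simp [At] at h4
            | node w p q =>
              simp only [At] at h4
              subst h4
              have e1 : x ≠ a := by omega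
              have e2 : x ≠ b := by omega
              have e4 : ¬ x < a := by omega
              have e : splayStep x (.node a l (.node b u (.node x p q)))
                  = .node x (.node b (.node a l u) p) q := by
                rw [splayStep.eq_def]; simp [e1, e2, h3, e4]
              rw [e]
              exact ⟨b, a, .rr q p u l h3 h1, by simp [At]⟩
  | d + 1, .node a l r, h => by
      rcases h with ⟨h1, h2⟩ | ⟨h1, h2⟩
      · rw [step_left h1 h2]
        obtain ⟨p, g, h3, h4⟩ := dbl_of_at h2
        exact ⟨p, g, .inL a r h1 h3, Or.inl ⟨h1, h4⟩⟩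
      · rw [step_right h1 h2]
        obtain ⟨p, g, h3, h4⟩ := dbl_of_at h2
        exact ⟨p, g, .inR a l h1 h3, Or.inr ⟨h1, h4⟩⟩

/-! ## Basic facts on search trees -/

theorem bst_node {a : ℕ} {l r : BinaryTree ℕ} :
    IsBST (.node a l r) ↔ IsBST l ∧ IsBST r ∧ (∀ v ∈ inorder l, v < a) ∧
      (∀ v ∈ inorder r, a < v) := by
  simp only [IsBST, inorder, List.pairwise_append, List.pairwise_cons, List.mem_cons]
  constructor
  · rintro ⟨h1, ⟨h2, h3⟩, h4⟩
    exact ⟨h1, h3, fun v hv => h4 v hv a (Or.inl rfl), h2⟩
  · rintro ⟨h1, h2, h3, h4⟩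
    refine ⟨h1, ⟨h4, h2⟩, ?_⟩
    rintro v hv w (rfl | hw)
    · exact h3 v hv
    · exact (h3 v hv).trans (h4 w hw)

theorem at_of_mem {x : ℕ} : ∀ {t : BinaryTree ℕ}, IsBST t → x ∈ inorder t → At x (depth x t) t
  | .nil, _, h => by simp [inorder] at h
  | .node a l r, hb, h => by
      obtain ⟨hl, hr, hla, hra⟩ := bst_node.1 hb
      simp only [inorder, List.mem_append, List.mem_cons] at h
      rcases h with h | h | h
      · have hlt : x < a := hla x h
        have hne : x ≠ a := by omega
        simp only [depth, hne, hlt, if_true, if_false]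
        exact Or.inl ⟨hlt, at_of_mem hl h⟩
      · simp [depth, h, At]
      · have hlt : a < x := hra x h
        have hne : x ≠ a := by omega
        have hnl : ¬ x < a := by omega
        simp only [depth, hne, hnl, if_false]
        exact Or.inr ⟨hlt, at_of_mem hr h⟩

theorem dbl_inorder {x p g : ℕ} {t t' : BinaryTree ℕ} (h : Dbl x p g t t') :
    inorder t' = inorder t := by
  induction h with
  | ll A B C D h1 h2 => simp [inorder]
  | rr A B C D h1 h2 => simp [inorder]
  | lr A B C D h1 h2 => simp [inorder]
  | rl A B C D h1 h2 => simp [inorder]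
  | inL a r h1 h2 ih => simp [inorder, ih]
  | inR a l h1 h2 ih => simp [inorder, ih]

theorem zig_inorder {x y : ℕ} {t t' : BinaryTree ℕ} (h : Zig x y t t') :
    inorder t' = inorder t := by
  cases h with
  | left A B C h1 => simp [inorder]
  | right A B C h1 => simp [inorder]

theorem dbl_bst {x p g : ℕ} {t t' : BinaryTree ℕ} (h : Dbl x p g t t') (hb : IsBST t) :
    IsBST t' := by
  unfold IsBST; rw [dbl_inorder h]; exact hb

theorem zig_bst {x y : ℕ} {t t' : BinaryTree ℕ} (h : Zig x y t t') (hb : IsBST t) :
    IsBST t' := by
  unfold IsBST; rw [zig_inorder h]; exact hb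

theorem dbl_mem {x p g : ℕ} {t t' : BinaryTree ℕ} (h : Dbl x p g t t') :
    x ∈ inorder t ∧ p ∈ inorder t ∧ g ∈ inorder t := by
  induction h with
  | ll A B C D h1 h2 => simp [inorder]
  | rr A B C D h1 h2 => simp [inorder]
  | lr A B C D h1 h2 => simp [inorder]
  | rl A B C D h1 h2 => simp [inorder]
  | inL a r h1 h2 ih => simp [inorder, ih]
  | inR a l h1 h2 ih => simp [inorder, ih]

/-- Induction along one splay: a property of pairs of trees which holds at the end, for a zig and
which is inherited along double steps holds for the tree before and after a splay. -/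
theorem splay_induct {x : ℕ} {P : BinaryTree ℕ → BinaryTree ℕ → Prop}
    (h0 : ∀ t, IsBST t → At x 0 t → P t t)
    (h1 : ∀ y t t', IsBST t → At x 1 t → At x 0 t' → Zig x y t t' → P t t')
    (h2 : ∀ p g d t t' t'', IsBST t → At x (d + 2) t → At x d t' → At x 0 t'' → IsBST t'' →
      Dbl x p g t t' → P t' t'' → P t t'') :
    ∀ {t : BinaryTree ℕ}, IsBST t → x ∈ inorder t → P t (splay x t) := by
  have key : ∀ (d : ℕ) (t : BinaryTree ℕ), IsBST t → At x d t → ∀ n, d ≤ n →
      P t ((splayStep x)^[n] t) ∧ At x 0 ((splayStep x)^[n] t) ∧ IsBST ((splayStep x)^[n] t) := by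
    intro d
    induction d using Nat.strong_induction_on with
    | _ d ih =>
      intro t hb ht n hn
      match d, ih, ht, hn with
      | 0, _, ht, hn =>
        rw [iter_root ht]
        exact ⟨h0 t hb ht, ht, hb⟩
      | 1, _, ht, hn =>
        obtain ⟨m, rfl⟩ : ∃ m, n = m + 1 := ⟨n - 1, by omega⟩
        obtain ⟨y, hz, h00⟩ := zig_of_at ht
        rw [Function.iterate_succ_apply, iter_root h00]
        exact ⟨h1 y _ _ hb ht h00 hz, h00, zig_bst hz hb⟩
      | d + 2, ih, ht, hn =>
        obtain ⟨m, rfl⟩ : ∃ m, n = m + 1 := ⟨n - 1, by omega⟩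
        obtain ⟨p, g, hz, h00⟩ := dbl_of_at ht
        rw [Function.iterate_succ_apply]
        obtain ⟨i1, i2, i3⟩ := ih d (by omega) _ (dbl_bst hz hb) h00 m (by omega)
        exact ⟨h2 p g d _ _ _ hb ht h00 i2 i3 hz i1, i2, i3⟩
  intro t hb hm
  exact (key _ t hb (at_of_mem hb hm) _ le_rfl).1

theorem splay_inorder {x : ℕ} {t : BinaryTree ℕ} (hb : IsBST t) (hm : x ∈ inorder t) :
    inorder (splay x t) = inorder t := by
  refine splay_induct (P := fun t t' => inorder t' = inorder t) ?_ ?_ ?_ hb hm
  · intro t _ _; rfl
  · intro y t t' _ _ _ hz; exact zig_inorder hz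
  · intro p g d t t' t'' _ _ _ _ _ hz ih; rw [ih]; exact dbl_inorder hz

theorem splay_bst {x : ℕ} {t : BinaryTree ℕ} (hb : IsBST t) (hm : x ∈ inorder t) :
    IsBST (splay x t) := by
  unfold IsBST; rw [splay_inorder hb hm]; exact hb

theorem splay_root {x : ℕ} {t : BinaryTree ℕ} (hb : IsBST t) (hm : x ∈ inorder t) :
    At x 0 (splay x t) := by
  refine splay_induct (P := fun t t' => At x 0 t') ?_ ?_ ?_ hb hm
  · intro t _ h; exact h
  · intro y t t' _ _ h hz; exact h
  · intro p g d t t' t'' _ _ _ h _ _ ih; exact h

/-! ## Search paths -/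

/-- `v` lies on the search path of `u`. -/
def OnP (v u : ℕ) : BinaryTree ℕ → Prop
  | .nil => False
  | .node a l r => v = a ∨ (u < a ∧ OnP v u l) ∨ (a < u ∧ OnP v u r)

theorem onP_mem {v u : ℕ} : ∀ {t : BinaryTree ℕ}, OnP v u t → v ∈ inorder t
  | .nil, h => by simp [OnP] at h
  | .node a l r, h => by
      simp only [OnP] at h
      simp only [inorder, List.mem_append, List.mem_cons]
      rcases h with h | ⟨_, h⟩ | ⟨_, h⟩
      · exact Or.inr (Or.inl h)
      · exact Or.inl (onP_mem h)
      · exact Or.inr (Or.inr (onP_mem h))

theorem onP_self {v : ℕ} : ∀ {t : BinaryTree ℕ}, IsBST t → v ∈ inorder t → OnP v v t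
  | .nil, _, h => by simp [inorder] at h
  | .node a l r, hb, h => by
      obtain ⟨hl, hr, hla, hra⟩ := bst_node.1 hb
      simp only [inorder, List.mem_append, List.mem_cons] at h
      rcases h with h | h | h
      · exact Or.inr (Or.inl ⟨hla v h, onP_self hl h⟩)
      · exact Or.inl h
      · exact Or.inr (Or.inr ⟨hra v h, onP_self hr h⟩)

/-- Convexity: the keys below `v` form an interval. -/
theorem onP_convex {v u w : ℕ} : ∀ {t : BinaryTree ℕ}, IsBST t → OnP v u t →
    (v ≤ w ∧ w ≤ u ∨ u ≤ w ∧ w ≤ v) → OnP v w t
  | .nil, _, h, _ => by simp [OnP] at h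
  | .node a l r, hb, h, hw => by
      obtain ⟨hl, hr, hla, hra⟩ := bst_node.1 hb
      simp only [OnP] at h ⊢
      rcases h with h | ⟨h1, h⟩ | ⟨h1, h⟩
      · exact Or.inl h
      · have := hla v (onP_mem h)
        exact Or.inr (Or.inl ⟨by omega, onP_convex hl h hw⟩)
      · have := hra v (onP_mem h)
        exact Or.inr (Or.inr ⟨by omega, onP_convex hr h hw⟩)

theorem onP_antisymm {v w : ℕ} : ∀ {t : BinaryTree ℕ}, IsBST t → OnP v w t → OnP w v t → v = w
  | .nil, _, h, _ => by simp [OnP] at h
  | .node a l r, hb, h, h' => by
      obtain ⟨hl, hr, hla, hra⟩ := bst_node.1 hb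
      simp only [OnP] at h h'
      rcases h with h | ⟨h1, h⟩ | ⟨h1, h⟩
      · rcases h' with h' | ⟨h1', h'⟩ | ⟨h1', h'⟩ <;> omega
      · have hv := hla v (onP_mem h)
        rcases h' with h' | ⟨h1', h'⟩ | ⟨h1', h'⟩
        · omega
        · exact onP_antisymm hl h h'
        · omega
      · have hv := hra v (onP_mem h)
        rcases h' with h' | ⟨h1', h'⟩ | ⟨h1', h'⟩
        · omega
        · omega
        · exact onP_antisymm hr h h'

theorem onP_trans {v w u : ℕ} : ∀ {t : BinaryTree ℕ}, IsBST t → OnP v w t → OnP w u t → OnP v u t
  | .nil, _, h, _ => by simp [OnP] at h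
  | .node a l r, hb, h, h' => by
      obtain ⟨hl, hr, hla, hra⟩ := bst_node.1 hb
      simp only [OnP] at h h' ⊢
      rcases h with h | ⟨h1, h⟩ | ⟨h1, h⟩
      · exact Or.inl h
      · rcases h' with h' | ⟨h1', h'⟩ | ⟨h1', h'⟩
        · omega
        · exact Or.inr (Or.inl ⟨h1', onP_trans hl h h'⟩)
        · have := hra w (onP_mem h')
          omega
      · rcases h' with h' | ⟨h1', h'⟩ | ⟨h1', h'⟩
        · omega
        · have := hla w (onP_mem h')
          omega
        · exact Or.inr (Or.inr ⟨h1', onP_trans hr h h'⟩)

theorem onP_root {x v u : ℕ} {t : BinaryTree ℕ} (h : At x 0 t) (hb : IsBST t)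
    (h1 : v < x ∧ x < u ∨ u < x ∧ x < v) : ¬ OnP v u t := by
  cases t with
  | nil => simp [At] at h
  | node a l r =>
    simp only [At] at h
    subst h
    obtain ⟨hl, hr, hla, hra⟩ := bst_node.1 hb
    simp only [OnP]
    rintro (h | ⟨h2, h⟩ | ⟨h2, h⟩)
    · omega
    · have := hla v (onP_mem h)
      omega
    · have := hra v (onP_mem h)
      omega

/-! ## The list of proper ancestors -/

/-- The proper ancestors of `x`, from the parent of `x` upwards. -/
def ancs (x : ℕ) : BinaryTree ℕ → List ℕ
  | .nil => []
  | .node a l r => if x = a then [] else if x < a then ancs x l ++ [a] else ancs x r ++ [a]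

theorem ancs_length (x : ℕ) : ∀ t : BinaryTree ℕ, (ancs x t).length = depth x t
  | .nil => rfl
  | .node a l r => by
      simp only [ancs, depth]
      split_ifs
      · rfl
      · simp [ancs_length x l]
      · simp [ancs_length x r]

theorem mem_ancs {x v : ℕ} : ∀ {t : BinaryTree ℕ}, IsBST t → x ∈ inorder t →
    (v ∈ ancs x t ↔ OnP v x t ∧ v ≠ x)
  | .nil, _, h => by simp [inorder] at h
  | .node a l r, hb, h => by
      obtain ⟨hl, hr, hla, hra⟩ := bst_node.1 hb
      simp only [inorder, List.mem_append, List.mem_cons] at h
      simp only [ancs, OnP]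
      rcases h with h | h | h
      · have h1 := hla x h
        have h2 : x ≠ a := by omega
        have h3 : ¬ a < x := by omega
        simp only [h1, h2, h3, if_true, if_false, List.mem_append, List.mem_singleton,
          mem_ancs hl h, true_and, false_and, or_false]
        constructor
        · rintro (⟨h4, h5⟩ | h4)
          · exact ⟨Or.inr h4, h5⟩
          · exact ⟨Or.inl h4, by omega⟩
        · rintro ⟨h4 | h4, h5⟩
          · exact Or.inr h4
          · exact Or.inl ⟨h4, h5⟩
      · subst h
        simp only [if_true, List.not_mem_nil, lt_irrefl, false_and, or_false, false_iff]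
        tauto
      · have h1 := hra x h
        have h2 : x ≠ a := by omega
        have h3 : ¬ x < a := by omega
        simp only [h1, h2, h3, if_false, List.mem_append, List.mem_singleton,
          mem_ancs hr h, true_and, false_and, false_or]
        constructor
        · rintro (⟨h4, h5⟩ | h4)
          · exact ⟨Or.inr h4, h5⟩
          · exact ⟨Or.inl h4, by omega⟩
        · rintro ⟨h4 | h4, h5⟩
          · exact Or.inr h4
          · exact Or.inl ⟨h4, h5⟩

theorem ancs_pairwise {x : ℕ} : ∀ {t : BinaryTree ℕ}, IsBST t → x ∈ inorder t →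
    (ancs x t).Pairwise (fun v w => OnP w v t ∧ v ≠ w)
  | .nil, _, h => by simp [inorder] at h
  | .node a l r, hb, h => by
      obtain ⟨hl, hr, hla, hra⟩ := bst_node.1 hb
      simp only [inorder, List.mem_append, List.mem_cons] at h
      simp only [ancs]
      rcases h with h | h | h
      · have h1 := hla x h
        have h2 : x ≠ a := by omega
        simp only [h1, h2, if_true, if_false, List.pairwise_append, List.pairwise_cons,
          List.not_mem_nil, false_imp_iff, implies_true, List.Pairwise.nil, and_true,
          List.mem_singleton]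
        refine ⟨(ancs_pairwise hl h).imp_of_mem ?_, ?_⟩
        · intro v w hv hw hvw
          refine ⟨Or.inr (Or.inl ⟨?_, hvw.1⟩), hvw.2⟩
          exact hla v (onP_mem ((mem_ancs hl h).1 hv).1)
        · refine ⟨trivial, ?_⟩
          rintro v hv w rfl
          have := hla v (onP_mem ((mem_ancs hl h).1 hv).1)
          exact ⟨Or.inl rfl, by omega⟩
      · subst h
        simp
      · have h1 := hra x h
        have h2 : x ≠ a := by omega
        have h3 : ¬ x < a := by omega
        simp only [h2, h3, if_false, List.pairwise_append, List.pairwise_cons,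
          List.not_mem_nil, false_imp_iff, implies_true, List.Pairwise.nil, and_true,
          List.mem_singleton]
        refine ⟨(ancs_pairwise hr h).imp_of_mem ?_, ?_⟩
        · intro v w hv hw hvw
          refine ⟨Or.inr (Or.inr ⟨?_, hvw.1⟩), hvw.2⟩
          exact hra v (onP_mem ((mem_ancs hr h).1 hv).1)
        · refine ⟨trivial, ?_⟩
          rintro v hv w rfl
          have := hra v (onP_mem ((mem_ancs hr h).1 hv).1)
          exact ⟨Or.inl rfl, by omega⟩

theorem ancs_nodup {x : ℕ} {t : BinaryTree ℕ} (hb : IsBST t) (hm : x ∈ inorder t) :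
    (ancs x t).Nodup :=
  (ancs_pairwise hb hm).imp (fun h => h.2)

theorem ancs_of_at0 {x : ℕ} {t : BinaryTree ℕ} (h : At x 0 t) : ancs x t = [] := by
  cases t with
  | nil => simp [At] at h
  | node a l r =>
    simp only [At] at h
    simp [ancs, h]

theorem dbl_ancs {x p g : ℕ} {t t' : BinaryTree ℕ} (h : Dbl x p g t t') :
    ancs x t = p :: g :: ancs x t' := by
  induction h with
  | ll A B C D h1 h2 =>
    have e1 : x ≠ g := by omega
    have e2 : x ≠ p := by omega
    simp [ancs, e1, e2, h1, h2]
  | rr A B C D h1 h2 =>
    have e1 : x ≠ g := by omega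
    have e2 : x ≠ p := by omega
    have e3 : ¬ x < g := by omega
    have e4 : ¬ x < p := by omega
    simp [ancs, e1, e2, e3, e4]
  | lr A B C D h1 h2 =>
    have e1 : x ≠ g := by omega
    have e2 : x ≠ p := by omega
    have e4 : ¬ x < p := by omega
    simp [ancs, e1, e2, h2, e4]
  | rl A B C D h1 h2 =>
    have e1 : x ≠ g := by omega
    have e2 : x ≠ p := by omega
    have e3 : ¬ x < g := by omega
    simp [ancs, e1, e2, e3, h1]
  | inL a r h1 h2 ih =>
    have e1 : x ≠ a := by omega
    simp [ancs, e1, h1, ih]
  | inR a l h1 h2 ih =>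
    have e1 : x ≠ a := by omega
    have e2 : ¬ x < a := by omega
    simp [ancs, e1, e2, ih]

theorem zig_ancs {x y : ℕ} {t t' : BinaryTree ℕ} (h : Zig x y t t') : ancs x t = [y] := by
  cases h with
  | left A B C h1 =>
    have e1 : x ≠ y := by omega
    simp [ancs, e1, h1]
  | right A B C h1 =>
    have e1 : x ≠ y := by omega
    have e2 : ¬ x < y := by omega
    simp [ancs, e1, e2]

end Pool.Agent.MP_c42954_lc.Scan
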